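import Pool.Agent.SNT.St

/-!
# SNT, second part: cap 2 in ALL noncyclic groups, few members (MP_ec93d3_co)

Architect helper64.  Aim: `SNG.A1P G` for every noncyclic group (all ranks), from the sharp lower bound `PAG` for all groups.
Everything of the first part is in `Pool.Agent.SNT.All`.  DO NOT use the tactic `convert`.
-/

set_option autoImplicit false

noncomputable section

open Finset Pool.Agent.Helper64.Rho Pool.Agent.SDG Pool.Agent.MDR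
open scoped Classical Pointwise

namespace Pool.Agent.SNT

/-- **NBr** (1.2 h, from SDG.Nm1; compare Pool/Agent/SNT/NB.lean).  `|G| = l b`, `b` = exponent; `T` meets all cosets of every member; not near-full.
Proof.  `b (l - j) + 2 j ≤ X` and `b ≥ 3`.  `base := pq (t-1)`, `j ≤ pq t - 1 - base ≤ t - 1`, `l ≥ base + 2 - c(t-1)`, which is `m^2 - 2m + 3` for `t = 2m ≥ 8`, `m^2 - m + 3` for `t = 2m + 1 ≥ 9`; so `l > j` for `t ≥ 8`.  Then `3 (l - j) + 2 j ≤ X`,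
i.e. `3 l ≤ X + j ≤ c(t) + l - 2 + j`, `2 l ≤ c(t) + t - 3`: impossible for `t ≥ 12`.  The remaining `t` are finitely many (`l ≤ c(t)`, `X < pq t`, `b ≤ X` if `l > j`). (Checked by computer for `t ≤ 150`.) -/
def St_NBr : Prop :=
  ∀ t l b j X : ℕ, 3 ≤ t → 2 ≤ l → 3 ≤ b → l * b ≤ X + j * (b - 2) → X + jj t * (jj t - 1) + 1 ≤ l * b →
    j + pq (t - 1) = X → X + 1 ≤ pq t → X + 2 ≤ cf 2 t + l → pq (t - 1) + 2 ≤ cf 2 (t - 1) + l →
      (t = 4 ∧ l = 3 ∧ b = 4) ∨ (t = 5 ∧ l = 4 ∧ b = 5) ∨ (t = 5 ∧ l = 5 ∧ b = 4) ∨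
      (t = 5 ∧ l = 4 ∧ b = 6 ∧ X = 12 ∧ j = 3) ∨ (t = 5 ∧ l = 5 ∧ b = 5 ∧ X = 13 ∧ j = 4)

/-- **N4r** (3 h, from SDG.Nm1; compare Pool/Agent/SNT/N4.lean, which is the case `b' ≥ l'`).  The noncyclic quotient `K' = G / R` in all ranks: `k` members in `R`, `e` outside, `Y = |FS (ins s f R) f|`, `p = |T / R|`, `l' = l0 K'`,
`b' = exp K'`, `r = |R|`, `l = l0 G`.  Contradiction.  (Checked by computer for all `t ≤ 90`: no solution.)
Proof.  `base := pq (t-1)`, `j ≤ pq t - 1 - base ≤ t - 1` (for `t = 2m ≥ 8`: `base = 2m^2 - 2m + 2`, `j ≤ 2m - 1`, `l ≥ m^2 - 2m + 3` and `l ≥ X + 2 - c(t) = m^2 - 3m + 3 + j`; for `t = 2m + 1 ≥ 9`: `base = 2m^2 + 2`, `j ≤ 2m - 1`, `l ≥ m^2 - m + 3` and `l ≥ m^2 - 2m + 2 + j`).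
Small `t` (say `t < 60` or more) by a kernel computation, `t` large by estimates:
(1) `r (p - j) ≤ X - j Y = base - j (Y - 1)` if `p > j`, and `r l' ≥ l`; so `l (p - j) ≤ l' (base - j (Y-1))`.  (2) `p ≥ 2 e = 2 t - 2 k` (the other alternative `l' b' ≤ p + 1` gives `b' (p-j) l ≤ (p+1)(base - j (Y-1))`, `b' ≥ 3`: `3 (p-j) l ≤ (p+1)(base - j (Y-1))`, `p + 1 ≥ 2 e`: impossible).  `(k+1)^2 ≤ 4 Y ≤ 4 j`.
(3) `(1)` and `(2)`: `l' ≥ (2 t - 2 k - j) l / (base - j (Y-1))`, about `t / 2 - k`; `j' := j / Y`: for `Y ≥ 3` this is `> j'` by a positive fraction of `t`.  (4) if `l' > j'`: `b' (l' - j') ≤ p - 2 j'`.  (5) the cap: `p ≥ cf g e` with `g = 2 h ≥ b' - 2`, about `e^2 / (2 g) + e / 2`.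
From (1) `p ≤ j + l' (base - j (Y-1)) / l`, about `j + 2 l'`; `3 (l' - j') ≤ p - 2 j'` gives `l' ≤ 3 t / 2` about; (4) bounds `b'` by about `2 + t / (l' - j')` and (5) is a contradiction, except for `Y = 2`, `k = 1` and `l' - j'` at most 3.  In this case (`t = 2m`, `j = 2m - 1`, `j' = m - 1`) (1), (2) give `l' ≥ m + 1`; `l' = m + 1`:
`r ≥ l / l' ≥ (m^2 - m + 2) / (m + 1) > m - 2`, so `r ≥ m - 1` and `r (p - j) ≥ (m - 1)(2m - 1) > base - j`; `l' = m + 2`: `r ≥ m - 2`, `p ≤ 4m - 1`, `b' ≤ (2m+1)/3`, (5) is a contradiction; `l' ≥ m + 3`: (4), (5).  Odd `t` and smaller `j` are similar. -/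
def St_N4r : Prop :=
  ∀ t l k e j Y l' b' p r X : ℕ, 3 ≤ t → k + e = t → 1 ≤ k → 3 ≤ e → Y ≤ j → cf 2 k ≤ Y → (k = 1 → Y = 2) → 2 ≤ l' → 3 ≤ b' →
    2 * l' ≤ p → (2 * e ≤ p ∨ l' * b' ≤ p + 1) → p + 1 ≤ l' * b' → l' * b' ≤ p + j / Y * (b' - 2) →
    (∀ h, 1 ≤ h → b' ≤ 2 * h + 2 → cf (2 * h) e ≤ p) → Y + 1 ≤ r → r * p + j * Y ≤ X + j * r → p * Y ≤ X →
    l ≤ r * l' → j + pq (t - 1) = X → X + 1 ≤ pq t → X + 2 ≤ cf 2 t + l → pq (t - 1) + 2 ≤ cf 2 (t - 1) + l → False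

/-- **Nf2** (1 h, from Rs, SDG.Ba1; compare Pool/Agent/SNT/Nf.lean).  A full row.  `i ∈ s`, `w = f i`, `w ∉ C`, `2 w ∈ C`, the row `c0 = x + C` is contained in `T`.
Proof.  `T = T' ∪ (T' + w)`, `T' = FS (s.erase i) f`: every `y ∈ c0` is in `T'`, then `y + w ∈ T`, or `y - w ∈ T' ⊆ T`; both are in the row `c0 + w = c0 - w`.  So `|C| ≤ 2 |T_{c0+w}|`.  This row is not `c0`; the row `c0` has `|C|` elements and the other
`N - 2` rows have at least `Y` elements each (Rs (3)).  So `2 |T| ≥ 2 |C| + |C| + 2 (N - 2) Y`. -/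
def St_Nf2 : Prop :=
  ∀ (G ι : Type) [AddCommGroup G] [Finite G] (s : Finset ι) (f : ι → G) (C : AddSubgroup G) (i : ι) (x : G), i ∈ s → f i ∉ C →
    f i + f i ∈ C → (∀ g ∈ C, x + g ∈ FS s f) →
      3 * Nat.card C + 2 * (((qs (FS s f) C).card - 2) * (FS (ins s f C) f).card) ≤ 2 * (FS s f).card

end Pool.Agent.SNT
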