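import Pool.Agent.SNT.A1
import Pool.Agent.SNT.St2

/-!
# SNT, module A1r (helper64): assembly of `A1P` for all noncyclic groups
-/

set_option autoImplicit false

noncomputable section

open Finset Pool.Agent.Helper64.Rho Pool.Agent.SDG Pool.Agent.MDR Pool.Agent.SNW Pool.Agent.SNG
open scoped Classical Pointwise

namespace Pool.Agent.SNT

/-- a prime divisor of the order divides the exponent -/
theorem Ar_prime (G : Type) [AddCommGroup G] [Finite G] (q : ℕ) (hq : q.Prime) (h : q ∣ Nat.card G) :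
    q ∣ AddMonoid.exponent G := by
  have : Fact q.Prime := ⟨hq⟩
  obtain ⟨x, hx⟩ := exists_prime_addOrderOf_dvd_card' q h
  rw [← hx]
  exact AddMonoid.addOrder_dvd_exponent x

/-- the order of a member is at least three -/
theorem Ar_three {G ι : Type} [AddCommGroup G] [Finite G] (s : Finset ι) (f : ι → G)
    (hA : Aper (FS s f)) (i : ι) (hi : i ∈ s) (h0 : f i ≠ 0) : 3 ≤ addOrderOf (f i) := by
  have h1 : f i ≠ - f i := (all_Ba1 G ι f).2.2.2.2.1 s i hi hA h0
  have h2 : 0 < addOrderOf (f i) := addOrderOf_pos (f i)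
  by_contra hcon
  have h3 : addOrderOf (f i) = 1 ∨ addOrderOf (f i) = 2 := by omega
  rcases h3 with h3 | h3
  · rw [AddMonoid.addOrderOf_eq_one_iff] at h3
    exact h0 h3
  · apply h1
    rw [eq_neg_iff_add_eq_zero, ← two_nsmul, ← h3]
    exact addOrderOf_nsmul_eq_zero (f i)

/-- `T + ⟨z⟩` is everything for every member `z`, all ranks -/
theorem Ar_bot (hNB : St_NBr) (hPn : St_Pn) (hE6 : St_E6) (hNf2 : St_Nf2)
    {G ι : Type} [AddCommGroup G] [Finite G] {s : Finset ι} {f : ι → G} {j : ℕ}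
    (hx : Cx s f j) (hR : ∀ i ∈ s, ∀ g : G, ∃ a ∈ FS s f, g - a ∈ AddSubgroup.zmultiples (f i)) : False := by
  obtain ⟨h0, hcap, hA, hg, hge, hcyc, h3, hj, hlam, hX1, hX2, hl, hnf⟩ := hx
  have hLg' : ∀ i ∈ s, gen (ins s f (AddSubgroup.zmultiples (f i))) f =
        AddSubgroup.zmultiples (f i) := by
    intro i hi
    refine le_antisymm (P1_gen_le _ _ _) ?_
    rw [AddSubgroup.zmultiples_le]
    exact P1_mem_gen (mem_filter.2 ⟨hi, AddSubgroup.mem_zmultiples _⟩)
  -- the group generated by one member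
  have key : ∀ i ∈ s, Nat.card G ≤ (FS s f).card +
      j * (addOrderOf (f i) - (FS (ins s f (AddSubgroup.zmultiples (f i))) f).card) := by
    intro i hi
    obtain ⟨h1, -⟩ := all_Pc G ι s f (AddSubgroup.zmultiples (f i)) j h0 hA (hLg' i hi)
      (fun k hk _ => hlam k hk)
    have h4 : (st (FS s f) (AddSubgroup.zmultiples (f i))).card = Nat.card G := by
      have := Fintype.ofFinite G
      rw [Nat.card_eq_fintype_card, ← Finset.card_univ]
      congr 1
      rw [Finset.eq_univ_iff_forall]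
      intro g
      exact P1_mem_st.2 (hR i hi g)
    rw [h4, Nat.card_zmultiples] at h1
    exact h1
  have hY : ∀ i ∈ s, (ins s f (AddSubgroup.zmultiples (f i))).card + 1 ≤
      (FS (ins s f (AddSubgroup.zmultiples (f i))) f).card := by
    intro i hi
    exact (all_Sm G ι _ f (fun k hk => h0 k (filter_subset _ _ hk))
      ((all_Ba1 G ι f).2.1 s _ (filter_subset _ _) hA)).1
  have hins : ∀ i ∈ s, i ∈ ins s f (AddSubgroup.zmultiples (f i)) := fun i hi =>
    mem_filter.2 ⟨hi, AddSubgroup.mem_zmultiples _⟩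
  have hqs : ∀ k ∈ s, (qs (FS s f) (AddSubgroup.zmultiples (f k))).card =
      Nat.card (G ⧸ AddSubgroup.zmultiples (f k)) := by
    intro k hk
    have := Fintype.ofFinite (G ⧸ AddSubgroup.zmultiples (f k))
    rw [Nat.card_eq_fintype_card, ← Finset.card_univ]
    congr 1
    rw [Finset.eq_univ_iff_forall]
    intro c
    obtain ⟨g, rfl⟩ := QuotientAddGroup.mk_surjective c
    obtain ⟨a, ha, hga⟩ := hR k hk g
    refine mem_image.2 ⟨a, ha, ?_⟩
    rw [QuotientAddGroup.eq]
    have : -a + g = g - a := by abel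
    rw [this]
    exact hga
  -- number of partial rows
  have hpar : ∀ k ∈ s, ((qs (FS s f) (AddSubgroup.zmultiples (f k))).filter fun c =>
      Prt (FS s f) (AddSubgroup.zmultiples (f k)) c).card ≤ j := by
    intro k hk
    have h10 := hPn G ι s f (AddSubgroup.zmultiples (f k)) j h0 hA (hLg' k hk) (fun m hm _ => hlam m hm)
    have h12 : 1 ≤ (ins s f (AddSubgroup.zmultiples (f k))).card := card_pos.2 ⟨k, hins k hk⟩
    exact Nat.le_of_mul_le_mul_left (le_trans (Nat.le_add_right _ _) h10) h12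
  obtain ⟨i, hi⟩ : s.Nonempty := by
    rw [← card_pos]
    omega
  have hexp : ∀ k : ι, addOrderOf (f k) ≤ AddMonoid.exponent G := fun k =>
    Nat.le_of_dvd (exp_pos G) (AddMonoid.addOrder_dvd_exponent _)
  have hb3 : 3 ≤ AddMonoid.exponent G := (Ar_three s f hA i hi (h0 i hi)).trans (hexp i)
  have hlm := l0_mul G
  have h1 : l0 G * AddMonoid.exponent G ≤ (FS s f).card + j * (AddMonoid.exponent G - 2) := by
    rw [hlm]
    refine (key i hi).trans (Nat.add_le_add_left (Nat.mul_le_mul_left _ ?_) _)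
    have h2 := hY i hi
    have h4 : 1 ≤ (ins s f (AddSubgroup.zmultiples (f i))).card := card_pos.2 ⟨i, hins i hi⟩
    have h5 := hexp i
    omega
  rw [← hlm] at hnf
  rcases hNB s.card (l0 G) (AddMonoid.exponent G) j (FS s f).card h3
    (A1_l0_two G hcyc) hb3 h1 hnf hj hX1 hX2 hl with ⟨-, h6, h7⟩ | ⟨-, h6, h7⟩ | ⟨-, h6, h7⟩ |
      ⟨h5, h6, h7, h8, h9⟩ | ⟨h5, h6, h7, h8, h9⟩
  · have h4 := Ar_prime G 3 (by norm_num) (by rw [← hlm, h6, h7]; norm_num)
    rw [h7] at h4
    norm_num at h4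
  · have h4 := Ar_prime G 2 (by norm_num) (by rw [← hlm, h6, h7]; norm_num)
    rw [h7] at h4
    norm_num at h4
  · have h4 := Ar_prime G 5 (by norm_num) (by rw [← hlm, h6, h7]; norm_num)
    rw [h7] at h4
    norm_num at h4
  · -- order 24, exponent 6
    rw [h6, h7] at hlm
    have hord : addOrderOf (f i) = 6 ∧
        (FS (ins s f (AddSubgroup.zmultiples (f i))) f).card = 2 := by
      have h10 := key i hi
      have h11 := hY i hi
      have h12 : 1 ≤ (ins s f (AddSubgroup.zmultiples (f i))).card := card_pos.2 ⟨i, hins i hi⟩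
      have h13 := hexp i
      rw [h8, h9, ← hlm] at h10
      rw [h7] at h13
      omega
    obtain ⟨ho, hY2⟩ := hord
    have hcC : Nat.card (AddSubgroup.zmultiples (f i)) = 6 := by rw [Nat.card_zmultiples, ho]
    have hq4 : Nat.card (G ⧸ AddSubgroup.zmultiples (f i)) = 4 := by
      have h10 := AddSubgroup.card_eq_card_quotient_mul_card_addSubgroup (AddSubgroup.zmultiples (f i))
      rw [hcC, ← hlm] at h10
      omega
    obtain ⟨c, hc, hcf⟩ : ∃ c ∈ qs (FS s f) (AddSubgroup.zmultiples (f i)),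
        ¬ Prt (FS s f) (AddSubgroup.zmultiples (f i)) c := by
      by_contra hcon
      push Not at hcon
      have h10 := hpar i hi
      rw [Finset.filter_true_of_mem hcon, hqs i hi, hq4] at h10
      omega
    obtain ⟨x, hx, rfl⟩ := mem_image.1 hc
    have hfull : ∀ g ∈ AddSubgroup.zmultiples (f i), x + g ∈ FS s f := by
      intro g hg2
      by_contra hn
      apply hcf
      refine ⟨x + g, ?_, hn⟩
      rw [QuotientAddGroup.eq]
      have : -(x + g) + x = -g := by abel
      rw [this]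
      exact (AddSubgroup.zmultiples (f i)).neg_mem hg2
    obtain ⟨k, hk, hkC⟩ : ∃ k ∈ s, f k ∉ AddSubgroup.zmultiples (f i) := by
      by_contra hcon
      push Not at hcon
      have h10 : gen s f ≤ AddSubgroup.zmultiples (f i) := by
        unfold gen
        rw [AddSubgroup.closure_le]
        rintro _ ⟨k, hk, rfl⟩
        exact hcon k (mem_coe.1 hk)
      rw [hg] at h10
      have h11 : AddSubgroup.zmultiples (f i) = ⊤ := top_le_iff.1 h10
      rw [h11, AddSubgroup.card_top] at hcC
      omega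
    have hkk : f k + f k ∈ AddSubgroup.zmultiples (f i) := by
      rw [← QuotientAddGroup.eq_zero_iff (N := AddSubgroup.zmultiples (f i)), ← two_nsmul,
        QuotientAddGroup.mk_nsmul]
      have h10 : addOrderOf (QuotientAddGroup.mk (f k) : G ⧸ AddSubgroup.zmultiples (f i)) ∣ 4 := by
        rw [← hq4]
        exact addOrderOf_dvd_natCard _
      have h11 : addOrderOf (QuotientAddGroup.mk (f k) : G ⧸ AddSubgroup.zmultiples (f i)) ∣ 6 := by
        apply addOrderOf_dvd_of_nsmul_eq_zero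
        rw [← QuotientAddGroup.mk_nsmul, ← h7, AddMonoid.exponent_nsmul_eq_zero]
        rfl
      have h12 := Nat.dvd_gcd h10 h11
      rw [show Nat.gcd 4 6 = 2 by norm_num] at h12
      exact addOrderOf_dvd_iff_nsmul_eq_zero.1 h12
    have h10 := hNf2 G ι s f (AddSubgroup.zmultiples (f i)) k x hk hkC hkk hfull
    rw [hqs i hi, hq4, hcC, hY2, h8] at h10
    omega
  · rw [h6, h7] at hlm
    -- every member has order five, and is alone
    have hord : ∀ k ∈ s, addOrderOf (f k) = 5 := by
      intro k hk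
      have h10 : addOrderOf (f k) ∣ 5 := by
        rw [← h7]
        exact AddMonoid.addOrder_dvd_exponent _
      rcases (Nat.dvd_prime Nat.prime_five).1 h10 with h11 | h11
      · rw [AddMonoid.addOrderOf_eq_one_iff] at h11
        exact absurd h11 (h0 k hk)
      · exact h11
    have halone : ∀ k ∈ s, (ins s f (AddSubgroup.zmultiples (f k))).card = 1 := by
      intro k hk
      have h10 := key k hk
      have h11 := hY k hk
      have h12 : 1 ≤ (ins s f (AddSubgroup.zmultiples (f k))).card := card_pos.2 ⟨k, hins k hk⟩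
      rw [hord k hk, h8, h9] at h10
      omega
    have h14 := hE6 G ι (FS s f) s f (by omega) hord ?_ ?_
    · omega
    · intro k hk m hm hkm hmem
      have h10 : ({k, m} : Finset ι) ⊆ ins s f (AddSubgroup.zmultiples (f k)) := by
        intro x hx
        rw [mem_insert, mem_singleton] at hx
        rcases hx with rfl | rfl
        · exact hins _ hk
        · exact mem_filter.2 ⟨hm, hmem⟩
      have h11 := card_le_card h10
      rw [card_pair hkm, halone k hk] at h11
      omega
    · intro k hk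
      by_contra hcon
      push Not at hcon
      have h10 := hpar k hk
      have h12 : ((qs (FS s f) (AddSubgroup.zmultiples (f k))).filter fun c =>
          Prt (FS s f) (AddSubgroup.zmultiples (f k)) c) = qs (FS s f) (AddSubgroup.zmultiples (f k)) := by
        rw [Finset.filter_eq_self]
        intro c hc
        obtain ⟨x, hx, rfl⟩ := mem_image.1 hc
        obtain ⟨g, hg1, hg2⟩ := hcon x
        refine ⟨x + g, ?_, hg2⟩
        rw [QuotientAddGroup.eq]
        have : -(x + g) + x = -g := by abel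
        rw [this]
        exact (AddSubgroup.zmultiples (f k)).neg_mem hg1
      rw [h12, hqs k hk] at h10
      have h15 : Nat.card (AddSubgroup.zmultiples (f k)) = 5 := by
        rw [Nat.card_zmultiples]
        exact hord k hk
      have h16 := AddSubgroup.card_eq_card_quotient_mul_card_addSubgroup (AddSubgroup.zmultiples (f k))
      rw [h15, ← hlm] at h16
      omega

/-- the cap in an aperiodic family is less than the exponent -/
theorem Ar_cap {G ι : Type} [AddCommGroup G] [Finite G] (s : Finset ι) (f : ι → G)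
    (h0 : ∀ i ∈ s, f i ≠ 0) (hA : Aper (FS s f)) (h : ℕ) (hb : AddMonoid.exponent G ≤ h + 2) :
    Cap h s f := by
  intro x
  obtain ⟨o, ho⟩ : ∃ o, o = s.filter fun i => f i = x ∨ f i = -x := ⟨_, rfl⟩
  rw [← ho]
  rcases o.eq_empty_or_nonempty with h1 | ⟨k, hk⟩
  · rw [h1, card_empty]
    exact Nat.zero_le _
  · have hos : o ⊆ s := by
      rw [ho]
      exact filter_subset _ _
    have hAo := (all_Ba1 G ι f).2.1 s o hos hA
    have hmem : ∀ i ∈ o, f i ∈ AddSubgroup.zmultiples x := by
      intro i hi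
      rw [ho, mem_filter] at hi
      rcases hi.2 with h2 | h2
      · rw [h2]
        exact AddSubgroup.mem_zmultiples x
      · rw [h2]
        exact (AddSubgroup.zmultiples x).neg_mem (AddSubgroup.mem_zmultiples x)
    have hx0 : AddSubgroup.zmultiples x ≠ ⊥ := by
      intro h2
      have h3 := hmem k hk
      rw [h2, AddSubgroup.mem_bot] at h3
      exact h0 k (hos hk) h3
    have h4 := (all_Sm G ι o f (fun i hi => h0 i (hos hi)) hAo).1
    have h5 := (all_Kn G).2.2.2 (FS o f) _ ⟨0, zero_mem_FS _ _⟩ hx0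
      (fun y hy => FS_subset_of_mem hmem hy) hAo
    rw [Nat.card_zmultiples] at h5
    have h6 : addOrderOf x ≤ AddMonoid.exponent G :=
      Nat.le_of_dvd (exp_pos G) (AddMonoid.addOrder_dvd_exponent x)
    omega

/-- the noncyclic quotient of a maximal candidate, all ranks -/
theorem Ar_beta (hN4 : St_N4r) (hPAall : ∀ (K : Type) [AddCommGroup K] [Finite K], PA K)
    {G ι : Type} [AddCommGroup G] [Finite G] {s : Finset ι} {f : ι → G} {j : ℕ} 
    (hx : Cx s f j) {R : AddSubgroup G} (hC : Cd s f R) (hbot : R ≠ ⊥)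
    {H : Type} [AddCommGroup H] [Finite H] {π : G →+ H} (hπs : Function.Surjective π)
    (hπk : ∀ x, π x = 0 ↔ x ∈ R) (hπc : Nat.card G = Nat.card R * Nat.card H)
    (hHc : ¬ IsAddCyclic H)
    (hR : ∀ i ∈ s, f i ∉ R → ∀ g : G,
      ∃ a ∈ FS s f, g - a ∈ gen (insert i (s.filter fun k => f k ∈ R)) f) : False := by
  obtain ⟨h0, hcap, hA, hg, hge, hcyc, h3, hj, hlam, hX1, hX2, hl, hnf⟩ := hx
  obtain ⟨d1, d2, d3, d4, d5⟩ := Cd_data hπs hπk hC h0 hA j hlam
  obtain ⟨d6, d7⟩ := d5 hbot
  have hu := two_le_card hC.1 hge hg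
  obtain ⟨i, hi⟩ : (s.filter fun i => f i ∉ R).Nonempty := by
    rw [← card_pos]
    omega
  obtain ⟨his, hiR⟩ := mem_filter.1 hi
  have hfull := hR i his hiR
  have huv : (s.filter fun i => f i ∈ R).card + (s.filter fun i => f i ∉ R).card = s.card :=
    Finset.card_filter_add_card_filter_not (s := s) (fun i => f i ∈ R)
  have hsubR : (s.filter fun i => f i ∈ R) ⊆ s := filter_subset _ _
  have hAR : Aper (FS (s.filter fun i => f i ∈ R) f) := (all_Ba1 G ι f).2.1 _ _ hsubR hA
  have hYR : cf 2 (s.filter fun i => f i ∈ R).card ≤ (FS (s.filter fun i => f i ∈ R) f).card :=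
    hPAall G ι (s.filter fun i => f i ∈ R) f (fun k hk => h0 k (hsubR hk))
      (fun x => (card_le_card (filter_subset_filter _ hsubR)).trans (hcap x)) hAR
  have hqg : gen (s.filter fun i => f i ∉ R) (fun i => π (f i)) = ⊤ := q_gen s f hπs hπk hg
  have hqn := q_ne s f hπk
  -- the names
  obtain ⟨u, hu'⟩ : ∃ u, u = (s.filter fun i => f i ∉ R).card := ⟨_, rfl⟩
  obtain ⟨v, hv'⟩ : ∃ v, v = (s.filter fun i => f i ∈ R).card := ⟨_, rfl⟩
  obtain ⟨Y, hY'⟩ : ∃ Y, Y = (FS (s.filter fun i => f i ∈ R) f).card := ⟨_, rfl⟩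
  obtain ⟨Q, hQ'⟩ : ∃ Q, Q = (FS (s.filter fun i => f i ∉ R) (fun i => π (f i))).card :=
    ⟨_, rfl⟩
  obtain ⟨r, hr'⟩ : ∃ r, r = Nat.card R := ⟨_, rfl⟩
  have hu3 : 3 ≤ u := by
    by_contra hcon
    apply hHc
    have h1 := q_gen (s.erase i) f hπs hπk (hge i his)
    refine one_member_cyc _ _ ?_ h1
    have h2 : ((s.erase i).filter fun k => f k ∉ R) = (s.filter fun k => f k ∉ R).erase i := by
      ext k
      simp only [mem_filter, mem_erase]
      tauto
    rw [h2, card_erase_of_mem hi]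
    omega
  have hL2 := thm_Lin _ H ι (s.filter fun i => f i ∉ R) (fun i => π (f i)) rfl hqn d1 hqg hHc
  have hQH : (FS (s.filter fun i => f i ∉ R) (fun i => π (f i))).card + 1 ≤ Nat.card H := by
    have hHb : (⊤ : AddSubgroup H) ≠ ⊥ := by
      intro hb
      apply hC.1
      rw [eq_top_iff]
      intro x _
      rw [← hπk]
      have h6 : π x ∈ (⊤ : AddSubgroup H) := AddSubgroup.mem_top _
      rwa [hb, AddSubgroup.mem_bot] at h6
    have h7 := (all_Kn H).2.2.2 (FS (s.filter fun i => f i ∉ R) (fun i => π (f i))) ⊤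
      ⟨0, zero_mem_FS _ _⟩ hHb (fun x _ => AddSubgroup.mem_top _) d1
    rwa [AddSubgroup.card_top] at h7
  have hcapH : ∀ h, 1 ≤ h → AddMonoid.exponent H ≤ 2 * h + 2 →
      cf (2 * h) (s.filter fun i => f i ∉ R).card ≤
        (FS (s.filter fun i => f i ∉ R) (fun i => π (f i))).card := by
    intro h hh hb
    have hcp := Ar_cap (s.filter fun i => f i ∉ R) (fun i => π (f i)) hqn d1 (2 * h) hb
    rcases Nat.lt_or_ge h 2 with h2 | h2
    · have h4 : h = 1 := by omega
      subst h4
      exact hPAall H ι (s.filter fun i => f i ∉ R) (fun i => π (f i)) hqn hcp d1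
    · exact (all_main _).2 h h2 H ι (s.filter fun i => f i ∉ R) (fun i => π (f i)) rfl hqn hcp d1
  have hv1 : v = 1 → Y = 2 := by
    intro hv
    have h1 := card_FS_le (s.filter fun i => f i ∈ R) f
    rw [← hY', ← hv', hv] at h1
    rw [← hv', ← hY', hv] at d4
    omega
  rw [← hY', ← hQ', ← hr'] at d2
  rw [← hY', ← hQ'] at d3
  rw [← hv', ← hY'] at d4
  rw [← hv'] at d6
  rw [← hY', ← hr'] at d7
  rw [← hu'] at hu
  rw [← hu', ← hv'] at huv
  rw [← hv', ← hY'] at hYR
  rw [← hr'] at hπc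
  rw [← hu', ← hQ'] at hL2
  rw [← hQ'] at hQH
  rw [← hu', ← hQ'] at hcapH
  -- the quotient
  have hYpos : 0 < Y := by omega
  have hlam' : ∀ k ∈ s.filter (fun i => f i ∉ R),
      lam (FS (s.filter fun i => f i ∉ R) (fun i => π (f i))) (π (f k)) ≤ j / Y := by
    intro k hk
    rw [Nat.le_div_iff_mul_le hYpos, hY']
    exact (q_lam s f hπk (f k)).trans (hlam k (mem_filter.1 hk).1)
  have hL'g : gen ((s.filter fun i => f i ∉ R).filter fun k =>
      π (f k) ∈ AddSubgroup.zmultiples (π (f i))) (fun i => π (f i)) =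
      AddSubgroup.zmultiples (π (f i)) := by
    refine le_antisymm (P1_gen_le _ _ _) ?_
    rw [AddSubgroup.zmultiples_le]
    exact P1_mem_gen (f := fun i => π (f i))
      (mem_filter.2 ⟨hi, AddSubgroup.mem_zmultiples _⟩)
  obtain ⟨hp1, hp2⟩ := all_Pc H ι (s.filter fun i => f i ∉ R) (fun i => π (f i))
    (AddSubgroup.zmultiples (π (f i))) (j / Y) hqn d1 hL'g
    (fun k hk _ => hlam' k hk)
  have hst : (st (FS (s.filter fun i => f i ∉ R) (fun i => π (f i)))
      (AddSubgroup.zmultiples (π (f i)))).card = Nat.card H := by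
    have := Fintype.ofFinite H
    rw [Nat.card_eq_fintype_card, ← Finset.card_univ]
    congr 1
    rw [Finset.eq_univ_iff_forall]
    intro y
    obtain ⟨g, rfl⟩ := hπs y
    obtain ⟨b, hb, hgb⟩ := hfull g
    refine P1_mem_st.2 ⟨π b, ?_, ?_⟩
    · rw [q_image s f hπk]
      exact mem_image_of_mem π hb
    · rw [← map_sub]
      have h1 : gen (insert i (s.filter fun k => f k ∈ R)) f ≤
          (AddSubgroup.zmultiples (π (f i))).comap π := by
        unfold gen
        rw [AddSubgroup.closure_le]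
        rintro _ ⟨k, hk, rfl⟩
        rw [mem_coe, mem_insert, mem_filter] at hk
        rw [SetLike.mem_coe, AddSubgroup.mem_comap]
        rcases hk with rfl | ⟨-, hk⟩
        · exact AddSubgroup.mem_zmultiples _
        · rw [(hπk _).2 hk]
          exact AddSubgroup.zero_mem _
      exact h1 hgb
  rw [hst, ← hQ'] at hp1 hp2
  -- `lam ≥ 1`
  have hsub' : ((s.filter fun i => f i ∉ R).filter fun k =>
      π (f k) ∈ AddSubgroup.zmultiples (π (f i))) ⊆ s.filter fun i => f i ∉ R :=
    filter_subset _ _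
  have hA' := (all_Ba1 H ι (fun i => π (f i))).2.1 _ _ hsub' d1
  obtain ⟨Y', hY''⟩ : ∃ Y', Y' = (FS ((s.filter fun i => f i ∉ R).filter fun k =>
      π (f k) ∈ AddSubgroup.zmultiples (π (f i))) (fun i => π (f i))).card := ⟨_, rfl⟩
  have hY2 : 2 ≤ Y' := by
    have h7 := (all_Sm H ι _ (fun i => π (f i)) (fun k hk => hqn k (hsub' hk)) hA').1
    have h8 : 1 ≤ ((s.filter fun i => f i ∉ R).filter fun k =>
      π (f k) ∈ AddSubgroup.zmultiples (π (f i))).card :=
      card_pos.2 ⟨i, mem_filter.2 ⟨hi, AddSubgroup.mem_zmultiples _⟩⟩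
    rw [hY'']
    omega
  rw [← hY''] at hp1 hp2
  have hYj : Y ≤ j := by
    by_contra hcon
    have h1 : j / Y = 0 := Nat.div_eq_of_lt (by omega)
    have h2 := hlam' i hi
    rw [h1] at h2
    apply hqn i hi
    apply d1
    intro x hx
    by_contra hx2
    have h4 : 0 < lam (FS (s.filter fun i => f i ∉ R) (fun i => π (f i))) (π (f i)) := by
      unfold lam
      exact card_pos.2 ⟨x, mem_filter.2 ⟨hx, hx2⟩⟩
    omega
  have hμb : Nat.card (AddSubgroup.zmultiples (π (f i))) ≤ AddMonoid.exponent H := by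
    rw [Nat.card_zmultiples]
    exact Nat.le_of_dvd (exp_pos H) (AddMonoid.addOrder_dvd_exponent _)
  have hHm := l0_mul H
  have hb3 : 3 ≤ AddMonoid.exponent H :=
    (Ar_three (s.filter fun i => f i ∉ R) (fun i => π (f i)) d1 i hi (hqn i hi)).trans
      (Nat.le_of_dvd (exp_pos H) (AddMonoid.addOrder_dvd_exponent _))
  have h2l : 2 * l0 H ≤ Q := by
    rw [← hHm] at hp2
    have h9 : l0 H * AddMonoid.exponent H * 2 ≤ AddMonoid.exponent H * Q :=
      (Nat.mul_le_mul_left _ hY2).trans (hp2.trans (Nat.mul_le_mul_right _ hμb))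
    refine Nat.le_of_mul_le_mul_left ?_ (exp_pos H)
    refine le_trans (le_of_eq ?_) h9
    ring
  have hf : l0 H * AddMonoid.exponent H ≤ Q + j / Y * (AddMonoid.exponent H - 2) := by
    rw [hHm]
    exact hp1.trans (Nat.add_le_add_left (Nat.mul_le_mul_left _ (by omega)) _)
  have hll : l0 G ≤ r * l0 H := by
    apply l0_le
    rw [hπc, ← hHm, ← mul_assoc]
    exact Nat.mul_le_mul_left _ (Nat.le_of_dvd (exp_pos G) (AddMonoidHom.exponent_dvd hπs))
  rw [← hHm] at hL2 hQH
  refine hN4 s.card (l0 G) v u j Y (l0 H) (AddMonoid.exponent H) Q r (FS s f).card h3 huv d6 hu3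
    hYj hYR hv1 (A1_l0_two H hHc) hb3 h2l hL2 hQH hf hcapH d7 ?_ d3 hll hj hX1 hX2 hl
  have h1 : j * (r - Y) + j * Y = j * r := by
    rw [← Nat.mul_add, Nat.sub_add_cancel (by omega)]
  omega

/-- **A1P** for all noncyclic groups, from the modules -/
theorem Ar_main (hT1 : St_T1) (hRs : St_Rs) (hNf : St_Nf) (hNI : St_NI) (hNII : St_NII)
    (hE5 : St_E5) (hNB : St_NBr) (hPn : St_Pn) (hE6 : St_E6) (hN4 : St_N4r) (hNf2 : St_Nf2) (hPAall : ∀ (K : Type) [AddCommGroup K] [Finite K], PA K)
    (G : Type) [AddCommGroup G] [Finite G] (hcyc : ¬ IsAddCyclic G) (t : ℕ) : ∀ (ι : Type) (s : Finset ι) (f : ι → G),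
    s.card = t → (∀ i ∈ s, f i ≠ 0) → Cap 2 s f → Aper (FS s f) →
    gen s f = ⊤ → pn (t - 1) + 2 ≤ cf 2 (t - 1) + l0 G →
      pn t ≤ (FS s f).card ∨ cf 2 t + l0 G ≤ (FS s f).card + 1 ∨
        Nat.card G ≤ (FS s f).card + jh 1 t * (jh 1 t - 1) := by
  induction t with
  | zero =>
    intro ι s f hs h0 hcap hA hg
    exact absurd (one_member_cyc s f (by omega) hg) hcyc
  | succ t ih =>
  intro ι s f hs h0 hcap hA hg hl
  rw [Nat.add_sub_cancel] at hl
  by_contra hcon
  push Not at hcon
  obtain ⟨hc1, hc2, hc3⟩ := hcon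
  have hbt : (⊥ : AddSubgroup G) ≠ ⊤ := by
    intro hbt
    apply hcyc
    apply cyc_of_le (0 : G)
    rw [← hbt]
    exact bot_le
  have hcard : ∀ i ∈ s, (s.erase i).card = t := by
    intro i hi
    rw [card_erase_of_mem hi, hs, Nat.add_sub_cancel]
  have hAe : ∀ i, Aper (FS (s.erase i) f) := fun i =>
    (all_Ba1 G ι f).2.1 s (s.erase i) (erase_subset _ _) hA
  have h0e : ∀ i, ∀ k ∈ s.erase i, f k ≠ 0 := fun i k hk => h0 k (erase_subset _ _ hk)
  have hce : ∀ i, Cap 2 (s.erase i) f := fun i x =>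
    (card_le_card (filter_subset_filter _ (erase_subset _ _))).trans (hcap x)
  have hge : ∀ i ∈ s, gen (s.erase i) f = ⊤ := by
    intro i hi
    rw [← hg]
    apply (all_Ba1 G ι f).2.2.2.2.2.1 s i hi
    by_contra hne
    have h3 := (all_Ba1 G ι f).2.2.2.1 s i hi hne
    have h4 := hPAall G ι (s.erase i) f (h0e i) (hce i) (hAe i)
    rw [hcard i hi] at h4
    have h5 := M1_pn (t + 1)
    rw [Nat.add_sub_cancel] at h5
    omega
  have h2 := two_le_card hbt hge hg
  have h2' : 2 ≤ s.card := h2.trans (card_le_card (filter_subset _ _))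
  have h3 : 3 ≤ s.card := by
    by_contra hcon
    obtain ⟨i, hi⟩ : s.Nonempty := by
      rw [← card_pos]
      omega
    exact hcyc (one_member_cyc (s.erase i) f (by rw [hcard i hi]; omega) (hge i hi))
  have hmono : ∀ i, (FS (s.erase i) f).card ≤ (FS s f).card := fun i =>
    card_le_card (FS_mono (erase_subset _ _) f)
  have hl' : pn (t - 1) + 2 ≤ cf 2 (t - 1) + l0 G := by
    have h4 := A1_mono (t + 1) (by omega)
    rw [Nat.add_sub_cancel] at h4
    have e : t + 1 - 2 = t - 1 := by omega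
    rw [e] at h4
    omega
  have hlow : ∀ i ∈ s, pn t ≤ (FS (s.erase i) f).card := by
    intro i hi
    rcases ih ι (s.erase i) f (hcard i hi) (h0e i) (hce i) (hAe i) (hge i hi) hl' with h5 | h5 | h5
    · exact h5
    · omega
    · exfalso
      have h6 := hmono i
      have h7 := A1_jmono t
      omega
  obtain ⟨j, hj⟩ : ∃ j, j + pn t = (FS s f).card := by
    obtain ⟨i, hi⟩ : s.Nonempty := by
      rw [← card_pos]
      omega
    have h5 := hlow i hi
    have h6 := hmono i
    exact ⟨(FS s f).card - pn t, by omega⟩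
  have hlam : ∀ i ∈ s, lam (FS s f) (f i) ≤ j := by
    intro i hi
    have h5 := (all_Ba1 G ι f).2.2.1 s i hi
    have h6 := hlow i hi
    omega
  have hx : Cx s f j := by
    refine ⟨h0, hcap, hA, hg, hge, hcyc, h3, ?_, hlam, ?_, ?_, ?_, ?_⟩
    · rw [hs, Nat.add_sub_cancel, A1_pq]
      exact hj
    · rw [hs, A1_pq]
      omega
    · rw [hs]
      omega
    · rw [hs, Nat.add_sub_cancel, A1_pq]
      exact hl
    · rw [hs, ← A1_jh]
      omega
  obtain ⟨R, hC, hR⟩ := max_cand h0 hA hbt
  by_cases hRc : IsAddCyclic (G ⧸ R)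
  · exact A1_I hT1 hRs hNf hNI hNII hE5 (hPAall G) hx hC hRc
  have hπs : Function.Surjective (QuotientAddGroup.mk' R) := QuotientAddGroup.mk'_surjective R
  by_cases hbot : R = ⊥
  · refine Ar_bot hNB hPn hE6 hNf2 hx ?_
    intro i hi g
    have hiR : f i ∉ R := by
      rw [hbot, AddSubgroup.mem_bot]
      exact h0 i hi
    obtain ⟨x, hx1, hx2⟩ := hR i hi hiR g
    refine ⟨x, hx1, ?_⟩
    have h4 : (s.filter fun k => f k ∈ R) = ∅ := by
      rw [Finset.filter_eq_empty_iff]
      intro k hk h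
      rw [hbot, AddSubgroup.mem_bot] at h
      exact h0 k hk h
    rw [h4] at hx2
    have h6 : gen (insert i ∅) f ≤ AddSubgroup.zmultiples (f i) := by
      unfold gen
      rw [AddSubgroup.closure_le]
      rintro _ ⟨k, hk, rfl⟩
      rw [mem_coe, mem_insert] at hk
      rcases hk with rfl | hk
      · exact AddSubgroup.mem_zmultiples _
      · exact absurd hk (notMem_empty _)
    exact h6 hx2
  · refine Ar_beta hN4 hPAall hx hC hbot (H := G ⧸ R) (π := QuotientAddGroup.mk' R) hπs
      (fun x => QuotientAddGroup.eq_zero_iff x) ?_ hRc hR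
    rw [AddSubgroup.card_eq_card_quotient_mul_card_addSubgroup R, mul_comm]

theorem thm_A1Pr (hT1 : St_T1) (hRs : St_Rs) (hNf : St_Nf) (hNI : St_NI) (hNII : St_NII)
    (hE5 : St_E5) (hNB : St_NBr) (hPn : St_Pn) (hE6 : St_E6) (hN4 : St_N4r) (hNf2 : St_Nf2) (hPAall : ∀ (K : Type) [AddCommGroup K] [Finite K], PA K)
    (G : Type) [AddCommGroup G] [Finite G] (hcyc : ¬ IsAddCyclic G) : A1P G := by
  intro ι s f h0 hcap hA hg hl
  exact Ar_main hT1 hRs hNf hNI hNII hE5 hNB hPn hE6 hN4 hNf2 hPAall G hcyc s.card ι s f rfl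
    h0 hcap hA hg hl

end Pool.Agent.SNT
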