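import Pool.Agent.SNT.St2

/-!
# SNT, module N4r: numbers, the noncyclic quotient in all ranks

`t < 50` by a kernel computation, `t ≥ 50` by estimates.
-/

set_option autoImplicit false

noncomputable section

open Finset Pool.Agent.Helper64.Rho Pool.Agent.SDG Pool.Agent.MDR
open scoped Classical Pointwise

namespace Pool.Agent.SNT

/-! ### The computation for `t < 50` -/

/-- `cf 2 t` for the kernel -/
def N4r_c (t : ℕ) : ℕ := 1 + (t + 1) * (t + 1) / 4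

/-- `pq t` for the kernel -/
def N4r_q (t : ℕ) : ℕ := cond (Nat.beq t 4) 9 (cond (Nat.beq t 6) 19 (2 + 2 * (t * t / 4)))

/-- `P + 1 - cf g e` for the kernel, `g` even -/
def N4r_f (g e P : ℕ) : ℕ :=
  Nat.sub P (Nat.mul (Nat.succ (Nat.div e g)) (Nat.add (Nat.mul (Nat.div g (nat_lit 2)) (Nat.div e g)) (Nat.mod e g)))

/-- minimum for the kernel -/
def N4r_n (a b : ℕ) : ℕ := Nat.sub a (Nat.sub a b)

/-- maximum for the kernel -/
def N4r_m (a b : ℕ) : ℕ := Nat.add a (Nat.sub b a)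

/-- zero if no exponent is at most `B` -/
def N4r_b (B e P : ℕ) : ℕ :=
  Nat.mul (Nat.sub B (nat_lit 2)) (N4r_f (Nat.mul (nat_lit 2) (Nat.div (Nat.sub B (nat_lit 1)) (nat_lit 2))) e P)

/-- zero if there is no solution with this `M` -/
def N4r_t (e u M P : ℕ) : ℕ :=
  Nat.mul (Nat.sub (Nat.succ P) (Nat.mul (nat_lit 2) M))
    (Nat.add (Nat.mul (Nat.sub (Nat.succ P) (Nat.mul (nat_lit 2) e))
      (Nat.add (Nat.sub (Nat.succ u) M) (N4r_b (Nat.div (Nat.sub P (Nat.mul (nat_lit 2) u)) (Nat.sub M u)) e P)))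
      (N4r_b (Nat.div (Nat.succ P) M) e P))

/-- the largest possible `p` for `M + 2` -/
def N4r_P (j D Z Y1 L M : ℕ) : ℕ :=
  N4r_n D (Nat.add j (Nat.div Z (N4r_m Y1 (Nat.div (Nat.add L (Nat.succ M)) (Nat.add M (nat_lit 2))))))

/-- zero if there is no solution with `2 ≤ M < n + 2` -/
def N4r_s (j e u D Z Y1 L n : ℕ) : ℕ :=
  Nat.rec (nat_lit 0) (fun M a => Nat.add a (N4r_t e u (Nat.add M (nat_lit 2)) (N4r_P j D Z Y1 L M))) n

/-- the largest possible `M` -/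
def N4r_M (Y j X Z L u : ℕ) : ℕ :=
  cond (Nat.ble (3 * L) Z) (X / (2 * Y)) (N4r_n (X / (2 * Y)) ((j + u) * L / (3 * L - Z)))

/-- the test for `Y`, `j`, `e`, `X`, `L` -/
def N4r_S (Y j e X L : ℕ) : Bool :=
  Nat.beq (N4r_s j e (j / Y) (X / Y) (X - j * Y) (Y + 1) L (N4r_M Y j X (X - j * Y) L (j / Y) - 1)) 0

/-- the test for `t`, `k`, `j` -/
def N4r_T (t k j : ℕ) : Bool :=
  cond (Nat.ble (N4r_c k) j) (cond (Nat.ble (N4r_q t) (j + N4r_q (t - 1))) true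
    (N4r_S (N4r_c k) j (t - k) (j + N4r_q (t - 1)) (N4r_m (N4r_q (t - 1) + 2 - N4r_c (t - 1))
      (j + N4r_q (t - 1) + 2 - N4r_c t)))) true

def N4r_A : Bool := (List.range 50).all fun t => (List.range (t - 2)).all fun k => cond (Nat.ble k 0) true
  ((List.range t).all fun j => N4r_T t k j)

private theorem N4r_A_true : N4r_A = true := by decide +kernel

private theorem N4r_ble {a b : ℕ} (h : ¬ a ≤ b) : Nat.ble a b = false := by
  rw [Bool.eq_false_iff]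
  intro hh
  exact h (Nat.le_of_ble_eq_true hh)

private theorem N4r_get (t k j : ℕ) (ht2 : t < 50) (hk : 1 ≤ k) (hkt : k + 3 ≤ t) (hj : j < t) (hYj : N4r_c k ≤ j)
    (hX : j + N4r_q (t - 1) < N4r_q t) :
    N4r_S (N4r_c k) j (t - k) (j + N4r_q (t - 1)) (N4r_m (N4r_q (t - 1) + 2 - N4r_c (t - 1))
      (j + N4r_q (t - 1) + 2 - N4r_c t)) = true := by
  have h := N4r_A_true
  unfold N4r_A at h
  rw [List.all_eq_true] at h
  have h1 := h t (List.mem_range.2 ht2)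
  rw [List.all_eq_true] at h1
  have h2 := h1 k (List.mem_range.2 (by omega))
  rw [N4r_ble (by omega), cond_false, List.all_eq_true] at h2
  have h3 := h2 j (List.mem_range.2 hj)
  unfold N4r_T at h3
  rwa [Nat.ble_eq_true_of_le hYj, cond_true, N4r_ble (by omega), cond_false] at h3

private theorem N4r_n_le {a b n : ℕ} (h1 : n ≤ a) (h2 : n ≤ b) : n ≤ N4r_n a b := by
  show n ≤ a - (a - b)
  omega

private theorem N4r_m_le {a b n : ℕ} (h1 : a ≤ n) (h2 : b ≤ n) : N4r_m a b ≤ n := by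
  show a + (b - a) ≤ n
  omega

private theorem N4r_le_m (a b : ℕ) : a ≤ N4r_m a b := by
  show a ≤ a + (b - a)
  omega

/-- the values of `cf` used in the tests -/
private theorem N4r_b_pos (B B' e p P : ℕ) (hB : 3 ≤ B) (hBB : B ≤ B')
    (h8 : ∀ h, 1 ≤ h → B ≤ 2 * h + 2 → 1 + (e / (2 * h) + 1) * (h * (e / (2 * h)) + e % (2 * h)) ≤ p) (hp : p ≤ P) :
    0 < N4r_b B' e P := by
  have h1 := h8 ((B' - 1) / 2) (by omega) (by omega)
  show 0 < (B' - 2) * (P - (e / (2 * ((B' - 1) / 2)) + 1) * (2 * ((B' - 1) / 2) / 2 * (e / (2 * ((B' - 1) / 2))) +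
    e % (2 * ((B' - 1) / 2))))
  rw [Nat.mul_div_cancel_left _ (by norm_num : 0 < 2)]
  exact Nat.mul_pos (by omega) (by omega)

private theorem N4r_s_zero (j e u D Z Y1 L : ℕ) : ∀ n : ℕ, N4r_s j e u D Z Y1 L n = 0 →
    ∀ M < n, N4r_t e u (M + 2) (N4r_P j D Z Y1 L M) = 0
  | 0, _, _, hM => absurd hM (Nat.not_lt_zero _)
  | n + 1, h, M, hM => by
    have h1 : N4r_s j e u D Z Y1 L n + N4r_t e u (n + 2) (N4r_P j D Z Y1 L n) = 0 := h
    rcases Nat.lt_succ_iff_lt_or_eq.1 hM with h2 | h2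
    · exact N4r_s_zero j e u D Z Y1 L n (by omega) M h2
    · subst h2; omega

/-- small `t` -/
private theorem N4r_small (t j k M B p r X l : ℕ) (ht : t < 50) (hk : 1 ≤ k) (hkt : k + 3 ≤ t) (hj : j < t)
    (hYj : N4r_c k ≤ j) (hX : j + N4r_q (t - 1) = X) (hX1 : X + 1 ≤ N4r_q t) (hM : 2 ≤ M) (hB : 3 ≤ B) (h2M : 2 * M ≤ p)
    (h5 : 2 * (t - k) ≤ p ∨ M * B ≤ p + 1) (h7 : M * B ≤ p + j / N4r_c k * (B - 2))
    (h8 : ∀ h, 1 ≤ h → B ≤ 2 * h + 2 →
      1 + ((t - k) / (2 * h) + 1) * (h * ((t - k) / (2 * h)) + (t - k) % (2 * h)) ≤ p)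
    (hYr : N4r_c k + 1 ≤ r) (hC : r * p + j * N4r_c k ≤ X + j * r) (hpX : p * N4r_c k ≤ X) (hl : l ≤ r * M)
    (hX2 : X + 2 ≤ N4r_c t + l) (hl2 : N4r_q (t - 1) + 2 ≤ N4r_c (t - 1) + l) : False := by
  have hT := N4r_get t k j ht hk hkt hj hYj (by omega)
  rw [hX] at hT
  have hL0 : N4r_m (N4r_q (t - 1) + 2 - N4r_c (t - 1)) (X + 2 - N4r_c t) ≤ l := N4r_m_le (by omega) (by omega)
  generalize N4r_m (N4r_q (t - 1) + 2 - N4r_c (t - 1)) (X + 2 - N4r_c t) = L at hT hL0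
  generalize t - k = e at hT h5 h8
  have hY0 : 0 < N4r_c k := by unfold N4r_c; omega
  generalize N4r_c k = Y at hT hYj h7 hYr hC hpX hY0
  generalize hu : j / Y = u at hT h7
  unfold N4r_S at hT
  rw [hu] at hT
  have hT := Nat.eq_of_beq_eq_true hT
  have hLr : L ≤ r * M := hL0.trans hl
  -- the product for `p > j`
  have hZ : j < p → r * (p - j) ≤ X - j * Y := by
    intro h
    obtain ⟨d, rfl⟩ := Nat.exists_eq_add_of_le h.le
    have h1 : r * (j + d) = j * r + r * d := by ring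
    rw [Nat.add_sub_cancel_left]
    omega
  -- `3 M ≤ p + u`
  have h3M : 3 * M ≤ p + u := by
    rcases Nat.lt_or_ge M u with h | h
    · omega
    · obtain ⟨b, rfl⟩ := Nat.exists_eq_add_of_le hB
      rw [show 3 + b - 2 = 1 + b by omega] at h7
      have h1 : M * (3 + b) = 3 * M + M * b := by ring
      have h2 : u * (1 + b) = u + u * b := by ring
      have h3 : u * b ≤ M * b := Nat.mul_le_mul_right _ h
      omega
  have hMX : M ≤ X / (2 * Y) := by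
    rw [Nat.le_div_iff_mul_le (by omega)]
    have h1 : 2 * M * Y ≤ p * Y := Nat.mul_le_mul_right _ h2M
    have h2 : M * (2 * Y) = 2 * M * Y := by ring
    omega
  have hMM : M ≤ N4r_M Y j X (X - j * Y) L u := by
    unfold N4r_M
    by_cases h : 3 * L ≤ X - j * Y
    · rwa [Nat.ble_eq_true_of_le h, cond_true]
    · rw [N4r_ble h, cond_false]
      refine N4r_n_le hMX ?_
      rw [Nat.le_div_iff_mul_le (by omega), Nat.mul_sub]
      have h1 : (3 * M) * L ≤ (p + u) * L := Nat.mul_le_mul_right _ h3M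
      have h2 : M * (3 * L) = 3 * M * L := by ring
      rcases Nat.lt_or_ge j p with h3 | h3
      · have h4 : L * (p - j) ≤ r * M * (p - j) := Nat.mul_le_mul_right _ hLr
        have h5 : M * (r * (p - j)) ≤ M * (X - j * Y) := Nat.mul_le_mul_left _ (hZ h3)
        have h6 : r * M * (p - j) = M * (r * (p - j)) := by ring
        obtain ⟨d, rfl⟩ := Nat.exists_eq_add_of_le h3.le
        rw [Nat.add_sub_cancel_left] at h4 h5 h6
        have h7 : (j + d + u) * L = (j + u) * L + L * d := by ring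
        omega
      · have h4 : (p + u) * L ≤ (j + u) * L := Nat.mul_le_mul_right _ (by omega)
        omega
  obtain ⟨m, rfl⟩ := Nat.exists_eq_add_of_le' hM
  have hz := N4r_s_zero _ _ _ _ _ _ _ _ hT m (by omega)
  have hR : N4r_m (Y + 1) ((L + (m + 1)) / (m + 2)) ≤ r := by
    refine N4r_m_le hYr ?_
    rw [← Nat.lt_succ_iff, Nat.div_lt_iff_lt_mul (by omega)]
    have : r.succ * (m + 2) = r * (m + 2) + (m + 2) := Nat.succ_mul r (m + 2)
    omega
  have hpP : p ≤ N4r_P j (X / Y) (X - j * Y) (Y + 1) L m := by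
    show p ≤ N4r_n (X / Y) (j + (X - j * Y) / N4r_m (Y + 1) ((L + (m + 1)) / (m + 2)))
    refine N4r_n_le ((Nat.le_div_iff_mul_le hY0).2 hpX) ?_
    rcases Nat.lt_or_ge j p with h3 | h3
    · have h4 : p - j ≤ (X - j * Y) / N4r_m (Y + 1) ((L + (m + 1)) / (m + 2)) := by
        rw [Nat.le_div_iff_mul_le (lt_of_lt_of_le (Nat.succ_pos Y) (N4r_le_m _ _)), mul_comm]
        exact (Nat.mul_le_mul_right _ hR).trans (hZ h3)
      exact tsub_le_iff_left.1 h4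
    · exact h3.trans (Nat.le_add_right _ _)
  generalize N4r_P j (X / Y) (X - j * Y) (Y + 1) L m = P at hz hpP
  have hz' : (P + 1 - 2 * (m + 2)) * ((P + 1 - 2 * e) * ((u + 1 - (m + 2)) +
      N4r_b ((P - 2 * u) / (m + 2 - u)) e P) + N4r_b ((P + 1) / (m + 2)) e P) = 0 := hz
  have hn : (P + 1 - 2 * e) * ((u + 1 - (m + 2)) + N4r_b ((P - 2 * u) / (m + 2 - u)) e P) +
      N4r_b ((P + 1) / (m + 2)) e P = 0 := by
    rcases Nat.mul_eq_zero.1 hz' with h | h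
    · omega
    · exact h
  rcases h5 with h | h
  · have h1 : (P + 1 - 2 * e) * ((u + 1 - (m + 2)) + N4r_b ((P - 2 * u) / (m + 2 - u)) e P) = 0 := by omega
    rcases Nat.mul_eq_zero.1 h1 with h2 | h2
    · omega
    · rcases Nat.lt_or_ge u (m + 2) with h3 | h3
      · have h4 := N4r_b_pos B ((P - 2 * u) / (m + 2 - u)) e p P hB (by
          rw [Nat.le_div_iff_mul_le (by omega)]
          obtain ⟨b, rfl⟩ := Nat.exists_eq_add_of_le hB
          rw [show 3 + b - 2 = 1 + b by omega] at h7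
          obtain ⟨d, hd⟩ := Nat.exists_eq_add_of_le h3.le
          rw [hd] at h7 ⊢
          rw [Nat.add_sub_cancel_left]
          have e1 : (u + d) * (3 + b) = (3 + b) * d + (u * (1 + b) + 2 * u) := by ring
          omega) h8 hpP
        omega
      · omega
  · have h4 := N4r_b_pos B ((P + 1) / (m + 2)) e p P hB (by
      rw [Nat.le_div_iff_mul_le (by omega), mul_comm]
      omega) h8 hpP
    omega

/-! ### The estimates for `t ≥ 50` -/

/-- the growth of the cap bound and the exponents -/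
private theorem N4r_G (e M u B p : ℤ) (hC : e ^ 2 ≤ (B - 1) * (2 * p - e - 2)) (hD : B * (M - u) ≤ p - 2 * u)
    (h3 : 2 * u ≤ p) (h2 : 0 ≤ 2 * p - e - 2) :
    (M - u) * e ^ 2 ≤ (p - u - M) * (2 * p - e - 2) := by
  rcases le_or_gt M u with h | h
  · have h4 : (M - u) * e ^ 2 ≤ 0 := mul_nonpos_of_nonpos_of_nonneg (by linarith) (sq_nonneg e)
    have h5 : 0 ≤ (p - u - M) * (2 * p - e - 2) := mul_nonneg (by linarith) h2
    linarith
  · have h4 : (M - u) * e ^ 2 ≤ (M - u) * ((B - 1) * (2 * p - e - 2)) := mul_le_mul_of_nonneg_left hC (by linarith)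
    have h5 : (B * (M - u) - (M - u)) * (2 * p - e - 2) ≤ (p - 2 * u - (M - u)) * (2 * p - e - 2) :=
      mul_le_mul_of_nonneg_right (by linarith) h2
    have h6 : (M - u) * ((B - 1) * (2 * p - e - 2)) = (B * (M - u) - (M - u)) * (2 * p - e - 2) := by ring
    have h7 : (p - 2 * u - (M - u)) * (2 * p - e - 2) = (p - u - M) * (2 * p - e - 2) := by ring
    linarith

/-- the inequality for `x = p - 2 e`, `2 (M - u) ≥ x + c`, `2 u = e - g` -/
private theorem N4r_dif (e x c g M u : ℤ) (he : 49 ≤ e) (hx : 0 ≤ x) (hu : 2 * u = e - g) (hM : x + c ≤ 2 * (M - u))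
    (hG : (M - u) * e ^ 2 ≤ (2 * e + x - u - M) * (2 * x + 3 * e - 2)) :
    x * (e ^ 2 - 7 * e - 2 * x) + (c - 6) * e ^ 2 + (2 + 2 * c - 4 * g) * x + (3 * c + 4 - 6 * g) * e - 2 * c + 4 * g ≤ 0 := by
  have h0 : (M - u) * (e ^ 2 + (2 * x + 3 * e - 2)) ≤ (2 * e + x - 2 * u) * (2 * x + 3 * e - 2) := by linarith
  have h1 : (x + c) * (e ^ 2 + (2 * x + 3 * e - 2)) ≤ 2 * (M - u) * (e ^ 2 + (2 * x + 3 * e - 2)) :=
    mul_le_mul_of_nonneg_right hM (by nlinarith)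
  rw [hu] at h0
  linarith

private theorem N4r_fin (e x c g M u : ℤ) (he : 49 ≤ e) (hx : 0 ≤ x) (hx2 : 4 * x ≤ e ^ 2 - 6 * e + 3)
    (hu : 2 * u = e - g) (hM : x + c ≤ 2 * (M - u)) (hc : 6 ≤ c) (hc2 : c ≤ 7) (hg : 1 ≤ g) (hg2 : g ≤ 3)
    (hG : (M - u) * e ^ 2 ≤ (2 * e + x - u - M) * (2 * x + 3 * e - 2)) : False := by
  have h3 := N4r_dif e x c g M u he hx hu hM hG
  have h4 : 0 ≤ x * (e ^ 2 - 7 * e - 2 * x) := mul_nonneg hx (by nlinarith)
  have h5 : 0 ≤ (c - 6) * e ^ 2 := mul_nonneg (by linarith) (sq_nonneg e)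
  have h6 : 0 ≤ (2 + 2 * c - 4 * g) * x := mul_nonneg (by linarith) hx
  have h7 : 4 * 49 ≤ (3 * c + 4 - 6 * g) * e := by nlinarith
  linarith

private theorem N4r_three (e x M u : ℤ) (he : 49 ≤ e) (hx : 0 ≤ x) (hx1 : x ≤ 1) (hu : 2 * u = e - 1) (hM : 3 ≤ M - u)
    (hG : (M - u) * e ^ 2 ≤ (2 * e + x - u - M) * (2 * x + 3 * e - 2)) : False := by
  have h0 : (M - u) * (e ^ 2 + (2 * x + 3 * e - 2)) ≤ (2 * e + x - 2 * u) * (2 * x + 3 * e - 2) := by linarith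
  have h1 : 3 * (e ^ 2 + (2 * x + 3 * e - 2)) ≤ (M - u) * (e ^ 2 + (2 * x + 3 * e - 2)) :=
    mul_le_mul_of_nonneg_right hM (by nlinarith)
  rw [hu] at h0
  have h2 : x = 0 ∨ x = 1 := by omega
  rcases h2 with rfl | rfl <;> nlinarith

/-- `Y = 2`, `j = e` -/
private theorem N4r_e0 (e x M u r l Z p : ℤ) (he : 49 ≤ e) (hx : 0 ≤ x) (hx2 : 4 * x ≤ e ^ 2 - 6 * e + 3) (hpx : p = 2 * e + x)
    (hu : 2 * u = e - 1) (hM : x + 4 ≤ 2 * (M - u)) (hZ : 2 * Z = e ^ 2 - 2 * e + 3) (hl0 : e ^ 2 + 7 ≤ 4 * l)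
    (hr : r * (p - e) ≤ Z) (hl : l ≤ r * M)
    (hG : (M - u) * e ^ 2 ≤ (2 * e + x - u - M) * (2 * x + 3 * e - 2)) : False := by
  have h3 := N4r_dif e x 4 1 M u he hx hu hM hG
  have hW : e ^ 2 - 8 * e - 3 ≤ 2 * (e ^ 2 - 7 * e - 2 * x) := by linarith
  rcases le_or_gt 5 x with h | h
  · have h4 : 5 * (e ^ 2 - 7 * e - 2 * x) ≤ x * (e ^ 2 - 7 * e - 2 * x) := mul_le_mul_of_nonneg_right h (by nlinarith)
    nlinarith
  rcases le_or_gt 3 x with h5 | h5
  · have h6 : x = 3 ∨ x = 4 := by omega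
    rcases h6 with rfl | rfl <;> nlinarith
  rcases le_or_gt 4 (M - u) with h7 | h7
  · have h0 : (M - u) * (e ^ 2 + (2 * x + 3 * e - 2)) ≤ (2 * e + x - 2 * u) * (2 * x + 3 * e - 2) := by linarith
    have h1 : 4 * (e ^ 2 + (2 * x + 3 * e - 2)) ≤ (M - u) * (e ^ 2 + (2 * x + 3 * e - 2)) :=
      mul_le_mul_of_nonneg_right h7 (by nlinarith)
    rw [hu] at h0
    have h8 : (2 * e + x - (e - 1)) * (2 * x + 3 * e - 2) ≤ (e + 3) * (3 * e + 2) :=
      mul_le_mul (by linarith) (by linarith) (by linarith) (by linarith)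
    nlinarith
  have he2 : e = 2 * u + 1 := by linarith
  subst he2
  have hZ' : Z = 2 * u ^ 2 + 1 := by linarith
  have hl' : u ^ 2 + u + 2 ≤ l := by linarith
  have hMu : M = u + 2 ∨ M = u + 3 := by omega
  rcases hMu with rfl | rfl
  · have hru : u ≤ r := by
      by_contra hc
      push Not at hc
      have : r * (u + 2) ≤ (u - 1) * (u + 2) := mul_le_mul_of_nonneg_right (by omega) (by linarith)
      linarith
    have h9 : u * (2 * u + 1) ≤ r * (p - (2 * u + 1)) := mul_le_mul hru (by linarith) (by linarith) (by linarith)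
    nlinarith
  · have hru : u - 1 ≤ r := by
      by_contra hc
      push Not at hc
      have : r * (u + 3) ≤ (u - 2) * (u + 3) := mul_le_mul_of_nonneg_right (by omega) (by linarith)
      linarith
    rcases le_or_gt x 1 with h10 | h10
    · exact N4r_three (2 * u + 1) x (u + 3) u he hx h10 (by ring) (by linarith) hG
    · have h9 : (u - 1) * (2 * u + 3) ≤ r * (p - (2 * u + 1)) := mul_le_mul hru (by linarith) (by linarith) (by linarith)
      nlinarith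

/-- `Y = 2`, `j = e - 1`, `e` odd -/
private theorem N4r_e1 (e x M u : ℤ) (he : 49 ≤ e) (hx : 0 ≤ x) (hx2 : 4 * x ≤ e ^ 2 - 6 * e + 3)
    (hu : 2 * u = e - 1) (hM : x + 5 ≤ 2 * (M - u))
    (hG : (M - u) * e ^ 2 ≤ (2 * e + x - u - M) * (2 * x + 3 * e - 2)) : False := by
  have h3 := N4r_dif e x 5 1 M u he hx hu hM hG
  rcases le_or_gt 2 x with h | h
  · have h4 : 2 * (e ^ 2 - 7 * e - 2 * x) ≤ x * (e ^ 2 - 7 * e - 2 * x) := mul_le_mul_of_nonneg_right h (by nlinarith)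
    linarith
  · exact N4r_three e x M u he hx (by omega) hu (by omega) hG

/-- `Y = 2` -/
private theorem N4r_one (e ε s u M p l r Z : ℤ) (he : 49 ≤ e) (hε : ε = 0 ∨ ε = 1) (hs : ε ≤ s) (hse : s ≤ e)
    (hpar : (e + 1 - ε) % 2 = 0) (hu : e - s = 2 * u ∨ e - s = 2 * u + 1) (hM : 0 ≤ M)
    (hZ : 2 * Z = e ^ 2 - 2 * e + 3 + ε + 2 * s) (hl0 : e ^ 2 + 7 + ε - 4 * s ≤ 4 * l) (hl1 : e ^ 2 - 2 * e + 9 ≤ 4 * l)
    (hp : 2 * e ≤ p) (hpX : 4 * p ≤ (e + 1) ^ 2 + 2) (hr : r * (p - (e - s)) ≤ Z) (hl : l ≤ r * M)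
    (hG : (M - u) * e ^ 2 ≤ (p - u - M) * (2 * p - e - 2)) : False := by
  obtain ⟨x, rfl⟩ : ∃ x, p = 2 * e + x := ⟨p - 2 * e, by ring⟩
  have hx : 0 ≤ x := by linarith
  have hx2 : 4 * x ≤ e ^ 2 - 6 * e + 3 := by linarith
  have hε0 : 0 ≤ ε := by omega
  have hε1 : ε ≤ 1 := by omega
  have hlp : 0 < l := by nlinarith
  have hpj : 0 ≤ 2 * e + x - (e - s) := by linarith
  -- the product
  have hC : l * (2 * e + x - (e - s)) ≤ M * Z := by
    have h1 : l * (2 * e + x - (e - s)) ≤ r * M * (2 * e + x - (e - s)) := mul_le_mul_of_nonneg_right hl hpj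
    have h2 : M * (r * (2 * e + x - (e - s))) ≤ M * Z := mul_le_mul_of_nonneg_left hr hM
    linarith
  have hG' : (M - u) * e ^ 2 ≤ (2 * e + x - u - M) * (2 * x + 3 * e - 2) := by linarith
  have hG2 : M * (e ^ 2 + (2 * x + 3 * e - 2)) ≤ (2 * e + x) * (2 * x + 3 * e - 2) + u * (e ^ 2 - (2 * x + 3 * e - 2)) := by
    linarith
  have hWp : 0 ≤ e ^ 2 - (2 * x + 3 * e - 2) := by nlinarith
  have hE : 0 ≤ e ^ 2 + (2 * x + 3 * e - 2) := by nlinarith
  have hu2 : 2 * (u * (e ^ 2 - (2 * x + 3 * e - 2))) ≤ (e - s) * (e ^ 2 - (2 * x + 3 * e - 2)) := by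
    have : 2 * u * (e ^ 2 - (2 * x + 3 * e - 2)) ≤ (e - s) * (e ^ 2 - (2 * x + 3 * e - 2)) :=
      mul_le_mul_of_nonneg_right (by omega) hWp
    linarith
  rcases lt_or_ge (2 * l) Z with hZl | hZl
  · -- `s` is large
    have hs3 : e + 3 ≤ 3 * s := by omega
    have hZ9 : 4 * Z ≤ 9 * l := by nlinarith
    have h1 : 4 * (2 * e + x - (e - s)) ≤ 9 * M := by
      have h2 : M * (4 * Z) ≤ M * (9 * l) := mul_le_mul_of_nonneg_left hZ9 hM
      have h3 : l * (4 * (2 * e + x - (e - s))) ≤ l * (9 * M) := by linarith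
      exact le_of_mul_le_mul_left h3 hlp
    have h2 : 4 * (2 * e + x - (e - s)) * (e ^ 2 + (2 * x + 3 * e - 2)) ≤ 9 * M * (e ^ 2 + (2 * x + 3 * e - 2)) :=
      mul_le_mul_of_nonneg_right h1 hE
    have h3 : 8 * (2 * e + x - (e - s)) * (e ^ 2 + (2 * x + 3 * e - 2)) ≤
        18 * ((2 * e + x) * (2 * x + 3 * e - 2)) + 9 * ((e - s) * (e ^ 2 - (2 * x + 3 * e - 2))) := by linarith
    have h4 : e ^ 2 * (8 * x - e + 17 * s) ≤ (19 * e + 10 * x + s) * (2 * x + 3 * e - 2) := by linarith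
    have h5 : 0 ≤ e ^ 2 * (3 * s - e - 3) := mul_nonneg (sq_nonneg e) (by linarith)
    have h6 : 0 ≤ (e - s) * (2 * x + 3 * e - 2) := mul_nonneg (by linarith) (by linarith)
    have h7 : 0 ≤ x * (e ^ 2 - 6 * e + 3 - 4 * x) := mul_nonneg hx (by linarith)
    have h8 : 0 ≤ x * (e * (e - 49)) := mul_nonneg hx (mul_nonneg (by linarith) (by linarith))
    have h9 : 0 ≤ e ^ 2 * (e - 49) := mul_nonneg (sq_nonneg e) (by linarith)
    nlinarith
  · have hN : 2 * e + x - (e - s) ≤ 2 * M := by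
      have h2 : M * Z ≤ M * (2 * l) := mul_le_mul_of_nonneg_left hZl hM
      have h3 : l * (2 * e + x - (e - s)) ≤ l * (2 * M) := by linarith
      exact le_of_mul_le_mul_left h3 hlp
    rcases le_or_gt 3 s with h3s | h3s
    · have h2 : (2 * e + x - (e - s)) * (e ^ 2 + (2 * x + 3 * e - 2)) ≤ 2 * M * (e ^ 2 + (2 * x + 3 * e - 2)) :=
        mul_le_mul_of_nonneg_right hN hE
      have h4 : e ^ 2 * (x + 2 * s) ≤ (2 * e + x) * (2 * x + 3 * e - 2) := by linarith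
      have h5 : 0 ≤ e ^ 2 * (s - 3) := mul_nonneg (sq_nonneg e) (by linarith)
      have h7 : 0 ≤ x * (e ^ 2 - 6 * e + 3 - 4 * x) := mul_nonneg hx (by linarith)
      have h8 : 0 ≤ x * (e * (e - 49)) := mul_nonneg hx (mul_nonneg (by linarith) (by linarith))
      nlinarith
    · have hC4 : (e ^ 2 + 7 + ε - 4 * s) * (2 * e + x - (e - s)) ≤ 2 * M * (e ^ 2 - 2 * e + 3 + ε + 2 * s) := by
        have h1 : (e ^ 2 + 7 + ε - 4 * s) * (2 * e + x - (e - s)) ≤ 4 * l * (2 * e + x - (e - s)) :=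
          mul_le_mul_of_nonneg_right hl0 hpj
        rw [← hZ]
        linarith
      have hZ0 : 0 ≤ e ^ 2 - 2 * e + 3 + ε + 2 * s := by nlinarith
      have hs012 : s = 0 ∨ s = 1 ∨ s = 2 := by omega
      have hN3 : s = 0 ∨ s = 1 → 2 * e + x - (e - s) + 3 ≤ 2 * M := by
        intro h
        by_contra hc
        push Not at hc
        have h1 : 2 * M * (e ^ 2 - 2 * e + 3 + ε + 2 * s) ≤
            (2 * e + x - (e - s) + 2) * (e ^ 2 - 2 * e + 3 + ε + 2 * s) := mul_le_mul_of_nonneg_right (by omega) hZ0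
        rcases h with rfl | rfl <;> nlinarith
      have hN2 : s = 2 → 2 * e + x - (e - s) + 2 ≤ 2 * M := by
        intro h
        by_contra hc
        push Not at hc
        have h1 : 2 * M * (e ^ 2 - 2 * e + 3 + ε + 2 * s) ≤
            (2 * e + x - (e - s) + 1) * (e ^ 2 - 2 * e + 3 + ε + 2 * s) := mul_le_mul_of_nonneg_right (by omega) hZ0
        subst h
        nlinarith
      rcases hs012 with rfl | rfl | rfl
      · have h1 := hN3 (Or.inl rfl)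
        have hε : ε = 0 := by omega
        subst hε
        refine N4r_e0 e x M u r l Z (2 * e + x) he hx hx2 rfl (by omega) (by omega) (by linarith) (by linarith) ?_ hl hG'
        simpa using hr
      · have h1 := hN3 (Or.inr rfl)
        rcases hε with rfl | rfl
        · exact N4r_e1 e x M u he hx hx2 (by omega) (by omega) hG'
        · exact N4r_fin e x 6 2 M u he hx hx2 (by omega) (by omega) (by norm_num) (by norm_num) (by norm_num)
            (by norm_num) hG'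
      · have h1 := hN2 rfl
        rcases hε with rfl | rfl
        · exact N4r_fin e x 7 3 M u he hx hx2 (by omega) (by omega) (by norm_num) (by norm_num) (by norm_num)
            (by norm_num) hG'
        · exact N4r_fin e x 6 2 M u he hx hx2 (by omega) (by omega) (by norm_num) (by norm_num) (by norm_num)
            (by norm_num) hG'

/-- `Y ≥ 3`, `p ≥ 2 e`, `j` small -/
private theorem N4r_twoA (t e j u M p l Z : ℤ) (ht : 50 ≤ t) (hM : 0 ≤ M) (hj2 : 2 * j + 5 ≤ t)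
    (het : 5 * t ≤ 6 * e + 3) (hp : 2 * e ≤ p) (hpq : 6 * p ≤ t ^ 2 + 2) (hu3 : 3 * u ≤ j)
    (hlp : 0 < l) (hWe : 2 * p - e - 2 ≤ e ^ 2) (hZ9 : 4 * Z ≤ 9 * l)
    (hC : l * (p - j) ≤ M * Z) (hG : (M - u) * e ^ 2 ≤ (p - u - M) * (2 * p - e - 2)) : False := by
  have hW0 : 0 ≤ 2 * p - e - 2 := by linarith
  have hE : 0 ≤ e ^ 2 + (2 * p - e - 2) := by linarith
  have hG2 : M * (e ^ 2 + (2 * p - e - 2)) ≤ p * (2 * p - e - 2) + u * (e ^ 2 - (2 * p - e - 2)) := by linarith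
  have h1 : 4 * (p - j) ≤ 9 * M := by
    have h2 : M * (4 * Z) ≤ M * (9 * l) := mul_le_mul_of_nonneg_left hZ9 hM
    have h3 : l * (4 * (p - j)) ≤ l * (9 * M) := by linarith
    exact le_of_mul_le_mul_left h3 hlp
  have h2 : 4 * (p - j) * (e ^ 2 + (2 * p - e - 2)) ≤ 9 * M * (e ^ 2 + (2 * p - e - 2)) := mul_le_mul_of_nonneg_right h1 hE
  have h3 : 3 * u * (e ^ 2 - (2 * p - e - 2)) ≤ j * (e ^ 2 - (2 * p - e - 2)) :=
    mul_le_mul_of_nonneg_right hu3 (by linarith)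
  have h4 : e ^ 2 * (4 * p - 7 * j) ≤ (5 * p + j) * (2 * p - e - 2) := by linarith
  obtain ⟨x, rfl⟩ : ∃ x, p = 2 * e + x := ⟨p - 2 * e, by ring⟩
  have hx : 0 ≤ x := by linarith
  have hje : 5 * j ≤ 3 * e := by linarith
  have h5 : e ^ 2 * (3 * e + 4 * x) ≤ e ^ 2 * (4 * (2 * e + x) - 7 * j) :=
    mul_le_mul_of_nonneg_left (by linarith) (sq_nonneg e)
  have h6 : (5 * (2 * e + x) + j) * (2 * (2 * e + x) - e - 2) ≤ (11 * e + 5 * x) * (3 * e + 2 * x) :=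
    mul_le_mul (by linarith) (by linarith) hW0 (by linarith)
  have hte : t ^ 2 + 2 ≤ 2 * e ^ 2 := by
    have h36 : (5 * t - 3) ^ 2 ≤ (6 * e) ^ 2 := pow_le_pow_left₀ (by linarith) (by linarith) 2
    have h37 : 50 * t ≤ t ^ 2 := by nlinarith
    linarith
  have h7 : 0 ≤ x * (2 * e ^ 2 - 12 * e - 6 * x) := mul_nonneg hx (by linarith)
  have h8 : 0 ≤ x * (e * (e - 41)) := mul_nonneg hx (mul_nonneg (by linarith) (by linarith))
  have h9 : 0 < e ^ 2 * (e - 12) := mul_pos (pow_pos (by linarith) 2) (by linarith)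
  have h10 : e ^ 2 * (3 * e + 4 * x) = 3 * (e ^ 2 * (e - 12)) + 36 * e ^ 2 + 4 * (x * (e * (e - 41))) + 164 * (x * e) := by
    ring
  have h11 : (11 * e + 5 * x) * (3 * e + 2 * x) = 33 * e ^ 2 + 37 * (x * e) + 10 * x ^ 2 := by ring
  have h12 : x * (2 * e ^ 2 - 12 * e - 6 * x) = 2 * (x * (e * (e - 41))) + 70 * (x * e) - 6 * x ^ 2 := by ring
  have h13 : 0 ≤ x * e := mul_nonneg hx (by linarith)
  have h14 : 0 < e ^ 2 := pow_pos (by linarith) 2
  linarith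

/-- `Y ≥ 3`, `p ≥ 2 e`, `Z ≤ 2 l` -/
private theorem N4r_twoB (t e j Y u M p l Z : ℤ) (ht : 50 ≤ t) (hM : 0 ≤ M) (hj : j + 1 ≤ t) (hY : 3 ≤ Y) (h3Y : 3 * Y ≤ t)
    (he : 2 * t ≤ 2 * e + Y + 1) (he2 : e + 2 ≤ t) (hp : 2 * e ≤ p) (hpX : 2 * (p * Y) ≤ t ^ 2 + 2) (hu : u * Y ≤ j)
    (hlp : 0 < l) (hWe : 2 * p - e - 2 ≤ e ^ 2) (hZl : Z ≤ 2 * l)
    (hC : l * (p - j) ≤ M * Z) (hG : (M - u) * e ^ 2 ≤ (p - u - M) * (2 * p - e - 2)) : False := by
  have hW0 : 0 ≤ 2 * p - e - 2 := by linarith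
  have hE : 0 ≤ e ^ 2 + (2 * p - e - 2) := by linarith
  have hG2 : M * (e ^ 2 + (2 * p - e - 2)) ≤ p * (2 * p - e - 2) + u * (e ^ 2 - (2 * p - e - 2)) := by linarith
  have hN : p - j ≤ 2 * M := by
    have h2 : M * Z ≤ M * (2 * l) := mul_le_mul_of_nonneg_left hZl hM
    have h3 : l * (p - j) ≤ l * (2 * M) := by linarith
    exact le_of_mul_le_mul_left h3 hlp
  have h2 : (p - j) * (e ^ 2 + (2 * p - e - 2)) ≤ 2 * M * (e ^ 2 + (2 * p - e - 2)) := mul_le_mul_of_nonneg_right hN hE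
  have h3 : u * Y * (e ^ 2 - (2 * p - e - 2)) ≤ j * (e ^ 2 - (2 * p - e - 2)) :=
    mul_le_mul_of_nonneg_right hu (by linarith)
  have h4 : (p - j) * (e ^ 2 + (2 * p - e - 2)) ≤ 2 * (p * (2 * p - e - 2)) + 2 * (u * (e ^ 2 - (2 * p - e - 2))) := by
    linarith
  have h5 : Y * ((p - j) * (e ^ 2 + (2 * p - e - 2))) ≤
      Y * (2 * (p * (2 * p - e - 2)) + 2 * (u * (e ^ 2 - (2 * p - e - 2)))) := mul_le_mul_of_nonneg_left h4 (by linarith)
  have h6 : e ^ 2 * (Y * p - (Y + 2) * j) ≤ (Y * p + (Y - 2) * j) * (2 * p - e - 2) := by linarith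
  have h7 : e ^ 2 * (Y * p - (Y + 2) * (t - 1)) ≤ (Y * p + (Y - 2) * (t - 1)) * (2 * p - e - 2) := by
    have h8 : 0 ≤ (Y + 2) * (t - 1 - j) * e ^ 2 := mul_nonneg (mul_nonneg (by linarith) (by linarith)) (sq_nonneg e)
    have h9 : 0 ≤ (Y - 2) * (t - 1 - j) * (2 * p - e - 2) := mul_nonneg (mul_nonneg (by linarith) (by linarith)) hW0
    linarith
  obtain ⟨x, rfl⟩ : ∃ x, p = 2 * e + x := ⟨p - 2 * e, by ring⟩
  have hx : 0 ≤ x := by linarith
  -- the value for `x = 0`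
  have k0 : 24 * (Y - 2) ≤ Y * (2 * e) - (Y + 2) * (t - 1) - 6 * Y := by
    have a1 : Y * (2 * t - Y - 1) ≤ Y * (2 * e) := mul_le_mul_of_nonneg_left (by linarith) (by linarith)
    have a2 : 0 ≤ (Y - 3) * (t - 3 * Y) := mul_nonneg (by linarith) (by linarith)
    have a3 : 0 ≤ (Y - 3) * (t - 50) := mul_nonneg (by linarith) (by linarith)
    nlinarith
  have k1 : 3 * ((Y - 2) * (t - 1)) ≤ 24 * (Y - 2) * e := by
    have a1 : 0 ≤ (Y - 2) * (24 * e - 3 * (t - 1)) := mul_nonneg (by linarith) (by linarith)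
    linarith
  have k2 : (Y * (2 * e) + (Y - 2) * (t - 1)) * (3 * e) ≤ e ^ 2 * (Y * (2 * e) - (Y + 2) * (t - 1)) := by
    have a1 : e ^ 2 * (24 * (Y - 2)) ≤ e ^ 2 * (Y * (2 * e) - (Y + 2) * (t - 1) - 6 * Y) :=
      mul_le_mul_of_nonneg_left k0 (sq_nonneg e)
    have a2 : 3 * ((Y - 2) * (t - 1)) * e ≤ 24 * (Y - 2) * e * e := mul_le_mul_of_nonneg_right k1 (by linarith)
    linarith
  -- the coefficient of `x`
  have k3 : (Y * (2 * e) + (Y - 2) * (t - 1)) * 2 + Y * (3 * e - 2) + 2 * (Y * x) ≤ e ^ 2 * Y := by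
    have a1 : 2 * (Y * x) ≤ t ^ 2 + 2 - 4 * (Y * e) := by linarith
    have a2 : 5 * t ≤ 6 * e + 3 := by linarith
    have a3 : (5 * t - 3) ^ 2 ≤ (6 * e) ^ 2 := pow_le_pow_left₀ (by linarith) (by linarith) 2
    have a4 : (5 * t - 3) ^ 2 * Y ≤ (6 * e) ^ 2 * Y := mul_le_mul_of_nonneg_right a3 (by linarith)
    have a5 : 0 ≤ (Y - 3) * t ^ 2 := mul_nonneg (by linarith) (sq_nonneg t)
    have a6 : 0 ≤ Y * (t * (t - 50)) := mul_nonneg (by linarith) (mul_nonneg (by linarith) (by linarith))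
    have a7 : 0 ≤ Y * (t - 2 - e) := mul_nonneg (by linarith) (by linarith)
    have a8 : 0 ≤ Y * (t - 50) := mul_nonneg (by linarith) (by linarith)
    nlinarith
  have k4 : x * ((Y * (2 * e) + (Y - 2) * (t - 1)) * 2 + Y * (3 * e - 2) + 2 * (Y * x)) ≤ x * (e ^ 2 * Y) :=
    mul_le_mul_of_nonneg_left k3 hx
  have k5 : 0 < Y * (2 * e) + (Y - 2) * (t - 1) := by
    have a1 : 0 ≤ (Y - 2) * (t - 1) := mul_nonneg (by linarith) (by linarith)
    have a2 : 0 < Y * (2 * e) := mul_pos (by linarith) (by linarith)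
    linarith
  linarith

/-- `Y ≥ 3`, `p ≥ 2 e` -/
private theorem N4r_two (t ε e j Y u M p l Z X : ℤ) (ht : 50 ≤ t) (hε : 0 ≤ ε) (hj : j + ε + 1 ≤ t) (hY : 3 ≤ Y)
    (hYj : Y ≤ j) (hX : 2 * X = t ^ 2 - 2 * t + 4 + ε + 2 * j) (hZ : Z = X - j * Y) (hl1 : t ^ 2 - 4 * t + 12 + 3 * ε ≤ 4 * l)
    (hM : 0 ≤ M) (he : 2 * t ≤ 2 * e + Y + 1) (he2 : e + 2 ≤ t) (hp : 2 * e ≤ p) (hpX : p * Y ≤ X) (hu0 : 0 ≤ u) (hu : u * Y ≤ j)
    (hC : l * (p - j) ≤ M * Z) (hG : (M - u) * e ^ 2 ≤ (p - u - M) * (2 * p - e - 2)) : False := by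
  have hlp : 0 < l := by nlinarith
  have hX2 : 2 * X ≤ t ^ 2 + 2 := by linarith
  -- `3 Y ≤ t`
  have h3Y : 3 * Y ≤ t := by
    by_contra h
    push Not at h
    have h1 : (2 * t - 1 - Y) * Y ≤ p * Y := mul_le_mul_of_nonneg_right (by linarith) (by linarith)
    have h2 : 0 ≤ (3 * Y - t - 1) * (t - 1 - Y) := mul_nonneg (by linarith) (by linarith)
    nlinarith
  have het : 5 * t ≤ 6 * e + 3 := by linarith
  have hpq : 6 * p ≤ t ^ 2 + 2 := by
    have : p * 3 ≤ p * Y := mul_le_mul_of_nonneg_left hY (by linarith)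
    linarith
  have h37 : 50 * t ≤ t ^ 2 := by nlinarith
  have hWe : 2 * p - e - 2 ≤ e ^ 2 := by
    have h36 : (5 * t - 3) ^ 2 ≤ (6 * e) ^ 2 := pow_le_pow_left₀ (by linarith) (by linarith) 2
    linarith
  rcases lt_or_ge (2 * l) Z with hZl | hZl
  · have hjY : j * (Y - 1) + 4 < t := by linarith
    have hj2 : 2 * j + 5 ≤ t := by
      have : j * 2 ≤ j * (Y - 1) := mul_le_mul_of_nonneg_left (by linarith) (by linarith)
      omega
    have hu3 : 3 * u ≤ j := by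
      have : u * 3 ≤ u * Y := mul_le_mul_of_nonneg_left hY hu0
      linarith
    have hZ9 : 4 * Z ≤ 9 * l := by
      have : 0 ≤ j * (Y - 1) := mul_nonneg (by linarith) (by linarith)
      nlinarith [sq_nonneg (t - 10)]
    exact N4r_twoA t e j u M p l Z ht hM hj2 het hp hpq hu3 hlp hWe hZ9 hC hG
  · exact N4r_twoB t e j Y u M p l Z ht hM (by linarith) hY h3Y he he2 hp (by linarith) hu hlp hWe hZl hC hG

/-- the case `p + 1 = M B`, `p < 2 e` -/
private theorem N4r_cb (t ε e j Y M B p l Z X : ℤ) (ht : 50 ≤ t) (hε : 0 ≤ ε) (hj : j + ε + 1 ≤ t) (hY : 2 ≤ Y)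
    (hYj : Y ≤ j) (hX : 2 * X = t ^ 2 - 2 * t + 4 + ε + 2 * j) (hZ : Z = X - j * Y) (hl1 : t ^ 2 - 4 * t + 12 + 3 * ε ≤ 4 * l)
    (hM : 2 ≤ M) (he : 4 * t ≤ 4 * e + Y + 11) (hpB : p + 1 = M * B) (hp : p + 1 ≤ 2 * e) (hpX : p * Y ≤ X)
    (hCC : e ^ 2 ≤ (B - 1) * (2 * p - e - 2)) (h2 : 0 ≤ 2 * p - e - 2)
    (hC : j ≤ p → l * (p - j) ≤ M * Z) : False := by
  have hlp : 0 < l := by nlinarith
  have hX2 : 2 * X ≤ t ^ 2 + 2 := by linarith
  have h37 : 50 * t ≤ t ^ 2 := by nlinarith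
  have hmain : M * e ^ 2 ≤ (p + 1 - M) * (2 * p - e - 2) := by
    have h1 : M * e ^ 2 ≤ M * ((B - 1) * (2 * p - e - 2)) := mul_le_mul_of_nonneg_left hCC (by linarith)
    have h3 : M * ((B - 1) * (2 * p - e - 2)) = (M * B - M) * (2 * p - e - 2) := by ring
    rw [hpB]
    linarith
  have he0 : 0 < e := by
    by_contra h
    push Not at h
    have h4 : 4 * t ≤ Y + 11 := by linarith
    linarith
  have hep : 0 < e ^ 2 := pow_pos he0 2
  have hM2 : 2 * e ^ 2 ≤ (p - 1) * (2 * p - e - 2) := by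
    have h3 : 2 * e ^ 2 ≤ M * e ^ 2 := mul_le_mul_of_nonneg_right hM hep.le
    have h4 : (p + 1 - M) * (2 * p - e - 2) ≤ (p - 1) * (2 * p - e - 2) := mul_le_mul_of_nonneg_right (by linarith) h2
    linarith
  have hp5 : 5 * e ≤ 4 * p := by
    by_contra h
    push Not at h
    have h3 : 4 * (p - 1) * (2 * (2 * p - e - 2)) ≤ 5 * e * (3 * e) :=
      mul_le_mul (by linarith) (by linarith) (by linarith) (by linarith)
    linarith
  -- `2 Y < t`
  have hYt : 2 * Y + 1 ≤ t := by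
    by_contra h
    push Not at h
    have h3 : 5 * e * Y ≤ 4 * p * Y := mul_le_mul_of_nonneg_right hp5 (by linarith)
    have h4 : (4 * t - Y - 11) * Y ≤ 4 * e * Y := mul_le_mul_of_nonneg_right (by linarith) (by linarith)
    have h5 : 0 ≤ (2 * Y - t) * (t - 1 - Y) := mul_nonneg (by omega) (by linarith)
    nlinarith
  have he8 : 7 * t ≤ 8 * e + 21 := by linarith
  have hjp : j ≤ p := by
    by_contra h
    push Not at h
    have h3 : (p - 1) * (2 * p - e - 2) ≤ (t - 1) * (2 * (t - 1) - e) :=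
      mul_le_mul (by linarith) (by linarith) h2 (by linarith)
    nlinarith
  have hC' := hC hjp
  have hM5 : M ≤ 5 := by
    by_contra h
    push Not at h
    have h3 : 6 * e ^ 2 ≤ M * e ^ 2 := mul_le_mul_of_nonneg_right (by omega) hep.le
    have h4 : (p + 1 - M) * (2 * p - e - 2) ≤ (2 * e) * (3 * e - 4) :=
      mul_le_mul (by linarith) (by linarith) h2 (by linarith)
    nlinarith
  have hZ9 : 4 * Z ≤ 9 * l := by
    have : 0 ≤ j * (Y - 2) := mul_nonneg (by linarith) (by linarith)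
    nlinarith [sq_nonneg (t - 10)]
  have h1 : 4 * (p - j) ≤ 9 * M := by
    have h3 : M * (4 * Z) ≤ M * (9 * l) := mul_le_mul_of_nonneg_left hZ9 (by linarith)
    have h4 : l * (4 * (p - j)) ≤ l * (9 * M) := by linarith
    exact le_of_mul_le_mul_left h4 hlp
  have k1 : (7 * t - 21) ^ 2 ≤ (8 * e) ^ 2 := pow_le_pow_left₀ (by linarith) (by linarith) 2
  have k2 : (7 * t - 21) * t ≤ 8 * e * t := mul_le_mul_of_nonneg_right (by linarith) (by linarith)
  have h3 : M = 2 ∨ 3 ≤ M := by omega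
  rcases h3 with rfl | h3
  · have h4 : (2 * (p - 1)) * (2 * p - e - 2) ≤ (2 * t + 5) * (2 * t + 5 - e) :=
      mul_le_mul (by linarith) (by linarith) h2 (by linarith)
    linarith
  · have h4 : (4 * (p + 1 - M)) * (2 * (2 * p - e - 2)) ≤ (4 * t + 25) * (4 * t + 37 - 2 * e) :=
      mul_le_mul (by linarith) (by linarith) (by linarith) (by linarith)
    have h5 : 3 * e ^ 2 ≤ M * e ^ 2 := mul_le_mul_of_nonneg_right h3 hep.le
    linarith

private theorem N4r_q_eq (hc : ∀ t : ℕ, cf 2 t = 1 + (t + 1) ^ 2 / 4) (t : ℕ) (h : 1 ≤ t) : pq t = N4r_q t := by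
  unfold pq N4r_q
  by_cases h4 : t = 4
  · subst h4; simp
  · by_cases h6 : t = 6
    · subst h6; rw [if_neg h4, if_pos rfl]; rfl
    · have e4 : Nat.beq t 4 = false := by
        rw [Bool.eq_false_iff]; intro hh; exact h4 (Nat.eq_of_beq_eq_true hh)
      have e6 : Nat.beq t 6 = false := by
        rw [Bool.eq_false_iff]; intro hh; exact h6 (Nat.eq_of_beq_eq_true hh)
      rw [if_neg h4, if_neg h6, e4, e6, cond_false, cond_false, hc, Nat.sub_add_cancel h, sq]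
      ring

private theorem N4r_q_step : ∀ t < 50, N4r_q t ≤ N4r_q (t - 1) + t := by decide +kernel

/-- the bounds for `t ≥ 50` -/
private theorem N4r_par (hc : ∀ t : ℕ, cf 2 t = 1 + (t + 1) ^ 2 / 4) (t j l X : ℕ) (ht : 50 ≤ t) (hX : j + pq (t - 1) = X)
    (hX1 : X + 1 ≤ pq t) (hX2 : X + 2 ≤ cf 2 t + l) (hl2 : pq (t - 1) + 2 ≤ cf 2 (t - 1) + l) :
    ∃ e : ℤ, 0 ≤ e ∧ e ≤ 1 ∧ ((t : ℤ) - e) % 2 = 0 ∧ (j : ℤ) + e + 1 ≤ t ∧
      2 * (X : ℤ) = (t : ℤ) ^ 2 - 2 * t + 4 + e + 2 * j ∧ (t : ℤ) ^ 2 - 6 * t + 12 + e + 4 * j ≤ 4 * l ∧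
      (t : ℤ) ^ 2 - 4 * t + 12 + 3 * e ≤ 4 * l := by
  have hq : ∀ n : ℕ, 10 ≤ n → pq n = 2 * cf 2 (n - 1) := by
    intro n hn
    unfold pq
    rw [if_neg (by omega), if_neg (by omega)]
  rw [hq t (by omega), hc] at hX1
  rw [hq (t - 1) (by omega), hc] at hX hl2
  rw [hc] at hX2 hl2
  obtain ⟨a, ha⟩ : ∃ a, t = 2 * a ∨ t = 2 * a + 1 := ⟨t / 2, by omega⟩
  rcases ha with rfl | rfl
  · refine ⟨0, le_refl _, by norm_num, by omega, ?_⟩
    obtain ⟨b, rfl⟩ : ∃ b, a = b + 2 := ⟨a - 2, by omega⟩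
    have e1 : (2 * (b + 2) - 1 + 1) ^ 2 = 4 * (b ^ 2 + 4 * b + 4) := by
      rw [show 2 * (b + 2) - 1 + 1 = 2 * b + 4 by omega]; ring
    have e2 : (2 * (b + 2) - 1 - 1 + 1) ^ 2 = 4 * (b ^ 2 + 3 * b + 2) + 1 := by
      rw [show 2 * (b + 2) - 1 - 1 + 1 = 2 * b + 3 by omega]; ring
    have e3 : (2 * (b + 2) + 1) ^ 2 = 4 * (b ^ 2 + 5 * b + 6) + 1 := by ring
    rw [e1] at hX1 hl2
    rw [e2] at hX hl2
    rw [e3] at hX2
    push_cast
    refine ⟨?_, ?_, ?_, ?_⟩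
    · omega
    · have : X = j + 2 * (1 + (b ^ 2 + 3 * b + 2)) := by omega
      rw [this]; push_cast; ring
    · have h : j + b ^ 2 + b + 1 ≤ l := by omega
      have h' : (j : ℤ) + b ^ 2 + b + 1 ≤ l := by exact_mod_cast h
      linarith
    · have h : b ^ 2 + 2 * b + 3 ≤ l := by omega
      have h' : (b : ℤ) ^ 2 + 2 * b + 3 ≤ l := by exact_mod_cast h
      nlinarith
  · refine ⟨1, by norm_num, le_refl _, by push_cast; omega, ?_⟩
    obtain ⟨b, rfl⟩ : ∃ b, a = b + 2 := ⟨a - 2, by omega⟩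
    have e1 : (2 * (b + 2) + 1 - 1 + 1) ^ 2 = 4 * (b ^ 2 + 5 * b + 6) + 1 := by
      rw [show 2 * (b + 2) + 1 - 1 + 1 = 2 * b + 5 by omega]; ring
    have e2 : (2 * (b + 2) + 1 - 1 - 1 + 1) ^ 2 = 4 * (b ^ 2 + 4 * b + 4) := by
      rw [show 2 * (b + 2) + 1 - 1 - 1 + 1 = 2 * b + 4 by omega]; ring
    have e3 : (2 * (b + 2) + 1 + 1) ^ 2 = 4 * (b ^ 2 + 6 * b + 9) := by ring
    rw [e1] at hX1 hl2
    rw [e2] at hX hl2
    rw [e3] at hX2
    push_cast
    refine ⟨?_, ?_, ?_, ?_⟩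
    · omega
    · have : X = j + 2 * (1 + (b ^ 2 + 4 * b + 4)) := by omega
      rw [this]; push_cast; ring
    · have h : j + b ^ 2 + 2 * b + 2 ≤ l := by omega
      have h' : (j : ℤ) + b ^ 2 + 2 * b + 2 ≤ l := by exact_mod_cast h
      linarith
    · have h : b ^ 2 + 3 * b + 5 ≤ l := by omega
      have h' : (b : ℤ) ^ 2 + 3 * b + 5 ≤ l := by exact_mod_cast h
      nlinarith

/-- the cap bound in a convenient form -/
private theorem N4r_cap (hN : SDG.St_Nm1) (B e p : ℕ) (hB : 3 ≤ B)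
    (h8 : ∀ h, 1 ≤ h → B ≤ 2 * h + 2 → cf (2 * h) e ≤ p) :
    0 ≤ 2 * (p : ℤ) - e - 2 ∧ (e : ℤ) ^ 2 ≤ ((B : ℤ) - 1) * (2 * p - e - 2) := by
  have h1 := h8 ((B - 1) / 2) (by omega) (by omega)
  obtain ⟨g, hg⟩ : ∃ g, g = 2 * ((B - 1) / 2) := ⟨_, rfl⟩
  rw [← hg] at h1
  have hg2 : 2 ≤ g := by omega
  have hgB : g + 1 ≤ B := by omega
  have h2 := hN.2.1 g (e / g) (e % g) (by omega) (Nat.mod_lt e (by omega)).le
  rw [Nat.div_add_mod] at h2
  obtain ⟨a, ha⟩ : ∃ a, a = e / g := ⟨_, rfl⟩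
  obtain ⟨q, hq⟩ : ∃ q, q = e % g := ⟨_, rfl⟩
  have he : e = g * a + q := by rw [ha, hq, Nat.div_add_mod]
  have hqg : q ≤ g := by rw [hq]; exact (Nat.mod_lt e (by omega)).le
  rw [← ha, ← hq] at h2
  have h3 : 2 + g * a * (a + 1) + 2 * q * (a + 1) ≤ 2 * p := by omega
  have h3' : 2 + (g : ℤ) * a * (a + 1) + 2 * q * (a + 1) ≤ 2 * p := by exact_mod_cast h3
  have he' : (e : ℤ) = g * a + q := by exact_mod_cast he
  have h4 : (g : ℤ) * a ^ 2 + 2 * q * a + q ≤ 2 * p - e - 2 := by rw [he']; linarith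
  have h5 : (0 : ℤ) ≤ (g : ℤ) * a ^ 2 + 2 * q * a + q := by positivity
  refine ⟨by linarith, ?_⟩
  have h6 : (g : ℤ) * ((g : ℤ) * a ^ 2 + 2 * q * a + q) ≤ ((B : ℤ) - 1) * (2 * p - e - 2) :=
    mul_le_mul (by have : (g : ℤ) + 1 ≤ B := by exact_mod_cast hgB
                   linarith) h4 h5 (by have : (3 : ℤ) ≤ B := by exact_mod_cast hB
                                       linarith)
  have h7 : (0 : ℤ) ≤ (q : ℤ) * (g - q) := mul_nonneg (by positivity) (by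
    have : (q : ℤ) ≤ g := by exact_mod_cast hqg
    linarith)
  rw [he'] at h6 ⊢
  linarith

/-- all cases for `t ≥ 50` -/
private theorem N4r_big (t ε l k e j y M B p r X u : ℤ) (ht : 50 ≤ t) (hε0 : 0 ≤ ε) (hε1 : ε ≤ 1) (hpar : (t - ε) % 2 = 0)
    (hjt : j + ε + 1 ≤ t) (hXe : 2 * X = t ^ 2 - 2 * t + 4 + ε + 2 * j) (hl0 : t ^ 2 - 6 * t + 12 + ε + 4 * j ≤ 4 * l)
    (hl1 : t ^ 2 - 4 * t + 12 + 3 * ε ≤ 4 * l) (hcap0 : 0 ≤ 2 * p - e - 2) (hcap : e ^ 2 ≤ (B - 1) * (2 * p - e - 2))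
    (hke : k + e = t) (hM : 2 ≤ M) (hy2 : 2 ≤ y) (hyk : k = 1 ∧ y = 2 ∨ 2 ≤ k ∧ 3 ≤ y) (h2k : 2 * k ≤ y + 1)
    (hky : 4 * k ≤ y + 11) (hYj : y ≤ j) (hpX : p * y ≤ X) (hr : r * (p - j) ≤ X - j * y) (hl : l ≤ r * M) (hu0 : 0 ≤ u)
    (huy : u * y ≤ j) (hu2 : y = 2 → j ≤ 2 * u + 1) (hD : B * (M - u) ≤ p - 2 * u)
    (h5 : 2 * e ≤ p ∨ (p + 1 ≤ 2 * e ∧ p + 1 = M * B)) : False := by
  have hM0 : 0 ≤ M := by linarith only [hM]
  have hC : j ≤ p → l * (p - j) ≤ M * (X - j * y) := by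
    intro h
    have h4 : l * (p - j) ≤ r * M * (p - j) := mul_le_mul_of_nonneg_right hl (by linarith only [h])
    have h5 : M * (r * (p - j)) ≤ M * (X - j * y) := mul_le_mul_of_nonneg_left hr hM0
    linarith only [h4, h5]
  rcases h5 with hpe | ⟨h6, h7⟩
  · have hjp : j ≤ p := by linarith only [hpe, hke, h2k, hYj, hjt, hε0]
    have h2u : 2 * u ≤ p := by
      have h11 : u * 2 ≤ u * y := mul_le_mul_of_nonneg_left hy2 hu0
      linarith only [h11, huy, hjp]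
    have hG := N4r_G e M u B p hcap hD h2u hcap0
    rcases hyk with ⟨rfl, rfl⟩ | ⟨hk2, hy3⟩
    · have het : t = e + 1 := by linarith only [hke]
      subst het
      have hj2 := hu2 rfl
      refine N4r_one e ε (e - j) u M p l r (X - j * 2) (by linarith only [ht]) (by omega) (by linarith only [hjt])
        (by linarith only [hYj]) hpar (by omega) hM0 (by linarith only [hXe]) (by linarith only [hl0])
        (by linarith only [hl1, hε0]) hpe (by linarith only [hpX, hXe, hjt, hε0]) ?_ hl hG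
      have : p - (e - (e - j)) = p - j := by ring
      rw [this]
      exact hr
    · exact N4r_two t ε e j y u M p l (X - j * y) X ht hε0 hjt hy3 hYj hXe rfl hl1 hM0 (by linarith only [hke, h2k])
        (by linarith only [hke, hk2]) hpe hpX hu0 huy (hC hjp) hG
  · exact N4r_cb t ε e j y M B p l (X - j * y) X ht hε0 hjt hy2 hYj hXe rfl hl1 hM (by linarith only [hke, hky]) h7 h6 hpX
      hcap hcap0 hC

/-- large `t` -/
private theorem N4r_large (hN : SDG.St_Nm1) (t l k e j y M B p r X : ℕ) (h50 : 50 ≤ t) (hke : k + e = t) (hk : 1 ≤ k)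
    (hYj : y ≤ j) (hy : y = cf 2 k) (hM : 2 ≤ M) (hB : 3 ≤ B) (h5 : 2 * e ≤ p ∨ M * B ≤ p + 1) (h6 : p + 1 ≤ M * B)
    (h7 : M * B ≤ p + j / y * (B - 2)) (h8 : ∀ h, 1 ≤ h → B ≤ 2 * h + 2 → cf (2 * h) e ≤ p)
    (hC : r * p + j * y ≤ X + j * r) (hpX : p * y ≤ X) (hl : l ≤ r * M) (hX : j + pq (t - 1) = X) (hX1 : X + 1 ≤ pq t)
    (hX2 : X + 2 ≤ cf 2 t + l) (hl2 : pq (t - 1) + 2 ≤ cf 2 (t - 1) + l) : False := by
  have hc : ∀ t, cf 2 t = 1 + (t + 1) ^ 2 / 4 := hN.2.2.1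
  obtain ⟨ε, hε0, hε1, hpar, hjt, hXe, hl0, hl1⟩ := N4r_par hc t j l X h50 hX hX1 hX2 hl2
  obtain ⟨hcap0, hcap⟩ := N4r_cap hN B e p hB h8
  have hy2 : y = 1 + (k + 1) ^ 2 / 4 := by rw [hy, hc]
  have hky : 4 * k ≤ y + 11 := by
    have h2 : 16 * k ≤ (k + 1) ^ 2 + 48 := by
      zify
      nlinarith only [sq_nonneg ((k : ℤ) - 7)]
    omega
  have h2k : 2 * k ≤ y + 1 := by
    have h2 : 8 * k ≤ (k + 1) ^ 2 + 8 := by
      zify
      nlinarith only [sq_nonneg ((k : ℤ) - 3)]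
    omega
  have hy2' : 2 ≤ y := by
    have : 2 ^ 2 ≤ (k + 1) ^ 2 := Nat.pow_le_pow_left (by omega) 2
    omega
  have hyk : k = 1 ∧ y = 2 ∨ 2 ≤ k ∧ 3 ≤ y := by
    rcases Nat.lt_or_ge k 2 with h | h
    · left
      have hk1 : k = 1 := by omega
      subst hk1
      exact ⟨rfl, hy2.trans (by norm_num)⟩
    · right
      have : 3 ^ 2 ≤ (k + 1) ^ 2 := Nat.pow_le_pow_left (by omega) 2
      exact ⟨h, by omega⟩
  obtain ⟨u, hu⟩ : ∃ u, u = j / y := ⟨_, rfl⟩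
  rw [← hu] at h7
  have huy : u * y ≤ j := by rw [hu]; exact Nat.div_mul_le_self j y
  have hu2 : y = 2 → j ≤ 2 * u + 1 := by
    intro h
    rw [h] at hu
    omega
  have hD : (B : ℤ) * (M - u) ≤ p - 2 * u := by
    obtain ⟨b, rfl⟩ := Nat.exists_eq_add_of_le hB
    rw [show 3 + b - 2 = 1 + b by omega] at h7
    have h10 : (M : ℤ) * (3 + b) ≤ p + u * (1 + b) := by exact_mod_cast h7
    push_cast
    linarith only [h10]
  have hr : (r : ℤ) * (p - j) ≤ X - j * y := by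
    have h2 : (r : ℤ) * p + j * y ≤ X + j * r := by exact_mod_cast hC
    linarith only [h2]
  have h5' : 2 * e ≤ p ∨ (p + 1 ≤ 2 * e ∧ p + 1 = M * B) := by omega
  exact N4r_big t ε l k e j y M B p r X u (by exact_mod_cast h50) hε0 hε1 hpar hjt hXe hl0 hl1 hcap0 hcap
    (by exact_mod_cast hke) (by exact_mod_cast hM) (by exact_mod_cast hy2') (by exact_mod_cast hyk) (by exact_mod_cast h2k)
    (by exact_mod_cast hky) (by exact_mod_cast hYj) (by exact_mod_cast hpX) hr (by exact_mod_cast hl) (Int.natCast_nonneg u)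
    (by exact_mod_cast huy) (by exact_mod_cast hu2) hD (by exact_mod_cast h5')

theorem thm_N4r : SDG.St_Nm1 → St_N4r := by
  intro hN t l k e j Y M B p r X ht hke hk he hYj hcY hk1 hM hB h2M h5 h6 h7 h8 hYr hC hpX hl hX hX1 hX2 hl2
  have hc : ∀ t, cf 2 t = 1 + (t + 1) ^ 2 / 4 := hN.2.2.1
  -- we may assume `Y = cf 2 k`
  obtain ⟨y, hy⟩ : ∃ y, y = cf 2 k := ⟨_, rfl⟩
  rw [← hy] at hcY
  have hy0 : 0 < y := by rw [hy, hc]; omega
  have h7 : M * B ≤ p + j / y * (B - 2) :=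
    h7.trans (Nat.add_le_add_left (Nat.mul_le_mul_right _ (Nat.div_le_div_left hcY hy0)) _)
  have hYj : y ≤ j := hcY.trans hYj
  have hYr : y + 1 ≤ r := by omega
  have hC : r * p + j * y ≤ X + j * r := (Nat.add_le_add_left (Nat.mul_le_mul_left _ hcY) _).trans hC
  have hpX : p * y ≤ X := (Nat.mul_le_mul_left _ hcY).trans hpX
  rcases Nat.lt_or_ge t 50 with h50 | h50
  · have e1 := N4r_q_eq hc t (by omega)
    have e2 := N4r_q_eq hc (t - 1) (by omega)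
    have e3 : ∀ n, cf 2 n = N4r_c n := by intro n; rw [hc, N4r_c, sq]
    rw [e1] at hX1
    rw [e2] at hX hl2
    rw [e3] at hX2 hl2 hy
    have hs := N4r_q_step t h50
    have he' : e = t - k := by omega
    subst hy
    subst he'
    refine N4r_small t j k M B p r X l h50 hk (by omega) (by omega) hYj hX hX1 hM hB h2M (by omega) h7 ?_ hYr hC hpX hl
      hX2 hl2
    intro h hh hBh
    have h1 := h8 h hh hBh
    have h2 := hN.2.1 (2 * h) ((t - k) / (2 * h)) ((t - k) % (2 * h)) (by omega) (Nat.mod_lt _ (by omega)).le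
    rw [Nat.div_add_mod] at h2
    have h3 : 2 * (1 + ((t - k) / (2 * h) + 1) * (h * ((t - k) / (2 * h)) + (t - k) % (2 * h))) =
        2 + 2 * h * ((t - k) / (2 * h)) * ((t - k) / (2 * h) + 1) +
          2 * ((t - k) % (2 * h)) * ((t - k) / (2 * h) + 1) := by ring
    omega
  · exact N4r_large hN t l k e j y M B p r X h50 hke hk hYj hy hM hB h5 h6 h7 h8 hC hpX hl hX hX1 hX2 hl2

end Pool.Agent.SNT
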