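import Pool.Agent.SNT.St2

set_option autoImplicit false

noncomputable section

open Finset Pool.Agent.Helper64.Rho Pool.Agent.SDG Pool.Agent.MDR
open scoped Classical Pointwise

namespace Pool.Agent.SNT

private lemma NBr_ce (h : SDG.St_Nm1) (a : ℕ) : cf 2 (2 * a) = a * a + a + 1 := by
  rw [h.2.2.1]
  have e : (2 * a + 1) ^ 2 = 4 * (a * a + a) + 1 := by ring
  rw [e]
  omega

private lemma NBr_co (h : SDG.St_Nm1) (a : ℕ) : cf 2 (2 * a + 1) = a * a + 2 * a + 2 := by
  rw [h.2.2.1]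
  have e : (2 * a + 1 + 1) ^ 2 = 4 * (a * a + 2 * a + 1) := by ring
  rw [e]
  omega

private lemma NBr_aux (l b j X : ℕ) (hb : 3 ≤ b) (hjl : j ≤ l) (h : l * b ≤ X + j * (b - 2)) : 3 * l ≤ X + j := by
  obtain ⟨d, rfl⟩ : ∃ d, l = j + d := ⟨l - j, by omega⟩
  obtain ⟨m, rfl⟩ : ∃ m, b = m + 3 := ⟨b - 3, by omega⟩
  have e : m + 3 - 2 = m + 1 := by omega
  rw [e] at h
  nlinarith [Nat.zero_le (d * m)]

theorem thm_NBr : SDG.St_Nm1 → St_NBr := by
  intro hNm t l b j X ht hl2 hb3 h1 h2 hj hX1 hX2 hl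
  have c0 : cf 2 0 = 1 := by rw [hNm.2.2.1]; norm_num
  have c1 : cf 2 1 = 2 := by rw [hNm.2.2.1]; norm_num
  have c2 : cf 2 2 = 3 := by rw [hNm.2.2.1]; norm_num
  have c3 : cf 2 3 = 5 := by rw [hNm.2.2.1]; norm_num
  have c4 : cf 2 4 = 7 := by rw [hNm.2.2.1]; norm_num
  have c5 : cf 2 5 = 10 := by rw [hNm.2.2.1]; norm_num
  have c6 : cf 2 6 = 13 := by rw [hNm.2.2.1]; norm_num
  have c7 : cf 2 7 = 17 := by rw [hNm.2.2.1]; norm_num
  have c8 : cf 2 8 = 21 := by rw [hNm.2.2.1]; norm_num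
  rcases Nat.lt_or_ge t 9 with h8 | h8
  · interval_cases t
    · simp only [pq] at hX1 hl hj
      norm_num [c1, c2, c3, jj] at hX1 hX2 hl hj h2
      have hj1 : j ≤ 1 := by omega
      have h3 := NBr_aux l b j X hb3 (by omega) h1
      omega
    · simp only [pq] at hX1 hl hj
      norm_num [c1, c2, c3, c4, jj] at hX1 hX2 hl hj h2
      have h3 := NBr_aux l b j X hb3 (by omega) h1
      have hl3 : l = 3 := by omega
      subst hl3
      have hj1 : j ≤ 2 := by omega
      interval_cases j <;> omega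
    · simp only [pq] at hX1 hl hj
      norm_num [c1, c2, c3, c4, c5, jj] at hX1 hX2 hl hj h2
      have hj1 : j ≤ 4 := by omega
      have h3 := NBr_aux l b j X hb3 (by omega) h1
      have hlu : l ≤ 6 := by omega
      interval_cases j <;> interval_cases l <;> omega
    · simp only [pq] at hX1 hl hj
      norm_num [c1, c2, c3, c4, c5, c6, jj] at hX1 hX2 hl hj h2
      have hj1 : j ≤ 4 := by omega
      have h3 := NBr_aux l b j X hb3 (by omega) h1
      have hlu : l ≤ 10 := by omega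
      interval_cases j <;> interval_cases l <;> omega
    · simp only [pq] at hX1 hl hj
      norm_num [c1, c2, c3, c4, c5, c6, c7, jj] at hX1 hX2 hl hj h2
      have hj1 : j ≤ 6 := by omega
      have h3 := NBr_aux l b j X hb3 (by omega) h1
      have hlu : l ≤ 14 := by omega
      interval_cases j <;> interval_cases l <;> omega
    · simp only [pq] at hX1 hl hj
      norm_num [c1, c2, c3, c4, c5, c6, c7, c8, jj] at hX1 hX2 hl hj h2
      have hj1 : j ≤ 7 := by omega
      have h3 := NBr_aux l b j X hb3 (by omega) h1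
      have hlu : l ≤ 14 := by omega
      interval_cases j <;> interval_cases l <;> omega
  · exfalso
    have p1 : pq t = 2 * cf 2 (t - 1) := by
      unfold pq
      rw [if_neg (by omega), if_neg (by omega)]
    have p2 : pq (t - 1) = 2 * cf 2 (t - 2) := by
      unfold pq
      rw [if_neg (by omega), if_neg (by omega), Nat.sub_sub]
    rw [p1] at hX1
    rw [p2] at hl hj
    rcases Nat.even_or_odd' t with ⟨a, ha | ha⟩
    · obtain ⟨c, rfl⟩ : ∃ c, a = c + 5 := ⟨a - 5, by omega⟩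
      have q0 : cf 2 t = (c + 5) * (c + 5) + (c + 5) + 1 := by rw [ha, NBr_ce hNm]
      have q1 : cf 2 (t - 1) = (c + 4) * (c + 4) + 2 * (c + 4) + 2 := by
        rw [show t - 1 = 2 * (c + 4) + 1 by omega, NBr_co hNm]
      have q2 : cf 2 (t - 2) = (c + 4) * (c + 4) + (c + 4) + 1 := by
        rw [show t - 2 = 2 * (c + 4) by omega, NBr_ce hNm]
      rw [q1] at hX1 hl
      rw [q2] at hl hj
      rw [q0] at hX2
      have hj1 : j ≤ 2 * c + 9 := by nlinarith
      have hl1 : c * c + 8 * c + 18 ≤ l := by nlinarith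
      have h3 := NBr_aux l b j X hb3 (by nlinarith [Nat.zero_le (c * c)]) h1
      nlinarith [Nat.zero_le (c * c)]
    · obtain ⟨c, rfl⟩ : ∃ c, a = c + 4 := ⟨a - 4, by omega⟩
      have q0 : cf 2 t = (c + 4) * (c + 4) + 2 * (c + 4) + 2 := by rw [ha, NBr_co hNm]
      have q1 : cf 2 (t - 1) = (c + 4) * (c + 4) + (c + 4) + 1 := by
        rw [show t - 1 = 2 * (c + 4) by omega, NBr_ce hNm]
      have q2 : cf 2 (t - 2) = (c + 3) * (c + 3) + 2 * (c + 3) + 2 := by
        rw [show t - 2 = 2 * (c + 3) + 1 by omega, NBr_co hNm]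
      rw [q1] at hX1 hl
      rw [q2] at hl hj
      rw [q0] at hX2
      have hj1 : j ≤ 2 * c + 7 := by nlinarith
      have hl1 : c * c + 7 * c + 15 ≤ l := by nlinarith
      have h3 := NBr_aux l b j X hb3 (by nlinarith [Nat.zero_le (c * c)]) h1
      nlinarith [Nat.zero_le (c * c)]

end Pool.Agent.SNT
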