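import Pool.Agent.SNT.St2

/-!
# SNT: Nf2, a full row, twice the member in the subgroup (adapted from Nf, helper42)
-/

set_option autoImplicit false

noncomputable section

open Finset Pool.Agent.Helper64.Rho Pool.Agent.SDG Pool.Agent.MDR
open scoped Classical Pointwise

namespace Pool.Agent.SNT

private theorem Nf2_card {G : Type} [AddCommGroup G] (X : Finset G) (C : AddSubgroup G) (Q : Finset (G ⧸ C))
    (h : ∀ x ∈ X, (QuotientAddGroup.mk x : G ⧸ C) ∈ Q) : X.card = ∑ c ∈ Q, (row X C c).card := by
  unfold row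
  exact Finset.card_eq_sum_card_fiberwise h

private theorem Nf2_shift {G : Type} [AddCommGroup G] (T A : Finset G) (C : AddSubgroup G) (v : G) (c : G ⧸ C)
    (h1 : ∀ y ∈ A, y + v ∈ T) (h2 : ∀ y ∈ A, (QuotientAddGroup.mk (y + v) : G ⧸ C) = c) : A.card ≤ (row T C c).card := by
  refine Finset.card_le_card_of_injOn (fun y => y + v) ?_ ?_
  · intro y hy
    have hy' : y ∈ A := hy
    exact Finset.mem_coe.2 (Finset.mem_filter.2 ⟨h1 y hy', h2 y hy'⟩)
  · intro y _ z _ h
    exact add_right_cancel h

theorem thm_Nf2 : St_Rs → SDG.St_Ba1 → St_Nf2 := by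
  intro hRs _ G ι _ _ s f C i x hi hw hww hx
  obtain ⟨hR1, -, -, -⟩ := hRs G ι s f C
  set T := FS s f with hTdef
  have : Fintype G := Fintype.ofFinite G
  set CF : Finset G := univ.filter fun g => g ∈ C with hCF
  have hCcard : Nat.card C = CF.card := Nat.subtype_card CF (fun g => by rw [hCF, Finset.mem_filter]; simp)
  set A : Finset G := CF.image fun g => x + g with hA
  have hAcard : A.card = Nat.card C := by
    rw [hCcard, hA]
    exact Finset.card_image_of_injective _ (add_right_injective x)
  have hAmem : ∀ y ∈ A, y - x ∈ C ∧ y ∈ T := by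
    intro y hy
    rw [hA, Finset.mem_image] at hy
    obtain ⟨g, hg, rfl⟩ := hy
    rw [hCF, Finset.mem_filter] at hg
    refine ⟨?_, hx g hg.2⟩
    rw [add_sub_cancel_left]
    exact hg.2
  have hmk : ∀ y z : G, y - z ∈ C → (QuotientAddGroup.mk y : G ⧸ C) = QuotientAddGroup.mk z := by
    intro y z h
    rw [QuotientAddGroup.eq]
    have h2 := C.neg_mem h
    have e : -y + z = -(y - z) := by abel
    rw [e]
    exact h2
  have hmk' : ∀ y z : G, (QuotientAddGroup.mk y : G ⧸ C) = QuotientAddGroup.mk z → y - z ∈ C := by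
    intro y z h
    rw [QuotientAddGroup.eq] at h
    have h2 := C.neg_mem h
    have e : y - z = -(-y + z) := by abel
    rw [e]
    exact h2
  have hins : FS s f = FS (s.erase i) f ∪ (FS (s.erase i) f).image (· + f i) := by
    have h := FS_insert (Finset.notMem_erase i s) f
    rwa [Finset.insert_erase hi] at h
  have hsplit : ∀ y ∈ T, y + f i ∈ T ∨ y + -(f i) ∈ T := by
    intro y hy
    rw [hTdef, hins, Finset.mem_union, Finset.mem_image] at hy
    rcases hy with hy | ⟨z, hz, rfl⟩
    · left
      rw [hTdef, hins, Finset.mem_union, Finset.mem_image]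
      exact Or.inr ⟨y, hy, rfl⟩
    · right
      rw [add_neg_cancel_right]
      exact FS_mono (Finset.erase_subset _ _) f hz
  -- the rows
  have r0 : Nat.card C ≤ (row T C (QuotientAddGroup.mk x)).card := by
    rw [← hAcard]
    refine Nf2_shift T A C 0 _ ?_ ?_
    · intro y hy
      rw [add_zero]
      exact (hAmem y hy).2
    · intro y hy
      rw [add_zero]
      exact hmk _ _ (hAmem y hy).1
  have r12 : Nat.card C ≤ (row T C (QuotientAddGroup.mk (x + f i))).card +
      (row T C (QuotientAddGroup.mk (x + -(f i)))).card := by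
    have hsub : A ⊆ (A.filter fun y => y + f i ∈ T) ∪ (A.filter fun y => y + -(f i) ∈ T) := by
      intro y hy
      rw [Finset.mem_union, Finset.mem_filter, Finset.mem_filter]
      rcases hsplit y (hAmem y hy).2 with h | h
      · exact Or.inl ⟨hy, h⟩
      · exact Or.inr ⟨hy, h⟩
    have h1 := (Finset.card_le_card hsub).trans (Finset.card_union_le _ _)
    rw [hAcard] at h1
    have h2 : (A.filter fun y => y + f i ∈ T).card ≤ (row T C (QuotientAddGroup.mk (x + f i))).card := by
      refine Nf2_shift T _ C (f i) _ (fun y hy => (Finset.mem_filter.1 hy).2) ?_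
      intro y hy
      refine hmk _ _ ?_
      have e : y + f i - (x + f i) = y - x := by abel
      rw [e]
      exact (hAmem y (Finset.mem_filter.1 hy).1).1
    have h3 : (A.filter fun y => y + -(f i) ∈ T).card ≤ (row T C (QuotientAddGroup.mk (x + -(f i)))).card := by
      refine Nf2_shift T _ C (-(f i)) _ (fun y hy => (Finset.mem_filter.1 hy).2) ?_
      intro y hy
      refine hmk _ _ ?_
      have e : y + -(f i) - (x + -(f i)) = y - x := by abel
      rw [e]
      exact (hAmem y (Finset.mem_filter.1 hy).1).1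
    omega
  have hTq : ∀ y ∈ T, (QuotientAddGroup.mk y : G ⧸ C) ∈ qs T C := fun y hy => Finset.mem_image_of_mem _ hy
  have hmain : ∀ R : Finset (G ⧸ C), (∑ c ∈ R, (row T C c).card) + ((qs T C).card - R.card) * (FS (ins s f C) f).card ≤
      T.card := by
    intro R
    rw [Nf2_card T C (qs T C ∪ R) (fun y hy => Finset.mem_union_left _ (hTq y hy))]
    have hdec : qs T C ∪ R = (qs T C \ R) ∪ R := (Finset.sdiff_union_self_eq_union).symm
    rw [hdec, Finset.sum_union Finset.sdiff_disjoint]
    have h1 : ∀ c ∈ qs T C \ R, (FS (ins s f C) f).card ≤ (row T C c).card := fun c hc =>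
      (hR1 c (Finset.mem_sdiff.1 hc).1).2.2
    have h2 := Finset.card_nsmul_le_sum (qs T C \ R) (fun c => (row T C c).card) _ h1
    rw [smul_eq_mul] at h2
    have h3 : (qs T C).card - R.card ≤ (qs T C \ R).card := Finset.le_card_sdiff R (qs T C)
    have h4 := Nat.mul_le_mul_right (FS (ins s f C) f).card h3
    omega
  have c01 : (QuotientAddGroup.mk x : G ⧸ C) ≠ QuotientAddGroup.mk (x + f i) := by
    intro h
    have := hmk' _ _ h.symm
    rw [add_sub_cancel_left] at this
    exact hw this
  have hc12 : (QuotientAddGroup.mk (x + -(f i)) : G ⧸ C) = QuotientAddGroup.mk (x + f i) := by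
    refine hmk _ _ ?_
    have e : x + -(f i) - (x + f i) = -(f i + f i) := by abel
    rw [e]
    exact C.neg_mem hww
  rw [hc12] at r12
  have h := hmain {QuotientAddGroup.mk x, QuotientAddGroup.mk (x + f i)}
  have hn1 : (QuotientAddGroup.mk x : G ⧸ C) ∉ ({QuotientAddGroup.mk (x + f i)} : Finset (G ⧸ C)) := by
    rw [Finset.mem_singleton]
    exact c01
  rw [Finset.sum_insert hn1, Finset.sum_singleton, Finset.card_insert_of_notMem hn1,
    Finset.card_singleton, show 1 + 1 = 2 from rfl] at h
  omega

end Pool.Agent.SNT
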