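import Pool.Agent.SNT.All
import Pool.Agent.SNT.A1r
import Pool.Agent.SNT.N4r
import Pool.Agent.SNT.NBr
import Pool.Agent.SNT.Nf2
import Pool.Agent.SNG.All
import Pool.Agent.SSX.Main

/-!
# SNT: final assembly for all ranks (helper64)

`all_A1Pr`: `A1P G` for every noncyclic finite abelian group; `all_M1Pr`: the gain `l0 G - 1` at level one, cap 2, in every noncyclic
finite abelian group.
-/

set_option autoImplicit false

noncomputable section

open Finset Pool.Agent.Helper64.Rho Pool.Agent.SDG Pool.Agent.MDR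
open scoped Classical Pointwise

namespace Pool.Agent.SNT

theorem all_PAG (G : Type) [AddCommGroup G] [Finite G] : Pool.Agent.SNG.PAG G :=
  fun ι s f h0 hc hA => Pool.Agent.SSX.PAG_all G ι s f h0 hc hA

theorem all_NBr : St_NBr := thm_NBr Pool.Agent.SDG.all_Nm1
theorem all_N4r : St_N4r := thm_N4r Pool.Agent.SDG.all_Nm1
theorem all_Nf2 : St_Nf2 := thm_Nf2 all_Rs Pool.Agent.SDG.all_Ba1

/-- small `t`, cap 2, every noncyclic group -/
theorem all_A1Pr (G : Type) [AddCommGroup G] [Finite G] (hcyc : ¬ IsAddCyclic G) :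
    Pool.Agent.SNG.A1P G :=
  thm_A1Pr all_T1 all_Rs all_Nf all_NI all_NII all_E5 all_NBr all_Pn all_E6 all_N4r all_Nf2
    (fun K _ _ => all_PAG K) G hcyc

/-- **the gain at level one**, cap 2, every noncyclic group -/
theorem all_M1Pr (G : Type) [AddCommGroup G] [Finite G] (hcyc : ¬ IsAddCyclic G) :
    Pool.Agent.SNW.M1P G (Pool.Agent.SNW.l0 G - 1) :=
  Pool.Agent.SNG.all_M1P G (all_PAG G) (all_A1Pr G hcyc) hcyc

end Pool.Agent.SNT
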