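import Pool.Agent.SNT.St
import Pool.Agent.SSE.St2

/-!
# [SNT As] antisymmetric families in cyclic groups (MP_ec93d3_co)
-/

set_option autoImplicit false

noncomputable section

open Finset Pool.Agent.Helper64.Rho Pool.Agent.SDG Pool.Agent.MDR
open scoped Classical Pointwise

namespace Pool.Agent.SNT

theorem thm_As : SSE.St_B3E → SSE.St_PFE → SDG.St_Ba1 → SDG.St_Nm1 → St_As := by
  intro hB3 hPF hBa hNm G ι _ _ s f hcyc hAS hAp h1
  have hB := hBa G ι f
  have hne : ∀ i ∈ s, f i + f i ≠ 0 := by
    intro i hi h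
    apply hB.2.2.2.2.1 s i hi hAp (hAS.1 i hi)
    exact eq_neg_of_add_eq_zero_left h
  have hE : SSE.AE s f := ⟨hAS, hne⟩
  by_cases h3 : s.card ≤ 3
  · have h2 := hB3 G ι s f hE h3
    have h4 : s.card = 1 ∨ s.card = 2 ∨ s.card = 3 := by omega
    rcases h4 with h4 | h4 | h4 <;> rw [h4] at h2 ⊢ <;> omega
  · by_cases h4 : s.card = 4
    · obtain ⟨i, hi⟩ := card_pos.1 h1
      have hc : (s.erase i).card = 3 := by
        rw [card_erase_of_mem hi]
        omega
      have hsub : s.erase i ⊆ s := erase_subset i s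
      have hE' : SSE.AE (s.erase i) f := by
        refine ⟨⟨fun j hj => hAS.1 j (hsub hj), fun x => ?_⟩, fun j hj => hne j (hsub hj)⟩
        exact (card_le_card (filter_subset_filter _ hsub)).trans (hAS.2 x)
      have h2 := hB3 G ι (s.erase i) f hE' (by omega)
      rw [hc] at h2
      have h5 := hB.2.2.1 s i hi
      have h6 : 1 ≤ lam (FS s f) (f i) := by
        by_contra h7
        have h8 : lam (FS s f) (f i) = 0 := by omega
        apply hAS.1 i hi
        apply hAp
        intro x hx
        by_contra h9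
        unfold lam at h8
        rw [card_eq_zero] at h8
        have h10 : x ∈ (FS s f).filter fun x => x + f i ∉ FS s f := mem_filter.2 ⟨hx, h9⟩
        rw [h8] at h10
        exact notMem_empty x h10
      omega
    · have h2 := hPF s.card G ι s f hcyc rfl hAS.1 (fun x => (hAS.2 x).trans (by omega)) hAp
      rw [hNm.2.2.1] at h2
      have h5 : 2 * s.card - 1 ≤ (s.card + 1) ^ 2 / 4 := by
        rw [Nat.le_div_iff_mul_le (by omega)]
        obtain ⟨l, hl⟩ : ∃ l, s.card = l + 5 := ⟨s.card - 5, by omega⟩
        rw [hl]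
        have : 2 * (l + 5) - 1 = 2 * l + 9 := by omega
        rw [this]
        nlinarith [Nat.zero_le (l * l)]
      omega

end Pool.Agent.SNT
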