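import Pool.Agent.SNT.St

/-!
# SNT, E5: five members, a subgroup of order four
-/

set_option autoImplicit false

noncomputable section

open Finset Pool.Agent.Helper64.Rho Pool.Agent.SDG Pool.Agent.MDR
open scoped Classical Pointwise

namespace Pool.Agent.SNT

private theorem E5_FS {G ι : Type} [AddCommGroup G] (s : Finset ι) (f f' : ι → G)
    (h : ∀ i ∈ s, f' i = f i ∨ f' i = -f i) : ∃ c : G, FS s f' = (FS s f).image (· + c) := by
  induction s using Finset.induction_on with
  | empty =>
    refine ⟨0, ?_⟩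
    rw [FS_empty, FS_empty, image_singleton, add_zero]
  | insert a s ha ih =>
    obtain ⟨c, hc⟩ := ih fun i hi => h i (mem_insert_of_mem hi)
    rcases h a (mem_insert_self a s) with h1 | h1
    · refine ⟨c, ?_⟩
      rw [FS_insert ha, FS_insert ha, hc, image_union, image_image, image_image, h1]
      congr 1
      refine image_congr fun x _ => ?_
      simp only [Function.comp_apply]
      abel
    · refine ⟨c - f a, ?_⟩
      rw [FS_insert ha, FS_insert ha, hc, image_union, image_image, image_image, h1, union_comm]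
      congr 1
      · refine image_congr fun x _ => ?_
        simp only [Function.comp_apply]
        abel
      · refine image_congr fun x _ => ?_
        simp only [Function.comp_apply]
        abel

/-- a row has at least two elements, and at least three if there are two different sums -/
private theorem E5_two {G : Type} [AddCommGroup G] (K : Finset G) (a : G) (ha : a ≠ 0)
    (hK : K.Nonempty) : 2 ≤ (K + {0, a} : Finset G).card := by
  obtain ⟨y, hy⟩ := hK
  have h1 : ({y, y + a} : Finset G) ⊆ K + {0, a} := by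
    intro z hz
    rcases mem_insert.1 hz with rfl | hz
    · exact mem_add.2 ⟨z, hy, 0, by simp, add_zero z⟩
    · rw [mem_singleton.1 hz]
      exact mem_add.2 ⟨y, hy, a, by simp, rfl⟩
  have h2 : ({y, y + a} : Finset G).card = 2 := by
    apply card_pair
    intro h
    exact ha (by simpa using h.symm)
  rw [← h2]
  exact card_le_card h1

private theorem E5_three {G : Type} [AddCommGroup G] (K : Finset G) (a : G) (ha : a ≠ 0)
    (ha2 : a + a ≠ 0) (hK : 2 ≤ K.card) : 3 ≤ (K + {0, a} : Finset G).card := by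
  obtain ⟨y, hy, y', hy', hne⟩ := one_lt_card.1 (show 1 < K.card by omega)
  have m0 : ∀ z ∈ K, z ∈ K + ({0, a} : Finset G) := fun z hz =>
    mem_add.2 ⟨z, hz, 0, by simp, add_zero z⟩
  have m1 : ∀ z ∈ K, z + a ∈ K + ({0, a} : Finset G) := fun z hz =>
    mem_add.2 ⟨z, hz, a, by simp, rfl⟩
  by_cases h : y' = y + a
  · have h3 : ({y, y + a, y + a + a} : Finset G) ⊆ K + {0, a} := by
      intro z hz
      rcases mem_insert.1 hz with rfl | hz
      · exact m0 _ hy
      rcases mem_insert.1 hz with rfl | hz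
      · exact m1 _ hy
      · rw [mem_singleton.1 hz, ← h]
        exact m1 _ hy'
    have h4 : ({y, y + a, y + a + a} : Finset G).card = 3 := by
      apply card_eq_three.2
      refine ⟨y, y + a, y + a + a, ?_, ?_, ?_, rfl⟩
      · intro h
        exact ha (by simpa using h.symm)
      · intro h
        rw [add_assoc] at h
        exact ha2 (by simpa using h.symm)
      · intro h
        exact ha (by simpa using h.symm)
    rw [← h4]
    exact card_le_card h3
  · have h3 : ({y, y + a, y'} : Finset G) ⊆ K + {0, a} := by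
      intro z hz
      rcases mem_insert.1 hz with rfl | hz
      · exact m0 _ hy
      rcases mem_insert.1 hz with rfl | hz
      · exact m1 _ hy
      · rw [mem_singleton.1 hz]
        exact m0 _ hy'
    have h4 : ({y, y + a, y'} : Finset G).card = 3 := by
      apply card_eq_three.2
      refine ⟨y, y + a, y', ?_, hne, fun h' => h h'.symm, rfl⟩
      intro h
      exact ha (by simpa using h.symm)
    rw [← h4]
    exact card_le_card h3

private theorem E5_oc (hOc : St_Oc) {Q ι : Type} [AddCommGroup Q] [Finite Q] [inst : DecidableEq Q]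
    (o : Finset ι) (fb : ι → Q) (g : ℕ) (hcyc : IsAddCyclic Q) (h0 : ∀ i ∈ o, fb i ≠ 0)
    (hA : Aper (FS o fb)) (hg : 1 ≤ g) (hc : Cap g o fb) : 2 * o.card + 1 ≤ (FS o fb).card + g := by
  obtain rfl : inst = fun a b => Classical.propDecidable (a = b) := Subsingleton.elim _ _
  exact hOc Q ι o fb g hcyc h0 hA hg hc

private theorem E5_cap {Q ι : Type} [AddCommGroup Q] (o : Finset ι) (fb : ι → Q) (g : ℕ)
    (h : o.card ≤ g) : Cap g o fb := fun _ => (card_le_card (filter_subset _ _)).trans h

private theorem E5_ncap {Q ι : Type} [AddCommGroup Q] (o : Finset ι) (fb : ι → Q)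
    (h : o.card = 4) (hc : ¬ Cap 3 o fb) : ∃ y : Q, ∀ i ∈ o, fb i = y ∨ fb i = -y := by
  unfold Cap at hc
  push Not at hc
  obtain ⟨y, hy⟩ := hc
  refine ⟨y, fun i hi => ?_⟩
  have h1 : (o.filter fun i => fb i = y ∨ fb i = -y) = o := by
    apply eq_of_subset_of_card_le (filter_subset _ _)
    omega
  rw [← h1] at hi
  exact (mem_filter.1 hi).2

/-- the normalised case -/
private theorem E5_main {G ι : Type} [AddCommGroup G] [Finite G] (hRw : St_Rw) (hOc : St_Oc)
    (hBa : SDG.St_Ba1) (s : Finset ι) (f : ι → G) (C : AddSubgroup G) (x w : G)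
    (h0 : ∀ i ∈ s, f i ≠ 0) (hcap : Cap 2 s f) (hA : Aper (FS s f)) (ho : (outs s f C).card = 4)
    (h1 : (ins s f C).card = 1) (hC : Nat.card C = 4) (hcyc : IsAddCyclic (G ⧸ C))
    (hAo : Aper (FS (outs s f C) (bar f C))) (hw : ∀ i ∈ outs s f C, f i - w ∈ C)
    (hx : ∀ g ∈ C, x + g ∈ FS s f) : 13 ≤ (FS s f).card := by
  obtain ⟨b1, b2, b3, b4, b5, b6, b7⟩ := hBa G ι f
  obtain ⟨i0, hi0⟩ := card_eq_one.1 h1
  have hi0s : i0 ∈ s ∧ f i0 ∈ C := by
    have : i0 ∈ ins s f C := by rw [hi0]; exact mem_singleton_self _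
    exact mem_filter.1 this
  have ha : f i0 ≠ 0 := h0 i0 hi0s.1
  have ha2 : f i0 + f i0 ≠ 0 := by
    intro h
    exact b5 s i0 hi0s.1 hA ha (eq_neg_of_add_eq_zero_left h)
  -- the set of sums
  have hs : s = outs s f C ∪ ins s f C := by
    unfold outs ins
    ext i
    rw [mem_union, mem_filter, mem_filter]
    tauto
  have hd : Disjoint (outs s f C) (ins s f C) := by
    unfold outs ins
    rw [disjoint_left]
    intro i hi hi'
    exact (mem_filter.1 hi).2 (mem_filter.1 hi').2
  have hT : FS s f = FS (outs s f C) f + {0, f i0} := by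
    have h2 : FS {i0} f = {0, f i0} := by
      rw [← insert_empty_eq, FS_insert (notMem_empty _), FS_empty, image_singleton, zero_add]
      rfl
    calc FS s f = FS (outs s f C ∪ ins s f C) f := by rw [← hs]
      _ = FS (outs s f C) f + FS (ins s f C) f := b1 _ _ hd
      _ = FS (outs s f C) f + {0, f i0} := by rw [hi0, h2]
  set o := outs s f C with ho'
  have ho0 : ∀ i ∈ o, i ∈ s ∧ f i ∉ C := fun i hi => mem_filter.1 hi
  -- the rows
  have hmk : ∀ i ∈ o, (QuotientAddGroup.mk (f i) : G ⧸ C) = QuotientAddGroup.mk w := by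
    intro i hi
    rw [QuotientAddGroup.eq]
    have := hw i hi
    have h3 : -f i + w = -(f i - w) := by abel
    rw [h3]
    exact C.neg_mem this
  have hsum : ∀ t ⊆ o, (QuotientAddGroup.mk (∑ i ∈ t, f i) : G ⧸ C) =
      t.card • (QuotientAddGroup.mk w : G ⧸ C) := by
    intro t ht
    have h3 : (QuotientAddGroup.mk (∑ i ∈ t, f i) : G ⧸ C) =
        ∑ i ∈ t, (QuotientAddGroup.mk (f i) : G ⧸ C) := map_sum (QuotientAddGroup.mk' C) _ _
    rw [h3, sum_congr rfl fun i hi => hmk i (ht hi), sum_const]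
  have hsumb : ∀ t ⊆ o, ∑ i ∈ t, bar f C i = t.card • (QuotientAddGroup.mk w : G ⧸ C) := by
    intro t ht
    unfold bar
    rw [sum_congr rfl fun i hi => hmk i (ht hi), sum_const]
  -- five rows
  have hN : 5 ≤ (FS o (bar f C)).card := by
    have h3 := E5_oc hOc o (bar f C) 4 hcyc
      (fun i hi h => (ho0 i hi).2 ((QuotientAddGroup.eq_zero_iff _).1 h)) hAo (by omega)
      (E5_cap _ _ _ ho.le)
    omega
  have hinj : Set.InjOn (fun k : ℕ => k • (QuotientAddGroup.mk w : G ⧸ C)) (range 5 : Finset ℕ) := by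
    apply injOn_of_card_image_eq
    apply le_antisymm card_image_le
    rw [card_range]
    refine hN.trans (card_le_card ?_)
    intro y hy
    obtain ⟨t, ht, rfl⟩ := mem_FS.1 hy
    rw [hsumb t ht]
    refine mem_image.2 ⟨t.card, ?_, rfl⟩
    rw [mem_range]
    have := card_le_card ht
    omega
  set R : ℕ → Finset G := fun k => ks f o k + {0, f i0} with hR
  have hRrow : ∀ k, ∀ y ∈ R k, (QuotientAddGroup.mk y : G ⧸ C) = k • QuotientAddGroup.mk w := by
    intro k y hy
    obtain ⟨u, hu, v, hv, rfl⟩ := mem_add.1 hy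
    obtain ⟨S, hS, rfl⟩ := mem_image.1 hu
    obtain ⟨hS1, hS2⟩ := mem_powersetCard.1 hS
    rw [QuotientAddGroup.mk_add, hsum S hS1, hS2]
    have hv' : (QuotientAddGroup.mk v : G ⧸ C) = 0 := by
      rw [QuotientAddGroup.eq_zero_iff]
      rcases mem_insert.1 hv with rfl | hv
      · exact C.zero_mem
      · rw [mem_singleton.1 hv]
        exact hi0s.2
    rw [hv', add_zero]
  have hTR : ∀ y ∈ FS s f, ∃ k ∈ range 5, y ∈ R k := by
    intro y hy
    rw [hT] at hy
    obtain ⟨u, hu, v, hv, rfl⟩ := mem_add.1 hy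
    obtain ⟨S, hS, rfl⟩ := mem_FS.1 hu
    refine ⟨S.card, ?_, mem_add.2 ⟨_, mem_image.2 ⟨S, mem_powersetCard.2 ⟨hS, rfl⟩, rfl⟩, v, hv, rfl⟩⟩
    rw [mem_range]
    have := card_le_card hS
    omega
  have hRT : ∀ k, R k ⊆ FS s f := by
    intro k y hy
    rw [hT]
    obtain ⟨u, hu, v, hv, rfl⟩ := mem_add.1 hy
    obtain ⟨S, hS, rfl⟩ := mem_image.1 hu
    exact mem_add.2 ⟨_, mem_FS.2 ⟨S, (mem_powersetCard.1 hS).1, rfl⟩, v, hv, rfl⟩
  have hdis : ∀ k ∈ range 5, ∀ l ∈ range 5, k ≠ l → Disjoint (R k) (R l) := by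
    intro k hk l hl hkl
    rw [disjoint_left]
    intro y hy hy'
    exact hkl (hinj hk hl ((hRrow k y hy).symm.trans (hRrow l y hy')))
  have hcard : ∑ k ∈ range 5, (R k).card ≤ (FS s f).card := by
    rw [← card_biUnion hdis]
    exact card_le_card (biUnion_subset.2 fun k _ => hRT k)
  -- sizes of the rows
  have hne : ∀ k, k ≤ 4 → (ks f o k).Nonempty := by
    intro k hk
    unfold ks
    apply Nonempty.image
    rw [powersetCard_nonempty, ho]
    exact hk
  have hR2 : ∀ k, k ≤ 4 → 2 ≤ (R k).card := fun k hk => E5_two _ _ ha (hne k hk)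
  obtain ⟨w1, w2, w3⟩ := hRw G ι o f
  have hval : 2 ≤ (o.image f).card := by
    have h3 := w3 fun y => by
      refine (card_le_card ?_).trans (hcap y)
      intro i hi
      obtain ⟨hi1, hi2⟩ := mem_filter.1 hi
      exact mem_filter.2 ⟨(ho0 i hi1).1, Or.inl hi2⟩
    omega
  have hks : ∀ k, 1 ≤ k → k + 1 ≤ 4 → 2 ≤ (ks f o k).card := by
    intro k hk hk'
    have h3 := w2 k hk (by rw [ho]; exact hk')
    refine le_trans ?_ h3
    rw [ho]
    exact le_min hval (by norm_num)
  have hR3 : ∀ k, 1 ≤ k → k + 1 ≤ 4 → 3 ≤ (R k).card := fun k hk hk' =>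
    E5_three _ _ ha ha2 (hks k hk hk')
  -- the full row
  have hfull : ∃ k ∈ range 5, 4 ≤ (R k).card := by
    obtain ⟨k, hk, hxk⟩ := hTR x (by simpa using hx 0 C.zero_mem)
    refine ⟨k, hk, ?_⟩
    have h3 : ∀ g ∈ C, x + g ∈ R k := by
      intro g hg
      obtain ⟨l, hl, hxl⟩ := hTR _ (hx g hg)
      have h4 : (QuotientAddGroup.mk (x + g) : G ⧸ C) = QuotientAddGroup.mk x := by
        rw [QuotientAddGroup.mk_add, (QuotientAddGroup.eq_zero_iff g).2 hg, add_zero]
      have h5 := (hRrow l _ hxl).symm.trans (h4.trans (hRrow k x hxk))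
      have h6 : l = k := hinj hl hk h5
      rw [← h6]
      exact hxl
    have h7 : ((Set.toFinite (C : Set G)).toFinset.image (x + ·)) ⊆ R k := by
      intro y hy
      obtain ⟨g, hg, rfl⟩ := mem_image.1 hy
      exact h3 g (by simpa using hg)
    have h8 := card_le_card h7
    rw [card_image_of_injective _ (add_right_injective x)] at h8
    have h9 : Nat.card C = (Set.toFinite (C : Set G)).toFinset.card :=
      Nat.card_eq_card_finite_toFinset (Set.toFinite (C : Set G))
    omega
  have e : ∑ k ∈ range 5, (R k).card = (R 0).card + (R 1).card + (R 2).card + (R 3).card + (R 4).card := by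
    simp [sum_range_succ]
  rw [e] at hcard
  have t0 := hR2 0 (by omega)
  have t2 := hR2 2 (by omega)
  have t4 := hR2 4 (by omega)
  have t1 := hR3 1 (by omega) (by omega)
  have t3 := hR3 3 (by omega) (by omega)
  obtain ⟨k, hk, hk4⟩ := hfull
  have hk5 := mem_range.1 hk
  interval_cases k <;> omega

theorem thm_E5 : St_Oc → St_Rs → St_Rw → St_Nf → MDR.St_Sg → SDG.St_Ba1 → St_E5 := by
  intro hOc hRs hRw hNf hSg hBa G ι _ _ s f C x h0 hcap hA hs hi hC hgen hcyc hAo hx
  have ho : (outs s f C).card = 4 := by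
    have h1 : (ins s f C).card + (outs s f C).card = s.card := by
      unfold ins outs
      exact card_filter_add_card_filter_not _
    omega
  have ho0 : ∀ i ∈ outs s f C, i ∈ s ∧ f i ∉ C := fun i hi => mem_filter.1 hi
  obtain ⟨b1, b2, b3, b4, b5, b6, b7⟩ := hBa G ι f
  obtain ⟨r1, r2, r3, r4⟩ := hRs G ι s f C
  have hb0 : ∀ i ∈ outs s f C, bar f C i ≠ 0 :=
    fun i hi h => (ho0 i hi).2 ((QuotientAddGroup.eq_zero_iff _).1 h)
  -- the sums of the member in `C`
  obtain ⟨i0, hi0⟩ := card_eq_one.1 hi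
  have hi0s : i0 ∈ s ∧ f i0 ∈ C := by
    have : i0 ∈ ins s f C := by rw [hi0]; exact mem_singleton_self _
    exact mem_filter.1 this
  have hU : (FS (ins s f C) f).card = 2 := by
    rw [hi0, ← insert_empty_eq, FS_insert (notMem_empty _), FS_empty, image_singleton, zero_add]
    exact card_pair (h0 i0 hi0s.1).symm
  by_contra hlt
  push Not at hlt
  -- one class
  obtain ⟨i1, hi1⟩ : (outs s f C).Nonempty := card_pos.1 (by omega)
  have h2 : f i1 + f i1 ∉ C := by
    intro h
    have h3 : ∀ (Q : Type) [AddCommGroup Q] [inst : DecidableEq Q] (o : Finset ι) (fb : ι → Q), i1 ∈ o →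
        Aper (FS o fb) → fb i1 ≠ 0 → fb i1 ≠ - fb i1 := by
      intro Q _ inst o fb hm hap hz
      obtain rfl : inst = fun a b => Classical.propDecidable (a = b) := Subsingleton.elim _ _
      exact (hBa Q ι fb).2.2.2.2.1 o i1 hm hap hz
    refine h3 (G ⧸ C) (outs s f C) (bar f C) hi1 hAo (hb0 i1 hi1) ?_
    have h4 : bar f C i1 + bar f C i1 = 0 := by
      have h5 : (QuotientAddGroup.mk (f i1 + f i1) : G ⧸ C) = 0 := (QuotientAddGroup.eq_zero_iff _).2 h
      rw [QuotientAddGroup.mk_add] at h5
      exact h5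
    exact eq_neg_of_add_eq_zero_left h4
  obtain ⟨n1, -⟩ := hNf G ι s f C i1 x (ho0 i1 hi1).1 (ho0 i1 hi1).2 h2 hx
  rw [hC, hU, ← r4] at n1
  have hnc : ¬ Cap 3 (outs s f C) (bar f C) := by
    intro hc
    have h3 := E5_oc hOc (outs s f C) (bar f C) 3 hcyc hb0 hAo (by omega) hc
    omega
  obtain ⟨y, hy⟩ := E5_ncap _ _ ho hnc
  obtain ⟨w, rfl⟩ := QuotientAddGroup.mk_surjective y
  -- change of signs
  set f' : ι → G := fun i => if f i ∈ C ∨ f i - w ∈ C then f i else - f i with hf'
  have hpm : ∀ i ∈ s, f' i = f i ∨ f' i = - f i := by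
    intro i _
    simp only [hf']
    split_ifs
    · exact Or.inl rfl
    · exact Or.inr rfl
  have hmem : ∀ i, f' i ∈ C ↔ f i ∈ C := by
    intro i
    simp only [hf']
    split_ifs
    · exact Iff.rfl
    · exact C.neg_mem_iff
  have hins : ins s f' C = ins s f C := filter_congr fun i _ => hmem i
  have houts : outs s f' C = outs s f C := filter_congr fun i _ => not_congr (hmem i)
  obtain ⟨g1, g2, -, -, g5, -, -, -⟩ := hSg G ι s f f' hpm
  obtain ⟨c, hc⟩ := E5_FS s f f' hpm
  have hw : ∀ i ∈ outs s f C, f' i - w ∈ C := by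
    intro i hi
    have h3 := (ho0 i hi).2
    by_cases h4 : f i - w ∈ C
    · have : f' i = f i := by
        simp only [hf']
        rw [if_pos (Or.inr h4)]
      rw [this]
      exact h4
    · have : f' i = - f i := by
        simp only [hf']
        rw [if_neg (by tauto)]
      rw [this]
      rcases hy i hi with h5 | h5
      · exfalso
        apply h4
        have h6 := QuotientAddGroup.eq.1 h5
        have h7 : f i - w = -(-f i + w) := by abel
        rw [h7]
        exact C.neg_mem h6
      · have h6 : (QuotientAddGroup.mk (f i) : G ⧸ C) = QuotientAddGroup.mk (-w) := h5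
        have h7 := QuotientAddGroup.eq.1 h6
        have h8 : -f i - w = -f i + -w := by abel
        rw [h8]
        exact h7
  have hAo' : Aper (FS (outs s f C) (bar f' C)) := by
    have h3 : ∀ (Q : Type) [AddCommGroup Q] [inst : DecidableEq Q] (o : Finset ι) (fb fb' : ι → Q),
        (∀ i ∈ o, fb' i = fb i ∨ fb' i = - fb i) → Aper (FS o fb) → Aper (FS o fb') := by
      intro Q _ inst o fb fb' hpm' hap
      obtain rfl : inst = fun a b => Classical.propDecidable (a = b) := Subsingleton.elim _ _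
      exact (hSg Q ι o fb fb' hpm').2.1 hap
    refine h3 (G ⧸ C) (outs s f C) (bar f C) (bar f' C) (fun i hi => ?_) hAo
    rcases hpm i (ho0 i hi).1 with h4 | h4
    · left
      unfold bar
      rw [h4]
    · right
      unfold bar
      rw [h4]
      rfl
  have h13 := E5_main hRw hOc hBa s f' C (x + c) w
    (fun i hi h => h0 i hi (by
      rcases hpm i hi with h3 | h3
      · rw [← h3, h]
      · rw [← neg_neg (f i), ← h3, h, neg_zero]))
    (g5 2 hcap) (g2 hA) (by rw [houts]; exact ho) (by rw [hins]; exact hi) hC hcyc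
    (by rw [houts]; exact hAo') (by rw [houts]; exact hw) (fun g hg => by
      rw [hc]
      exact mem_image.2 ⟨x + g, hx g hg, by abel⟩)
  rw [g1] at h13
  omega

end Pool.Agent.SNT
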