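import Pool.Agent.SNT.St

set_option autoImplicit false

noncomputable section

open Finset Pool.Agent.Helper64.Rho Pool.Agent.SDG Pool.Agent.MDR
open scoped Classical Pointwise

namespace Pool.Agent.SNT

/-- `cf 2 t` for the kernel -/
def N4_c (t : ℕ) : ℕ := 1 + (t + 1) * (t + 1) / 4

/-- `pq t` for the kernel -/
def N4_q (t : ℕ) : ℕ := cond (Nat.beq t 4) 9 (cond (Nat.beq t 6) 19 (2 + 2 * (t * t / 4)))

/-- maximum for the kernel -/
def N4_m (a b : ℕ) : ℕ := cond (Nat.ble a b) b a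

/-- the least possible `p` -/
def N4_p (t Y j M : ℕ) : ℕ :=
  N4_m (cond (Nat.ble 3 Y) (2 * t - 2 - Y) (2 * t - 3)) (cond (Nat.ble M (j / Y)) 0 (M * (M - j / Y) + 2 * (j / Y)))

/-- the least possible `r` -/
def N4_r (t Y j M : ℕ) : ℕ :=
  N4_m (Y + 1) (N4_m ((N4_q (t - 1) + 2 - N4_c (t - 1) + M - 1) / M) ((j + N4_q (t - 1) + 2 - N4_c t + M - 1) / M))

/-- the test for one quadruple -/
def N4_t (t Y j M : ℕ) : Bool :=
  cond (Nat.ble (N4_p t Y j M * Y) (j + N4_q (t - 1)))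
    (Nat.blt (j + N4_q (t - 1) + j * N4_r t Y j M) (N4_r t Y j M * N4_p t Y j M + j * Y)) true

/-- all quadruples with `t` given -/
def N4_T (t : ℕ) : Bool :=
  (List.range t).all fun Y => cond (Nat.ble Y 1) true ((List.range t).all fun j =>
    cond (Nat.ble Y j) (cond (Nat.ble (N4_q t) (j + N4_q (t - 1))) true
      ((List.range 24).all fun M => cond (Nat.ble M 1) true (N4_t t Y j M))) true)

def N4_A : Bool := (List.range 30).all fun t => cond (Nat.ble t 3) true (N4_T t)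

private theorem N4_A_true : N4_A = true := by decide +kernel

private theorem N4_m_le {a b n : ℕ} (h1 : a ≤ n) (h2 : b ≤ n) : N4_m a b ≤ n := by
  unfold N4_m
  cases Nat.ble a b <;> simpa

private theorem N4_le_m1 (a b : ℕ) : a ≤ N4_m a b := by
  unfold N4_m
  rcases h : Nat.ble a b with _ | _
  · simp
  · simpa using Nat.le_of_ble_eq_true h

private theorem N4_get (t Y j M : ℕ) (ht : 4 ≤ t) (ht2 : t < 30) (hY : 2 ≤ Y) (hYt : Y < t) (hj : j < t) (hYj : Y ≤ j)
    (hX : j + N4_q (t - 1) < N4_q t) (hM : 2 ≤ M) (hM2 : M < 24) : N4_t t Y j M = true := by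
  have h := N4_A_true
  unfold N4_A at h
  rw [List.all_eq_true] at h
  have h1 := h t (List.mem_range.2 ht2)
  have e1 : Nat.ble t 3 = false := by
    rw [Bool.eq_false_iff]; intro hh; have := Nat.le_of_ble_eq_true hh; omega
  rw [e1, cond_false] at h1
  unfold N4_T at h1
  rw [List.all_eq_true] at h1
  have h2 := h1 Y (List.mem_range.2 hYt)
  have e2 : Nat.ble Y 1 = false := by
    rw [Bool.eq_false_iff]; intro hh; have := Nat.le_of_ble_eq_true hh; omega
  rw [e2, cond_false, List.all_eq_true] at h2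
  have h3 := h2 j (List.mem_range.2 hj)
  have e3 : Nat.ble Y j = true := Nat.ble_eq_true_of_le hYj
  have e4 : Nat.ble (N4_q t) (j + N4_q (t - 1)) = false := by
    rw [Bool.eq_false_iff]; intro hh; have := Nat.le_of_ble_eq_true hh; omega
  rw [e3, cond_true, e4, cond_false, List.all_eq_true] at h3
  have h4 := h3 M (List.mem_range.2 hM2)
  have e5 : Nat.ble M 1 = false := by
    rw [Bool.eq_false_iff]; intro hh; have := Nat.le_of_ble_eq_true hh; omega
  rwa [e5, cond_false] at h4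

/-- small `t` -/
private theorem N4_small (t Y j M p r X l : ℕ) (ht : 4 ≤ t) (ht2 : t < 30) (hY : 2 ≤ Y) (hj : j < t) (hYj : Y ≤ j)
    (hX : j + N4_q (t - 1) = X) (hX1 : X + 1 ≤ N4_q t) (hM : 2 ≤ M)
    (hp1 : 3 ≤ Y → 2 * t ≤ p + 2 + Y) (hp2 : Y = 2 → 2 * t ≤ p + 3)
    (hD : j / Y < M → M * (M - j / Y) + 2 * (j / Y) ≤ p) (hYr : Y + 1 ≤ r) (hC : r * p + j * Y ≤ X + j * r) (hB : p * Y ≤ X)
    (hl : l ≤ r * M) (hX2 : X + 2 ≤ N4_c t + l) (hl2 : N4_q (t - 1) + 2 ≤ N4_c (t - 1) + l) : False := by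
  have hq : N4_q t ≤ 452 := by
    unfold N4_q
    cases Nat.beq t 4 <;> cases Nat.beq t 6 <;> simp
    have : t * t ≤ 29 * 29 := Nat.mul_le_mul (by omega) (by omega)
    omega
  have hM2 : M < 24 := by
    by_contra hM2
    push Not at hM2
    have hu : j / Y ≤ 14 := by
      have : j / Y ≤ j / 2 := Nat.div_le_div_left hY (by norm_num)
      omega
    have h1 := hD (by omega)
    have h2 : 24 * 10 ≤ M * (M - j / Y) := Nat.mul_le_mul hM2 (by omega)
    have h3 : p * 2 ≤ p * Y := Nat.mul_le_mul_left _ hY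
    omega
  have hT := N4_get t Y j M ht ht2 hY (by omega) hj hYj (by omega) hM hM2
  unfold N4_t at hT
  have hp0 : N4_p t Y j M ≤ p := by
    unfold N4_p
    refine N4_m_le ?_ ?_
    · rcases h : Nat.ble 3 Y with _ | _
      · rw [cond_false]
        have : ¬ 3 ≤ Y := fun hh => by rw [Nat.ble_eq_true_of_le hh] at h; exact absurd h (by decide)
        have := hp2 (by omega)
        omega
      · rw [cond_true]
        have := hp1 (Nat.le_of_ble_eq_true h)
        omega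
    · rcases h : Nat.ble M (j / Y) with _ | _
      · rw [cond_false]
        have : ¬ M ≤ j / Y := fun hh => by rw [Nat.ble_eq_true_of_le hh] at h; exact absurd h (by decide)
        exact hD (by omega)
      · exact Nat.zero_le _
  have hr0 : N4_r t Y j M ≤ r := by
    unfold N4_r
    refine N4_m_le hYr (N4_m_le ?_ ?_)
    · rw [← Nat.lt_succ_iff, Nat.div_lt_iff_lt_mul (by omega)]
      have : r.succ * M = r * M + M := Nat.succ_mul r M
      omega
    · rw [← Nat.lt_succ_iff, Nat.div_lt_iff_lt_mul (by omega)]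
      have : r.succ * M = r * M + M := Nat.succ_mul r M
      omega
  have hpj : j ≤ N4_p t Y j M := by
    refine le_trans ?_ (N4_le_m1 _ _)
    rcases h : Nat.ble 3 Y with _ | _
    · rw [cond_false]; omega
    · rw [cond_true]; omega
  have hb : Nat.ble (N4_p t Y j M * Y) (j + N4_q (t - 1)) = true :=
    Nat.ble_eq_true_of_le (le_trans (Nat.mul_le_mul_right _ hp0) (by omega))
  rw [hb, cond_true] at hT
  have hT2 : j + N4_q (t - 1) + j * N4_r t Y j M < N4_r t Y j M * N4_p t Y j M + j * Y := Nat.le_of_ble_eq_true hT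
  obtain ⟨d, hd⟩ := Nat.exists_eq_add_of_le hr0
  have h5 : r * N4_p t Y j M ≤ r * p := Nat.mul_le_mul_left _ hp0
  have h6 : d * j ≤ d * N4_p t Y j M := Nat.mul_le_mul_left _ hpj
  have h7 : r * N4_p t Y j M = N4_r t Y j M * N4_p t Y j M + d * N4_p t Y j M := by rw [hd, Nat.add_mul]
  have h8 : j * r = j * N4_r t Y j M + d * j := by rw [hd, Nat.mul_add, Nat.mul_comm d j]
  omega

/-- large `t`, `k = 1` -/
private theorem N4_one (t e j u M p l Z : ℤ) (ht : 30 ≤ t) (he : 0 ≤ e) (he1 : e ≤ 1) (hj : j + e + 1 ≤ t) (hu : 1 ≤ u)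
    (hju : j = 2 * u ∨ j = 2 * u + 1) (hpar : (t - e) % 2 = 0) (hZ : 2 * Z = t ^ 2 - 2 * t + 4 + e - 2 * j)
    (hl0 : t ^ 2 - 6 * t + 12 + e + 4 * j ≤ 4 * l) (hl1 : t ^ 2 - 4 * t + 12 ≤ 4 * l)
    (hp : 2 * t ≤ p + 3) (hC : l * (p - j) ≤ M * Z) (hD : u < M → M * (M - u) + 2 * u ≤ p) : False := by
  obtain ⟨s, rfl⟩ : ∃ s, j = t - 1 - s := ⟨t - 1 - j, by ring⟩
  have hs : 0 ≤ s := by linarith
  have hs2 : s ≤ t := by omega
  have hlp : 0 < l := by nlinarith
  have hZp : 0 < Z := by nlinarith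
  have hS : 0 ≤ s * (2 * t ^ 2 - 12 * t + 22 + 2 * e - 2 * s) := mul_nonneg hs (by nlinarith)
  have hpj : 0 < p - (t - 1 - s) := by linarith
  have hpt : t - 2 + s ≤ p - (t - 1 - s) := by linarith
  have hL : 4 * l ≥ t ^ 2 - 2 * t + 8 - 4 * s + e := by linarith
  have hW : 2 * Z = t ^ 2 - 4 * t + 6 + e + 2 * s := by linarith
  -- the product with the bound of `p` and `l`
  have h1 : (t ^ 2 - 2 * t + 8 - 4 * s + e) * (t - 2 + s) ≤ 4 * (M * Z) := by
    have h2 : (t ^ 2 - 2 * t + 8 - 4 * s + e) * (t - 2 + s) ≤ 4 * l * (t - 2 + s) :=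
      mul_le_mul_of_nonneg_right hL (by linarith)
    have h3 : 4 * l * (t - 2 + s) ≤ 4 * l * (p - (t - 1 - s)) := mul_le_mul_of_nonneg_left hpt (by linarith)
    nlinarith
  rcases le_or_gt M (u + 1) with h | h
  · have h4 : 4 * (M * Z) ≤ 2 * (u + 1) * (2 * Z) := by nlinarith
    rw [hW] at h4
    rcases hju with hju | hju
    · have hs1 : 1 ≤ s := by omega
      have h5 : 2 * (u + 1) = t + 1 - s := by linarith
      rw [h5] at h4
      have hS1 : 0 ≤ (s - 1) * (2 * t ^ 2 - 12 * t + 20 + 2 * e - 2 * s) := mul_nonneg (by linarith) (by nlinarith)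
      nlinarith
    · have h5 : 2 * (u + 1) = t - s := by linarith
      rw [h5] at h4
      nlinarith
  rcases le_or_gt M (u + 2) with h' | h'
  · have hMu : M = u + 2 := by omega
    have h6 := hD (by omega)
    rw [hMu] at h6
    have h6' : 4 * u + 4 ≤ p := by linarith
    have h4 : 4 * (M * Z) = 2 * (u + 2) * (2 * Z) := by rw [hMu]; ring
    rw [hW] at h4
    have h7 : (t ^ 2 - 2 * t + 8 - 4 * s + e) * (4 * u + 4 - (t - 1 - s)) ≤ 4 * (M * Z) := by
      have h2 : (t ^ 2 - 2 * t + 8 - 4 * s + e) * (4 * u + 4 - (t - 1 - s)) ≤ 4 * l * (4 * u + 4 - (t - 1 - s)) :=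
        mul_le_mul_of_nonneg_right hL (by omega)
      have h3 : 4 * l * (4 * u + 4 - (t - 1 - s)) ≤ 4 * l * (p - (t - 1 - s)) :=
        mul_le_mul_of_nonneg_left (by linarith) (by linarith)
      nlinarith
    rcases hju with hju | hju
    · have hs1 : 1 ≤ s := by omega
      have h5 : 2 * (u + 2) = t + 3 - s := by linarith
      have h5' : 4 * u + 4 - (t - 1 - s) = t + 3 - s := by linarith
      rw [h5] at h4
      rw [h5'] at h7
      rcases eq_or_lt_of_le hs1 with h8 | h8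
      · subst h8
        nlinarith
      · have hS1 : 0 ≤ (s - 2) * (2 * t ^ 2 - 12 * t + 22 + 2 * e - 2 * s) := mul_nonneg (by linarith) (by nlinarith)
        nlinarith
    · have h5 : 2 * (u + 2) = t + 2 - s := by linarith
      have h5' : 4 * u + 4 - (t - 1 - s) = t + 1 - s := by linarith
      rw [h5] at h4
      rw [h5'] at h7
      rcases eq_or_lt_of_le hs with h8 | h8
      · subst h8
        nlinarith
      · have hS1 : 0 ≤ (s - 1) * (2 * t ^ 2 - 12 * t + 16 + 2 * e - 2 * s) := mul_nonneg (by linarith) (by nlinarith)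
        nlinarith
  · have h6 := hD (by omega)
    have h8 : M * 3 ≤ M * (M - u) := mul_le_mul_of_nonneg_left (by linarith) (by linarith)
    have h9 : 3 * M - 1 ≤ p - (t - 1 - s) := by
      rcases hju with hju | hju <;> linarith
    have h10 : l * (3 * M - 1) ≤ l * (p - (t - 1 - s)) := mul_le_mul_of_nonneg_left h9 hlp.le
    have h11 : 4 * Z ≤ 9 * l := by nlinarith [sq_nonneg (t - 10)]
    have h12 : M * (4 * Z) ≤ M * (9 * l) := mul_le_mul_of_nonneg_left h11 (by linarith)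
    have h13 : 0 < l * (3 * M - 4) := mul_pos hlp (by linarith)
    nlinarith

/-- large `t`, `k ≥ 2` -/
private theorem N4_two (t e j Y M p l Z X : ℤ) (ht : 30 ≤ t) (he : 0 ≤ e) (hj : j + e + 1 ≤ t) (hY : 3 ≤ Y)
    (hYj : Y ≤ j) (hX : 2 * X = t ^ 2 - 2 * t + 4 + e + 2 * j) (hZ : Z = X - j * Y)
    (hl0 : t ^ 2 - 6 * t + 12 + e + 4 * j ≤ 4 * l) (hl1 : t ^ 2 - 4 * t + 12 + 3 * e ≤ 4 * l) (hM : 2 ≤ M)
    (hp : 2 * t ≤ p + 2 + Y) (hB : p * Y ≤ X) (hC : l * (p - j) ≤ M * Z)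
    (hD : M * (M * Y) - j * M + 2 * j ≤ p * Y) : False := by
  have hlp : 0 < l := by nlinarith
  -- `3 Y ≤ t`
  have h3Y : 3 * Y ≤ t := by
    by_contra h
    push Not at h
    have h1 : (2 * t - 2 - Y) * Y ≤ p * Y := mul_le_mul_of_nonneg_right (by linarith) (by linarith)
    have h2 : 0 ≤ (3 * Y - t - 1) * (t - 1 - Y) := mul_nonneg (by linarith) (by linarith)
    nlinarith
  have hC2 : l * (M * (M * Y) - j * M + 2 * j - j * Y) ≤ Y * (M * Z) := by
    have h1 : l * (M * (M * Y) - j * M + 2 * j - j * Y) ≤ l * (p * Y - j * Y) :=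
      mul_le_mul_of_nonneg_left (by linarith) hlp.le
    have h2 : Y * (l * (p - j)) ≤ Y * (M * Z) := mul_le_mul_of_nonneg_left hC (by linarith)
    nlinarith
  have hC1 : l * (2 * t - 2 - Y - j) ≤ M * Z :=
    le_trans (mul_le_mul_of_nonneg_left (by linarith) hlp.le) hC
  rcases le_or_gt (t - 4) (j * (Y - 1)) with h | h
  · have hZl : Z ≤ 2 * l := by nlinarith
    have h1 : M * Z ≤ M * (2 * l) := mul_le_mul_of_nonneg_left hZl (by linarith)
    have h2 : 2 * t - 2 - Y - j ≤ 2 * M := by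
      have : l * (2 * t - 2 - Y - j) ≤ l * (2 * M) := by linarith
      exact le_of_mul_le_mul_left this hlp
    have h3 : M * (M * Y) - j * M + 2 * j - j * Y ≤ Y * (2 * M) := by
      have h4 : Y * (M * Z) ≤ Y * (M * (2 * l)) := mul_le_mul_of_nonneg_left h1 (by linarith)
      have : l * (M * (M * Y) - j * M + 2 * j - j * Y) ≤ l * (Y * (2 * M)) := by nlinarith
      exact le_of_mul_le_mul_left this hlp
    obtain ⟨s, rfl⟩ : ∃ s, t = s + 1 := ⟨t - 1, by ring⟩
    obtain ⟨y, rfl⟩ : ∃ y, Y = y + 3 := ⟨Y - 3, by ring⟩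
    have hy : 0 ≤ y := by linarith
    have hs : 29 ≤ s := by linarith
    have hjs : j ≤ s := by linarith
    have hm : s - (y + 3) ≤ 2 * M := by linarith
    -- `2 M (2 M Y - 2 j - 4 Y) ≤ 4 j (Y - 2)`
    have h5 : 2 * M * (2 * M * (y + 3) - 2 * j - 4 * (y + 3)) ≤ 4 * j * (y + 1) := by linarith
    have h6 : s * (y + 1) - (y + 3) ^ 2 - 4 * (y + 3) ≤ 2 * M * (y + 3) - 2 * j - 4 * (y + 3) := by
      have : 0 ≤ (2 * M - (s - (y + 3))) * (y + 3) := mul_nonneg (by linarith) (by linarith)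
      linarith
    have h7 : 0 ≤ s * (y + 1) - (y + 3) ^ 2 - 4 * (y + 3) := by
      have : 0 ≤ y * (s - 10 - y) := mul_nonneg hy (by linarith)
      linarith
    have h8 : (s - (y + 3)) * (s * (y + 1) - (y + 3) ^ 2 - 4 * (y + 3)) ≤
        2 * M * (2 * M * (y + 3) - 2 * j - 4 * (y + 3)) := by
      refine mul_le_mul hm h6 h7 (by linarith)
    have h9 : 4 * j * (y + 1) ≤ 4 * s * (y + 1) := mul_le_mul_of_nonneg_right (by linarith) (by linarith)
    have h10 : 0 ≤ y * ((s - 3 - y) * (s - 10 - y) - 5 * s + 21) := by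
      refine mul_nonneg hy ?_
      have e1 : 2 * s - 1 ≤ 3 * (s - 3 - y) := by linarith
      have e2 : 2 * s - 22 ≤ 3 * (s - 10 - y) := by linarith
      have e3 : (2 * s - 1) * (2 * s - 22) ≤ 3 * (s - 3 - y) * (3 * (s - 10 - y)) :=
        mul_le_mul e1 e2 (by linarith) (by linarith)
      have e4 : 0 ≤ (s - 29) * s := mul_nonneg (by linarith) (by linarith)
      nlinarith
    have h11 : (s - (y + 3)) * (s * (y + 1) - (y + 3) ^ 2 - 4 * (y + 3)) - 4 * s * (y + 1) =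
        (s ^ 2 - 28 * s + 63) + y * ((s - 3 - y) * (s - 10 - y) - 5 * s + 21) := by ring
    have h12 : 0 < s ^ 2 - 28 * s + 63 := by
      have e4 : 0 ≤ (s - 29) * s := mul_nonneg (by linarith) (by linarith)
      nlinarith
    linarith
  · have hj2 : 2 * j ≤ j * (Y - 1) := by nlinarith
    have hZl : 4 * Z ≤ 9 * l := by nlinarith [sq_nonneg (t - 10)]
    have h1 : M * (4 * Z) ≤ M * (9 * l) := mul_le_mul_of_nonneg_left hZl (by linarith)
    have h2 : 4 * (2 * t - 2 - Y - j) ≤ 9 * M := by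
      have : l * (4 * (2 * t - 2 - Y - j)) ≤ l * (9 * M) := by linarith
      exact le_of_mul_le_mul_left this hlp
    have h3 : 4 * (M * (M * Y) - j * M + 2 * j - j * Y) ≤ Y * (9 * M) := by
      have h4 : Y * (M * (4 * Z)) ≤ Y * (M * (9 * l)) := mul_le_mul_of_nonneg_left h1 (by linarith)
      have : l * (4 * (M * (M * Y) - j * M + 2 * j - j * Y)) ≤ l * (Y * (9 * M)) := by nlinarith
      exact le_of_mul_le_mul_left this hlp
    have h5 : t - 1 ≤ 2 * M := by omega
    have h6 : j * (Y - 2) ≤ t - 4 := by nlinarith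
    have h7 : 4 * t - 25 ≤ 4 * (M * Y) - 4 * j - 9 * Y := by nlinarith
    have h8 : M * (4 * t - 25) ≤ M * (4 * (M * Y) - 4 * j - 9 * Y) := mul_le_mul_of_nonneg_left h7 (by linarith)
    nlinarith


private theorem N4_q_eq (hc : ∀ t : ℕ, cf 2 t = 1 + (t + 1) ^ 2 / 4) (t : ℕ) (h : 1 ≤ t) : pq t = N4_q t := by
  unfold pq N4_q
  by_cases h4 : t = 4
  · subst h4; simp
  · by_cases h6 : t = 6
    · subst h6; rw [if_neg h4, if_pos rfl]; rfl
    · have e4 : Nat.beq t 4 = false := by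
        rw [Bool.eq_false_iff]; intro hh; exact h4 (Nat.eq_of_beq_eq_true hh)
      have e6 : Nat.beq t 6 = false := by
        rw [Bool.eq_false_iff]; intro hh; exact h6 (Nat.eq_of_beq_eq_true hh)
      rw [if_neg h4, if_neg h6, e4, e6, cond_false, cond_false, hc, Nat.sub_add_cancel h, sq]
      ring

private theorem N4_q_step : ∀ t < 30, N4_q t ≤ N4_q (t - 1) + t := by decide +kernel

/-- the bounds for `t ≥ 30` -/
private theorem N4_par (hc : ∀ t : ℕ, cf 2 t = 1 + (t + 1) ^ 2 / 4) (t j l X : ℕ) (ht : 30 ≤ t) (hX : j + pq (t - 1) = X)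
    (hX1 : X + 1 ≤ pq t) (hX2 : X + 2 ≤ cf 2 t + l) (hl2 : pq (t - 1) + 2 ≤ cf 2 (t - 1) + l) :
    ∃ e : ℤ, 0 ≤ e ∧ e ≤ 1 ∧ ((t : ℤ) - e) % 2 = 0 ∧ (j : ℤ) + e + 1 ≤ t ∧
      2 * (X : ℤ) = (t : ℤ) ^ 2 - 2 * t + 4 + e + 2 * j ∧ (t : ℤ) ^ 2 - 6 * t + 12 + e + 4 * j ≤ 4 * l ∧
      (t : ℤ) ^ 2 - 4 * t + 12 + 3 * e ≤ 4 * l := by
  have hq : ∀ n : ℕ, 10 ≤ n → pq n = 2 * cf 2 (n - 1) := by
    intro n hn
    unfold pq
    rw [if_neg (by omega), if_neg (by omega)]
  rw [hq t (by omega), hc] at hX1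
  rw [hq (t - 1) (by omega), hc] at hX hl2
  rw [hc] at hX2 hl2
  obtain ⟨a, ha⟩ : ∃ a, t = 2 * a ∨ t = 2 * a + 1 := ⟨t / 2, by omega⟩
  rcases ha with rfl | rfl
  · refine ⟨0, le_refl _, by norm_num, by omega, ?_⟩
    obtain ⟨b, rfl⟩ : ∃ b, a = b + 2 := ⟨a - 2, by omega⟩
    have e1 : (2 * (b + 2) - 1 + 1) ^ 2 = 4 * (b ^ 2 + 4 * b + 4) := by
      rw [show 2 * (b + 2) - 1 + 1 = 2 * b + 4 by omega]; ring
    have e2 : (2 * (b + 2) - 1 - 1 + 1) ^ 2 = 4 * (b ^ 2 + 3 * b + 2) + 1 := by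
      rw [show 2 * (b + 2) - 1 - 1 + 1 = 2 * b + 3 by omega]; ring
    have e3 : (2 * (b + 2) + 1) ^ 2 = 4 * (b ^ 2 + 5 * b + 6) + 1 := by ring
    rw [e1] at hX1 hl2
    rw [e2] at hX hl2
    rw [e3] at hX2
    have e4 : ((b : ℤ) : ℤ) ^ 2 = ((b ^ 2 : ℕ) : ℤ) := by push_cast; ring
    push_cast
    refine ⟨?_, ?_, ?_, ?_⟩
    · omega
    · have : X = j + 2 * (1 + (b ^ 2 + 3 * b + 2)) := by omega
      rw [this]; push_cast; ring
    · have h : j + b ^ 2 + b + 1 ≤ l := by omega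
      have h' : (j : ℤ) + b ^ 2 + b + 1 ≤ l := by exact_mod_cast h
      nlinarith
    · have h : b ^ 2 + 2 * b + 3 ≤ l := by omega
      have h' : (b : ℤ) ^ 2 + 2 * b + 3 ≤ l := by exact_mod_cast h
      nlinarith
  · refine ⟨1, by norm_num, le_refl _, by push_cast; omega, ?_⟩
    obtain ⟨b, rfl⟩ : ∃ b, a = b + 2 := ⟨a - 2, by omega⟩
    have e1 : (2 * (b + 2) + 1 - 1 + 1) ^ 2 = 4 * (b ^ 2 + 5 * b + 6) + 1 := by
      rw [show 2 * (b + 2) + 1 - 1 + 1 = 2 * b + 5 by omega]; ring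
    have e2 : (2 * (b + 2) + 1 - 1 - 1 + 1) ^ 2 = 4 * (b ^ 2 + 4 * b + 4) := by
      rw [show 2 * (b + 2) + 1 - 1 - 1 + 1 = 2 * b + 4 by omega]; ring
    have e3 : (2 * (b + 2) + 1 + 1) ^ 2 = 4 * (b ^ 2 + 6 * b + 9) := by ring
    rw [e1] at hX1 hl2
    rw [e2] at hX hl2
    rw [e3] at hX2
    push_cast
    refine ⟨?_, ?_, ?_, ?_⟩
    · omega
    · have : X = j + 2 * (1 + (b ^ 2 + 4 * b + 4)) := by omega
      rw [this]; push_cast; ring
    · have h : j + b ^ 2 + 2 * b + 2 ≤ l := by omega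
      have h' : (j : ℤ) + b ^ 2 + 2 * b + 2 ≤ l := by exact_mod_cast h
      nlinarith
    · have h : b ^ 2 + 3 * b + 5 ≤ l := by omega
      have h' : (b : ℤ) ^ 2 + 3 * b + 5 ≤ l := by exact_mod_cast h
      nlinarith

theorem thm_N4 : SDG.St_Nm1 → St_N4 := by
  intro hN t l k e j Y M p r X ht hke hk he hYj hcY hk1 hM hp hD hYr hC hB hl hX hX1 hX2 hl2
  have hc : ∀ t, cf 2 t = 1 + (t + 1) ^ 2 / 4 := hN.2.2.1
  have hkY : k = 1 ∨ (3 ≤ Y ∧ 2 * k ≤ Y + 1) := by
    rcases Nat.lt_or_ge k 2 with h | h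
    · left; omega
    · right
      rw [hc] at hcY
      have h1 : 3 ^ 2 ≤ (k + 1) ^ 2 := Nat.pow_le_pow_left (by omega) 2
      have h2 : 8 * k ≤ (k + 1) ^ 2 + 8 := by
        zify
        nlinarith [sq_nonneg ((k : ℤ) - 3)]
      omega
  have hp1 : 3 ≤ Y → 2 * t ≤ p + 2 + Y := by
    intro h
    rcases hkY with h1 | h1
    · have := hk1 h1; omega
    · omega
  have hp2 : Y = 2 → 2 * t ≤ p + 3 := by
    intro h
    rcases hkY with h1 | h1 <;> omega
  have hY : 2 ≤ Y := by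
    rcases hkY with h1 | h1
    · have := hk1 h1; omega
    · omega
  rcases Nat.lt_or_ge t 30 with h30 | h30
  · have e1 := N4_q_eq hc t (by omega)
    have e2 := N4_q_eq hc (t - 1) (by omega)
    have e3 : ∀ n, cf 2 n = N4_c n := by intro n; rw [hc, N4_c, sq]
    rw [e1] at hX1
    rw [e2] at hX hl2
    rw [e3] at hX2 hl2
    have hs := N4_q_step t h30
    exact N4_small t Y j M p r X l (by omega) h30 hY (by omega) hYj hX hX1 hM hp1 hp2 hD hYr hC hB hl hX2 hl2
  · obtain ⟨ε, h0, h1, hpar, hjt, hXe, hl0, hl1⟩ := N4_par hc t j l X h30 hX hX1 hX2 hl2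
    have hjp : (j : ℤ) ≤ p := by
      rcases Nat.lt_or_ge Y 3 with h | h
      · have := hp2 (by omega); omega
      · have := hp1 h; omega
    have hCz : (l : ℤ) * (p - j) ≤ M * (X - j * Y) := by
      have h2 : (r : ℤ) * p + j * Y ≤ X + j * r := by exact_mod_cast hC
      have h3 : (l : ℤ) ≤ r * M := by exact_mod_cast hl
      have h4 : (l : ℤ) * (p - j) ≤ r * M * (p - j) := mul_le_mul_of_nonneg_right h3 (by linarith)
      have h5 : (M : ℤ) * (r * (p - j)) ≤ M * (X - j * Y) := mul_le_mul_of_nonneg_left (by linarith) (by positivity)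
      linarith
    obtain ⟨u, hu⟩ : ∃ u, u = j / Y := ⟨_, rfl⟩
    have huY : u * Y ≤ j := by rw [hu]; exact Nat.div_mul_le_self j Y
    rw [← hu] at hD
    have hDz : (u : ℤ) < M → (M : ℤ) * (M - u) + 2 * u ≤ p := by
      intro h
      have h2 : u < M := by exact_mod_cast h
      have h3 := hD h2
      obtain ⟨w, rfl⟩ := Nat.exists_eq_add_of_le h2.le
      rw [Nat.add_sub_cancel_left] at h3
      push_cast
      have h4 : ((u : ℤ) + w) * w + 2 * u ≤ p := by exact_mod_cast h3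
      linarith
    rcases Nat.lt_or_ge Y 3 with h | h
    · have hY2 : Y = 2 := by omega
      subst hY2
      refine N4_one t ε j u M p l (X - j * 2) (by exact_mod_cast h30) h0 h1 hjt ?_ ?_ hpar ?_ hl0 ?_ ?_ ?_ hDz
      · omega
      · omega
      · linarith
      · linarith
      · have := hp2 rfl; omega
      · exact_mod_cast hCz
    · refine N4_two t ε j Y M p l (X - j * Y) X (by exact_mod_cast h30) h0 hjt (by exact_mod_cast h)
        (by exact_mod_cast hYj) hXe rfl hl0 hl1 (by exact_mod_cast hM) ?_ (by exact_mod_cast hB) hCz ?_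
      · have := hp1 h; omega
      · have huz : (u : ℤ) * Y ≤ j := by exact_mod_cast huY
        have hMz : (2 : ℤ) ≤ M := by exact_mod_cast hM
        have hYz : (3 : ℤ) ≤ Y := by exact_mod_cast h
        rcases le_or_gt (M : ℤ) u with h2 | h2
        · have h3 : (M : ℤ) * (M * Y) ≤ M * j := by
            refine mul_le_mul_of_nonneg_left ?_ (by linarith)
            exact le_trans (mul_le_mul_of_nonneg_right h2 (by linarith)) huz
          have h4 : (j : ℤ) * 2 ≤ p * Y := mul_le_mul hjp (by linarith) (by norm_num) (by linarith [Nat.cast_nonneg (α := ℤ) j])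
          linarith
        · have h3 := hDz h2
          have h4 : ((M : ℤ) * (M - u) + 2 * u) * Y ≤ p * Y := mul_le_mul_of_nonneg_right h3 (by linarith)
          have h5 : ((M : ℤ) - 2) * (u * Y) ≤ (M - 2) * j := mul_le_mul_of_nonneg_left huz (by linarith)
          linarith

end Pool.Agent.SNT

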