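import Pool.Agent.SNT.St

/-!
# SNT.N7: numbers for T1 (MP_ec93d3_co)
-/

set_option autoImplicit false

namespace Pool.Agent.SNT

open Finset Pool.Agent.SDG

private theorem N7_sq (a b : ℕ) (h : b = 2 * a) : (b + 1) ^ 2 / 4 = a ^ 2 + a := by
  subst h
  have : (2 * a + 1) ^ 2 = 4 * (a ^ 2 + a) + 1 := by ring
  omega

private theorem N7_sq' (a b : ℕ) (h : b = 2 * a + 1) : (b + 1) ^ 2 / 4 = (a + 1) ^ 2 := by
  subst h
  have : (2 * a + 1 + 1) ^ 2 = 4 * (a + 1) ^ 2 := by ring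
  omega

private theorem N7_even (h1 : SDG.St_Nm1) (a : ℕ) (ha : 4 ≤ a) : pq (2 * a) = 2 + 2 * a ^ 2 := by
  have h3 := h1.2.2.1
  unfold pq
  rw [if_neg (by omega), if_neg (by omega), h3, N7_sq' (a - 1) (2 * a - 1) (by omega)]
  have : a - 1 + 1 = a := by omega
  rw [this]; ring

private theorem N7_odd (h1 : SDG.St_Nm1) (a : ℕ) : pq (2 * a + 1) = 2 + 2 * (a ^ 2 + a) := by
  have h3 := h1.2.2.1
  unfold pq
  rw [if_neg (by omega), if_neg (by omega), h3, N7_sq a (2 * a + 1 - 1) (by omega)]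
  ring

/-- `4 c(k) ≥ (k+1)^2 + 3` -/
private theorem N7_cf (h1 : SDG.St_Nm1) (k : ℕ) : (k + 1) ^ 2 + 3 ≤ 4 * cf 2 k := by
  have h3 := h1.2.2.1
  rw [h3]
  rcases Nat.even_or_odd' k with ⟨a, h | h⟩
  · rw [N7_sq a k h]; subst h; nlinarith
  · rw [N7_sq' a k h]; subst h; nlinarith

/-- case (A) -/
private theorem N7_A (h1 : SDG.St_Nm1) (k e N X : ℕ) (he : 2 ≤ e) (hk : e ≤ k) (hk4 : 4 ≤ k)
    (hN : e + 1 ≤ N) (hX : N * cf 2 k ≤ X) : 8 + 2 * (k + e) ^ 2 ≤ 4 * X := by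
  have h2 := N7_cf h1 k
  have h3 : (e + 1) * ((k + 1) ^ 2 + 3) ≤ 4 * X := by
    calc (e + 1) * ((k + 1) ^ 2 + 3) ≤ N * (4 * cf 2 k) := Nat.mul_le_mul hN h2
      _ = 4 * (N * cf 2 k) := by ring
      _ ≤ 4 * X := by omega
  obtain ⟨d, rfl⟩ : ∃ d, e = d + 2 := ⟨e - 2, by omega⟩
  obtain ⟨m, rfl⟩ : ∃ m, k = d + 2 + m := ⟨k - (d + 2), by omega⟩
  refine le_trans ?_ h3
  rcases Nat.eq_zero_or_pos d with rfl | hd
  · nlinarith
  · obtain ⟨d', rfl⟩ : ∃ d', d = d' + 1 := ⟨d - 1, by omega⟩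
    nlinarith [Nat.zero_le (d' * m), Nat.zero_le (d' * m * m), Nat.zero_le (d' * d'), Nat.zero_le (d' * d' * d'),
      Nat.zero_le (d' * d' * m), Nat.zero_le (m * m)]

/-- the main case: `P` stands for `pq t`, with `2 P = 4 + t^2 - (t mod 2)` -/
private theorem N7_main (h1 : SDG.St_Nm1) (t k e r n1 N X P : ℕ) (h8 : 8 ≤ t) (hke : k + e = t)
    (hnr : n1 + r = e) (hn1 : 1 ≤ n1) (he : 2 ≤ e) (hN : e + 1 + r ≤ N)
    (hNt : N + 1 ≤ t) (hNo : t % 2 = 1 → N + 2 ≤ t) (hP : 2 * P + t % 2 = 4 + t ^ 2)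
    (hX1 : N * cf 2 k ≤ X)
    (hX2 : 2 + (n1 - 1) * ((n1 + 1) / 2) + (N - n1 - 1) + N * (2 * k - 2) ≤ X)
    (hX3 : 1 ≤ r → 2 ≤ n1 → 2 + n1 * ((n1 + 1) / 2) + (N - n1 - 2) + N * (2 * k - 2) ≤ X) :
    P ≤ X ∨ (k = 2 ∧ r = 0 ∧ t % 2 = 0 ∧ 8 ≤ t ∧ N + 1 = t) := by
  have hkr : r + 2 ≤ k := by omega
  -- case (A) finishes
  have hA : e ≤ k → 4 ≤ k → P ≤ X := by
    intro h1' h2'
    have := N7_A h1 k e N X he h1' h2' (by omega) hX1
    rw [hke] at this
    omega
  obtain ⟨K, hK⟩ : ∃ K, k = K + 2 := ⟨k - 2, by omega⟩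
  have hk2 : 2 * k - 2 = 2 * K + 2 := by omega
  rw [hk2] at hX2 hX3
  rcases Nat.eq_zero_or_pos r with hr | hr
  · -- (B)
    subst hr
    have hen : n1 = e := by omega
    subst hen
    obtain ⟨q, hq⟩ : ∃ q, n1 = q + 2 := ⟨n1 - 2, by omega⟩
    obtain ⟨u, hu⟩ : ∃ u, N = n1 + 1 + u := ⟨N - (n1 + 1), by omega⟩
    have e1 : n1 - 1 = q + 1 := by omega
    have e2 : N - n1 - 1 = u := by omega
    rw [e1, e2] at hX2
    have hX2' : 2 + (q + 1) * ((n1 + 1) / 2) + (q + 3) * (2 * K + 2) ≤ X := by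
      refine le_trans ?_ hX2
      have : (q + 3) * (2 * K + 2) ≤ N * (2 * K + 2) := Nat.mul_le_mul_right _ (by omega)
      omega
    by_cases hbig : (K : ℕ) ^ 2 + (q + 2) ≤ (q + 2) * (2 * K)
    · -- fine
      left
      -- 2 * ((n1 + 1) / 2) ≥ n1
      have h4 : (q + 1) * (q + 2) ≤ 2 * ((q + 1) * ((n1 + 1) / 2)) := by
        have : q + 2 ≤ 2 * ((n1 + 1) / 2) := by omega
        calc (q + 1) * (q + 2) ≤ (q + 1) * (2 * ((n1 + 1) / 2)) := Nat.mul_le_mul_left _ this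
          _ = _ := by ring
      have h5 : t = q + K + 4 := by omega
      have h6 : 4 + t ^ 2 ≤ 2 * X := by
        subst h5
        linarith
      omega
    · rw [not_le] at hbig
      -- then `K = 0` or `2 e < k`
      rcases Nat.eq_zero_or_pos K with hK0 | hK0
      · subst hK0
        rcases Nat.even_or_odd' q with ⟨a, ha | ha⟩
        · right
          refine ⟨hK, rfl, by omega, h8, by omega⟩
        · left
          have h7 : (n1 + 1) / 2 = a + 2 := by omega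
          rw [h7, ha] at hX2'
          have h5 : t = 2 * a + 5 := by omega
          have h8 : t % 2 = 1 := by omega
          rw [h8, h5] at hP
          linarith
      · left
        apply hA
        · -- (q+2)(2K-1) < K^2
          by_contra hlt
          rw [not_le] at hlt
          obtain ⟨K', rfl⟩ : ∃ K', K = K' + 1 := ⟨K - 1, by omega⟩
          have h9 : K' + 4 ≤ q + 2 := by omega
          have h10 : (K' + 4) * (2 * K' + 1) ≤ (q + 2) * (2 * K' + 1) := Nat.mul_le_mul_right _ h9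
          linarith [Nat.zero_le (K' * K')]
        · by_contra hlt
          rw [not_le] at hlt
          have : K = 1 := by omega
          subst this
          linarith
  · rcases Nat.lt_or_ge 1 n1 with hn2 | hn2
    · -- (C)
      have hX3' := hX3 hr hn2
      obtain ⟨m, hm⟩ : ∃ m, k = r + 2 + m := ⟨k - (r + 2), by omega⟩
      have hKm : K = r + m := by omega
      obtain ⟨u, hu⟩ : ∃ u, N = n1 + 2 * r + 1 + u := ⟨N - (n1 + 2 * r + 1), by omega⟩
      have e2 : N - n1 - 2 = 2 * r - 1 + u := by omega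
      rw [e2] at hX3'
      have h3 : (n1 + 2 * r + 1) * (2 * K + 2) ≤ N * (2 * K + 2) := Nat.mul_le_mul_right _ (by omega)
      have h4 : n1 * n1 ≤ 2 * (n1 * ((n1 + 1) / 2)) := by
        have : n1 ≤ 2 * ((n1 + 1) / 2) := by omega
        calc n1 * n1 ≤ n1 * (2 * ((n1 + 1) / 2)) := Nat.mul_le_mul_left _ this
          _ = _ := by ring
      by_cases hmb : m ≤ 2 * n1 + 4 * r
      · left
        have h5 : t = n1 + 2 * r + 2 + m := by omega
        obtain ⟨w, hw⟩ : ∃ w, r = w + 1 := ⟨r - 1, by omega⟩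
        have h10 : m * m ≤ m * (2 * n1 + 4 * r) := Nat.mul_le_mul_left _ hmb
        have h11 : 2 + n1 * ((n1 + 1) / 2) + (2 * w + 1) + (n1 + 2 * r + 1) * (2 * K + 2) ≤ X := by
          have : 2 * r - 1 = 2 * w + 1 := by omega
          rw [this] at hX3'
          omega
        have h6 : 4 + t ^ 2 ≤ 2 * X := by
          rw [h5]
          rw [hKm] at h11
          subst hw
          linarith [Nat.zero_le (w * w)]
        omega
      · left
        rw [not_le] at hmb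
        exact hA (by omega) (by omega)
    · -- (D)
      have hn : n1 = 1 := by omega
      subst hn
      obtain ⟨m, hm⟩ : ∃ m, k = e + 1 + m := ⟨k - (e + 1), by omega⟩
      by_cases hmb : m + 1 ≤ 4 * e
      · left
        obtain ⟨u, hu⟩ : ∃ u, N = 2 * e + u := ⟨N - 2 * e, by omega⟩
        have e2 : N - 1 - 1 = 2 * e - 2 + u := by omega
        rw [e2] at hX2
        obtain ⟨w, hw⟩ : ∃ w, e = w + 2 := ⟨e - 2, by omega⟩
        have h3 : (2 * e) * (2 * K + 2) ≤ N * (2 * K + 2) := Nat.mul_le_mul_right _ (by omega)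
        have hKm : K = w + 1 + m := by omega
        have h5 : t = 2 * w + 5 + m := by omega
        have h11 : 2 + (2 * w + 2) + (2 * e) * (2 * K + 2) ≤ X := by
          have : 2 * e - 2 = 2 * w + 2 := by omega
          rw [this] at hX2
          omega
        have h10 : m * m + m ≤ m * (4 * (w + 2)) := by
          have : m + 1 ≤ 4 * (w + 2) := by omega
          calc m * m + m = m * (m + 1) := by ring
            _ ≤ _ := Nat.mul_le_mul_left _ this
        have h6 : 4 + t ^ 2 ≤ 2 * X := by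
          rw [h5]
          rw [hKm, hw] at h11
          linarith [Nat.zero_le (w * w), Nat.zero_le (w * m)]
        omega
      · left
        rw [not_le] at hmb
        exact hA (by omega) (by omega)

private theorem N7_small (h1 : SDG.St_Nm1) : pq 2 = 4 ∧ pq 3 = 6 ∧ pq 4 = 9 ∧ pq 5 = 14 ∧ pq 6 = 19 ∧ pq 7 = 26 := by
  have h3 := h1.2.2.1
  refine ⟨?_, ?_, ?_, ?_, ?_, ?_⟩ <;> simp [pq, h3]

private theorem N7_le7 (h1 : SDG.St_Nm1) (t k e r n1 N X : ℕ) (h3 : 3 ≤ t) (h7 : t ≤ 7) (hke : k + e = t)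
    (hnr : n1 + r = e) (hn1 : 1 ≤ n1) (hk1 : 1 ≤ k) (he : 2 ≤ e) (hN : e + 1 + r ≤ N)
    (hNp : N + pq (t - 1) + 1 ≤ pq t)
    (hX1 : N * cf 2 k ≤ X)
    (hX2 : 2 + (n1 - 1) * ((n1 + 1) / 2) + (N - n1 - 1) + N * (2 * k - 2) ≤ X)
    (hX3 : 1 ≤ r → 2 ≤ n1 → 2 + n1 * ((n1 + 1) / 2) + (N - n1 - 2) + N * (2 * k - 2) ≤ X) :
    pq t ≤ X := by
  obtain ⟨p2, p3, p4, p5, p6, p7⟩ := N7_small h1
  rw [h1.2.2.1] at hX1
  obtain rfl : k = t - e := by omega
  obtain rfl : n1 = e - r := by omega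
  have hN6 : N ≤ 6 := by
    interval_cases t <;> simp only [Nat.reduceSub, p2, p3, p4, p5, p6, p7] at hNp <;> omega
  have he5 : e ≤ 5 := by omega
  have hr5 : r ≤ 5 := by omega
  interval_cases t <;> simp only [Nat.reduceSub, p2, p3, p4, p5, p6, p7] at hNp ⊢ <;>
    interval_cases e <;> interval_cases r <;> interval_cases N <;> simp at hX1 hX2 hX3 <;> omega

theorem thm_N7 : SDG.St_Nm1 → St_N7 := by
  intro h1 t k e r n1 N X h3 hke hnr hn1 hk1 he hN hNp hX1 hX2 hX3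
  rcases Nat.lt_or_ge t 8 with h7 | h8
  · left
    exact N7_le7 h1 t k e r n1 N X h3 (by omega) hke hnr hn1 hk1 he hN hNp hX1 hX2 hX3
  · rcases Nat.even_or_odd' t with ⟨a, ha | ha⟩
    · have hp := N7_even h1 a (by omega)
      have hq := N7_odd h1 (a - 1)
      have e1 : 2 * (a - 1) + 1 = t - 1 := by omega
      rw [e1] at hq
      rw [← ha] at hp
      obtain ⟨b, rfl⟩ : ∃ b, a = b + 1 := ⟨a - 1, by omega⟩
      have hb : (b + 1) ^ 2 = b ^ 2 + 2 * b + 1 := by ring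
      simp only [Nat.add_sub_cancel] at hq
      have h9 : t ^ 2 = 4 * (b ^ 2 + 2 * b + 1) := by subst ha; ring
      refine N7_main h1 t k e r n1 N X (pq t) h8 hke hnr hn1 he hN (by omega) (by omega) (by omega) hX1 hX2 hX3
    · have hp := N7_odd h1 a
      have hq := N7_even h1 a (by omega)
      have e1 : 2 * a = t - 1 := by omega
      rw [e1] at hq
      rw [← ha] at hp
      have h9 : t ^ 2 = 4 * (a ^ 2 + a) + 1 := by subst ha; ring
      refine N7_main h1 t k e r n1 N X (pq t) h8 hke hnr hn1 he hN (by omega) (by omega) (by omega) hX1 hX2 hX3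

end Pool.Agent.SNT
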