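import Pool.Agent.SNT.St

set_option autoImplicit false

noncomputable section

open Finset Pool.Agent.Helper64.Rho Pool.Agent.SDG Pool.Agent.MDR
open scoped Classical Pointwise

namespace Pool.Agent.SNT

private lemma NB_ce (h : SDG.St_Nm1) (a : ℕ) : cf 2 (2 * a) = a * a + a + 1 := by
  rw [h.2.2.1]
  have e : (2 * a + 1) ^ 2 = 4 * (a * a + a) + 1 := by ring
  rw [e]
  omega

private lemma NB_co (h : SDG.St_Nm1) (a : ℕ) : cf 2 (2 * a + 1) = a * a + 2 * a + 2 := by
  rw [h.2.2.1]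
  have e : (2 * a + 1 + 1) ^ 2 = 4 * (a * a + 2 * a + 1) := by ring
  rw [e]
  omega

theorem thm_NB : SDG.St_Nm1 → St_NB := by
  intro hNm t l b j X ht hl2 hdvd hb1 h1 h2 hj hX1 hX2 hl
  have hlb : l ≤ b := Nat.le_of_dvd (by omega) hdvd
  have c0 : cf 2 0 = 1 := by rw [hNm.2.2.1]; norm_num
  have c1 : cf 2 1 = 2 := by rw [hNm.2.2.1]; norm_num
  have c2 : cf 2 2 = 3 := by rw [hNm.2.2.1]; norm_num
  have c3 : cf 2 3 = 5 := by rw [hNm.2.2.1]; norm_num
  have c4 : cf 2 4 = 7 := by rw [hNm.2.2.1]; norm_num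
  have c5 : cf 2 5 = 10 := by rw [hNm.2.2.1]; norm_num
  have c6 : cf 2 6 = 13 := by rw [hNm.2.2.1]; norm_num
  have c7 : cf 2 7 = 17 := by rw [hNm.2.2.1]; norm_num
  rcases Nat.lt_or_ge t 8 with h8 | h8
  · interval_cases t
    · simp only [pq] at hX1 hl hj
      norm_num [c1, c2, c3] at hX1 hX2 hl hj
      have hL : 3 * b ≤ l * b := Nat.mul_le_mul_right b (by omega)
      have hj1 : j ≤ 1 := by omega
      interval_cases j <;> omega
    · simp only [pq] at hX1 hl hj
      norm_num [c1, c2, c3, c4, jj] at hX1 hX2 hl hj h2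
      have hj1 : j ≤ 2 := by omega
      rcases Nat.lt_or_ge l 4 with h4 | h4
      · obtain rfl : l = 3 := by omega
        interval_cases j <;> omega
      · have hL : 4 * b ≤ l * b := Nat.mul_le_mul_right b h4
        interval_cases j <;> omega
    · simp only [pq] at hX1 hl hj
      norm_num [c1, c2, c3, c4, c5, jj] at hX1 hX2 hl hj h2
      have hj1 : j ≤ 4 := by omega
      rcases (by omega : l = 4 ∨ l = 5 ∨ 6 ≤ l) with rfl | rfl | h6
      · interval_cases j <;> omega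
      · interval_cases j <;> omega
      · have hL : 6 * b ≤ l * b := Nat.mul_le_mul_right b h6
        interval_cases j <;> omega
    · simp only [pq] at hX1 hl hj
      norm_num [c1, c2, c3, c4, c5, c6] at hX1 hX2 hl hj
      have hj1 : j ≤ 4 := by omega
      have hL : 6 * b ≤ l * b := Nat.mul_le_mul_right b (by omega)
      interval_cases j <;> omega
    · simp only [pq] at hX1 hl hj
      norm_num [c1, c2, c3, c4, c5, c6, c7] at hX1 hX2 hl hj
      have hj1 : j ≤ 6 := by omega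
      have hL : 8 * b ≤ l * b := Nat.mul_le_mul_right b (by omega)
      interval_cases j <;> omega
  · exfalso
    have p1 : pq t = 2 * cf 2 (t - 1) := by
      unfold pq
      rw [if_neg (by omega), if_neg (by omega)]
    have p2 : pq (t - 1) = 2 * cf 2 (t - 2) := by
      unfold pq
      rw [if_neg (by omega), if_neg (by omega), Nat.sub_sub]
    rw [p1] at hX1
    rw [p2] at hl hj
    obtain ⟨m, rfl⟩ : ∃ m, b = m + 2 := ⟨b - 2, by omega⟩
    rw [Nat.add_sub_cancel] at h1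
    rcases Nat.even_or_odd' t with ⟨a, ha | ha⟩
    · obtain ⟨b, rfl⟩ : ∃ b, a = b + 4 := ⟨a - 4, by omega⟩
      have q0 : cf 2 t = (b + 4) * (b + 4) + (b + 4) + 1 := by rw [ha, NB_ce hNm]
      have q1 : cf 2 (t - 1) = (b + 3) * (b + 3) + 2 * (b + 3) + 2 := by
        rw [show t - 1 = 2 * (b + 3) + 1 by omega, NB_co hNm]
      have q2 : cf 2 (t - 2) = (b + 3) * (b + 3) + (b + 3) + 1 := by
        rw [show t - 2 = 2 * (b + 3) by omega, NB_ce hNm]
      rw [q1] at hX1 hl
      rw [q2] at hl hj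
      rw [q0] at hX2
      have hj1 : j ≤ 2 * b + 7 := by nlinarith
      have hl1 : b * b + 6 * b + 11 ≤ l := by nlinarith
      obtain ⟨d, rfl⟩ : ∃ d, l = j + 4 + d := ⟨l - (j + 4), by nlinarith [Nat.zero_le (b * b)]⟩
      have h3 : (d + 4) * (j + 4 + d) ≤ (d + 4) * (m + 2) := Nat.mul_le_mul_left _ hlb
      have h4 : (d + 4) * (m + 2) + 2 * j ≤ X := by nlinarith
      have h5 : 3 * (j + 4 + d) ≤ (d + 3) * (j + 4 + d) := Nat.mul_le_mul_right _ (by omega)
      nlinarith
    · obtain ⟨b, rfl⟩ : ∃ b, a = b + 4 := ⟨a - 4, by omega⟩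
      have q0 : cf 2 t = (b + 4) * (b + 4) + 2 * (b + 4) + 2 := by rw [ha, NB_co hNm]
      have q1 : cf 2 (t - 1) = (b + 4) * (b + 4) + (b + 4) + 1 := by
        rw [show t - 1 = 2 * (b + 4) by omega, NB_ce hNm]
      have q2 : cf 2 (t - 2) = (b + 3) * (b + 3) + 2 * (b + 3) + 2 := by
        rw [show t - 2 = 2 * (b + 3) + 1 by omega, NB_co hNm]
      rw [q1] at hX1 hl
      rw [q2] at hl hj
      rw [q0] at hX2
      have hj1 : j ≤ 2 * b + 7 := by nlinarith
      have hl1 : b * b + 7 * b + 15 ≤ l := by nlinarith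
      obtain ⟨d, rfl⟩ : ∃ d, l = j + 4 + d := ⟨l - (j + 4), by nlinarith [Nat.zero_le (b * b)]⟩
      have h3 : (d + 4) * (j + 4 + d) ≤ (d + 4) * (m + 2) := Nat.mul_le_mul_left _ hlb
      have h4 : (d + 4) * (m + 2) + 2 * j ≤ X := by nlinarith
      have h5 : 3 * (j + 4 + d) ≤ (d + 3) * (j + 4 + d) := Nat.mul_le_mul_right _ (by omega)
      nlinarith

end Pool.Agent.SNT
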