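import Pool.Agent.SNT.St

/-!
# SNT, NI (helper66)

Only `e + 1 ≤ N`, `cf 2 k ≤ Y`, `2 N Y ≤ X` and `X < pq t` are used to get `e ≥ k ^ 2 + 5`; then `2 N - j ≥ 8`, so `4 r ≤ X`, and
`3 l ≤ cf 2 t - 2` contradicts `l ≥ pq (t - 1) + 2 - cf 2 (t - 1)`.
-/

set_option autoImplicit false

open Pool.Agent.SDG Pool.Agent.MDR

namespace Pool.Agent.SNT

private theorem NI_sq (n : ℕ) : n ^ 2 ≤ 4 * (n ^ 2 / 4) + 1 := by
  obtain ⟨m, hm | hm⟩ := Nat.even_or_odd' n
  · have h1 : n ^ 2 = 4 * (m * m) := by rw [hm]; ring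
    omega
  · have h1 : n ^ 2 = 4 * (m * m + m) + 1 := by rw [hm]; ring
    omega

theorem thm_NI : SDG.St_Nm1 → St_NI := by
  intro hNm t l k e j N Y r Lc X ht hke hk he hN hY hLc hLr hlr hNY hrN hj hX hXl hP
  obtain ⟨h1, -, h3, -, -, -⟩ := hNm
  have hpq : 2 * pq t ≤ t ^ 2 + 4 := by
    unfold pq
    split_ifs with h4 h6
    · subst h4; norm_num
    · subst h6; norm_num
    · rw [h3]
      have h5 : t - 1 + 1 = t := by omega
      rw [h5]
      omega
  have hX2 : 2 * X ≤ t ^ 2 + 2 := by omega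
  have hc : (k + 1) ^ 2 + 3 ≤ 4 * cf 2 k := by
    rw [h3]
    have := NI_sq (k + 1)
    omega
  have hA : (e + 1) * ((k + 1) ^ 2 + 3) ≤ (k + e) ^ 2 + 2 := by
    have h5 : (e + 1) * cf 2 k ≤ N * Y := Nat.mul_le_mul hN hY
    calc (e + 1) * ((k + 1) ^ 2 + 3) ≤ (e + 1) * (4 * cf 2 k) := Nat.mul_le_mul_left _ hc
      _ = 4 * ((e + 1) * cf 2 k) := by ring
      _ ≤ (k + e) ^ 2 + 2 := by rw [hke]; omega
  have hek : k + 5 ≤ e := by
    by_contra hcon
    have h5 : e ≤ k + 4 := by omega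
    have h6 : k ≤ k ^ 2 := by nlinarith
    have h7 : e ≤ k ^ 2 + 4 := by omega
    have h8 : (e : ℤ) * ((k : ℤ) ^ 2 + 4 - e) ≥ 0 := by
      apply mul_nonneg
      · positivity
      · have : (e : ℤ) ≤ (k : ℤ) ^ 2 + 4 := by exact_mod_cast h7
        linarith
    have h9 : ((e : ℤ) + 1) * (((k : ℤ) + 1) ^ 2 + 3) ≤ ((k : ℤ) + e) ^ 2 + 2 := by exact_mod_cast hA
    nlinarith
  have ht7 : 7 ≤ t := by omega
  have hjt : j + 1 ≤ t := by
    by_cases h7 : t = 7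
    · have e7 : pq 7 = 26 := by simp [pq, h3]
      have e6 : pq 6 = 19 := by simp [pq]
      rw [h7] at hj hX
      have e8 : 7 - 1 = 6 := rfl
      rw [e8, e6] at hj
      rw [e7] at hX
      omega
    · have e1 : pq t = 2 * cf 2 (t - 1) := by
        unfold pq
        rw [if_neg (by omega), if_neg (by omega)]
      have e2 : pq (t - 1) = 2 * cf 2 (t - 1 - 1) := by
        unfold pq
        rw [if_neg (by omega), if_neg (by omega)]
      have e3 := h1 2 (t - 1 - 1)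
      have e4 : t - 1 - 1 + 1 = t - 1 := by omega
      rw [e4] at e3
      omega
  have hr : 4 * r ≤ X := by
    have h5 : 8 ≤ 2 * N - j := by omega
    have h6 : r * (2 * N) + 2 * (j * Y) ≤ 2 * X + j * r := by nlinarith
    have h7 : r * (2 * N) ≤ 2 * X + r * j := by nlinarith
    have h8 : r * (8 + j) ≤ r * (2 * N) := Nat.mul_le_mul_left _ (by omega)
    nlinarith
  have hl : 4 * l ≤ X := by omega
  have hl3 : 3 * l + 2 ≤ cf 2 t := by omega
  rw [h3] at hl3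
  by_cases h7 : t = 7
  · subst h7
    have e6 : pq 6 = 19 := by simp [pq]
    have e8 : 7 - 1 = 6 := rfl
    rw [e8, e6, h3] at hP
    omega
  · have e2 : pq (t - 1) = 2 * cf 2 (t - 1 - 1) := by
      unfold pq
      rw [if_neg (by omega), if_neg (by omega)]
    have e4 : t - 1 - 1 + 1 = t - 1 := by omega
    have e5 : t - 1 + 1 = t := by omega
    rw [e2, h3, h3, e4, e5] at hP
    have s1 := NI_sq (t - 1)
    obtain ⟨u, rfl⟩ : ∃ u, t = u + 8 := ⟨t - 8, by omega⟩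
    have e9 : u + 8 - 1 = u + 7 := by omega
    rw [e9] at hP s1
    have d1 : 4 * ((u + 8) ^ 2 / 4) ≤ (u + 8) ^ 2 := Nat.mul_div_le _ _
    have d2 : 4 * ((u + 8 + 1) ^ 2 / 4) ≤ (u + 8 + 1) ^ 2 := Nat.mul_div_le _ _
    generalize (u + 8) ^ 2 / 4 = A at *
    generalize (u + 8 + 1) ^ 2 / 4 = B at *
    generalize (u + 7) ^ 2 / 4 = D at *
    have g1 : 3 * (2 * (1 + D) + 2) ≤ 3 * (1 + A) + 3 * l := by omega
    have g2 : 12 * (2 * (1 + D) + 2) + 8 ≤ 12 * (1 + A) + 4 * (1 + B) := by omega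
    nlinarith

end Pool.Agent.SNT
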