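import Pool.Agent.SNT.St

set_option autoImplicit false

noncomputable section

open Finset Pool.Agent.Helper64.Rho Pool.Agent.SDG Pool.Agent.MDR
open scoped Classical Pointwise

namespace Pool.Agent.SNT

private lemma NII_ce (h : SDG.St_Nm1) (a : ℕ) : cf 2 (2 * a) = a * a + a + 1 := by
  rw [h.2.2.1]
  have e : (2 * a + 1) ^ 2 = 4 * (a * a + a) + 1 := by ring
  rw [e]
  omega

private lemma NII_co (h : SDG.St_Nm1) (a : ℕ) : cf 2 (2 * a + 1) = a * a + 2 * a + 2 := by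
  rw [h.2.2.1]
  have e : (2 * a + 1 + 1) ^ 2 = 4 * (a * a + 2 * a + 1) := by ring
  rw [e]
  omega

theorem thm_NII : SDG.St_Nm1 → St_NII := by
  intro hNm t l k e N Y r X ht hke hk he hN hY hYr hlr h1 h2 hX1 hX2 hl
  have hk1 : k + 1 ≤ cf 2 k := hNm.2.2.2.2.2 2 k
  have hA : e * cf 2 k ≤ (N - 1) * Y := Nat.mul_le_mul (by omega) hY
  have hB : (e - 2) * cf 2 k ≤ (N - 3) * Y := Nat.mul_le_mul (by omega) hY
  have c0 : cf 2 0 = 1 := by rw [hNm.2.2.1]; norm_num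
  have c1 : cf 2 1 = 2 := by rw [hNm.2.2.1]; norm_num
  have c2 : cf 2 2 = 3 := by rw [hNm.2.2.1]; norm_num
  have c3 : cf 2 3 = 5 := by rw [hNm.2.2.1]; norm_num
  have c4 : cf 2 4 = 7 := by rw [hNm.2.2.1]; norm_num
  have c5 : cf 2 5 = 10 := by rw [hNm.2.2.1]; norm_num
  have c6 : cf 2 6 = 13 := by rw [hNm.2.2.1]; norm_num
  have c7 : cf 2 7 = 17 := by rw [hNm.2.2.1]; norm_num
  rcases Nat.lt_or_ge t 8 with h8 | h8
  · obtain ⟨e', rfl⟩ : ∃ e', e = e' + 2 := ⟨e - 2, by omega⟩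
    rw [Nat.add_sub_cancel] at hB
    have hC : (N - 3) * 2 ≤ (N - 3) * Y := Nat.mul_le_mul_left _ (by omega)
    interval_cases t
    · obtain ⟨rfl, rfl⟩ : k = 1 ∧ e' = 0 := by omega
      simp only [pq] at hX1 hl
      norm_num [c1, c2, c3] at hX1 hX2 hl hA hB hY
      omega
    · simp only [pq] at hX1 hl
      norm_num [c1, c2, c3, c4] at hX1 hX2 hl
      rcases (by omega : (k = 1 ∧ e' = 1) ∨ (k = 2 ∧ e' = 0)) with ⟨rfl, rfl⟩ | ⟨rfl, rfl⟩ <;>
        norm_num [c1, c2, c3, c4] at hA hB hY <;> omega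
    · simp only [pq] at hX1 hl
      norm_num [c1, c2, c3, c4, c5] at hX1 hX2 hl
      rcases (by omega : (k = 1 ∧ e' = 2) ∨ (k = 2 ∧ e' = 1) ∨ (k = 3 ∧ e' = 0)) with ⟨rfl, rfl⟩ | ⟨rfl, rfl⟩ | ⟨rfl, rfl⟩ <;>
        norm_num [c1, c2, c3, c4] at hA hB hY <;> omega
    · simp only [pq] at hX1 hl
      norm_num [c1, c2, c3, c4, c5, c6] at hX1 hX2 hl
      rcases (by omega : (k = 1 ∧ e' = 3) ∨ (k = 2 ∧ e' = 2) ∨ (k = 3 ∧ e' = 1) ∨ (k = 4 ∧ e' = 0)) with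
        ⟨rfl, rfl⟩ | ⟨rfl, rfl⟩ | ⟨rfl, rfl⟩ | ⟨rfl, rfl⟩ <;>
        norm_num [c1, c2, c3, c4] at hA hB hY <;> omega
    · simp only [pq] at hX1 hl
      norm_num [c1, c2, c3, c4, c5, c6, c7] at hX1 hX2 hl
      rcases (by omega : (k = 1 ∧ e' = 4) ∨ (k = 2 ∧ e' = 3) ∨ (k = 3 ∧ e' = 2) ∨ (k = 4 ∧ e' = 1) ∨ (k = 5 ∧ e' = 0)) with
        ⟨rfl, rfl⟩ | ⟨rfl, rfl⟩ | ⟨rfl, rfl⟩ | ⟨rfl, rfl⟩ | ⟨rfl, rfl⟩ <;>
        norm_num [c1, c2, c3, c4, c5] at hA hB hY <;> omega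
  · exfalso
    have p1 : pq t = 2 * cf 2 (t - 1) := by
      unfold pq
      rw [if_neg (by omega), if_neg (by omega)]
    have p2 : pq (t - 1) = 2 * cf 2 (t - 2) := by
      unfold pq
      rw [if_neg (by omega), if_neg (by omega), Nat.sub_sub]
    rw [p1] at hX1
    rw [p2] at hl
    rcases Nat.even_or_odd' t with ⟨a, ha | ha⟩
    · obtain ⟨b, rfl⟩ : ∃ b, a = b + 4 := ⟨a - 4, by omega⟩
      have q0 : cf 2 t = (b + 4) * (b + 4) + (b + 4) + 1 := by rw [ha, NII_ce hNm]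
      have q1 : cf 2 (t - 1) = (b + 3) * (b + 3) + 2 * (b + 3) + 2 := by
        rw [show t - 1 = 2 * (b + 3) + 1 by omega, NII_co hNm]
      have q2 : cf 2 (t - 2) = (b + 3) * (b + 3) + (b + 3) + 1 := by
        rw [show t - 2 = 2 * (b + 3) by omega, NII_ce hNm]
      have q3 : cf 2 (t - 3) = (b + 2) * (b + 2) + 2 * (b + 2) + 2 := by
        rw [show t - 3 = 2 * (b + 2) + 1 by omega, NII_co hNm]
      rcases Nat.lt_or_ge e 4 with he4 | he4
      · rcases (by omega : e = 2 ∨ e = 3) with rfl | rfl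
        · rw [show k = t - 2 by omega, q2] at hA hY
          nlinarith
        · rw [show k = t - 3 by omega, q3] at hA hY
          nlinarith
      · obtain ⟨e', rfl⟩ : ∃ e', e = e' + 4 := ⟨e - 4, by omega⟩
        obtain ⟨k', rfl⟩ : ∃ k', k = k' + 1 := ⟨k - 1, by omega⟩
        have hB2 : (e' + 4 - 2) * (k' + 2) ≤ (N - 3) * Y := le_trans (Nat.mul_le_mul_left _ (by omega)) hB
        rw [show e' + 4 - 2 = e' + 2 by omega] at hB2
        nlinarith [Nat.zero_le (e' * k')]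
    · obtain ⟨b, rfl⟩ : ∃ b, a = b + 4 := ⟨a - 4, by omega⟩
      have q0 : cf 2 t = (b + 4) * (b + 4) + 2 * (b + 4) + 2 := by rw [ha, NII_co hNm]
      have q1 : cf 2 (t - 1) = (b + 4) * (b + 4) + (b + 4) + 1 := by
        rw [show t - 1 = 2 * (b + 4) by omega, NII_ce hNm]
      have q2 : cf 2 (t - 2) = (b + 3) * (b + 3) + 2 * (b + 3) + 2 := by
        rw [show t - 2 = 2 * (b + 3) + 1 by omega, NII_co hNm]
      have q3 : cf 2 (t - 3) = (b + 3) * (b + 3) + (b + 3) + 1 := by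
        rw [show t - 3 = 2 * (b + 3) by omega, NII_ce hNm]
      rcases Nat.lt_or_ge e 4 with he4 | he4
      · rcases (by omega : e = 2 ∨ e = 3) with rfl | rfl
        · rw [show k = t - 2 by omega, q2] at hA hY
          nlinarith
        · rw [show k = t - 3 by omega, q3] at hA hY
          nlinarith
      · obtain ⟨e', rfl⟩ : ∃ e', e = e' + 4 := ⟨e - 4, by omega⟩
        obtain ⟨k', rfl⟩ : ∃ k', k = k' + 1 := ⟨k - 1, by omega⟩
        have hB2 : (e' + 4 - 2) * (k' + 2) ≤ (N - 3) * Y := le_trans (Nat.mul_le_mul_left _ (by omega)) hB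
        rw [show e' + 4 - 2 = e' + 2 by omega] at hB2
        nlinarith [Nat.zero_le (e' * k')]

end Pool.Agent.SNT
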