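import Mathlib
import Pool.Agent.SDG.St
import Pool.Agent.MDR.St

/-!
# SNT: cap 2 in noncyclic groups with two generators, few members (MP_ec93d3_co)

Architect helper64 (with helper48, helper22, helper86, helper97).  Definitions: `FS`, `lam` (Helper64.Rho), `Aper`, `Cap`, `gen`, `cf`,
`st`, `jj` (Pool.Agent.SDG.St), `AS`, `ins`, `outs` (Pool.Agent.MDR.St).

Aim: the statement `A1P` of Pool.Agent.SNG.M1a (the last structural step for all groups with two generators).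

Notation in the docstrings: `T = FS s f`, `t = |s|`, `c(t) = cf 2 t = 1 + (t+1)^2 / 4`, `lam_T(x) = lam T x`, `s_C = ins s f C` = the members
in the subgroup `C`, `o = outs s f C` = the members outside, `k = |s_C|`, `e = |o|`, `U = FS s_C f`, `W = FS o f` (so `T = W + U`), `Y = |U|`,
`N` = number of `C`-cosets (rows) that meet `T`, `f̄ = bar f C`.
Facts of `SDG` (`SDG.Ba1 (3)` etc.) are the statements `Pool.Agent.SDG.St_Ba1` etc. (proved in `Pool.Agent.SDG.All`); `MDR.Sg` is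
`Pool.Agent.MDR.St_Sg` (proved in Pool/Agent/MDR/Sg.lean), `SSE.B3E`, `SSE.PFE` are in Pool/Agent/SSE/St.lean.
Every `St_X` is a statement; its proof is in the docstring.  A module proves `thm_X : St_A → St_B → ... → St_X` with exactly the
hypotheses listed in the docstring, in this order.  DO NOT use the tactic `convert`; for two decidability instances use `Subsingleton.elim`.
-/

set_option autoImplicit false

noncomputable section

open Finset Pool.Agent.Helper64.Rho Pool.Agent.SDG Pool.Agent.MDR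
open scoped Classical Pointwise

namespace Pool.Agent.SNT

/-- the lower bound for cap 2 in the group `G`, all families -/
def PA (G : Type) [AddCommGroup G] [Finite G] : Prop :=
  ∀ (ι : Type) (s : Finset ι) (f : ι → G), (∀ i ∈ s, f i ≠ 0) → Cap 2 s f → Aper (FS s f) → cf 2 s.card ≤ (FS s f).card

/-- `2 c(t - 1)`, except for `t = 4` and `t = 6` -/
def pq (t : ℕ) : ℕ := if t = 4 then 9 else if t = 6 then 19 else 2 * cf 2 (t - 1)

/-- the family modulo `C` -/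
def bar {G ι : Type} [AddCommGroup G] (f : ι → G) (C : AddSubgroup G) : ι → G ⧸ C := fun i => (QuotientAddGroup.mk (f i) : G ⧸ C)

/-- the cosets (rows) that meet `X` -/
def qs {G : Type} [AddCommGroup G] (X : Finset G) (C : AddSubgroup G) : Finset (G ⧸ C) :=
  X.image fun x => (QuotientAddGroup.mk x : G ⧸ C)

/-- the part of `X` in a row -/
def row {G : Type} [AddCommGroup G] (X : Finset G) (C : AddSubgroup G) (c : G ⧸ C) : Finset G :=
  X.filter fun x => (QuotientAddGroup.mk x : G ⧸ C) = c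

/-- the row is not contained in `X` -/
def Prt {G : Type} [AddCommGroup G] (X : Finset G) (C : AddSubgroup G) (c : G ⧸ C) : Prop :=
  ∃ y : G, (QuotientAddGroup.mk y : G ⧸ C) = c ∧ y ∉ X

/-- sums of `i` different members -/
def ks {G ι : Type} [AddCommGroup G] (f : ι → G) (O : Finset ι) (i : ℕ) : Finset G :=
  (O.powersetCard i).image fun S => ∑ x ∈ S, f x

/-! ## Cyclic groups -/

/-- **As** (1 h, from SSE.B3E, SSE.PFE, SDG.Ba1, SDG.Nm1).  Cyclic group, `l ≥ 1` nonzero members, at most one of `± x`, aperiodic sums: `|FS| ≥ 2 l`.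
Proof.  No member is an involution (SDG.Ba1 (5)), so `SSE.AE`.  `l ≤ 3`: SSE.B3E: `|FS| ≥ 2, 4, 7`.  `l = 4`: erase one member `i`: the rest has `≥ 7` sums and is aperiodic, and `|FS s f| ≥ 7 + 1`, because otherwise `FS s f = FS (s.erase i) f` has the period `f i`.
`l ≥ 5`: SSE.PFE (`Cap 1` implies `Cap 2`): `|FS| ≥ 1 + (l+1)^2/4 ≥ 2 l`. -/
def St_As : Prop :=
  ∀ (G ι : Type) [AddCommGroup G] [Finite G] (s : Finset ι) (f : ι → G), IsAddCyclic G → AS s f → Aper (FS s f) → 1 ≤ s.card →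
    2 * s.card ≤ (FS s f).card

/-- **Oc** (1.2 h, from As, SDG.Kp, SDG.Ba1).  Cyclic group, `e` nonzero members, at most `g` of `± x`, aperiodic: `|FS| ≥ 2 e + 1 - g`.
Proof.  There is a colouring `c : ι → Fin g` with `Cap 1` on every colour class (induction on `s`: for a new member `i` at most `g - 1` old members are `± f i`, so some colour has none of them).  SDG.Kp: `|FS s f| ≥ 1 + ∑_k (|FS s_k f| - 1)`, and by As `|FS s_k f| - 1 ≥ 2 |s_k| - 1`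
(also for `s_k = ∅`, in `ℤ`).  Sum: `≥ 1 + 2 e - g`. -/
def St_Oc : Prop :=
  ∀ (G ι : Type) [AddCommGroup G] [Finite G] (s : Finset ι) (f : ι → G) (g : ℕ), IsAddCyclic G → (∀ i ∈ s, f i ≠ 0) →
    Aper (FS s f) → 1 ≤ g → Cap g s f → 2 * s.card + 1 ≤ (FS s f).card + g

/-! ## Rows -/

/-- **Pn** (2 h, from SDG.Ba1, SDG.Kn, SDG.Sm; see Pool/Agent/SDG/Pc.lean).  Number of partial rows.  `C` is generated by the members in it, `k = |s_C|`, `lam_T(f i) ≤ j` for the members in `C`: `k * #(partial rows) + #(partial rows that are periodic) ≤ k j`.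
Proof.  Let `T_c` be a partial row (`∅ ≠ T_c`, not the whole coset), `P` = group of its periods; `P ≤ C`, `P ≠ C`.  `a` = number of members in `P`, `b = k - a ≥ 1` (`s_C` generates `C`).  For `i ∈ s_C`, `f i ∉ P`: the set `{x ∈ T_c | x + f i ∉ T_c}` is nonempty and `P`-periodic, so `lam_{T_c}(f i) ≥ |P|`.
`∑_{i ∈ s_C} lam_{T_c}(f i) ≥ |P| b`.  `P = ⊥`: `a = 0`, this is `≥ k`.  `P ≠ ⊥`: the sums of the members in `P` are aperiodic and in `P`, so `a + 1 ≤ |FS| ≤ |P| - 1` (SDG.Sm, SDG.Kn (4)), and `|P| b ≥ (a + 2) b = b + (a+1) b ≥ b + a + 1 = k + 1`.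
Sum over the partial rows: `lam_T(f i) = ∑_c lam_{T_c}(f i)` for `f i ∈ C`, and `∑_{i ∈ s_C} lam_T(f i) ≤ k j`. -/
def St_Pn : Prop :=
  ∀ (G ι : Type) [AddCommGroup G] [Finite G] (s : Finset ι) (f : ι → G) (C : AddSubgroup G) (j : ℕ), (∀ i ∈ s, f i ≠ 0) →
    Aper (FS s f) → gen (ins s f C) f = C → (∀ i ∈ s, f i ∈ C → lam (FS s f) (f i) ≤ j) →
      (ins s f C).card * ((qs (FS s f) C).filter fun c => Prt (FS s f) C c).card +
        ((qs (FS s f) C).filter fun c => Prt (FS s f) C c ∧ ¬ Aper (row (FS s f) C c)).card ≤ (ins s f C).card * j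

/-- **Rs** (1 h, from SDG.Ba1).  Rows of `T = W + U`.  (1) `T_c = W_c + U` and `W_c ≠ ∅` for every row `c` of `T` (`U ⊆ C`, `0 ∈ U`).  (2) If `|W_c| + g ≤ |T_c|` for all rows: sum over the rows (the rows of `W` are the rows of `T`).  (3) `|T_c| ≥ |U|` (it contains a translate of `U`).
(4) the rows of `T` are the elements of `FS o f̄`. -/
def St_Rs : Prop :=
  ∀ (G ι : Type) [AddCommGroup G] [Finite G] (s : Finset ι) (f : ι → G) (C : AddSubgroup G),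
    (∀ c ∈ qs (FS s f) C, row (FS s f) C c = row (FS (outs s f C) f) C c + FS (ins s f C) f ∧
      (row (FS (outs s f C) f) C c).Nonempty ∧ (FS (ins s f C) f).card ≤ (row (FS s f) C c).card) ∧
    (∀ g : ℕ, (∀ c ∈ qs (FS s f) C, (row (FS (outs s f C) f) C c).card + g ≤ (row (FS s f) C c).card) →
      (FS (outs s f C) f).card + g * (qs (FS s f) C).card ≤ (FS s f).card) ∧
    (FS (ins s f C) f).card * (qs (FS s f) C).card ≤ (FS s f).card ∧
    FS (outs s f C) (bar f C) = qs (FS s f) C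

/-- **Nf** (1.2 h, from Rs, SDG.Ba1).  A full row.  `i ∈ s`, `w = f i`, `w ∉ C`, `2 w ∉ C`, the row `c0 = x + C` is contained in `T`.  (1) clear: all rows have at least `Y` elements (Rs (3)).
(2) `T = T' ∪ (T' + w)`, `T' = FS (s.erase i) f`: every `y ∈ c0` is in `T'`, then `y + w ∈ T`, or `y - w ∈ T' ⊆ T`.  So every `y ∈ c0` has `y + w ∈ T` or `y - w ∈ T`: `|T_{c0+w}| + |T_{c0-w}| ≥ |C|`, and the three rows are different.  If both `c0 ± w` meet `T`: `|T| ≥ 2 |C| + (N-3) Y`.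
If only one of them meets `T` it is full, `|T| ≥ 2 |C| + (N-2) Y`. -/
def St_Nf : Prop :=
  ∀ (G ι : Type) [AddCommGroup G] [Finite G] (s : Finset ι) (f : ι → G) (C : AddSubgroup G) (i : ι) (x : G), i ∈ s → f i ∉ C →
    f i + f i ∉ C → (∀ g ∈ C, x + g ∈ FS s f) →
      Nat.card C + ((qs (FS s f) C).card - 1) * (FS (ins s f C) f).card ≤ (FS s f).card ∧
      2 * Nat.card C + ((qs (FS s f) C).card - 3) * (FS (ins s f C) f).card ≤ (FS s f).card

/-- **Rg** (1.8 h, from SDG.Ba1, SDG.Kn, SDG.Sm, SDG.Qu, SDG.Nm1, and `Pool.Agent.Helper58.kneser`).  The gain of a row.  Here `s` generates `C`, `U = FS s f`, `k = |s| ≥ 1`, `X` is nonempty in the coset `x0 + C`, `X + U` is not the whole coset: `|X + U| ≥ |X| + 2 k - 2`.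
Proof.  `P` = group of the periods of `X + U`; `P ≤ C` (`X + U` is nonempty and in one coset of `C`), `P ≠ C`.  Kneser: `|X + U| ≥ |X + P| + |U + P| - |P| ≥ |X| + (|U + P| - |P|)`.
`P = ⊥`: `|U| - 1 ≥ c(k) - 1 ≥ 2 k - 2` (`PA G`; `c(k) = 1 + (k+1)^2/4 ≥ 2 k - 1`).  `P ≠ ⊥`: `a` = number of members in `P`, `b = k - a ≥ 1` (as `P ≠ C = gen s f`).  `|U + P| = |P| |U/P|`, `U/P` = sums of the `b` members outside `P` modulo `P` (SDG.Qu (1), (2)); it is aperiodic, since `(X + U)/P` is aperiodic and equal to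
`X/P + U/P` (SDG.Kn (3)); so `|U/P| ≥ b + 1` (SDG.Sm) and `|U + P| - |P| ≥ |P| b`.  `a = 0`: `|P| b ≥ 2 k`.  `a ≥ 1`: the sums of the members in `P` are aperiodic (subfamily), in `P`: `2 a - 1 ≤ c(a) ≤ |P| - 1` (`PA G`, SDG.Kn (4)), `|P| b ≥ 2 a b ≥ 2 (a + b) - 2`. -/
def St_Rg : Prop :=
  ∀ (G ι : Type) [AddCommGroup G] [Finite G] (s : Finset ι) (f : ι → G) (C : AddSubgroup G) (X : Finset G) (x0 : G), PA G →
    (∀ i ∈ s, f i ≠ 0) → Cap 2 s f → Aper (FS s f) → gen s f = C → 1 ≤ s.card → X.Nonempty → (∀ x ∈ X, x - x0 ∈ C) →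
    (∃ y, y - x0 ∈ C ∧ y ∉ X + FS s f) → X.card + 2 * s.card ≤ (X + FS s f).card + 2

/-! ## Sums of `i` members -/

/-- **Rw** (1.2 h).  `n = |O|`, `d` = number of different values.  (1) `|ks f O i| = |ks f O (n - i)|`.  (2) `|ks f O i| ≥ min (d, n + 1 - i)` for `1 ≤ i ≤ n`: let `Rp ⊆ O` contain one index for every value, `|Rp| = d`.  If `i - 1 ≤ n - d` choose `A ⊆ O \ Rp` with `i - 1` elements; the sums `∑_A f + f x`, `x ∈ Rp`, are `d`
different elements.  If `i - 1 > n - d` choose `A ⊇ O \ Rp` with `i - 1` elements; the sums `∑_A f + f x`, `x ∈ O \ A ⊆ Rp`, are `n - i + 1` different elements.  (3) for `1 ≤ i ≤ n - 1`: by (1), (2) `≥ min (d, max (n + 1 - i, i + 1)) ≥ min (d, ⌈n / 2⌉ + 1)`.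
(4) if every value is taken at most twice then `n ≤ 2 d`. -/
def St_Rw : Prop :=
  ∀ (G ι : Type) [AddCommGroup G] (O : Finset ι) (f : ι → G),
    (∀ i, i ≤ O.card → (ks f O i).card = (ks f O (O.card - i)).card) ∧
    (∀ i, 1 ≤ i → i + 1 ≤ O.card → min (O.image f).card ((O.card + 1) / 2 + 1) ≤ (ks f O i).card) ∧
    ((∀ x : G, (O.filter fun i => f i = x).card ≤ 2) → O.card ≤ 2 * (O.image f).card)

/-- **Rd** (1.5 h, from Rw).  Every value is taken exactly twice, the set `D` of the values is aperiodic, `d = |D|`, `n = |O| = 2 d`: `|ks f O i| ≥ d + 1` for `2 ≤ i ≤ n - 2`.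
Proof.  By the symmetry Rw (1) let `i ≤ d`.  Choose `i - 2 ≤ d - 2` different values and one index `x` for each of them: the set `A`, `|A| = i - 2`.  Let `B` be two of the remaining values, `b ≠ b'`.  For `x ∈ D`, `y ∈ B` there are two different indices outside `A` with the values `x` and `y`
(both indices with value `y` are outside `A`; if `x ≠ y` at least one index with value `x` is outside `A`).  So `ks f O i ⊇ ∑_A f + (D + B)`, and `|D + B| ≥ d + 1`: otherwise `D + b = D + b'` and `b - b' ≠ 0` is a period of `D`. -/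
def St_Rd : Prop :=
  ∀ (G ι : Type) [AddCommGroup G] (O : Finset ι) (f : ι → G), (∀ x ∈ O.image f, (O.filter fun i => f i = x).card = 2) →
    Aper (O.image f) → ∀ i, 2 ≤ i → i + 2 ≤ O.card → (O.image f).card + 1 ≤ (ks f O i).card

/-- **Wr** (2.5 h, from Rw, MDR.Sg, SDG.Ba1).  The sums `W = FS o f` of members outside `C`.  `M0 ⊆ o` = the members with `f̄ i = ± w̄`, `n1 = |M0| ≥ 1`, `q = ⌈n1 / 2⌉`, `N = |FS o f̄|`, `FS o f̄` aperiodic, `f̄ i ≠ 0`.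
Proof.  By MDR.Sg we may change signs on `M0` so that `f i - w ∈ C` for all `i ∈ M0` (the number of sums, the number of rows, `Cap 2`, periods do not change; do it for `f` and for `f̄`).  `w̄ ≠ 0`.  `FS o f̄ = {0, w̄, ..., n1 w̄} + FS (o \ M0) f̄`.  The order `ν` of `w̄` is `≥ n1 + 2`: otherwise `{0, ..., n1 w̄} = ⟨w̄⟩` and
`FS o f̄` has the period `w̄ ≠ 0`.  So the rows `0, w̄, ..., n1 w̄` are different: `n1 + 1 ≤ N`.  The row `i w̄` of `W` contains `ks f M0 i`, which has at least `q` elements for `1 ≤ i ≤ n1 - 1` (Rw (2), (3): every value of `f` on `M0` is taken at most twice by `Cap 2`, so `d ≥ q`).  All other rows have at least one element.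
This gives `|W| ≥ 2 + (n1 - 1) q + (N - n1 - 1)`.  Now let `o ≠ M0`, `i0 ∈ o \ M0`, `g = f i0`, `n1 ≥ 2`.  For some `i`, `1 ≤ i ≤ n1 - 1`, the row `ḡ + i w̄` is not one of `0, w̄, ..., n1 w̄`: otherwise `ḡ + w̄ ∈ ⟨w̄⟩`, `ḡ = m w̄` with `0 ≤ m < ν`, and the numbers `m + 1, ..., m + n1 - 1` are modulo `ν` in `[0, n1]`; as `ν ≥ n1 + 2`, an
interval of `n1 - 1 ≥ 1` consecutive residues in `[0, n1]` starts at `0, 1` or `2` (if `m + 1` is in `[3, n1]` then one of the following `n1 - 2` residues is `n1 + 1`), so `m + 1 ≡ 0, 1, 2`, i.e. `ḡ ∈ {- w̄, 0, w̄}`: excluded.  This new row contains `g + ks f M0 i`: at least `q` elements; the others at least one. -/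
def St_Wr : Prop :=
  ∀ (G ι : Type) [AddCommGroup G] [Finite G] (o M0 : Finset ι) (f : ι → G) (C : AddSubgroup G) (w : G), M0 ⊆ o → 1 ≤ M0.card →
    (∀ i ∈ M0, f i - w ∈ C ∨ f i + w ∈ C) → (∀ i ∈ o \ M0, f i - w ∉ C ∧ f i + w ∉ C) → (∀ i ∈ o, f i ∉ C) → Cap 2 o f →
    Aper (FS o (bar f C)) →
      M0.card + 1 ≤ (FS o (bar f C)).card ∧
      2 + (M0.card - 1) * ((M0.card + 1) / 2) + ((FS o (bar f C)).card - M0.card - 1) ≤ (FS o f).card ∧
      (M0 ≠ o → 2 ≤ M0.card → M0.card + 2 ≤ (FS o (bar f C)).card ∧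
        2 + M0.card * ((M0.card + 1) / 2) + ((FS o (bar f C)).card - M0.card - 2) ≤ (FS o f).card)

/-! ## Numbers -/

/-- **N7** (1.5 h, from SDG.Nm1).  `j = pq t - 1 - pq (t-1)` is `1, 2, 4, 4, 6, 7` for `t = 3, ..., 8`, `t - 1` for even `t ≥ 8`, `t - 2` for odd `t ≥ 9`; so `N ≤ j ≤ t - 1`, `k ≥ r + 2`.  `pq t ≤ 2 c(t-1) ≤ 2 + t^2/2` (`= 2 + (t^2 - 1)/2` for odd `t`).  All with `q = (n1+1)/2 ≥ n1/2`.
(A) if `k ≥ e` and `k ≥ 4`: `4 (e+1) c(k) - 8 - 2 (e+k)^2 ≥ (e+1)(k^2 + 2k + 4) - 8 - 2 (e+k)^2 = (e-1)(k^2 - 2k - 2(e-1)) - 2 ≥ 0`.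
(B) `r = 0`, `e = n1`: the second bound (increasing in `N`, so `N = e + 1`): `2 X - 4 - t^2 ≥ e (2k - 5) - (k-2)^2`; for odd `e` add `e - 1`.  `k = 2`: `e` even: `t` even, `N ≥ e + 1 = t - 1`, so `N = t - 1 = j`, `t ≥ 8` (`j = 2, 4` for `t = 4, 6`): the exception; `e` odd: `2 X - 4 - t^2 ≥ - 1 = ` enough for odd `t`.
`k ≥ 3`: fine if `e (2k-5) ≥ (k-2)^2`; otherwise `2 e < k`, (A) (if `k = 3`: `e ≥ 1` is enough; `k = 4`: `e ≥ 2`).
(C) `r ≥ 1`, `n1 ≥ 2`: the third bound with `N = n1 + 2 r + 1`, `k = r + 2 + m`: `2 X - 4 - t^2 ≥ 2 n1 m + 4 r^2 + 8 r - 2 + 4 r m - m^2`: fine if `m ≤ 2 n1 + 4 r`; otherwise `k ≥ e`, (A).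
(D) `r ≥ 1`, `n1 = 1`: `e = r + 1`, `N ≥ 2 e`, `X ≥ N (2k - 1) ≥ 2 e (2k-1)`; `k = e + 1 + m`: `8 e (2k-1) - 8 - 2 t^2 ≥ 2 (4 e^2 + 4 e m - 5 - m^2 - 2 m)`, fine if `m ≤ 4 e - 1`; otherwise (A).
(Checked by computer for `t ≤ 300`.) -/
def St_N7 : Prop :=
  ∀ t k e r n1 N X : ℕ, 3 ≤ t → k + e = t → n1 + r = e → 1 ≤ n1 → 1 ≤ k → 2 ≤ e → e + 1 + r ≤ N → N + pq (t - 1) + 1 ≤ pq t →
    N * cf 2 k ≤ X → 2 + (n1 - 1) * ((n1 + 1) / 2) + (N - n1 - 1) + N * (2 * k - 2) ≤ X →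
    (1 ≤ r → 2 ≤ n1 → 2 + n1 * ((n1 + 1) / 2) + (N - n1 - 2) + N * (2 * k - 2) ≤ X) →
      pq t ≤ X ∨ (k = 2 ∧ r = 0 ∧ t % 2 = 0 ∧ 8 ≤ t ∧ N + 1 = t)

/-- **NI** (1.5 h, from SDG.Nm1).  `X = |T|`, `l = l0 G`, `r = |C|`, `Lc = |L|`, `L ≠ C`, `j = X - pq (t-1)`.  Contradiction.
Proof.  `j ≤ t - 1` (see N7).  `X ≤ c(t) + l - 2` and `l ≥ c(t-2) + 2 - ⌈(t-1)/2⌉` (for `t - 1 ≠ 4, 6`).  From `2 N Y ≤ X`: `(e+1) c(k) < c(t-1)`.  From `r N + j Y ≤ X + j Lc`, `2 Lc ≤ r`: `r (N - j / 2) + j Y ≤ X`, so `l (e + 1 - j/2) ≤ X - j Y` (if `2 N ≥ j`; if `2 N < j` then `e + 1 < t / 2`, `k ≥ t/2`, and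
`(e+1) c(k) ≥ 3 c(k)`-type estimate contradicts `(e+1) c(k) < c(t-1)`: `4 (e+1) c(k) ≥ (e+1) (k+1)^2 + 3 (e+1)`, `k + e = t`, is at least `t^2 + 5` for `2 ≤ e ≤ k + 2`).  So `e + 1 - j / 2 ≤ 2 + (c(t) - l - 2)/l`, and with `j ≤ t - 1 = e + k - 1`: `e - k ≤ 1 + 2 (c(t) - l)/l`; `c(t) - l ≤ 3 t / 2`.  For `t ≥ 16` (`l ≥ 3 t/2`..)
this gives `e ≤ k + 2`, a contradiction as before; the remaining `t` are finitely many (checked by computer for `t ≤ 45`, all `l`; for `l ≥ c(t) + 2` only `X ≤ pq t - 1` is used). -/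
def St_NI : Prop :=
  ∀ t l k e j N Y r Lc X : ℕ, 3 ≤ t → k + e = t → 1 ≤ k → 2 ≤ e → e + 1 ≤ N → cf 2 k ≤ Y → Y + 1 ≤ Lc → 2 * Lc ≤ r → l ≤ r →
    2 * (N * Y) ≤ X → r * N + j * Y ≤ X + j * Lc → j + pq (t - 1) = X → X + 1 ≤ pq t → X + 2 ≤ cf 2 t + l →
    pq (t - 1) + 2 ≤ cf 2 (t - 1) + l → False

/-- **NII** (1.2 h, from SDG.Nm1).  A full row (Nf (1), (2)), `r = |C|`.  Contradiction, except for one case.
Proof.  `2 r + (N-3) Y ≤ X ≤ c(t) + l - 2`, `r ≥ l`: `l + (e-2) c(k) ≤ c(t) - 2`, with `l ≥ pq (t-1) + 2 - cf 2 (t-1)`: `(e-2) c(k) ≤ c(t) + c(t-1) - pq (t-1) - 4`, which is `3 ⌈(t-1)/2⌉ + ... ≤ 3 t / 2` about; and `N Y ≤ X` (follows from the first hypothesis as `r ≥ Y`): `(e+1) c(k) ≤ pq t - 1`.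
The two conditions exclude everything for `t ≥ 8` (for `e = 2` the second: `3 c(t-2) ≥ 2 c(t-1)`; for `e = 3` the second; for `e ≥ 4` the first: `(e-2) c(k) ≥ 2 c(k)`, `k = t - e`, `= 2 (t - 3)` for `k = 1`), and for `t ≤ 7` only `(t, l, k, N, r) = (5, 4, 1, 5, 4)` is left.  (Checked by computer for `t ≤ 60`.) -/
def St_NII : Prop :=
  ∀ t l k e N Y r X : ℕ, 3 ≤ t → k + e = t → 1 ≤ k → 2 ≤ e → e + 1 ≤ N → cf 2 k ≤ Y → Y + 1 ≤ r → l ≤ r →
    r + (N - 1) * Y ≤ X → 2 * r + (N - 3) * Y ≤ X → X + 1 ≤ pq t → X + 2 ≤ cf 2 t + l →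
    pq (t - 1) + 2 ≤ cf 2 (t - 1) + l → t = 5 ∧ l = 4 ∧ k = 1 ∧ N = 5 ∧ r = 4

/-- **NB** (1.2 h, from SDG.Nm1).  `|G| = l b`, `l ∣ b`, `X = |T|`, `j = X - pq (t-1)`; `T` meets all cosets of a cyclic subgroup; not near-full.  Contradiction, except for `Z_5^2`, `t = 5`.
Proof.  `b (l - j) + 2 j ≤ X` and `b ≥ l`.  If `l > j`: `l (l - j) + 2 j ≤ X ≤ min (pq t - 1, c(t) + l - 2)`; with `l ≥ pq (t-1) + 2 - cf 2 (t-1)` and `j ≤ pq t - 1 - pq (t-1) ≤ t - 1` this is impossible for `t ≥ 6`, `t = 3`; `t = 4`: `l = 3`, `b = 3`: `9 ≤ X + 2`, near-full; `t = 5`: `l = 4`: `j ≤ 3`, `b = 4`, `16 ≤ X + 6` near-full;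
`l = 5`: `b = 5`, `X = 13`, `j = 4`: the exception (`X ≤ 12` gives a contradiction); `l ≥ 6` impossible.  `l ≤ j` is impossible (`l ≥ pq (t-1) + 2 - cf 2 (t-1) > j` except `t = 5`, `l = 4 = j`, `X = 13 > c(5) + 4 - 2`). (Checked by computer for `t ≤ 40`.) -/
def St_NB : Prop :=
  ∀ t l b j X : ℕ, 3 ≤ t → 2 ≤ l → l ∣ b → 1 ≤ b → l * b ≤ X + j * (b - 2) → X + jj t * (jj t - 1) + 1 ≤ l * b →
    j + pq (t - 1) = X → X + 1 ≤ pq t → X + 2 ≤ cf 2 t + l → pq (t - 1) + 2 ≤ cf 2 (t - 1) + l →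
      t = 5 ∧ l = 5 ∧ b = 5 ∧ X = 13 ∧ j = 4

/-- **N4** (2 h, from SDG.Nm1).  The noncyclic quotient `K' = G / R`: `k` members in `R`, `e` outside, `Y = |FS (ins s f R) f|`, `p = |T / R|`, `l' = l0 K'`, `j' = j / Y`, `r = |R|`, `l = l0 G`.  Contradiction.
Proof.  `j ≤ pq t - 1 - pq (t-1) ≤ t - 1`; `Y ≤ j` and `c(k) ≤ Y` bound `k`: `(k+1)^2 ≤ 4 t`.  `p Y ≤ X ≤ pq t - 1` and `p ≥ 2 e - 1`.  (1) `p > j`: otherwise `2 e - 1 ≤ j ≤ t - 1`, `k ≥ t / 2`, and `(2 e - 1) c(k) ≥ pq t` for `e ≥ 3`.  (2) `r (p - j) + j Y ≤ X` and `r l' ≥ l`, `X ≤ c(t) + l - 2`.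
Put `u = j'`, `u Y ≤ j`.  `l' ≤ u`: `l (p - j) ≤ u (X - j Y)`, `p - j ≥ 2 t - 2 k - 1 - (t - 1) = t - 2 k`.  `l' = u + w`, `w ≥ 1`: `p ≥ (u + w) w + 2 u`.  `l (p - j) ≤ (u + w)(X - j Y)`.  With `X ≤ 2 l + (c(t) - l - 2)` one gets (as `X ≤ pq t - 1` and `X ≥ pq (t-1) + 1`) `p ≤ j + 2 l'` + small, so `t ≤ 2 (u + w + k)` + small, which together with
`u c(k) ≤ t - 1`, `w (u + w - 2) ≤ t` + small and `(k+1)^2 ≤ 4 t` leaves `k = 1`, `Y = 2` or finitely many `t` (`t ≤ 48`).  `k = 1`, `Y = 2`: `u = j / 2`; `w = 1`: `p ≥ 2 t - 3`; `w = 2`: `p ≥ 2 (u + 2) + 2 u`; `w ≥ 3`: `p ≥ 3 (u+3) + 2 u`; each contradicts `l (p - j) + l' j Y ≤ l' X`.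
(Checked by computer for `t ≤ 40`, all values.) -/
def St_N4 : Prop :=
  ∀ t l k e j Y l' p r X : ℕ, 3 ≤ t → k + e = t → 1 ≤ k → 3 ≤ e → Y ≤ j → cf 2 k ≤ Y → (k = 1 → Y = 2) → 2 ≤ l' →
    2 * e ≤ p + 1 → (j / Y < l' → l' * (l' - j / Y) + 2 * (j / Y) ≤ p) → Y + 1 ≤ r → r * p + j * Y ≤ X + j * r → p * Y ≤ X →
    l ≤ r * l' → j + pq (t - 1) = X → X + 1 ≤ pq t → X + 2 ≤ cf 2 t + l → pq (t - 1) + 2 ≤ cf 2 (t - 1) + l → False

/-! ## Cyclic quotients -/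

/-- **Xt** (2.5 h, from Rs, Rw, Rd, MDR.Sg, SDG.Ba1, SDG.Kn, SDG.Sm, SDG.Nm1).  The extremal case: two members `a, b` in `C`, `t ≥ 8` even, all `e = t - 2` members outside in one class `± w̄`, exactly `t - 1` rows, every row of `T` is aperiodic.  Then `|T| ≥ 2 c(t-1) = 2 + t^2/2`.
Proof.  By MDR.Sg we may assume `f i - w ∈ C` for all `i ∈ o` (change the signs of members outside only; `T` is replaced by a translate, its rows by translates of rows, so they stay aperiodic, and the number of rows is the same; `Cap 2`, `s_C` are unchanged).  The rows of `T` are among `i w̄`, `0 ≤ i ≤ e`; there are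
`t - 1 = e + 1` of them, so these are different rows, and the row `i w̄` is `T_i = W_i + U`, `W_i = ks f o i` (a sum of `i` members of `o` is in the row `i w̄`).  `T_i` is aperiodic, so `|T_i| ≥ |W_i| + |U| - 1` (SDG.Kn (1)); `|T| ≥ ∑_{i ≤ e} |W_i| + (t - 1)(|U| - 1)`.  `|W_0| = |W_e| = 1`.  `d` = number of values of `f` on `o`, `2 d ≥ e`
(each value is taken at most twice by `Cap 2`).
(a) `f b ≠ ± f a`: `|U| = 4` (`0, f a, f b, f a + f b` are different), `|W_i| ≥ e / 2` for `1 ≤ i ≤ e - 1` (Rw): `|T| ≥ 2 + (e-1) e / 2 + 3 (t-1) = (t^2 + t + 4)/2`.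
(b) `|U| ≥ 3` always (SDG.Sm).  `2 d ≥ e + 2`: `|W_i| ≥ e/2 + 1` (Rw): `|T| ≥ 2 + (e-1) t / 2 + 2 (t - 1) = (t^2 + t)/2`.
(c) `2 d = e`: every value is taken exactly twice.  `D` = set of the values `= W_1`; `T_1 = D + U` is aperiodic, so `D` is aperiodic (SDG.Kn (3)).  `|W_1| = |W_{e-1}| = d` (at least `d` by Rw), `|W_i| ≥ d + 1` for `2 ≤ i ≤ e - 2` (Rd): `|T| ≥ 2 + 2 d + (e-3)(d+1) + 2 (t-1) = (t^2 + t - 4)/2 ≥ 2 + t^2/2` for `t ≥ 8`. -/
def St_Xt : Prop :=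
  ∀ (G ι : Type) [AddCommGroup G] [Finite G] (s : Finset ι) (f : ι → G) (C : AddSubgroup G) (w : G), (∀ i ∈ s, f i ≠ 0) →
    Cap 2 s f → Aper (FS s f) → (ins s f C).card = 2 → s.card % 2 = 0 → 8 ≤ s.card →
    (∀ i ∈ outs s f C, f i - w ∈ C ∨ f i + w ∈ C) → (qs (FS s f) C).card + 1 = s.card →
    (∀ c ∈ qs (FS s f) C, Aper (row (FS s f) C c)) → 2 * cf 2 (s.card - 1) ≤ (FS s f).card

/-- **T1** (2 h, from Oc, Pn, Rs, Rg, Wr, N7, Xt, SDG.Ba1).  No full row.  `C` is generated by the members in it, `G / C` is cyclic, `FS o f̄` is aperiodic, `|o| ≥ 2`, every row of `T` is partial, `lam_T(f i) ≤ j`, `j ≤ pq t - 1 - pq (t-1)`: `pq t ≤ |T|`.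
Proof.  `t = |s|`, `k = |s_C|`, `e = |o|`.  `k ≥ 1`: if `k = 0` then `C = gen ∅ = ⊥` and a row is one element, not partial.  Let `N` = number of rows `= |FS o f̄|` (Rs (4)).  Pn: all rows are partial, `k N + #(periodic rows) ≤ k j`, so `N ≤ j`.
Let `n1` = the largest number of members of `o` in one class `± x̄` of `G / C` (maximum over `i0 ∈ o` of `#{i ∈ o | f̄ i = ± f̄ i0}`), attained by `w = f i0`, `M0` = this class, `r = e - n1`.  `Cap n1 o f̄` (a class without members is empty).  Oc in `G / C`: `N ≥ 2 e + 1 - n1 = e + 1 + r`.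
`|T| ≥ N Y ≥ N c(k)` (Rs (3), `PA G`).  For every row `c`: `T_c = W_c + U` is not the whole row, so `|T_c| ≥ |W_c| + 2 k - 2` (Rg for the family `s_C`; `C = gen s_C f`); Rs (2): `|T| ≥ |W| + (2k - 2) N`.  Wr for `o, M0, w` (`Cap 2 o f`) gives the lower bounds of `|W|`.  N7 with `X = |T|`: `pq t ≤ |T|`, or
`k = 2`, `r = 0`, `t ≥ 8` even, `N = t - 1`.  In this case `N ≤ j ≤ t - 1` (`pq t = pq (t-1) + t` for even `t ≥ 8`), so `N = j` and Pn says that no row is periodic; Xt gives `pq t = 2 c(t-1) ≤ |T|`. -/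
def St_T1 : Prop :=
  ∀ (G ι : Type) [AddCommGroup G] [Finite G] (s : Finset ι) (f : ι → G) (C : AddSubgroup G) (j : ℕ), PA G → (∀ i ∈ s, f i ≠ 0) →
    Cap 2 s f → Aper (FS s f) → gen (ins s f C) f = C → IsAddCyclic (G ⧸ C) → Aper (FS (outs s f C) (bar f C)) →
    2 ≤ (outs s f C).card → (∀ c ∈ qs (FS s f) C, Prt (FS s f) C c) → (∀ i ∈ s, lam (FS s f) (f i) ≤ j) →
    j + pq (s.card - 1) + 1 ≤ pq s.card → pq s.card ≤ (FS s f).card

/-- **E5** (1.8 h, from Oc, Rs, Rw, Nf, MDR.Sg, SDG.Ba1).  `t = 5`, `|C| = 4` generated by the one member `a` in it, `G / C` cyclic, a full row: `|T| ≥ 13`.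
Proof.  `U = {0, a}`, `Y = 2`, `a` has order 4.  `N` rows, `4 + 2 (N - 1) ≤ |T|` (Nf (1)); if `N ≥ 6`: `14`.  Let `n1` be the largest number of members of `o` in a class `± x̄`; Oc: `N ≥ 9 - n1`, so for `N ≤ 5` all four members of `o` are in one class `± w̄`; change signs (MDR.Sg, as in Xt; the full row is mapped to a full row) so that `f i - w ∈ C` for `i ∈ o`.  The rows are among
`0, w̄, ..., 4 w̄`, and `N ≥ 5` (Oc), so these are the five different rows, `T_i = W_i + {0, a}`, `W_i = ks f o i`.  `|W_1| = |W_3| ≥ 2` (at most two members have the same value; Rw (1)), so `|T_1|, |T_3| ≥ 3`: `{x, y} + {0, a}` with `x ≠ y` has at least three elements (two elements: `y = x + a`, `x = y + a`, `2 a = 0`).  All rows have at least two elements and the full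
row has four: `4 + 3 + 2 + 2 + 2 = 13` if it is row 1 or 3, otherwise `4 + 3 + 3 + 2 + 2`. -/
def St_E5 : Prop :=
  ∀ (G ι : Type) [AddCommGroup G] [Finite G] (s : Finset ι) (f : ι → G) (C : AddSubgroup G) (x : G), (∀ i ∈ s, f i ≠ 0) →
    Cap 2 s f → Aper (FS s f) → s.card = 5 → (ins s f C).card = 1 → Nat.card C = 4 → gen (ins s f C) f = C →
    IsAddCyclic (G ⧸ C) → Aper (FS (outs s f C) (bar f C)) → (∀ g ∈ C, x + g ∈ FS s f) → 13 ≤ (FS s f).card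

/-- **E6** (1 h).  Four lines in different directions.  `f i` has order 5 for `i ∈ s`, `f k ∉ ⟨f i⟩` for `i ≠ k`, `T` contains a full coset of `⟨f i⟩` for every `i ∈ s`, `|s| ≥ 4`: `|T| ≥ 14`.
Proof.  Cosets of `⟨f i⟩` and `⟨f k⟩`, `i ≠ k`, have at most one common element (`⟨f i⟩ ∩ ⟨f k⟩ = 0`, as the order is prime).  So four of the cosets have a union of at least `5 + 4 + 3 + 2` elements. -/
def St_E6 : Prop :=
  ∀ (G ι : Type) [AddCommGroup G] (T : Finset G) (s : Finset ι) (f : ι → G), 4 ≤ s.card → (∀ i ∈ s, addOrderOf (f i) = 5) →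
    (∀ i ∈ s, ∀ k ∈ s, i ≠ k → f k ∉ AddSubgroup.zmultiples (f i)) →
    (∀ i ∈ s, ∃ x : G, ∀ g ∈ AddSubgroup.zmultiples (f i), x + g ∈ T) → 14 ≤ T.card

end Pool.Agent.SNT
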