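import Pool.Agent.SNT.St

/-!
# SNT: families in cyclic groups, `2 e + 1 - g` sums

Proof of `St_Oc`: a colouring with `g` colours whose classes have at most one member `± x`.
-/

set_option autoImplicit false

noncomputable section

open Finset Pool.Agent.Helper64.Rho Pool.Agent.SDG Pool.Agent.MDR
open scoped Classical Pointwise

namespace Pool.Agent.SNT

/-- A family with at most `g` members `± x` has a colouring with `g` colours whose classes have at
most one member `± x`. -/
private theorem Oc_colour {G ι : Type} [AddCommGroup G] (f : ι → G) (g : ℕ) (hg : 1 ≤ g)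
    (s : Finset ι) (h : Cap g s f) :
    ∃ c : ι → Fin g, ∀ k, Cap 1 (s.filter fun i => c i = k) f := by
  induction s using Finset.induction_on with
  | empty =>
    refine ⟨fun _ => ⟨0, hg⟩, fun k x => ?_⟩
    simp
  | @insert i s hi ih =>
    have hs : Cap g s f := fun x =>
      (card_le_card (filter_subset_filter _ (subset_insert i s))).trans (h x)
    obtain ⟨c, hc⟩ := ih hs
    -- the old members `± f i`
    set O : Finset ι := s.filter fun j => f j = f i ∨ f j = -f i with hO
    have hOc : O.card + 1 ≤ g := by
      have h1 := h (f i)
      rw [filter_insert, if_pos (Or.inl rfl), card_insert_of_notMem] at h1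
      · exact h1
      · intro h2
        exact hi (mem_filter.1 h2).1
    obtain ⟨k0, hk0⟩ : ∃ k0 : Fin g, k0 ∉ O.image c := by
      by_contra hcon
      push Not at hcon
      have h1 : (univ : Finset (Fin g)) ⊆ O.image c := fun k _ => hcon k
      have h2 := card_le_card h1
      rw [card_univ, Fintype.card_fin] at h2
      have h3 := card_image_le (s := O) (f := c)
      omega
    refine ⟨Function.update c i k0, fun k x => ?_⟩
    have hold : ∀ k, (s.filter fun j => Function.update c i k0 j = k) =
        s.filter fun j => c j = k := by
      intro k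
      apply filter_congr
      intro j hj
      have hji : j ≠ i := by
        rintro rfl
        exact hi hj
      rw [Function.update_of_ne hji]
    by_cases hk : k0 = k
    · subst hk
      rw [filter_insert, if_pos (by rw [Function.update_self]), hold k0]
      have hcx := hc k0 x
      rw [filter_insert]
      split_ifs with hx
      · have hempty : ((s.filter fun j => c j = k0).filter fun j => f j = x ∨ f j = -x) = ∅ := by
          rw [filter_eq_empty_iff]
          intro j hj hjx
          obtain ⟨hjs, hjc⟩ := mem_filter.1 hj
          apply hk0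
          refine mem_image.2 ⟨j, mem_filter.2 ⟨hjs, ?_⟩, hjc⟩
          rcases hx with hx | hx <;> rcases hjx with hjx | hjx
          · left; rw [hjx, hx]
          · right; rw [hjx, hx]
          · right; rw [hjx, hx, neg_neg]
          · left; rw [hjx, hx]
        rw [hempty]
        simp
      · exact hcx
    · rw [filter_insert, if_neg (by rw [Function.update_self]; exact hk), hold k]
      exact hc k x

/-- (Oc) Cyclic group, at most `g` members `± x`, aperiodic sums. -/
theorem thm_Oc : St_As → SDG.St_Kp → SDG.St_Ba1 → St_Oc := by
  intro hAs hKp hBa G ι _ _ s f g hcyc hne hap hg hcap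
  obtain ⟨c, hc⟩ := Oc_colour f g hg s hcap
  have h1 : 1 + ∑ k : Fin g, ((FS (s.filter fun i => c i = k) f).card - 1) ≤ (FS s f).card := by
    refine le_trans (le_of_eq ?_) (hKp G ι (Fin g) s f c univ (fun _ _ => mem_univ _) hap)
    refine congrArg (fun n => 1 + n) (sum_congr rfl fun k _ => ?_)
    exact congrArg (fun inst : DecidablePred (fun i => c i = k) =>
      (FS (@Finset.filter ι (fun i => c i = k) inst s) f).card - 1) (Subsingleton.elim _ _)
  have h2 : ∀ k : Fin g, 2 * (s.filter fun i => c i = k).card ≤
      ((FS (s.filter fun i => c i = k) f).card - 1) + 1 := by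
    intro k
    have hpos : 1 ≤ (FS (s.filter fun i => c i = k) f).card :=
      card_pos.2 ⟨0, zero_mem_FS _ _⟩
    rw [Nat.sub_add_cancel hpos]
    rcases Nat.eq_zero_or_pos (s.filter fun i => c i = k).card with h0 | h0
    · rw [h0]; omega
    · refine hAs G ι (s.filter fun i => c i = k) f hcyc ⟨fun i hi => hne i (mem_filter.1 hi).1, hc k⟩
        ?_ h0
      exact (hBa G ι f).2.1 s _ (filter_subset _ _) hap
  have h3 : s.card = ∑ k : Fin g, (s.filter fun i => c i = k).card :=
    card_eq_sum_card_fiberwise (fun _ _ => mem_univ _)
  have h4 : ∑ k : Fin g, 2 * (s.filter fun i => c i = k).card ≤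
      ∑ k : Fin g, (((FS (s.filter fun i => c i = k) f).card - 1) + 1) :=
    sum_le_sum fun k _ => h2 k
  rw [← mul_sum, ← h3, sum_add_distrib, sum_const, card_univ, Fintype.card_fin, smul_eq_mul,
    mul_one] at h4
  omega

end Pool.Agent.SNT
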