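import Pool.Agent.SNT.St

/-!
# SNT, module Pn: number of incomplete rows
-/

set_option autoImplicit false

noncomputable section

open Finset Pool.Agent.Helper64.Rho Pool.Agent.SDG Pool.Agent.MDR
open scoped Classical Pointwise

namespace Pool.Agent.SNT

/-- the group of the periods of a finite set -/
private def Pn_per {G : Type} [AddCommGroup G] (X : Finset G) : AddSubgroup G where
  carrier := {g | ∀ x ∈ X, x + g ∈ X}
  add_mem' := by
    intro a b ha hb x hx
    have := hb _ (ha x hx)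
    rwa [add_assoc] at this
  zero_mem' := by
    intro x hx
    simpa using hx
  neg_mem' := by
    intro g hg x hx
    have h1 : X.image (· + g) = X := by
      apply eq_of_subset_of_card_le
      · intro y hy
        obtain ⟨z, hz, rfl⟩ := mem_image.1 hy
        exact hg z hz
      · rw [card_image_of_injective _ (add_left_injective g)]
    rw [← h1] at hx
    obtain ⟨z, hz, rfl⟩ := mem_image.1 hx
    simpa using hz

private lemma Pn_mem {G : Type} [AddCommGroup G] {X : Finset G} {g : G} :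
    g ∈ Pn_per X ↔ ∀ x ∈ X, x + g ∈ X := Iff.rfl

/-- a finset with the elements of a subgroup -/
private lemma Pn_fin {G : Type} [AddCommGroup G] [Finite G] (L : AddSubgroup G) :
    ∃ F : Finset G, (∀ x, x ∈ F ↔ x ∈ L) ∧ F.card = Nat.card L := by
  refine ⟨(Set.toFinite (L : Set G)).toFinset, fun x => by simp, ?_⟩
  rw [← Set.ncard_eq_toFinset_card]
  rfl

private lemma Pn_key (hS : SDG.St_Sm) (hK : SDG.St_Kn) {G ι : Type} [AddCommGroup G] [Finite G]
    (s : Finset ι) (f : ι → G) (L : AddSubgroup G) (h0 : ∀ i ∈ s, f i ≠ 0)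
    (hA : ∀ t ⊆ s, Aper (FS t f)) (hL : gen s f = L) (X : Finset G)
    (hXL : ∃ x ∈ X, ∃ g ∈ L, x + g ∉ X) :
    s.card + (if ¬ Aper X then 1 else 0) ≤ ∑ i ∈ s, lam X (f i) := by
  obtain ⟨RF, hRF, hRc⟩ := Pn_fin (Pn_per X)
  set sR := s.filter fun i => f i ∈ Pn_per X with hsR
  have hne : (FS sR f).Nonempty := ⟨0, zero_mem_FS sR f⟩
  have hin : ∀ x ∈ FS sR f, x ∈ Pn_per X := fun x hx =>
    FS_subset_of_mem (fun i hi => (mem_filter.1 hi).2) hx
  have hsm : sR.card + 1 ≤ (FS sR f).card :=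
    (hS G ι sR f (fun i hi => h0 i (mem_filter.1 hi).1) (hA sR (filter_subset _ _))).1
  have h1 : sR.card + 1 + (if ¬ Aper X then 1 else 0) ≤ Nat.card (Pn_per X) := by
    by_cases hX : Aper X
    · rw [if_neg (not_not.2 hX), add_zero]
      refine hsm.trans ?_
      rw [← hRc]
      refine card_le_card fun x hx => ?_
      rw [hRF]
      exact hin x hx
    · rw [if_pos hX]
      have hb : Pn_per X ≠ ⊥ := by
        intro hbot
        refine hX fun g hg => ?_
        have h2 : g ∈ Pn_per X := hg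
        rw [hbot] at h2
        exact (AddSubgroup.mem_bot).1 h2
      have h3 := (hK G).2.2.2 (FS sR f) (Pn_per X) hne hb hin (hA sR (filter_subset _ _))
      omega
  have h2 : ∃ i ∈ s, f i ∉ Pn_per X := by
    by_contra hcon
    push Not at hcon
    obtain ⟨x, hx, g, hg, hxg⟩ := hXL
    rw [← hL] at hg
    have h3 : gen s f ≤ Pn_per X := by
      unfold gen
      rw [AddSubgroup.closure_le]
      rintro _ ⟨i, hi, rfl⟩
      exact hcon i hi
    exact hxg (Pn_mem.1 (h3 hg) x hx)
  have h3 : ∀ i ∈ s, f i ∉ Pn_per X → Nat.card (Pn_per X) ≤ lam X (f i) := by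
    intro i _ hi
    rw [Pn_mem] at hi
    push Not at hi
    obtain ⟨x, hx, hxi⟩ := hi
    rw [← hRc]
    unfold lam
    refine card_le_card_of_injOn (fun r => x + r) ?_ (fun a _ b _ h => add_left_cancel h)
    intro r hr
    have hr' : r ∈ Pn_per X := (hRF r).1 hr
    show x + r ∈ ((X.filter fun b => b + f i ∉ X : Finset G) : Set G)
    rw [mem_coe, mem_filter]
    refine ⟨Pn_mem.1 hr' x hx, fun h => hxi ?_⟩
    have h4 := Pn_mem.1 ((Pn_per X).neg_mem hr') _ h
    have h5 : x + r + f i + -r = x + f i := by abel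
    rwa [h5] at h4
  set sN := s.filter fun i => f i ∉ Pn_per X with hsN
  have h4 : sR.card + sN.card = s.card := card_filter_add_card_filter_not _
  have h5 : 1 ≤ sN.card := by
    obtain ⟨i, hi, hi'⟩ := h2
    exact card_pos.2 ⟨i, mem_filter.2 ⟨hi, hi'⟩⟩
  have h6 : sN.card * Nat.card (Pn_per X) ≤ ∑ i ∈ s, lam X (f i) := by
    calc sN.card * Nat.card (Pn_per X) = ∑ i ∈ sN, Nat.card (Pn_per X) := by
          rw [sum_const, smul_eq_mul]
      _ ≤ ∑ i ∈ sN, lam X (f i) :=
          sum_le_sum fun i hi => h3 i (mem_filter.1 hi).1 (mem_filter.1 hi).2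
      _ ≤ ∑ i ∈ s, lam X (f i) :=
          sum_le_sum_of_subset (filter_subset _ _)
  refine le_trans ?_ h6
  refine le_trans ?_ (Nat.mul_le_mul_left _ h1)
  obtain ⟨b, hb⟩ := Nat.exists_eq_add_of_le h5
  rw [← h4, hb]
  nlinarith [Nat.zero_le (b * sR.card), Nat.zero_le (b * (if ¬ Aper X then 1 else 0))]

/-- (Pn) -/
theorem thm_Pn : SDG.St_Ba1 → SDG.St_Kn → SDG.St_Sm → St_Pn := by
  intro hB hK hS G ι _ _ s f C j h0 hA hC hj
  set T := FS s f with hT
  set sC := ins s f C with hsC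
  have hsub : sC ⊆ s := filter_subset _ _
  have hCf : ∀ i ∈ sC, f i ∈ C := fun i hi => (mem_filter.1 hi).2
  have hπ : ∀ x y : G, (QuotientAddGroup.mk x : G ⧸ C) = QuotientAddGroup.mk y ↔ y - x ∈ C := by
    intro x y
    rw [QuotientAddGroup.eq, neg_add_eq_sub]
  set P := (qs T C).filter fun c => Prt T C c with hP
  have hAt : ∀ t ⊆ sC, Aper (FS t f) := fun t ht => (hB G ι f).2.1 s t (ht.trans hsub) hA
  have hrow : ∀ c ∈ P, sC.card + (if ¬ Aper (row T C c) then 1 else 0) ≤
      ∑ i ∈ sC, lam (row T C c) (f i) := by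
    intro c hc
    obtain ⟨hcq, y, hy, hyT⟩ := mem_filter.1 hc
    obtain ⟨a, ha, hac⟩ := mem_image.1 hcq
    refine Pn_key hS hK sC f C (fun i hi => h0 i (hsub hi)) hAt hC (row T C c)
      ⟨a, mem_filter.2 ⟨ha, hac⟩, y - a, (hπ a y).1 (hac.trans hy.symm), ?_⟩
    rw [add_sub_cancel]
    exact fun h => hyT (mem_filter.1 h).1
  have hlam : ∀ y ∈ C, ∑ c ∈ P, lam (row T C c) y ≤ lam T y := by
    intro y hy
    have h1 : lam T y = ∑ c ∈ qs T C, lam (row T C c) y := by
      unfold lam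
      rw [card_eq_sum_card_fiberwise (f := fun x => (QuotientAddGroup.mk x : G ⧸ C))
        (t := qs T C) (fun x hx => by
          rw [mem_coe] at hx ⊢
          exact mem_image_of_mem _ (mem_filter.1 hx).1)]
      refine sum_congr rfl fun c _ => ?_
      congr 1
      ext x
      simp only [row, mem_filter]
      constructor
      · rintro ⟨⟨h1, h2⟩, h3⟩
        exact ⟨⟨h1, h3⟩, fun h => h2 h.1⟩
      · rintro ⟨⟨h1, h2⟩, h3⟩
        refine ⟨⟨h1, fun h => h3 ⟨h, ?_⟩⟩, h2⟩
        rw [← h2, eq_comm, hπ]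
        simpa using hy
    rw [h1]
    exact sum_le_sum_of_subset (filter_subset _ _)
  have hper : ((qs T C).filter fun c => Prt T C c ∧ ¬ Aper (row T C c)).card =
      ∑ c ∈ P, (if ¬ Aper (row T C c) then 1 else 0) := by
    rw [← card_filter, hP, filter_filter]
  calc sC.card * P.card + ((qs T C).filter fun c => Prt T C c ∧ ¬ Aper (row T C c)).card
      = ∑ c ∈ P, (sC.card + (if ¬ Aper (row T C c) then 1 else 0)) := by
        rw [hper, sum_add_distrib, sum_const, smul_eq_mul, mul_comm]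
    _ ≤ ∑ c ∈ P, ∑ i ∈ sC, lam (row T C c) (f i) := sum_le_sum hrow
    _ = ∑ i ∈ sC, ∑ c ∈ P, lam (row T C c) (f i) := sum_comm
    _ ≤ ∑ i ∈ sC, lam T (f i) := sum_le_sum fun i hi => hlam _ (hCf i hi)
    _ ≤ ∑ i ∈ sC, j := sum_le_sum fun i hi => hj i (hsub hi) (hCf i hi)
    _ = sC.card * j := by rw [sum_const, smul_eq_mul]

end Pool.Agent.SNT
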