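import Pool.Agent.SNT.St

/-!
# SNT / Rd: sums of `i` members when every value is taken exactly twice (MP_ec93d3_co)
-/

set_option autoImplicit false

noncomputable section

open Finset Pool.Agent.Helper64.Rho Pool.Agent.SDG Pool.Agent.MDR
open scoped Classical Pointwise

namespace Pool.Agent.SNT

/-- translates of an aperiodic set by two different elements -/
private lemma Rd_pair {G : Type} [AddCommGroup G] (D : Finset G) (b b' : G) (hb : b ≠ b') (hA : Aper D) :
    D.card + 1 ≤ ((D.image fun x => x + b) ∪ (D.image fun x => x + b')).card := by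
  have h1 : (D.image fun x => x + b).card = D.card :=
    card_image_of_injective _ (add_left_injective b)
  have h2 : (D.image fun x => x + b').card = D.card :=
    card_image_of_injective _ (add_left_injective b')
  by_contra hlt
  have hlt' : ((D.image fun x => x + b) ∪ (D.image fun x => x + b')).card ≤ D.card := by omega
  have e1 : (D.image fun x => x + b) = (D.image fun x => x + b) ∪ (D.image fun x => x + b') :=
    eq_of_subset_of_card_le subset_union_left (by rw [h1]; exact hlt')
  have e2 : (D.image fun x => x + b') = (D.image fun x => x + b) ∪ (D.image fun x => x + b') :=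
    eq_of_subset_of_card_le subset_union_right (by rw [h2]; exact hlt')
  have e3 : (D.image fun x => x + b) = (D.image fun x => x + b') := e1.trans e2.symm
  have hper : ∀ x ∈ D, x + (b - b') ∈ D := by
    intro x hx
    have hx1 : x + b ∈ (D.image fun x => x + b') := by
      rw [← e3]; exact mem_image_of_mem _ hx
    obtain ⟨y, hy, hyx⟩ := mem_image.1 hx1
    have : x + (b - b') = y := by
      have h : y + b' = x + b := hyx
      rw [← add_sub_assoc, ← h]; abel
    rw [this]; exact hy
  exact hb (sub_eq_zero.1 (hA _ hper))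

/-- the case `i ≤ d` -/
private lemma Rd_small {G ι : Type} [AddCommGroup G] (O : Finset ι) (f : ι → G)
    (h2 : ∀ x ∈ O.image f, (O.filter fun i => f i = x).card = 2) (hA : Aper (O.image f)) (i : ℕ) (hi : 2 ≤ i)
    (hd : i ≤ (O.image f).card) : (O.image f).card + 1 ≤ (ks f O i).card := by
  set D := O.image f with hD
  -- a section
  have hsec : ∀ x : G, ∃ p : ι, x ∈ D → p ∈ O ∧ f p = x := by
    intro x
    by_cases hx : x ∈ D
    · obtain ⟨p, hp, hpx⟩ := mem_image.1 hx
      exact ⟨p, fun _ => ⟨hp, hpx⟩⟩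
    · have hne : D.Nonempty := by
        rw [← card_pos]; omega
      obtain ⟨y, hy⟩ := hne
      obtain ⟨p, _, _⟩ := mem_image.1 hy
      exact ⟨p, fun h => absurd h hx⟩
  choose g hg using hsec
  obtain ⟨V, hVD, hVc⟩ := exists_subset_card_eq (show i - 2 ≤ D.card by omega)
  have hrest : 1 < (D \ V).card := by
    rw [card_sdiff_of_subset hVD]; omega
  obtain ⟨b, hb, b', hb', hbb⟩ := one_lt_card.1 hrest
  set A := V.image g with hAdef
  have hginj : Set.InjOn g (V : Set G) := by
    intro x hx y hy hxy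
    have h1 := (hg x (hVD (mem_coe.1 hx))).2
    have h2' := (hg y (hVD (mem_coe.1 hy))).2
    rw [← h1, ← h2', hxy]
  have hAc : A.card = i - 2 := by rw [hAdef, card_image_of_injOn hginj, hVc]
  have hAO : A ⊆ O := by
    intro p hp
    obtain ⟨v, hv, rfl⟩ := mem_image.1 hp
    exact (hg v (hVD hv)).1
  have hfA : ∀ p ∈ A, f p ∈ V ∧ p = g (f p) := by
    intro p hp
    obtain ⟨v, hv, rfl⟩ := mem_image.1 hp
    have := (hg v (hVD hv)).2
    exact ⟨by rw [this]; exact hv, by rw [this]⟩
  -- the key: two indices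
  have hkey : ∀ x ∈ D, ∀ y ∈ D \ V, ∃ p ∈ O, ∃ q ∈ O, p ∉ A ∧ q ∉ A ∧ p ≠ q ∧ f p = x ∧ f q = y := by
    intro x hx y hy
    obtain ⟨hyD, hyV⟩ := mem_sdiff.1 hy
    obtain ⟨q1, q2, hq12, hq⟩ := card_eq_two.1 (h2 y hyD)
    have hq1 : q1 ∈ O ∧ f q1 = y := by
      have : q1 ∈ O.filter fun i => f i = y := by rw [hq]; simp
      exact mem_filter.1 this
    have hq2 : q2 ∈ O ∧ f q2 = y := by
      have : q2 ∈ O.filter fun i => f i = y := by rw [hq]; simp
      exact mem_filter.1 this
    have hq1A : q1 ∉ A := fun h => hyV (by rw [← hq1.2]; exact (hfA q1 h).1)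
    have hq2A : q2 ∉ A := fun h => hyV (by rw [← hq2.2]; exact (hfA q2 h).1)
    by_cases hxy : x = y
    · subst hxy
      exact ⟨q1, hq1.1, q2, hq2.1, hq1A, hq2A, hq12, hq1.2, hq2.2⟩
    · obtain ⟨p1, p2, hp12, hp⟩ := card_eq_two.1 (h2 x hx)
      have hp1 : p1 ∈ O ∧ f p1 = x := by
        have : p1 ∈ O.filter fun i => f i = x := by rw [hp]; simp
        exact mem_filter.1 this
      have hp2 : p2 ∈ O ∧ f p2 = x := by
        have : p2 ∈ O.filter fun i => f i = x := by rw [hp]; simp
        exact mem_filter.1 this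
      have hne : ∀ p, f p = x → p ≠ q1 := by
        intro p hpx hpq
        exact hxy (by rw [← hpx, hpq, hq1.2])
      by_cases hp1A : p1 ∈ A
      · have hp2A : p2 ∉ A := by
          intro h
          apply hp12
          rw [(hfA p1 hp1A).2, (hfA p2 h).2, hp1.2, hp2.2]
        exact ⟨p2, hp2.1, q1, hq1.1, hp2A, hq1A, hne p2 hp2.2, hp2.2, hq1.2⟩
      · exact ⟨p1, hp1.1, q1, hq1.1, hp1A, hq1A, hne p1 hp1.2, hp1.2, hq1.2⟩
  -- the sums
  have hmem : ∀ x ∈ D, ∀ y ∈ D \ V, ∑ p ∈ A, f p + (x + y) ∈ ks f O i := by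
    intro x hx y hy
    obtain ⟨p, hpO, q, hqO, hpA, hqA, hpq, hpx, hqy⟩ := hkey x hx y hy
    have hqA' : q ∉ A := hqA
    have hpA' : p ∉ insert q A := by
      rw [mem_insert, not_or]; exact ⟨hpq, hpA⟩
    refine mem_image.2 ⟨insert p (insert q A), mem_powersetCard.2 ⟨?_, ?_⟩, ?_⟩
    · exact insert_subset hpO (insert_subset hqO hAO)
    · rw [card_insert_of_notMem hpA', card_insert_of_notMem hqA', hAc]; omega
    · rw [sum_insert hpA', sum_insert hqA', hpx, hqy]; abel
  have hsub : (((D.image fun x => x + b) ∪ (D.image fun x => x + b')).image fun z => ∑ p ∈ A, f p + z) ⊆ ks f O i := by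
    intro z hz
    obtain ⟨u, hu, rfl⟩ := mem_image.1 hz
    rcases mem_union.1 hu with h | h
    · obtain ⟨x, hx, rfl⟩ := mem_image.1 h
      exact hmem x hx b hb
    · obtain ⟨x, hx, rfl⟩ := mem_image.1 h
      exact hmem x hx b' hb'
  calc D.card + 1 ≤ ((D.image fun x => x + b) ∪ (D.image fun x => x + b')).card := Rd_pair D b b' hbb hA
    _ = (((D.image fun x => x + b) ∪ (D.image fun x => x + b')).image fun z => ∑ p ∈ A, f p + z).card :=
        (card_image_of_injective _ (add_right_injective _)).symm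
    _ ≤ (ks f O i).card := card_le_card hsub

/-- **Rd**: every value is taken exactly twice, aperiodic set of values -/
theorem thm_Rd : St_Rw → St_Rd := by
  intro hRw G ι _ O f h2 hA i hi hin
  have hn : O.card = 2 * (O.image f).card := by
    rw [card_eq_sum_card_image f O, sum_congr rfl h2, sum_const, smul_eq_mul, mul_comm]
  by_cases hd : i ≤ (O.image f).card
  · exact Rd_small O f h2 hA i hi hd
  · rw [(hRw G ι O f).1 i (by omega)]
    exact Rd_small O f h2 hA (O.card - i) (by omega) (by omega)

end Pool.Agent.SNT
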