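import Pool.Agent.SNT.St

/-!
# SNT, Rg: the gain of a row (Lean: helper6)
-/

set_option autoImplicit false

noncomputable section

open Finset Pool.Agent.Helper64.Rho Pool.Agent.SDG Pool.Agent.MDR
open scoped Classical Pointwise

namespace Pool.Agent.SNT

private theorem Rg_cf (hNm : SDG.St_Nm1) (k : ℕ) : 2 * k ≤ cf 2 k + 1 := by
  obtain ⟨-, -, h, -, -, -⟩ := hNm
  rw [h]
  have h1 : 2 * k ≤ (k + 1) ^ 2 / 4 + 2 := by
    have h2 : 4 * (2 * k) ≤ (k + 1) ^ 2 + 8 := by
      have h3 : (0 : ℤ) ≤ ((k : ℤ) - 3) ^ 2 := sq_nonneg _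
      have h4 : (4 * (2 * (k : ℤ))) ≤ ((k : ℤ) + 1) ^ 2 + 8 := by nlinarith
      exact_mod_cast h4
    omega
  omega

private theorem Rg_F {G : Type} [AddCommGroup G] [Fintype G] (P : AddSubgroup G) :
    (Helper58.F P).card = Nat.card P := by
  rw [Nat.card_eq_fintype_card, Fintype.card_subtype]
  rfl

private theorem Rg_FS {G ι : Type} [AddCommGroup G] (i1 i2 : DecidableEq G) (s : Finset ι) (f : ι → G) :
    @FS ι G _ i1 s f = @FS ι G _ i2 s f := by
  rw [Subsingleton.elim i1 i2]

theorem thm_Rg : SDG.St_Ba1 → SDG.St_Kn → SDG.St_Sm → SDG.St_Qu → SDG.St_Nm1 → St_Rg := by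
  intro hBa hKn hSm hQu hNm G ι _ _ s f C X x0 hPA hf0 hcap hap hgen hs hX hXC hy
  obtain ⟨y, hyC, hyV⟩ := hy
  have := Fintype.ofFinite G
  obtain ⟨-, b2, -, -, -, -, b7⟩ := hBa G ι f
  obtain ⟨-, -, -, k4⟩ := hKn G
  have hUne : (FS s f).Nonempty := ⟨0, zero_mem_FS s f⟩
  have hVne : (X + FS s f).Nonempty := hX.add hUne
  have hVC : ∀ v ∈ X + FS s f, v - x0 ∈ C := by
    intro v hv
    obtain ⟨x, hx, u, hu, rfl⟩ := Finset.mem_add.1 hv
    have h1 := b7 s u hu
    rw [hgen] at h1
    have h2 : x + u - x0 = (x - x0) + u := by abel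
    rw [h2]
    exact C.add_mem (hXC x hx) h1
  obtain ⟨P, hP⟩ : ∃ P, P = Helper58.stab (X + FS s f) := ⟨_, rfl⟩
  have hPC : P ≤ C := by
    intro g hg
    obtain ⟨v, hv⟩ := hVne
    rw [hP] at hg
    have h1 := hVC _ ((Helper58.mem_stab.1 hg v).2 hv)
    have h2 := C.sub_mem h1 (hVC v hv)
    have h3 : g + v - x0 - (v - x0) = g := by abel
    rwa [h3] at h2
  have hPne : P ≠ C := by
    intro h
    obtain ⟨v, hv⟩ := hVne
    have h1 : y - v ∈ Helper58.stab (X + FS s f) := by
      rw [← hP, h]
      have h2 : y - v = (y - x0) - (v - x0) := by abel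
      rw [h2]
      exact C.sub_mem hyC (hVC v hv)
    have h2 := (Helper58.mem_stab.1 h1 v).2 hv
    rw [sub_add_cancel] at h2
    exact hyV h2
  have hkn := Helper58.kneser hX hUne
  rw [← hP] at hkn
  have hX1 := Finset.card_le_card (Helper58.subset_sat X P)
  rw [Rg_F] at hkn
  suffices hmain : Nat.card P + 2 * s.card ≤ (Helper58.sat (FS s f) P).card + 2 by omega
  by_cases hbot : P = ⊥
  · have h1 : Nat.card P = 1 := by
      rw [hbot]
      exact AddSubgroup.card_bot
    have h2 := Finset.card_le_card (Helper58.subset_sat (FS s f) P)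
    have h3 := hPA ι s f hf0 hcap hap
    have h4 := Rg_cf hNm s.card
    omega
  · -- `sat = st`
    have hst : Helper58.sat (FS s f) P = st (FS s f) P := by
      ext z
      rw [Helper58.mem_sat]
      unfold st
      simp
    obtain ⟨q1, q2, q3, -, q5⟩ := hQu G ι s f P
    rw [hst, ← q2]
    have hap' : Aper (FS (s.filter fun i => f i ∉ P) fun i => (QuotientAddGroup.mk (f i) : G ⧸ P)) := by
      apply q3
      intro g hg
      rw [hP]
      apply Helper58.mem_stab_of_forall
      intro v hv
      obtain ⟨x, hx, u, hu, rfl⟩ := Finset.mem_add.1 hv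
      have h1 : u ∈ st (FS s f) P := by
        rw [← hst]
        exact Helper58.subset_sat _ _ hu
      have h2 := hg u h1
      rw [← hst, Helper58.mem_sat] at h2
      obtain ⟨u', hu', h3⟩ := h2
      have h4 : x + u' ∈ X + FS s f := Finset.add_mem_add hx hu'
      rw [hP] at h3
      have h5 := (Helper58.mem_stab.1 h3 (x + u')).2 h4
      have h6 : u + g - u' + (x + u') = g + (x + u) := by abel
      rwa [h6] at h5
    rw [Rg_FS _ (fun a b => Classical.propDecidable (a = b))] at hap'
    rw [Rg_FS _ (fun a b => Classical.propDecidable (a = b))]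
    have hb := (hSm (G ⧸ P) ι (s.filter fun i => f i ∉ P)
      (fun i => (QuotientAddGroup.mk (f i) : G ⧸ P)) q5 hap').1
    have hsplit : (s.filter fun i => f i ∈ P).card + (s.filter fun i => f i ∉ P).card = s.card :=
      Finset.card_filter_add_card_filter_not _
    have hb1 : 1 ≤ (s.filter fun i => f i ∉ P).card := by
      by_contra h
      have h0 : (s.filter fun i => f i ∉ P).card = 0 := by omega
      rw [card_eq_zero, filter_eq_empty_iff] at h0
      apply hPne
      apply le_antisymm hPC
      rw [← hgen]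
      unfold gen
      rw [AddSubgroup.closure_le]
      rintro z ⟨i, hi, rfl⟩
      have := h0 hi
      rw [not_not] at this
      exact this
    have hP2 : 2 ≤ Nat.card P := (AddSubgroup.one_lt_card_iff_ne_bot P).2 hbot
    obtain ⟨a, ha⟩ : ∃ a, a = (s.filter fun i => f i ∈ P).card := ⟨_, rfl⟩
    obtain ⟨b, hbdef⟩ : ∃ b, b = (s.filter fun i => f i ∉ P).card := ⟨_, rfl⟩
    obtain ⟨n, hn⟩ : ∃ n, n = Nat.card P := ⟨_, rfl⟩
    rw [← ha, ← hbdef] at hsplit
    rw [← hbdef] at hb hb1
    rw [← hn] at hP2 ⊢
    have h5 := Nat.mul_le_mul_left n hb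
    have hkey : 2 * s.card ≤ n * b + 2 := by
      rcases Nat.eq_zero_or_pos a with ha0 | ha1
      · have h6 : 2 * b ≤ n * b := Nat.mul_le_mul_right b hP2
        omega
      · have h6 : 2 * a ≤ n := by
          have h7 : Aper (FS (s.filter fun i => f i ∈ P) f) := b2 s _ (filter_subset _ _) hap
          have h8 : cf 2 (s.filter fun i => f i ∈ P).card ≤ (FS (s.filter fun i => f i ∈ P) f).card := by
            apply hPA ι _ f _ _ h7
            · intro i hi
              exact hf0 i (mem_filter.1 hi).1
            · intro x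
              refine (card_le_card ?_).trans (hcap x)
              exact filter_subset_filter _ (filter_subset _ _)
          have h9 : (FS (s.filter fun i => f i ∈ P) f).card + 1 ≤ Nat.card P := by
            apply k4 _ _ ⟨0, zero_mem_FS _ _⟩ hbot _ h7
            intro x hx
            have h10 := b7 _ x hx
            have h11 : gen (s.filter fun i => f i ∈ P) f ≤ P := by
              unfold gen
              rw [AddSubgroup.closure_le]
              rintro z ⟨i, hi, rfl⟩
              have h12 : i ∈ s.filter fun i => f i ∈ P := hi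
              exact (mem_filter.1 h12).2
            exact h11 h10
          have h10 := Rg_cf hNm (s.filter fun i => f i ∈ P).card
          rw [← ha] at h8 h10
          omega
        have h7 : 2 * a * b ≤ n * b := Nat.mul_le_mul_right b h6
        have h8 : a + b ≤ a * b + 1 := by
          obtain ⟨a', rfl⟩ := Nat.exists_eq_succ_of_ne_zero (by omega : a ≠ 0)
          obtain ⟨b', rfl⟩ := Nat.exists_eq_succ_of_ne_zero (by omega : b ≠ 0)
          simp only [Nat.succ_eq_add_one]
          ring_nf
          omega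
        have h9 : 2 * a * b = 2 * (a * b) := by ring
        omega
    have h6 : n * (b + 1) = n * b + n := by ring
    omega

end Pool.Agent.SNT
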