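import Mathlib
import Pool.Agent.SNT.St

/-!
# SNT: Rs, rows of `T = W + U`
-/

set_option autoImplicit false

noncomputable section

open Finset Pool.Agent.Helper64.Rho Pool.Agent.SDG Pool.Agent.MDR
open scoped Classical Pointwise

namespace Pool.Agent.SNT

private theorem Rs_card {G : Type} [AddCommGroup G] (X : Finset G) (C : AddSubgroup G) (Q : Finset (G ⧸ C))
    (h : ∀ x ∈ X, (QuotientAddGroup.mk x : G ⧸ C) ∈ Q) : X.card = ∑ c ∈ Q, (row X C c).card := by
  unfold row
  exact Finset.card_eq_sum_card_fiberwise h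

theorem thm_Rs : SDG.St_Ba1 → St_Rs := by
  intro hBa G ι _ _ s f C
  have hBa1 := (hBa G ι f).1
  have hdis : Disjoint (outs s f C) (ins s f C) := by
    rw [Finset.disjoint_left]
    intro i h1 h2
    exact (Finset.mem_filter.1 h1).2 (Finset.mem_filter.1 h2).2
  have hun : outs s f C ∪ ins s f C = s := by
    ext i
    unfold outs ins
    rw [Finset.mem_union, Finset.mem_filter, Finset.mem_filter]
    tauto
  have hT : FS s f = FS (outs s f C) f + FS (ins s f C) f := by
    have h := hBa1 (outs s f C) (ins s f C) hdis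
    rw [hun] at h
    exact h
  have hU : ∀ u ∈ FS (ins s f C) f, u ∈ C := fun u hu =>
    FS_subset_of_mem (M := C) (fun i hi => (Finset.mem_filter.1 hi).2) hu
  have hpi : ∀ w : G, ∀ u ∈ FS (ins s f C) f, (QuotientAddGroup.mk (w + u) : G ⧸ C) = QuotientAddGroup.mk w := by
    intro w u hu
    rw [QuotientAddGroup.eq]
    have := C.neg_mem (hU u hu)
    have e : -(w + u) + w = -u := by abel
    rw [e]
    exact this
  have h0 : (0 : G) ∈ FS (ins s f C) f := zero_mem_FS _ _
  have hWT : FS (outs s f C) f ⊆ FS s f := FS_mono (Finset.filter_subset _ _) f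
  have hrow : ∀ c, row (FS s f) C c = row (FS (outs s f C) f) C c + FS (ins s f C) f := by
    intro c
    ext x
    unfold row
    rw [Finset.mem_filter, Finset.mem_add, hT, Finset.mem_add]
    constructor
    · rintro ⟨⟨w, hw, u, hu, rfl⟩, hc⟩
      rw [hpi w u hu] at hc
      exact ⟨w, Finset.mem_filter.2 ⟨hw, hc⟩, u, hu, rfl⟩
    · rintro ⟨w, hw, u, hu, rfl⟩
      rw [Finset.mem_filter] at hw
      exact ⟨⟨w, hw.1, u, hu, rfl⟩, by rw [hpi w u hu]; exact hw.2⟩
  have hne : ∀ c ∈ qs (FS s f) C, (row (FS (outs s f C) f) C c).Nonempty := by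
    intro c hc
    unfold qs at hc
    rw [Finset.mem_image] at hc
    obtain ⟨x, hx, hxc⟩ := hc
    rw [hT, Finset.mem_add] at hx
    obtain ⟨w, hw, u, hu, rfl⟩ := hx
    rw [hpi w u hu] at hxc
    exact ⟨w, Finset.mem_filter.2 ⟨hw, hxc⟩⟩
  have hle : ∀ c ∈ qs (FS s f) C, (FS (ins s f C) f).card ≤ (row (FS s f) C c).card := by
    intro c hc
    rw [hrow c]
    exact Finset.card_le_card_add_left (hne c hc)
  have hTq : ∀ x ∈ FS s f, (QuotientAddGroup.mk x : G ⧸ C) ∈ qs (FS s f) C := fun x hx =>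
    Finset.mem_image_of_mem _ hx
  have hcT : (FS s f).card = ∑ c ∈ qs (FS s f) C, (row (FS s f) C c).card := Rs_card _ _ _ hTq
  have hcW : (FS (outs s f C) f).card = ∑ c ∈ qs (FS s f) C, (row (FS (outs s f C) f) C c).card :=
    Rs_card _ _ _ fun x hx => hTq x (hWT hx)
  refine ⟨fun c hc => ⟨hrow c, hne c hc, hle c hc⟩, ?_, ?_, ?_⟩
  · intro g hg
    rw [hcT, hcW]
    have h1 := Finset.sum_le_sum hg
    rw [Finset.sum_add_distrib, Finset.sum_const, smul_eq_mul] at h1
    rw [mul_comm g]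
    exact h1
  · rw [hcT]
    have h1 := Finset.card_nsmul_le_sum (qs (FS s f) C) (fun c => (row (FS s f) C c).card) _ hle
    rw [smul_eq_mul] at h1
    rw [mul_comm]
    exact h1
  · ext c
    rw [mem_FS]
    unfold qs
    rw [Finset.mem_image]
    have hsum : ∀ t : Finset ι, ∑ i ∈ t, bar f C i = (QuotientAddGroup.mk (∑ i ∈ t, f i) : G ⧸ C) := by
      intro t
      have h := map_sum (QuotientAddGroup.mk' C) f t
      exact h.symm
    constructor
    · rintro ⟨t, ht, hc⟩
      refine ⟨∑ i ∈ t, f i, mem_FS.2 ⟨t, ht.trans (Finset.filter_subset _ _), rfl⟩, ?_⟩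
      rw [← hsum, hc]
    · rintro ⟨x, hx, hxc⟩
      rw [hT, Finset.mem_add] at hx
      obtain ⟨w, hw, u, hu, rfl⟩ := hx
      rw [hpi w u hu] at hxc
      obtain ⟨t, ht, htw⟩ := mem_FS.1 hw
      exact ⟨t, ht, by rw [hsum, htw, hxc]⟩

end Pool.Agent.SNT
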