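import Pool.Agent.SNT.St

/-!
# SNT: sums of `i` members (module Rw)
-/

set_option autoImplicit false

noncomputable section

open Finset Pool.Agent.Helper64.Rho Pool.Agent.SDG Pool.Agent.MDR
open scoped Classical Pointwise

namespace Pool.Agent.SNT

private lemma Rw_mem {G ι : Type} [AddCommGroup G] (f : ι → G) (O : Finset ι) (i : ℕ) (y : G) :
    y ∈ ks f O i ↔ ∃ S, S ⊆ O ∧ S.card = i ∧ ∑ x ∈ S, f x = y := by
  unfold ks
  rw [Finset.mem_image]
  constructor
  · rintro ⟨S, hS, h⟩
    rw [Finset.mem_powersetCard] at hS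
    exact ⟨S, hS.1, hS.2, h⟩
  · rintro ⟨S, h1, h2, h3⟩
    exact ⟨S, Finset.mem_powersetCard.mpr ⟨h1, h2⟩, h3⟩

private lemma Rw_sub {G ι : Type} [AddCommGroup G] (f : ι → G) (O : Finset ι) (i : ℕ) :
    (ks f O i).image (fun y => ∑ x ∈ O, f x - y) ⊆ ks f O (O.card - i) := by
  intro z hz
  rw [Finset.mem_image] at hz
  obtain ⟨y, hy, rfl⟩ := hz
  rw [Rw_mem] at hy
  obtain ⟨S, hS, hc, rfl⟩ := hy
  rw [Rw_mem]
  refine ⟨O \ S, Finset.sdiff_subset, ?_, ?_⟩
  · rw [Finset.card_sdiff_of_subset hS, hc]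
  · have h := Finset.sum_sdiff (f := f) hS
    rw [← h]
    abel

private lemma Rw_le {G ι : Type} [AddCommGroup G] (f : ι → G) (O : Finset ι) (i : ℕ) (hi : i ≤ O.card) :
    (ks f O i).card ≤ (ks f O (O.card - i)).card := by
  have h := Finset.card_le_card (Rw_sub f O i)
  rwa [Finset.card_image_of_injective _ (fun a b hab => by
    have h1 : ∑ x ∈ O, f x - a = ∑ x ∈ O, f x - b := hab
    exact sub_right_injective h1)] at h

private lemma Rw_symm {G ι : Type} [AddCommGroup G] (f : ι → G) (O : Finset ι) (i : ℕ) (hi : i ≤ O.card) :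
    (ks f O i).card = (ks f O (O.card - i)).card := by
  refine le_antisymm (Rw_le f O i hi) ?_
  have h := Rw_le f O (O.card - i) (Nat.sub_le _ _)
  rwa [Nat.sub_sub_self hi] at h

/-- a set of representatives -/
private lemma Rw_rep {G ι : Type} (f : ι → G) (O : Finset ι) :
    ∃ R ⊆ O, Set.InjOn f (R : Set ι) ∧ R.image f = O.image f := by
  obtain ⟨s, hs, hb⟩ := Set.exists_subset_bijOn (O : Set ι) f
  have hfin : s.Finite := O.finite_toSet.subset hs
  refine ⟨hfin.toFinset, ?_, ?_, ?_⟩
  · intro x hx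
    rw [Set.Finite.mem_toFinset] at hx
    exact_mod_cast hs hx
  · rw [Set.Finite.coe_toFinset]
    exact hb.injOn
  · ext y
    rw [Finset.mem_image, Finset.mem_image]
    constructor
    · rintro ⟨x, hx, rfl⟩
      rw [Set.Finite.mem_toFinset] at hx
      exact ⟨x, by exact_mod_cast hs hx, rfl⟩
    · rintro ⟨x, hx, rfl⟩
      have h1 : f x ∈ f '' (O : Set ι) := ⟨x, by exact_mod_cast hx, rfl⟩
      have h2 := hb.surjOn h1
      obtain ⟨x', hx', h3⟩ := h2
      exact ⟨x', by rw [Set.Finite.mem_toFinset]; exact hx', h3⟩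

/-- the sums `∑_A f + f x`, `x ∈ B`, `B` disjoint from `A`, `f` injective on `B` -/
private lemma Rw_add {G ι : Type} [AddCommGroup G] (f : ι → G) (O A B : Finset ι) (i : ℕ) (hi : 1 ≤ i)
    (hA : A ⊆ O) (hB : B ⊆ O) (hc : A.card = i - 1) (hd : Disjoint A B) (hinj : Set.InjOn f (B : Set ι)) :
    B.card ≤ (ks f O i).card := by
  have h1 : (B.image fun x => ∑ y ∈ A, f y + f x) ⊆ ks f O i := by
    intro z hz
    rw [Finset.mem_image] at hz
    obtain ⟨x, hx, rfl⟩ := hz
    have hxA : x ∉ A := fun h => (Finset.disjoint_left.mp hd h) hx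
    rw [Rw_mem]
    refine ⟨insert x A, ?_, ?_, ?_⟩
    · intro y hy
      rw [Finset.mem_insert] at hy
      rcases hy with rfl | hy
      · exact hB hx
      · exact hA hy
    · rw [Finset.card_insert_of_notMem hxA, hc]
      omega
    · rw [Finset.sum_insert hxA, add_comm]
  have h2 : (B.image fun x => ∑ y ∈ A, f y + f x).card = B.card := by
    apply Finset.card_image_of_injOn
    intro x hx y hy hxy
    apply hinj hx hy
    have h3 : ∑ y ∈ A, f y + f x = ∑ z ∈ A, f z + f y := hxy
    exact add_left_cancel h3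
  rw [← h2]
  exact Finset.card_le_card h1

private lemma Rw_two {G ι : Type} [AddCommGroup G] (f : ι → G) (O : Finset ι) (i : ℕ) (hi : 1 ≤ i) (hn : i ≤ O.card) :
    min (O.image f).card (O.card + 1 - i) ≤ (ks f O i).card := by
  obtain ⟨R, hR, hinj, him⟩ := Rw_rep f O
  have hRc : R.card = (O.image f).card := by
    rw [← him, Finset.card_image_of_injOn hinj]
  have hsd : (O \ R).card = O.card - R.card := Finset.card_sdiff_of_subset hR
  have hRle : R.card ≤ O.card := Finset.card_le_card hR
  rcases le_or_gt (i - 1) (O \ R).card with h | h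
  · obtain ⟨A, hA, hAc⟩ := Finset.exists_subset_card_eq h
    have h1 : Disjoint A R := Finset.disjoint_left.mpr fun x hx hx' => (Finset.mem_sdiff.mp (hA hx)).2 hx'
    have h2 := Rw_add f O A R i hi (hA.trans Finset.sdiff_subset) hR hAc h1 hinj
    rw [hRc] at h2
    exact (min_le_left _ _).trans h2
  · obtain ⟨A, hA1, hA2, hAc⟩ := Finset.exists_subsuperset_card_eq (n := i - 1)
      (Finset.sdiff_subset : O \ R ⊆ O) h.le (by omega)
    have h1 : O \ A ⊆ R := by
      intro x hx
      rw [Finset.mem_sdiff] at hx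
      by_contra hxR
      exact hx.2 (hA1 (Finset.mem_sdiff.mpr ⟨hx.1, hxR⟩))
    have h2 : Disjoint A (O \ A) := Finset.disjoint_sdiff
    have h3 := Rw_add f O A (O \ A) i hi hA2 Finset.sdiff_subset hAc h2
      (hinj.mono (by exact_mod_cast h1))
    have h4 : (O \ A).card = O.card - A.card := Finset.card_sdiff_of_subset hA2
    rw [h4, hAc] at h3
    refine (min_le_right _ _).trans ?_
    omega

theorem thm_Rw : St_Rw := by
  intro G ι _ O f
  refine ⟨fun i hi => Rw_symm f O i hi, ?_, ?_⟩
  · intro i h1 h2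
    have a := Rw_two f O i h1 (by omega)
    have b := Rw_two f O (O.card - i) (by omega) (Nat.sub_le _ _)
    rw [← Rw_symm f O i (by omega)] at b
    have e : O.card + 1 - (O.card - i) = i + 1 := by omega
    rw [e] at b
    rcases le_total (O.image f).card (O.card + 1 - i) with hc | hc
    · rw [min_eq_left hc] at a
      exact (min_le_left _ _).trans a
    · rw [min_eq_right hc] at a
      rcases le_total (O.image f).card (i + 1) with hc' | hc'
      · rw [min_eq_left hc'] at b
        exact (min_le_left _ _).trans b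
      · rw [min_eq_right hc'] at b
        refine (min_le_right _ _).trans ?_
        omega
  · intro h
    have h1 := Finset.card_le_mul_card_image (f := f) O 2 (fun x _ => h x)
    exact h1

end Pool.Agent.SNT
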