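import Pool.Agent.SNT.St

/-!
# SNT, module T1: cyclic quotients without full row
-/

set_option autoImplicit false

noncomputable section

open Finset Pool.Agent.Helper64.Rho Pool.Agent.SDG Pool.Agent.MDR
open scoped Classical Pointwise

namespace Pool.Agent.SNT

private theorem T1_cap_mono {G ι : Type} [AddCommGroup G] {g : ℕ} {s t : Finset ι} {f : ι → G} (hst : t ⊆ s)
    (h : Cap g s f) : Cap g t f := fun x =>
  (card_le_card (filter_subset_filter _ hst)).trans (h x)

private theorem T1_pq_even {t : ℕ} (h8 : 8 ≤ t) (h2 : t % 2 = 0) : pq t = pq (t - 1) + t := by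
  obtain ⟨u, rfl⟩ : ∃ u, t = u + 2 := ⟨t - 2, by omega⟩
  have e1 : u + 2 - 1 = u + 1 := by omega
  have e2 : u + 1 - 1 = u := by omega
  unfold pq
  rw [if_neg (by omega), if_neg (by omega), if_neg (by omega), if_neg (by omega), e1, e2]
  unfold cf
  rw [sum_range_succ]
  omega

private theorem T1_class {Q ι : Type} [AddCommGroup Q] (o : Finset ι) (g : ι → Q) (ho : o.Nonempty) :
    ∃ i0 ∈ o, ∃ M0 : Finset ι, M0 ⊆ o ∧ i0 ∈ M0 ∧ (∀ i ∈ o, i ∈ M0 ↔ (g i = g i0 ∨ g i = - g i0)) ∧
      Cap M0.card o g := by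
  obtain ⟨i0, hi0, hmax⟩ := exists_max_image o
    (fun i => (o.filter fun i' => g i' = g i ∨ g i' = - g i).card) ho
  refine ⟨i0, hi0, o.filter fun i' => g i' = g i0 ∨ g i' = - g i0, filter_subset _ _,
    mem_filter.2 ⟨hi0, Or.inl rfl⟩, ?_, ?_⟩
  · intro i hi
    rw [mem_filter]
    exact ⟨fun h => h.2, fun h => ⟨hi, h⟩⟩
  · intro x
    by_cases hx : (o.filter fun i => g i = x ∨ g i = -x).Nonempty
    · obtain ⟨i, hi⟩ := hx
      obtain ⟨hio, hix⟩ := mem_filter.1 hi
      refine le_trans (card_le_card ?_) (hmax i hio)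
      intro i' hi'
      obtain ⟨hio', hix'⟩ := mem_filter.1 hi'
      refine mem_filter.2 ⟨hio', ?_⟩
      rcases hix with h | h <;> rcases hix' with h' | h'
      · exact Or.inl (h'.trans h.symm)
      · right; rw [h', h]
      · right; rw [h', h, neg_neg]
      · exact Or.inl (h'.trans h.symm)
    · rw [not_nonempty_iff_eq_empty.1 hx]
      simp

private theorem T1_FS {ι Q : Type} [AddCommGroup Q] (i1 i2 : DecidableEq Q) (s : Finset ι) (f : ι → Q) :
    @FS ι Q _ i1 s f = @FS ι Q _ i2 s f := by
  rw [Subsingleton.elim i1 i2]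

theorem thm_T1 : St_Oc → St_Pn → St_Rs → St_Rg → St_Wr → St_N7 → St_Xt → SDG.St_Ba1 → St_T1 := by
  intro hOc hPn hRs hRg hWr hN7 hXt hBa1 G ι _ _ s f C j hPA hne hcap haper hgen hcyc hAo he hprt hlam hj
  obtain ⟨-, hsub, -, -, -, -, -⟩ := hBa1 G ι f
  obtain ⟨hR1, hR2, hR3, hR4⟩ := hRs G ι s f C
  have hins : ins s f C ⊆ s := filter_subset _ _
  have houts : outs s f C ⊆ s := filter_subset _ _
  have hke : (ins s f C).card + (outs s f C).card = s.card := by
    unfold ins outs
    exact card_filter_add_card_filter_not (s := s) (fun i => f i ∈ C)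
  have hk : 1 ≤ (ins s f C).card := by
    by_contra hk0
    have h0 : ins s f C = ∅ := card_eq_zero.1 (by omega)
    have hC : C = ⊥ := by
      rw [← hgen, h0]
      simp [gen]
    have hc : (QuotientAddGroup.mk (0 : G) : G ⧸ C) ∈ qs (FS s f) C :=
      mem_image.2 ⟨0, zero_mem_FS s f, rfl⟩
    obtain ⟨y, hy, hyn⟩ := hprt _ hc
    have hy0 : y ∈ C := by
      have := (QuotientAddGroup.eq (s := C)).1 hy.symm
      simpa using this
    rw [hC, AddSubgroup.mem_bot] at hy0
    rw [hy0] at hyn
    exact hyn (zero_mem_FS s f)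
  -- rows that are not full
  have hF : (qs (FS s f) C).filter (fun c => Prt (FS s f) C c) = qs (FS s f) C :=
    filter_true_of_mem hprt
  have hP := hPn G ι s f C j hne haper hgen (fun i hi _ => hlam i hi)
  rw [hF] at hP
  have hNj : (qs (FS s f) C).card ≤ j := by
    have h1 : (ins s f C).card * (qs (FS s f) C).card ≤ (ins s f C).card * j := by omega
    exact Nat.le_of_mul_le_mul_left h1 (by omega)
  -- the largest class
  have hone : (outs s f C).Nonempty := card_pos.1 (by omega)
  obtain ⟨i0, hi0, M0, hM0sub, hi0M, hM0, hcapn⟩ := T1_class (outs s f C) (bar f C) hone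
  have hn1 : 1 ≤ M0.card := card_pos.2 ⟨i0, hi0M⟩
  have hbar0 : ∀ i ∈ outs s f C, bar f C i ≠ 0 := by
    intro i hi h0
    have h1 := (mem_filter.1 hi).2
    exact h1 ((QuotientAddGroup.eq_zero_iff (N := C) (f i)).1 h0)
  have hO := hOc (G ⧸ C) ι (outs s f C) (bar f C) M0.card hcyc hbar0
    (by rw [T1_FS _ (fun a b => QuotientAddGroup.instDecidableEqQuotientAddSubgroupOfDecidablePredMem C a b)]; exact hAo)
    hn1 hcapn
  rw [T1_FS _ (fun a b => QuotientAddGroup.instDecidableEqQuotientAddSubgroupOfDecidablePredMem C a b), hR4] at hO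
  have hr : M0.card + ((outs s f C).card - M0.card) = (outs s f C).card := by
    have := card_le_card hM0sub
    omega
  -- the bound by the sums in C
  have hAi : Aper (FS (ins s f C) f) := hsub s _ hins haper
  have hcapi : Cap 2 (ins s f C) f := T1_cap_mono hins hcap
  have hY : cf 2 (ins s f C).card ≤ (FS (ins s f C) f).card :=
    hPA ι (ins s f C) f (fun i hi => hne i (hins hi)) hcapi hAi
  have hX1 : (qs (FS s f) C).card * cf 2 (ins s f C).card ≤ (FS s f).card := by
    calc (qs (FS s f) C).card * cf 2 (ins s f C).card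
        ≤ (qs (FS s f) C).card * (FS (ins s f C) f).card := Nat.mul_le_mul_left _ hY
      _ = (FS (ins s f C) f).card * (qs (FS s f) C).card := Nat.mul_comm _ _
      _ ≤ _ := hR3
  -- the gain of every row
  have hrow : ∀ c ∈ qs (FS s f) C, (row (FS (outs s f C) f) C c).card + (2 * (ins s f C).card - 2) ≤
      (row (FS s f) C c).card := by
    intro c hc
    obtain ⟨hrw, hnon, -⟩ := hR1 c hc
    obtain ⟨x0, -, hx0⟩ := mem_image.1 hc
    obtain ⟨y, hy, hyn⟩ := hprt c hc
    have hdiff : ∀ z : G, (QuotientAddGroup.mk z : G ⧸ C) = c → z - x0 ∈ C := by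
      intro z hz
      have h1 : (QuotientAddGroup.mk x0 : G ⧸ C) = QuotientAddGroup.mk z := by rw [hx0, hz]
      have h2 := (QuotientAddGroup.eq (s := C)).1 h1
      rwa [neg_add_eq_sub] at h2
    have h := hRg G ι (ins s f C) f C (row (FS (outs s f C) f) C c) x0 hPA
      (fun i hi => hne i (hins hi)) hcapi hAi hgen hk hnon
      (fun x hx => hdiff x (mem_filter.1 hx).2)
      ⟨y, hdiff y hy, fun hyy => hyn (by
        rw [← hrw] at hyy
        exact (mem_filter.1 hyy).1)⟩
    rw [← hrw] at h
    omega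
  have hX2 := hR2 _ hrow
  -- the sums outside
  have hcapo : Cap 2 (outs s f C) f := T1_cap_mono houts hcap
  have hmk : ∀ a b : G, (QuotientAddGroup.mk a : G ⧸ C) = QuotientAddGroup.mk b ↔ a - b ∈ C := by
    intro a b
    rw [eq_comm, QuotientAddGroup.eq (s := C), neg_add_eq_sub]
  have hW := hWr G ι (outs s f C) M0 f C (f i0) hM0sub hn1
    (by
      intro i hi
      rcases (hM0 i (hM0sub hi)).1 hi with h | h
      · exact Or.inl ((hmk _ _).1 h)
      · right
        have h1 : (QuotientAddGroup.mk (f i) : G ⧸ C) = QuotientAddGroup.mk (- f i0) := h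
        have h2 := (hmk _ _).1 h1
        rwa [sub_neg_eq_add] at h2)
    (by
      intro i hi
      obtain ⟨hio, hin⟩ := mem_sdiff.1 hi
      constructor
      · intro h
        exact hin ((hM0 i hio).2 (Or.inl ((hmk _ _).2 h)))
      · intro h
        refine hin ((hM0 i hio).2 (Or.inr ?_))
        have h1 : (QuotientAddGroup.mk (f i) : G ⧸ C) = QuotientAddGroup.mk (- f i0) :=
          (hmk _ _).2 (by rwa [sub_neg_eq_add])
        exact h1)
    (fun i hi => (mem_filter.1 hi).2) hcapo hAo
  rw [hR4] at hW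
  obtain ⟨-, hW2, hW3⟩ := hW
  have hcomm : (2 * (ins s f C).card - 2) * (qs (FS s f) C).card =
      (qs (FS s f) C).card * (2 * (ins s f C).card - 2) := Nat.mul_comm _ _
  have hcase := hN7 s.card (ins s f C).card (outs s f C).card ((outs s f C).card - M0.card) M0.card
    (qs (FS s f) C).card (FS s f).card (by omega) hke hr hn1 hk he (by omega) (by omega) hX1 (by omega)
    (by
      intro hr1 hn2
      have hMo : M0 ≠ outs s f C := by
        intro h
        rw [h] at hr1
        omega
      obtain ⟨-, h3⟩ := hW3 hMo hn2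
      omega)
  rcases hcase with h | ⟨hk2, hr0, ht2, ht8, hNt⟩
  · exact h
  · have hpe := T1_pq_even ht8 ht2
    have hNj' : (qs (FS s f) C).card = j := by omega
    have hper : ((qs (FS s f) C).filter fun c => Prt (FS s f) C c ∧ ¬ Aper (row (FS s f) C c)).card = 0 := by
      rw [hNj'] at hP
      omega
    have hrowA : ∀ c ∈ qs (FS s f) C, Aper (row (FS s f) C c) := by
      intro c hc
      by_contra hA
      have hc' : c ∈ (qs (FS s f) C).filter fun c => Prt (FS s f) C c ∧ ¬ Aper (row (FS s f) C c) :=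
        mem_filter.2 ⟨hc, hprt c hc, hA⟩
      rw [card_eq_zero.1 hper] at hc'
      exact absurd hc' (notMem_empty _)
    have hMo : M0 = outs s f C := by
      apply eq_of_subset_of_card_le hM0sub
      omega
    have hx := hXt G ι s f C (f i0) hne hcap haper hk2 ht2 ht8
      (by
        intro i hi
        rw [← hMo] at hi
        rcases (hM0 i (hM0sub hi)).1 hi with h | h
        · exact Or.inl ((hmk _ _).1 h)
        · right
          have h1 : (QuotientAddGroup.mk (f i) : G ⧸ C) = QuotientAddGroup.mk (- f i0) := h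
          have h2 := (hmk _ _).1 h1
          rwa [sub_neg_eq_add] at h2)
      hNt hrowA
    have hpq : pq s.card = 2 * cf 2 (s.card - 1) := by
      unfold pq
      rw [if_neg (by omega), if_neg (by omega)]
    rw [hpq]
    exact hx

end Pool.Agent.SNT
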