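import Pool.Agent.SNT.St

/-!
# SNT, module Wr (helper91)
-/

set_option autoImplicit false

noncomputable section

open Finset Pool.Agent.Helper64.Rho Pool.Agent.SDG Pool.Agent.MDR
open scoped Classical Pointwise

namespace Pool.Agent.SNT

/-- many big fibres -/
private theorem Wr_count {G H : Type} (W : Finset G) (φ : G → H) (K : Finset H) (q : ℕ)
    (hK : K ⊆ W.image φ) (hb : ∀ c ∈ K, q ≤ (W.filter fun x => φ x = c).card) :
    K.card * q + ((W.image φ).card - K.card) ≤ W.card := by
  rw [card_eq_sum_card_image φ W]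
  calc K.card * q + ((W.image φ).card - K.card)
      = ∑ c ∈ W.image φ, (if c ∈ K then q else 1) := by
        rw [← sum_sdiff hK]
        have h1 : ∑ c ∈ W.image φ \ K, (if c ∈ K then q else 1) = (W.image φ).card - K.card := by
          rw [sum_congr rfl (g := fun _ => 1) fun c hc => if_neg (mem_sdiff.1 hc).2, sum_const,
            smul_eq_mul, mul_one, card_sdiff_of_subset hK]
        have h2 : ∑ c ∈ K, (if c ∈ K then q else 1) = K.card * q := by
          rw [sum_congr rfl (g := fun _ => q) fun c hc => if_pos hc, sum_const, smul_eq_mul]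
        rw [h1, h2, add_comm]
    _ ≤ _ := by
        refine sum_le_sum fun c hc => ?_
        by_cases h : c ∈ K
        · rw [if_pos h]
          exact hb c h
        · rw [if_neg h]
          obtain ⟨x, hx, rfl⟩ := mem_image.1 hc
          exact card_pos.2 ⟨x, mem_filter.2 ⟨hx, rfl⟩⟩

private theorem Wr_image {G H ι : Type} [AddCommGroup G] [AddCommGroup H] (o : Finset ι)
    (f : ι → G) (π : G →+ H) : (FS o f).image (fun x => π x) = FS o (fun i => π (f i)) := by
  ext c
  rw [mem_image, mem_FS]
  constructor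
  · rintro ⟨x, hx, rfl⟩
    obtain ⟨t, ht, rfl⟩ := mem_FS.1 hx
    exact ⟨t, ht, (map_sum π f t).symm⟩
  · rintro ⟨t, ht, rfl⟩
    exact ⟨∑ i ∈ t, f i, mem_FS.2 ⟨t, ht, rfl⟩, map_sum π f t⟩

private theorem Wr_inst {G ι : Type} [AddCommGroup G] (d1 d2 : DecidableEq G) (s : Finset ι)
    (f : ι → G) : @FS ι G _ d1 s f = @FS ι G _ d2 s f := by
  rw [Subsingleton.elim d1 d2]

/-- the case of normalised signs -/
private theorem Wr_core (hRw : St_Rw) (hBa : St_Ba1) (G H ι : Type) [AddCommGroup G]
    [AddCommGroup H] (π : G →+ H) (o M0 : Finset ι) (f : ι → G) (C : AddSubgroup G)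
    (hk : ∀ x, π x = 0 ↔ x ∈ C) (fb : ι → H) (hfb : fb = fun i => π (f i)) (w : G) (hM : M0 ⊆ o) (h1 : 1 ≤ M0.card)
    (hw : ∀ i ∈ M0, f i - w ∈ C) (hno : ∀ i ∈ o \ M0, f i - w ∉ C ∧ f i + w ∉ C)
    (hC : ∀ i ∈ o, f i ∉ C) (hcap : Cap 2 o f) (hA : Aper (FS o fb)) :
      M0.card + 1 ≤ (FS o fb).card ∧
      2 + (M0.card - 1) * ((M0.card + 1) / 2) + ((FS o fb).card - M0.card - 1) ≤
        (FS o f).card ∧
      (M0 ≠ o → 2 ≤ M0.card → M0.card + 2 ≤ (FS o fb).card ∧
        2 + M0.card * ((M0.card + 1) / 2) + ((FS o fb).card - M0.card - 2) ≤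
          (FS o f).card) := by
  set n := M0.card with hn
  set wb : H := π w with hwb
  have hbar : ∀ i ∈ M0, fb i = wb := by
    intro i hi
    have h : π (f i) - π w = 0 := by
      rw [← map_sub]
      exact (hk _).2 (hw i hi)
    rw [hfb]
    exact sub_eq_zero.1 h
  have hwb0 : wb ≠ 0 := by
    obtain ⟨i, hi⟩ := card_pos.1 h1
    rw [← hbar i hi, hfb]
    intro h
    exact hC i (hM hi) ((hk _).1 h)
  -- sums of members of `M0`
  have hsum : ∀ S ⊆ M0, ∑ i ∈ S, fb i = S.card • wb := by
    intro S hS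
    rw [sum_congr rfl fun i hi => hbar i (hS hi), sum_const]
  have hmul : ∀ k ≤ n, k • wb ∈ FS M0 fb := by
    intro k hk
    obtain ⟨S, hS, hSc⟩ := exists_subset_card_eq (hk.trans_eq hn)
    exact mem_FS.2 ⟨S, hS, by rw [hsum S hS, hSc]⟩
  -- the order of `wb`
  have hord : ∀ k, 1 ≤ k → k ≤ n + 1 → k • wb ≠ 0 := by
    intro k hk1 hk2 hk0
    have hAM : Aper (FS M0 fb) := (hBa H ι fb).2.1 o M0 hM hA
    apply hwb0
    apply hAM wb
    intro x hx
    obtain ⟨S, hS, rfl⟩ := mem_FS.1 hx
    rw [hsum S hS]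
    have hSn : S.card ≤ n := card_le_card hS
    rcases Nat.lt_or_ge S.card n with h | h
    · have := hmul (S.card + 1) h
      rwa [add_smul, one_smul] at this
    · have hSe : S.card = n := le_antisymm hSn h
      have := hmul (n + 1 - k) (by omega)
      have h2 : (n + 1) • wb = (n + 1 - k) • wb := by
        have h3 : n + 1 = (n + 1 - k) + k := by omega
        calc (n + 1) • wb = ((n + 1 - k) + k) • wb := by rw [← h3]
          _ = _ := by rw [add_smul, hk0, add_zero]
      rw [← h2, add_smul, one_smul] at this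
      rwa [hSe]
  have hinj : ∀ a b, a < b → b ≤ n + 1 → a • wb ≠ b • wb := by
    intro a b hab hb h
    apply hord (b - a) (by omega) (by omega)
    have h3 : b = (b - a) + a := by omega
    have h4 : b • wb = (b - a) • wb + a • wb := by
      rw [← add_smul, ← h3]
    rw [← h] at h4
    exact (right_eq_add.1 h4)
  have hinjOn : ∀ m ≤ n + 1, Set.InjOn (fun k : ℕ => k • wb) (Finset.range (m + 1) : Set ℕ) := by
    intro m hm a ha b hb h
    have ha' : a < m + 1 := by simpa using ha
    have hb' : b < m + 1 := by simpa using hb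
    rcases Nat.lt_trichotomy a b with h1 | h1 | h1
    · exact absurd h (hinj a b h1 (by omega))
    · exact h1
    · exact absurd h.symm (hinj b a h1 (by omega))
  have hsub : ∀ x ∈ FS M0 fb, x ∈ FS o fb := fun x hx => FS_mono hM _ hx
  -- the rows `0, wb, ..., n wb`
  set R : Finset H := (Finset.range (n + 1)).image fun k => k • wb with hR
  have hRc : R.card = n + 1 := by
    rw [hR, card_image_of_injOn (hinjOn n (by omega)), card_range]
  have hRs : R ⊆ FS o fb := by
    intro x hx
    obtain ⟨k, hk, rfl⟩ := mem_image.1 hx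
    exact hsub _ (hmul k (by have := mem_range.1 hk; omega))
  -- the big rows
  set K : Finset H := (Finset.Ico 1 n).image fun k => k • wb with hK
  have hKc : K.card = n - 1 := by
    rw [hK, card_image_of_injOn, Nat.card_Ico]
    refine (hinjOn n (by omega)).mono ?_
    intro x hx
    simp only [coe_Ico, Set.mem_Ico] at hx
    simp only [coe_range, Set.mem_Iio]
    omega
  have hKR : K ⊆ R := by
    intro x hx
    obtain ⟨k, hk, rfl⟩ := mem_image.1 hx
    have := mem_Ico.1 hk
    exact mem_image.2 ⟨k, mem_range.2 (by omega), rfl⟩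
  obtain ⟨_, hRw2, hRw3⟩ := hRw G ι M0 f
  have hval : n ≤ 2 * (M0.image f).card := by
    apply hRw3
    intro x
    refine (card_le_card ?_).trans (hcap x)
    intro i hi
    rw [mem_filter] at hi ⊢
    exact ⟨hM hi.1, Or.inl hi.2⟩
  have hks : ∀ i, 1 ≤ i → i + 1 ≤ n → (n + 1) / 2 ≤ (ks f M0 i).card := by
    intro i hi1 hi2
    refine le_trans ?_ (hRw2 i hi1 hi2)
    rw [le_min_iff]
    constructor
    · omega
    · rw [← hn]
      omega
  have hbig : ∀ (T : Finset ι) (i : ℕ), T ⊆ o \ M0 → 1 ≤ i → i + 1 ≤ n → (n + 1) / 2 ≤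
      ((FS o f).filter fun x => π x =
        ∑ j ∈ T, fb j + i • wb).card := by
    intro T i hT hi1 hi2
    refine (hks i hi1 hi2).trans ?_
    rw [← card_image_of_injective (ks f M0 i) (add_right_injective (∑ j ∈ T, f j))]
    apply card_le_card
    intro x hx
    obtain ⟨y, hy, rfl⟩ := mem_image.1 hx
    obtain ⟨S, hS, rfl⟩ := mem_image.1 hy
    obtain ⟨hS1, hS2⟩ := mem_powersetCard.1 hS
    have hdis : Disjoint T S := by
      rw [disjoint_left]
      intro j hj hj'
      exact (mem_sdiff.1 (hT hj)).2 (hS1 hj')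
    rw [mem_filter]
    constructor
    · refine mem_FS.2 ⟨T ∪ S, union_subset (fun j hj => (mem_sdiff.1 (hT hj)).1)
        (hS1.trans hM), ?_⟩
      rw [sum_union hdis]
    · show π (∑ j ∈ T, f j + ∑ x ∈ S, f x) = _
      rw [map_add, map_sum, map_sum, ← hS2, ← hsum S hS1, hfb]
  have himg := Wr_image o f π
  rw [← hfb] at himg
  have hbigK : ∀ c ∈ K, (n + 1) / 2 ≤
      ((FS o f).filter fun x => π x = c).card := by
    intro c hc
    obtain ⟨k, hk, rfl⟩ := mem_image.1 hc
    have hk' := mem_Ico.1 hk
    have := hbig ∅ k (empty_subset _) hk'.1 (by omega)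
    rwa [sum_empty, zero_add] at this
  have hN : n + 1 ≤ (FS o fb).card := by
    rw [← hRc]
    exact card_le_card hRs
  have hq : 1 ≤ (n + 1) / 2 := by omega
  refine ⟨hN, ?_, ?_⟩
  · have h2 := Wr_count (FS o f) (fun x => π x) K ((n + 1) / 2)
      (by rw [himg]; exact hKR.trans hRs) hbigK
    rw [himg, hKc] at h2
    omega
  · intro hne hn2
    obtain ⟨i0, hi0⟩ : (o \ M0).Nonempty := by
      rw [nonempty_iff_ne_empty, Ne, sdiff_eq_empty_iff_subset]
      intro h
      exact hne (Subset.antisymm hM h)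
    have hi0o := (mem_sdiff.1 hi0).1
    obtain ⟨hg1, hg2⟩ := hno i0 hi0
    have hg0 := hC i0 hi0o
    set gb : H := fb i0 with hgb
    have hgbe : gb = π (f i0) := by rw [hgb, hfb]
    have hgb0 : gb ≠ 0 := fun h => hg0 ((hk _).1 (hgbe ▸ h))
    have hgb1 : gb ≠ wb := by
      intro h
      apply hg1
      rw [← hk, map_sub, ← hgbe]
      exact sub_eq_zero.2 h
    have hgb2 : gb + wb ≠ 0 := by
      intro h
      apply hg2
      rw [← hk, map_add, ← hgbe]
      exact h
    -- a new row
    obtain ⟨i, hi1, hi2, hi3⟩ : ∃ i, 1 ≤ i ∧ i + 1 ≤ n ∧ ∀ m ≤ n, gb + i • wb ≠ m • wb := by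
      by_contra hcon
      push Not at hcon
      obtain ⟨m, hm, he⟩ := hcon 1 le_rfl hn2
      rw [one_smul] at he
      have hm3 : 3 ≤ m := by
        by_contra hlt
        have h4 : m = 0 ∨ m = 1 ∨ m = 2 := by omega
        rcases h4 with rfl | rfl | rfl
        · rw [zero_smul] at he
          exact hgb2 he
        · rw [one_smul] at he
          exact hgb0 (add_eq_right.1 he)
        · rw [two_smul] at he
          exact hgb1 (add_right_cancel he)
      obtain ⟨m', hm', he'⟩ := hcon (n + 2 - m) (by omega) (by omega)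
      have h5 : gb + (n + 2 - m) • wb = (n + 1) • wb := by
        have h6 : (n + 2 - m) • wb = wb + (n + 1 - m) • wb := by
          have h7 : n + 2 - m = (n + 1 - m) + 1 := by omega
          rw [h7, add_smul, one_smul, add_comm]
        rw [h6, ← add_assoc, he, ← add_smul]
        congr 1
        omega
      rw [h5] at he'
      exact hinj m' (n + 1) (by omega) le_rfl he'.symm
    set c' : H := gb + i • wb with hc'
    have hc'R : c' ∉ R := by
      intro h
      obtain ⟨m, hm, he⟩ := mem_image.1 h
      exact hi3 m (by have := mem_range.1 hm; omega) he.symm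
    have hc'big : (n + 1) / 2 ≤
        ((FS o f).filter fun x => π x = c').card := by
      have := hbig {i0} i (singleton_subset_iff.2 hi0) hi1 hi2
      rwa [sum_singleton] at this
    have hc'S : c' ∈ FS o fb := by
      rw [← himg, mem_image]
      obtain ⟨x, hx⟩ := card_pos.1 (lt_of_lt_of_le hq hc'big)
      obtain ⟨hx1, hx2⟩ := mem_filter.1 hx
      exact ⟨x, hx1, hx2⟩
    have hN2 : n + 2 ≤ (FS o fb).card := by
      have h8 : (insert c' R).card = n + 2 := by
        rw [card_insert_of_notMem hc'R, hRc]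
      rw [← h8]
      exact card_le_card (insert_subset hc'S hRs)
    refine ⟨hN2, ?_⟩
    have hK'c : (insert c' K).card = n := by
      rw [card_insert_of_notMem fun h => hc'R (hKR h), hKc]
      omega
    have h2 := Wr_count (FS o f) (fun x => π x) (insert c' K)
      ((n + 1) / 2) (by rw [himg]; exact insert_subset hc'S (hKR.trans hRs)) (by
        intro c hc
        rcases mem_insert.1 hc with rfl | h
        · exact hc'big
        · exact hbigK c h)
    rw [himg, hK'c] at h2
    omega

theorem thm_Wr : St_Rw → MDR.St_Sg → SDG.St_Ba1 → St_Wr := by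
  intro hRw hSg hBa G ι _ _ o M0 f C w hM h1 hw hno hC hcap hA
  set f' : ι → G := fun i => if i ∈ M0 ∧ f i - w ∉ C then - f i else f i with hf'
  have hs : ∀ i ∈ o, f' i = f i ∨ f' i = - f i := by
    intro i _
    by_cases h : i ∈ M0 ∧ f i - w ∉ C
    · exact Or.inr (if_pos h)
    · exact Or.inl (if_neg h)
  have hsb : ∀ i ∈ o, bar f' C i = bar f C i ∨ bar f' C i = - bar f C i := by
    intro i hi
    rcases hs i hi with h | h
    · left
      show (QuotientAddGroup.mk (f' i) : G ⧸ C) = QuotientAddGroup.mk (f i)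
      rw [h]
    · right
      show (QuotientAddGroup.mk (f' i) : G ⧸ C) = - QuotientAddGroup.mk (f i)
      rw [h]
      rfl
  obtain ⟨e1, _, _, _, e2, _⟩ := hSg G ι o f f' hs
  obtain ⟨e3, e4, _⟩ := hSg (G ⧸ C) ι o (bar f C) (bar f' C) hsb
  have einst := Wr_inst (G := G ⧸ C) (fun a b => Classical.propDecidable (a = b)) inferInstance o
    (bar f C)
  rw [← einst] at hA ⊢
  have h := Wr_core hRw hBa G (G ⧸ C) ι (QuotientAddGroup.mk' C) o M0 f' C
    (fun x => QuotientAddGroup.eq_zero_iff x) (bar f' C) rfl w hM h1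
    (by
      intro i hi
      by_cases h : f i - w ∈ C
      · have e : f' i = f i := if_neg fun h' => h'.2 h
        rw [e]
        exact h
      · have e : f' i = - f i := if_pos ⟨hi, h⟩
        rw [e]
        have h2 := (hw i hi).resolve_left h
        have h3 := C.neg_mem h2
        have h4 : - f i - w = -(f i + w) := by abel
        rw [h4]
        exact h3)
    (by
      intro i hi
      have e : f' i = f i := if_neg fun h' => (mem_sdiff.1 hi).2 h'.1
      rw [e]
      exact hno i hi)
    (by
      intro i hi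
      rcases hs i hi with e | e
      · rw [e]
        exact hC i hi
      · rw [e]
        intro h
        exact hC i hi (neg_mem_iff.1 h))
    (e2 2 hcap) (e4 hA)
  rw [e1, e3] at h
  exact h

end Pool.Agent.SNT
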