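import Pool.Agent.SNT.St

/-!
# SNT, Xt: the extremal case
-/

set_option autoImplicit false

noncomputable section

open Finset Pool.Agent.Helper64.Rho Pool.Agent.SDG Pool.Agent.MDR
open scoped Classical Pointwise

namespace Pool.Agent.SNT

section Xt

variable {G ι : Type} [AddCommGroup G]

private theorem Xt_FS (s : Finset ι) (f f' : ι → G) (h : ∀ i ∈ s, f' i = f i ∨ f' i = -f i) :
    ∃ c : G, FS s f' = (FS s f).image (· + c) := by
  induction s using Finset.induction_on with
  | empty =>
    refine ⟨0, ?_⟩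
    rw [FS_empty, FS_empty, image_singleton, add_zero]
  | insert a s ha ih =>
    obtain ⟨c, hc⟩ := ih fun i hi => h i (mem_insert_of_mem hi)
    rcases h a (mem_insert_self a s) with h1 | h1
    · refine ⟨c, ?_⟩
      rw [FS_insert ha, FS_insert ha, hc, image_union, image_image, image_image, h1]
      congr 1
      refine image_congr fun x _ => ?_
      simp only [Function.comp_apply]
      abel
    · refine ⟨c - f a, ?_⟩
      rw [FS_insert ha, FS_insert ha, hc, image_union, image_image, image_image, h1, union_comm]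
      congr 1
      · refine image_congr fun x _ => ?_
        simp only [Function.comp_apply]
        abel
      · refine image_congr fun x _ => ?_
        simp only [Function.comp_apply]
        abel

private theorem Xt_aper (X : Finset G) (c : G) (h : Aper X) : Aper (X.image (· + c)) := by
  intro g hg
  refine h g fun x hx => ?_
  obtain ⟨y, hy, hy'⟩ := mem_image.1 (hg (x + c) (mem_image_of_mem _ hx))
  have h1 : y = x + g := by
    have h2 : y + c = x + c + g := hy'
    have h3 : y + c = (x + g) + c := by rw [h2]; abel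
    exact add_right_cancel h3
  rw [← h1]
  exact hy

private theorem Xt_mem_qs (X : Finset G) (C : AddSubgroup G) (d : G ⧸ C) :
    d ∈ qs X C ↔ ∃ x ∈ X, (QuotientAddGroup.mk x : G ⧸ C) = d := by
  unfold qs
  rw [mem_image]

private theorem Xt_mem_row (X : Finset G) (C : AddSubgroup G) (d : G ⧸ C) (x : G) :
    x ∈ row X C d ↔ x ∈ X ∧ (QuotientAddGroup.mk x : G ⧸ C) = d := by
  unfold row
  rw [mem_filter]

private theorem Xt_qs (X : Finset G) (C : AddSubgroup G) (c : G) :
    (qs (X.image (· + c)) C).card = (qs X C).card := by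
  have h : qs (X.image (· + c)) C = (qs X C).image (· + (QuotientAddGroup.mk c : G ⧸ C)) := by
    ext d
    rw [Xt_mem_qs, mem_image]
    constructor
    · rintro ⟨y, hy, rfl⟩
      obtain ⟨x, hx, rfl⟩ := mem_image.1 hy
      exact ⟨_, (Xt_mem_qs X C _).2 ⟨x, hx, rfl⟩, rfl⟩
    · rintro ⟨e, he, rfl⟩
      obtain ⟨x, hx, rfl⟩ := (Xt_mem_qs X C _).1 he
      exact ⟨x + c, mem_image_of_mem _ hx, rfl⟩
  rw [h, card_image_of_injective _ (add_left_injective _)]

private theorem Xt_row (X : Finset G) (C : AddSubgroup G) (c : G) (x0 : G) :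
    row (X.image (· + c)) C (QuotientAddGroup.mk (x0 + c)) =
      (row X C (QuotientAddGroup.mk x0)).image (· + c) := by
  ext y
  rw [Xt_mem_row, mem_image, mem_image]
  constructor
  · rintro ⟨⟨x, hx, rfl⟩, hy⟩
    refine ⟨x, (Xt_mem_row X C _ x).2 ⟨hx, ?_⟩, rfl⟩
    rw [QuotientAddGroup.eq] at hy ⊢
    have : -(x + c) + (x0 + c) = -x + x0 := by abel
    rw [this] at hy
    exact hy
  · rintro ⟨x, hx, rfl⟩
    obtain ⟨hx1, hx2⟩ := (Xt_mem_row X C _ x).1 hx
    refine ⟨⟨x, hx1, rfl⟩, ?_⟩
    rw [QuotientAddGroup.eq] at hx2 ⊢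
    have : -(x + c) + (x0 + c) = -x + x0 := by abel
    rw [this]
    exact hx2

private theorem Xt_sumbar (o : Finset ι) (f : ι → G) (C : AddSubgroup G) (w : G)
    (hw : ∀ i ∈ o, f i - w ∈ C) (S : Finset ι) (hS : S ⊆ o) :
    (QuotientAddGroup.mk (∑ i ∈ S, f i) : G ⧸ C) = S.card • (QuotientAddGroup.mk w : G ⧸ C) := by
  have h1 : (QuotientAddGroup.mk (∑ i ∈ S, f i) : G ⧸ C) =
      ∑ i ∈ S, (QuotientAddGroup.mk (f i) : G ⧸ C) :=
    map_sum (QuotientAddGroup.mk' C) f S
  rw [h1, ← Finset.sum_const]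
  refine Finset.sum_congr rfl fun i hi => ?_
  rw [QuotientAddGroup.eq]
  have h2 := C.neg_mem (hw i (hS hi))
  have h3 : -(f i - w) = -f i + w := by abel
  rw [h3] at h2
  exact h2

private theorem Xt_main [Finite G] (hRs : St_Rs) (hRw : St_Rw) (hRd : St_Rd) (hBa : SDG.St_Ba1)
    (hKn : SDG.St_Kn) (hSm : SDG.St_Sm) (s : Finset ι) (f : ι → G) (C : AddSubgroup G) (w : G)
    (h0 : ∀ i ∈ s, f i ≠ 0) (hc : Cap 2 s f) (hA : Aper (FS s f)) (hi : (ins s f C).card = 2)
    (n : ℕ) (hs : s.card = 2 * n + 8) (hw : ∀ i ∈ outs s f C, f i - w ∈ C)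
    (hq : (qs (FS s f) C).card + 1 = s.card)
    (hr : ∀ c ∈ qs (FS s f) C, Aper (row (FS s f) C c)) :
    2 * (n + 4) ^ 2 + 2 ≤ (FS s f).card := by
  have hoc : (outs s f C).card = 2 * n + 6 := by
    have h1 := Finset.card_filter_add_card_filter_not (s := s) (fun i => f i ∈ C)
    unfold ins at hi
    unfold outs
    omega
  obtain ⟨hR1, -, -, hR4⟩ := hRs G ι s f C
  have hsub : outs s f C ⊆ s := filter_subset _ _
  have hsub' : ins s f C ⊆ s := filter_subset _ _
  set o := outs s f C with ho
  set wb : G ⧸ C := QuotientAddGroup.mk w with hwb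
  -- the rows
  have hqs : qs (FS s f) C = (range (2 * n + 7)).image (fun i => i • wb) := by
    rw [← hR4]
    ext x
    rw [mem_FS, mem_image]
    constructor
    · rintro ⟨S, hS, rfl⟩
      refine ⟨S.card, ?_, ?_⟩
      · rw [mem_range]
        have := card_le_card hS
        omega
      · have h1 := Xt_sumbar o f C w hw S hS
        have h2 : (QuotientAddGroup.mk (∑ i ∈ S, f i) : G ⧸ C) = ∑ i ∈ S, bar f C i :=
          map_sum (QuotientAddGroup.mk' C) f S
        rw [← h2, h1]
    · rintro ⟨i, hi', rfl⟩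
      rw [mem_range] at hi'
      obtain ⟨S, hS, hSc⟩ := Finset.exists_subset_card_eq (s := o) (n := i) (by omega)
      refine ⟨S, hS, ?_⟩
      have h1 := Xt_sumbar o f C w hw S hS
      have h2 : (QuotientAddGroup.mk (∑ i ∈ S, f i) : G ⧸ C) = ∑ i ∈ S, bar f C i :=
        map_sum (QuotientAddGroup.mk' C) f S
      rw [← h2, h1, hSc]
  have hinj : Set.InjOn (fun i : ℕ => i • wb) (range (2 * n + 7) : Set ℕ) := by
    rw [← Finset.card_image_iff, ← hqs, card_range]
    omega
  have hrow : ∀ i ∈ range (2 * n + 7), row (FS o f) C (i • wb) = ks f o i := by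
    intro i hi'
    ext x
    rw [Xt_mem_row]
    unfold ks
    rw [mem_image, mem_FS]
    constructor
    · rintro ⟨⟨S, hS, rfl⟩, hx⟩
      refine ⟨S, ?_, rfl⟩
      rw [mem_powersetCard]
      refine ⟨hS, ?_⟩
      rw [Xt_sumbar o f C w hw S hS] at hx
      refine hinj ?_ (by exact_mod_cast hi') hx
      have := card_le_card hS
      have h3 : S.card ∈ range (2 * n + 7) := by rw [mem_range]; omega
      exact_mod_cast h3
    · rintro ⟨S, hS, rfl⟩
      rw [mem_powersetCard] at hS
      refine ⟨⟨S, hS.1, rfl⟩, ?_⟩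
      rw [Xt_sumbar o f C w hw S hS.1, hS.2]
  have hcard : (FS s f).card = ∑ i ∈ range (2 * n + 7), (row (FS s f) C (i • wb)).card := by
    have h1 := Finset.card_eq_sum_card_fiberwise (s := FS s f) (t := qs (FS s f) C)
      (f := fun x => (QuotientAddGroup.mk x : G ⧸ C))
      (fun x hx => by
        have h2 : (QuotientAddGroup.mk x : G ⧸ C) ∈ qs (FS s f) C :=
          (Xt_mem_qs _ _ _).2 ⟨x, hx, rfl⟩
        exact_mod_cast h2)
    rw [h1, hqs, Finset.sum_image (fun a ha b hb hab => hinj ha hb hab)]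
    rfl
  -- the two members in `C`
  have hU : 3 ≤ (FS (ins s f C) f).card := by
    have h1 := (hBa G ι f).2.1 s (ins s f C) hsub' hA
    have h2 := (hSm G ι (ins s f C) f (fun i hi' => h0 i (hsub' hi')) h1).1
    omega
  have hUne : (FS (ins s f C) f).Nonempty := ⟨0, zero_mem_FS _ _⟩
  have hrc : ∀ i ∈ range (2 * n + 7), (ks f o i).Nonempty ∧ Aper (ks f o i + FS (ins s f C) f) ∧
      (ks f o i).card + 2 ≤ (row (FS s f) C (i • wb)).card := by
    intro i hi'
    have hmem : i • wb ∈ qs (FS s f) C := by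
      rw [hqs]
      exact mem_image_of_mem _ hi'
    obtain ⟨h1, h2, -⟩ := hR1 _ hmem
    have h3 := hr _ hmem
    rw [hrow i hi'] at h1 h2
    rw [h1] at h3 ⊢
    refine ⟨h2, h3, ?_⟩
    have h4 := (hKn G).1 _ _ h2 hUne h3
    omega
  have hsum : ∑ i ∈ range (2 * n + 7), (ks f o i).card + 2 * (2 * n + 7) ≤ (FS s f).card := by
    rw [hcard]
    have h1 : ∑ i ∈ range (2 * n + 7), ((ks f o i).card + 2) ≤
        ∑ i ∈ range (2 * n + 7), (row (FS s f) C (i • wb)).card :=
      Finset.sum_le_sum fun i hi' => (hrc i hi').2.2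
    rw [Finset.sum_add_distrib, Finset.sum_const, card_range, smul_eq_mul] at h1
    omega
  -- the values
  obtain ⟨-, hw2, hw3⟩ := hRw G ι o f
  have htwo : ∀ x : G, (o.filter fun i => f i = x).card ≤ 2 := by
    intro x
    refine le_trans (card_le_card ?_) (hc x)
    intro i hi'
    rw [mem_filter] at hi' ⊢
    exact ⟨hsub hi'.1, Or.inl hi'.2⟩
  have hd : o.card ≤ 2 * (o.image f).card := hw3 htwo
  have hpos : ∀ i ∈ range (2 * n + 7), 1 ≤ (ks f o i).card := fun i hi' => card_pos.2 (hrc i hi').1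
  have hsplit : ∀ a : ℕ → ℕ, ∑ i ∈ range (2 * n + 7), a i =
      a 0 + a 1 + (∑ i ∈ range (2 * n + 3), a (i + 2)) + a (2 * n + 5) + a (2 * n + 6) := by
    intro a
    have e1 : 2 * n + 7 = (2 * n + 6) + 1 := rfl
    have e2 : 2 * n + 6 = (2 * n + 5) + 1 := rfl
    have e3 : 2 * n + 5 = (2 * n + 4) + 1 := rfl
    have e4 : 2 * n + 4 = (2 * n + 3) + 1 := rfl
    rw [e1, Finset.sum_range_succ, e2, Finset.sum_range_succ, e3, Finset.sum_range_succ', e4,
      Finset.sum_range_succ']
    ring
  have hb0 := hpos 0 (by rw [mem_range]; omega)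
  have hb6 := hpos (2 * n + 6) (by rw [mem_range]; omega)
  by_cases hd2 : n + 4 ≤ (o.image f).card
  · have hm : ∀ i, 1 ≤ i → i + 1 ≤ o.card → n + 4 ≤ (ks f o i).card := by
      intro i h1 h2
      have h3 := hw2 i h1 h2
      have h4 : n + 4 ≤ min (o.image f).card ((o.card + 1) / 2 + 1) := by
        rw [le_min_iff]
        exact ⟨hd2, by omega⟩
      omega
    have h1 := hsplit fun i => (ks f o i).card
    have h2 : (2 * n + 3) * (n + 4) ≤ ∑ i ∈ range (2 * n + 3), (ks f o (i + 2)).card := by
      have h3 := Finset.card_nsmul_le_sum (range (2 * n + 3)) (fun i => (ks f o (i + 2)).card)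
        (n + 4) (fun i hi' => by
          rw [mem_range] at hi'
          exact hm (i + 2) (by omega) (by omega))
      rw [card_range, smul_eq_mul] at h3
      exact h3
    have h3 := hm 1 (by omega) (by omega)
    have h4 := hm (2 * n + 5) (by omega) (by omega)
    nlinarith
  · have hd3 : (o.image f).card = n + 3 := by omega
    have hm : ∀ i, 1 ≤ i → i + 1 ≤ o.card → n + 3 ≤ (ks f o i).card := by
      intro i h1 h2
      have h3 := hw2 i h1 h2
      have h4 : n + 3 ≤ min (o.image f).card ((o.card + 1) / 2 + 1) := by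
        rw [le_min_iff]
        exact ⟨by omega, by omega⟩
      omega
    have hex : ∀ x ∈ o.image f, (o.filter fun i => f i = x).card = 2 := by
      have h1 : ∑ x ∈ o.image f, (o.filter fun i => f i = x).card = ∑ _x ∈ o.image f, 2 := by
        rw [← Finset.card_eq_sum_card_fiberwise (f := f) (s := o) (t := o.image f)
          (fun x hx => by
            have h2 : f x ∈ o.image f := mem_image_of_mem f (by exact_mod_cast hx)
            exact_mod_cast h2), Finset.sum_const, smul_eq_mul]
        omega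
      exact (Finset.sum_eq_sum_iff_of_le fun x _ => htwo x).1 h1
    have hk1 : ks f o 1 = o.image f := by
      unfold ks
      ext x
      rw [mem_image, mem_image]
      constructor
      · rintro ⟨S, hS, rfl⟩
        rw [mem_powersetCard, Finset.card_eq_one] at hS
        obtain ⟨hS1, a, rfl⟩ := hS
        exact ⟨a, hS1 (mem_singleton_self a), by rw [Finset.sum_singleton]⟩
      · rintro ⟨a, ha, rfl⟩
        exact ⟨{a}, mem_powersetCard.2 ⟨singleton_subset_iff.2 ha, card_singleton a⟩,
          by rw [Finset.sum_singleton]⟩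
    have hAp : Aper (o.image f) := by
      have h1 := hrc 1 (by rw [mem_range]; omega)
      rw [hk1] at h1
      exact ((hKn G).2.2.1 _ _ h1.1 hUne h1.2.1).1
    have hRd' := hRd G ι o f hex hAp
    have h1 := hsplit fun i => (ks f o i).card
    have h2 : (2 * n + 3) * (n + 4) ≤ ∑ i ∈ range (2 * n + 3), (ks f o (i + 2)).card := by
      have h3 := Finset.card_nsmul_le_sum (range (2 * n + 3)) (fun i => (ks f o (i + 2)).card)
        (n + 4) (fun i hi' => by
          rw [mem_range] at hi'
          have h4 := hRd' (i + 2) (by omega) (by omega)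
          omega)
      rw [card_range, smul_eq_mul] at h3
      exact h3
    have h3 := hm 1 (by omega) (by omega)
    have h4 := hm (2 * n + 5) (by omega) (by omega)
    nlinarith

end Xt

theorem thm_Xt : St_Rs → St_Rw → St_Rd → MDR.St_Sg → SDG.St_Ba1 → SDG.St_Kn → SDG.St_Sm →
    SDG.St_Nm1 → St_Xt := by
  intro hRs hRw hRd hSg hBa hKn hSm hNm G ι _ _ s f C w h0 hc hA hi hpar h8 hw hq hr
  obtain ⟨n, hn⟩ : ∃ n, s.card = 2 * n + 8 := ⟨(s.card - 8) / 2, by omega⟩
  -- change of signs
  let f' : ι → G := fun i => if f i - w ∈ C then f i else if f i ∈ C then f i else - f i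
  have hff : ∀ i, f' i = f i ∨ f' i = - f i := by
    intro i
    simp only [f']
    split_ifs <;> simp
  have hC : ∀ i, f' i ∈ C ↔ f i ∈ C := by
    intro i
    rcases hff i with h | h
    · rw [h]
    · rw [h]; exact AddSubgroup.neg_mem_iff C
  have hins : ins s f' C = ins s f C := by
    unfold ins
    exact filter_congr fun i _ => hC i
  have houts : outs s f' C = outs s f C := by
    unfold outs
    exact filter_congr fun i _ => not_congr (hC i)
  have hw' : ∀ i ∈ outs s f' C, f' i - w ∈ C := by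
    intro i hi'
    rw [houts] at hi'
    have h1 : f i ∉ C := by
      unfold outs at hi'
      exact (mem_filter.1 hi').2
    rcases hw i hi' with h | h
    · have : f' i = f i := by simp only [f']; rw [if_pos h]
      rw [this]; exact h
    · by_cases h2 : f i - w ∈ C
      · have : f' i = f i := by simp only [f']; rw [if_pos h2]
        rw [this]; exact h2
      · have : f' i = - f i := by simp only [f']; rw [if_neg h2, if_neg h1]
        rw [this]
        have h3 := C.neg_mem h
        have h4 : -(f i + w) = - f i - w := by abel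
        rw [h4] at h3
        exact h3
  obtain ⟨c, hcF⟩ := Xt_FS s f f' (fun i _ => hff i)
  obtain ⟨g1, g2, -, -, g5, -, -, -⟩ := hSg G ι s f f' (fun i _ => hff i)
  have h0' : ∀ i ∈ s, f' i ≠ 0 := by
    intro i hi' h
    rcases hff i with h1 | h1
    · exact h0 i hi' (by rw [← h1]; exact h)
    · exact h0 i hi' (by rw [h1] at h; exact neg_eq_zero.1 h)
  have hq' : (qs (FS s f') C).card + 1 = s.card := by
    rw [hcF, Xt_qs]; exact hq
  have hr' : ∀ d ∈ qs (FS s f') C, Aper (row (FS s f') C d) := by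
    intro d hd
    rw [hcF] at hd ⊢
    obtain ⟨y, hy, rfl⟩ := (Xt_mem_qs _ _ _).1 hd
    obtain ⟨x, hx, rfl⟩ := mem_image.1 hy
    rw [Xt_row]
    exact Xt_aper _ _ (hr _ ((Xt_mem_qs _ _ _).2 ⟨x, hx, rfl⟩))
  have hmain := Xt_main hRs hRw hRd hBa hKn hSm s f' C w h0' (g5 2 hc) (g2 hA)
    (by rw [hins]; exact hi) n hn hw' hq' hr'
  rw [g1] at hmain
  have h3 := hNm.2.2.1 (s.card - 1)
  rw [h3, hn]
  have h4 : (2 * n + 8 - 1 + 1) ^ 2 / 4 = (n + 4) ^ 2 := by
    have h5 : 2 * n + 8 - 1 + 1 = 2 * (n + 4) := by omega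
    rw [h5, mul_pow]
    norm_num
  rw [h4]
  omega

end Pool.Agent.SNT
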