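import Pool.Agent.SNT.A1
import Pool.Agent.SNT.As
import Pool.Agent.SNT.Oc
import Pool.Agent.SNT.Pn
import Pool.Agent.SNT.Rs
import Pool.Agent.SNT.Nf
import Pool.Agent.SNT.Rg
import Pool.Agent.SNT.Rw
import Pool.Agent.SNT.Rd
import Pool.Agent.SNT.Wr
import Pool.Agent.SNT.N7
import Pool.Agent.SNT.NI
import Pool.Agent.SNT.NII
import Pool.Agent.SNT.NB
import Pool.Agent.SNT.N4
import Pool.Agent.SNT.Xt
import Pool.Agent.SNT.T1
import Pool.Agent.SNT.E5
import Pool.Agent.SNT.E6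
import Pool.Agent.SSE.Main
import Pool.Agent.SDG.All

/-!
# SNT: final assembly (helper64): `A1P` for groups with two generators
-/

set_option autoImplicit false

noncomputable section

open Finset Pool.Agent.Helper64.Rho Pool.Agent.SDG Pool.Agent.MDR
open scoped Classical Pointwise

namespace Pool.Agent.SNT

theorem all_As : St_As := thm_As Pool.Agent.SSE.all_B3E Pool.Agent.SSE.all_PFE Pool.Agent.SDG.all_Ba1 Pool.Agent.SDG.all_Nm1
theorem all_Oc : St_Oc := thm_Oc all_As Pool.Agent.SDG.all_Kp Pool.Agent.SDG.all_Ba1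
theorem all_Pn : St_Pn := thm_Pn Pool.Agent.SDG.all_Ba1 Pool.Agent.SDG.all_Kn Pool.Agent.SDG.all_Sm
theorem all_Rs : St_Rs := thm_Rs Pool.Agent.SDG.all_Ba1
theorem all_Nf : St_Nf := thm_Nf all_Rs Pool.Agent.SDG.all_Ba1
theorem all_Rg : St_Rg := thm_Rg Pool.Agent.SDG.all_Ba1 Pool.Agent.SDG.all_Kn Pool.Agent.SDG.all_Sm Pool.Agent.SDG.all_Qu Pool.Agent.SDG.all_Nm1
theorem all_Rw : St_Rw := thm_Rw
theorem all_Rd : St_Rd := thm_Rd all_Rw
theorem all_Wr : St_Wr := thm_Wr all_Rw Pool.Agent.SSC.mdr_Sg Pool.Agent.SDG.all_Ba1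
theorem all_N7 : St_N7 := thm_N7 Pool.Agent.SDG.all_Nm1
theorem all_NI : St_NI := thm_NI Pool.Agent.SDG.all_Nm1
theorem all_NII : St_NII := thm_NII Pool.Agent.SDG.all_Nm1
theorem all_NB : St_NB := thm_NB Pool.Agent.SDG.all_Nm1
theorem all_N4 : St_N4 := thm_N4 Pool.Agent.SDG.all_Nm1
theorem all_Xt : St_Xt := thm_Xt all_Rs all_Rw all_Rd Pool.Agent.SSC.mdr_Sg Pool.Agent.SDG.all_Ba1 Pool.Agent.SDG.all_Kn
  Pool.Agent.SDG.all_Sm Pool.Agent.SDG.all_Nm1
theorem all_T1 : St_T1 := thm_T1 all_Oc all_Pn all_Rs all_Rg all_Wr all_N7 all_Xt Pool.Agent.SDG.all_Ba1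
theorem all_E5 : St_E5 := thm_E5 all_Oc all_Rs all_Rw all_Nf Pool.Agent.SSC.mdr_Sg Pool.Agent.SDG.all_Ba1
theorem all_E6 : St_E6 := thm_E6

/-- cap 2 in noncyclic groups with two generators, few members -/
theorem all_A1P (G : Type) [AddCommGroup G] [Finite G] (a b : G) (hab : AddSubgroup.closure {a, b} = ⊤)
    (hPA : Pool.Agent.SNG.PAG G) (hcyc : ¬ IsAddCyclic G) : Pool.Agent.SNG.A1P G :=
  thm_A1P all_T1 all_Rs all_Nf all_NI all_NII all_E5 all_NB all_Pn all_E6 all_N4 G a b hab hPA hcyc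

end Pool.Agent.SNT
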