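import Pool.Agent.SNT.St
import Pool.Agent.SNG.M1a
import Pool.Agent.SNW.S
import Pool.Agent.SNW.Up1

/-!
# SNT, module A1 (helper64): assembly of `A1P` for groups with two generators
-/

set_option autoImplicit false

noncomputable section

open Finset Pool.Agent.Helper64.Rho Pool.Agent.SDG Pool.Agent.MDR Pool.Agent.SNW Pool.Agent.SNG
open scoped Classical Pointwise

namespace Pool.Agent.SNT

theorem A1_jh (t : ℕ) : jh 1 t = jj t := by
  unfold jh jj
  rfl

theorem A1_pq (t : ℕ) : pq t = pn t := rfl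

theorem A1_cf (t : ℕ) : cf 2 (t + 1) = cf 2 t + t / 2 + 1 := by
  have := thm_Nm1.1 2 t
  omega

theorem A1_mono (t : ℕ) (ht : 3 ≤ t) : pn (t - 2) + cf 2 (t - 1) ≤ pn (t - 1) + cf 2 (t - 2) := by
  rcases Nat.lt_or_ge t 9 with h | h
  · interval_cases t <;> decide
  · obtain ⟨u, rfl⟩ : ∃ u, t = u + 3 := ⟨t - 3, by omega⟩
    have e1 : u + 3 - 2 = u + 1 := by omega
    have e2 : u + 3 - 1 = u + 2 := by omega
    rw [e1, e2]
    have p1 : pn (u + 1) = 2 * cf 2 u := by
      unfold pn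
      rw [if_neg (by omega), if_neg (by omega)]
      rfl
    have p2 : pn (u + 2) = 2 * cf 2 (u + 1) := by
      unfold pn
      rw [if_neg (by omega), if_neg (by omega)]
      rfl
    rw [p1, p2]
    have h1 : cf 2 (u + 1) = cf 2 u + u / 2 + 1 := A1_cf u
    have h2 : cf 2 (u + 2) = cf 2 (u + 1) + (u + 1) / 2 + 1 := A1_cf (u + 1)
    omega

theorem A1_jmono (t : ℕ) : jh 1 t * (jh 1 t - 1) ≤ jh 1 (t + 1) * (jh 1 (t + 1) - 1) := by
  rw [A1_jh, A1_jh]
  have h : jj t ≤ jj (t + 1) := by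
    unfold jj
    omega
  exact Nat.mul_le_mul h (Nat.sub_le_sub_right h 1)

theorem A1_l0_two (K : Type) [AddCommGroup K] [Finite K] (h : ¬ IsAddCyclic K) : 2 ≤ l0 K := by
  have h1 := l0_mul K
  by_contra hcon
  have h2 : l0 K = 0 ∨ l0 K = 1 := by omega
  rcases h2 with h2 | h2
  · rw [h2, zero_mul] at h1
    have : 0 < Nat.card K := Nat.card_pos
    omega
  · rw [h2, one_mul] at h1
    exact h (IsAddCyclic.of_exponent_eq_card h1)

theorem A1_l0_dvd (K : Type) [AddCommGroup K] [Finite K] (a b : K)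
    (h : AddSubgroup.closure {a, b} = ⊤) : l0 K ∣ AddMonoid.exponent K := by
  obtain ⟨x, y, -, hx, hxy, -⟩ := pair_basis K a b h
  have h1 := l0_mul K
  have h2 : addOrderOf y = l0 K := by
    rw [← h1, hx, mul_comm] at hxy
    exact Nat.eq_of_mul_eq_mul_right (exp_pos K) hxy
  rw [← h2]
  exact AddMonoid.addOrder_dvd_exponent y

/-- the common data -/
structure Cx {G ι : Type} [AddCommGroup G] [Finite G] (s : Finset ι) (f : ι → G) (j : ℕ) : Prop where
  h0 : ∀ i ∈ s, f i ≠ 0
  hcap : Cap 2 s f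
  hA : Aper (FS s f)
  hg : gen s f = ⊤
  hge : ∀ i ∈ s, gen (s.erase i) f = ⊤
  hcyc : ¬ IsAddCyclic G
  h3 : 3 ≤ s.card
  hj : j + pq (s.card - 1) = (FS s f).card
  hlam : ∀ i ∈ s, lam (FS s f) (f i) ≤ j
  hX1 : (FS s f).card + 1 ≤ pq s.card
  hX2 : (FS s f).card + 2 ≤ cf 2 s.card + l0 G
  hl : pq (s.card - 1) + 2 ≤ cf 2 (s.card - 1) + l0 G
  hnf : (FS s f).card + jj s.card * (jj s.card - 1) + 1 ≤ Nat.card G

/-- candidates with cyclic quotient -/
theorem A1_I (hT1 : St_T1) (hRs : St_Rs) (hNf : St_Nf) (hNI : St_NI) (hNII : St_NII) (hE5 : St_E5)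
    {G ι : Type} [AddCommGroup G] [Finite G] {s : Finset ι} {f : ι → G} {j : ℕ} (hPA : PA G)
    (hx : Cx s f j) {R : AddSubgroup G} (hC : Cd s f R) (hR : IsAddCyclic (G ⧸ R)) : False := by
  obtain ⟨h0, hcap, hA, hg, hge, hcyc, h3, hj, hlam, hX1, hX2, hl, hnf⟩ := hx
  have hbot : R ≠ ⊥ := by
    rintro rfl
    apply hcyc
    obtain ⟨x, hx⟩ := hR.exists_zsmul_surjective
    obtain ⟨x, rfl⟩ := QuotientAddGroup.mk_surjective x
    refine ⟨x, fun y => ?_⟩
    obtain ⟨n, hn⟩ := hx (QuotientAddGroup.mk y)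
    refine ⟨n, ?_⟩
    simp only at hn
    rw [← QuotientAddGroup.mk_zsmul, QuotientAddGroup.eq, AddSubgroup.mem_bot] at hn
    simp only
    rw [← sub_eq_zero, ← neg_eq_zero]
    rw [← hn]
    abel
  have hs' : Function.Surjective (QuotientAddGroup.mk' R) := QuotientAddGroup.mk'_surjective R
  have hk' : ∀ x, QuotientAddGroup.mk' R x = 0 ↔ x ∈ R := fun x => QuotientAddGroup.eq_zero_iff x
  obtain ⟨d1, d2, d3, d4, d5⟩ := Cd_data hs' hk' hC h0 hA j hlam
  obtain ⟨d6, d7⟩ := d5 hbot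
  have hu := two_le_card hC.1 hge hg
  have huv : (s.filter fun i => f i ∈ R).card + (s.filter fun i => f i ∉ R).card = s.card :=
    Finset.card_filter_add_card_filter_not (s := s) (fun i => f i ∈ R)
  have hsubR : (s.filter fun i => f i ∈ R) ⊆ s := filter_subset _ _
  have hAR : Aper (FS (s.filter fun i => f i ∈ R) f) := (all_Ba1 G ι f).2.1 _ _ hsubR hA
  have hYR : cf 2 (s.filter fun i => f i ∈ R).card ≤ (FS (s.filter fun i => f i ∈ R) f).card :=
    hPA ι (s.filter fun i => f i ∈ R) f (fun k hk => h0 k (hsubR hk))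
      (fun x => (card_le_card (filter_subset_filter _ hsubR)).trans (hcap x)) hAR
  have hqn := q_ne s f hk'
  have hSm := (all_Sm (G ⧸ R) ι (s.filter fun i => f i ∉ R) (fun i => QuotientAddGroup.mk' R (f i)) hqn d1).1
  have d1' : Aper (FS (outs s f R) (bar f R)) := P1_aper _ _ _ _ d1
  obtain ⟨N, hN⟩ : ∃ N, N = (FS (outs s f R) (bar f R)).card := ⟨_, rfl⟩
  have hqc := q_card s f hk'
  have hNc : ∀ (dd : DecidableEq (G ⧸ R)), (@FS ι (G ⧸ R) _ dd (s.filter fun i => f i ∉ R)
      (fun i => QuotientAddGroup.mk' R (f i))).card = N := by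
    intro dd
    rw [hN]
    exact P1_card _ _ _ _
  rw [hNc] at hSm hqc d2 d3
  have hlR : l0 G ≤ Nat.card R := by
    apply l0_le
    have h1 : Nat.card G = Nat.card R * Nat.card (G ⧸ R) := by
      rw [AddSubgroup.card_eq_card_quotient_mul_card_addSubgroup R, mul_comm]
    rw [h1]
    refine Nat.mul_le_mul_left _ ?_
    rw [← IsAddCyclic.exponent_eq_card (α := G ⧸ R)]
    exact Nat.le_of_dvd (exp_pos G) (AddMonoidHom.exponent_dvd hs')
  by_cases hL : gen (s.filter fun i => f i ∈ R) f = R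
  · -- `L = C`
    by_cases hfull : ∃ x, ∀ g ∈ R, x + g ∈ FS s f
    · obtain ⟨x, hx⟩ := hfull
      obtain ⟨i, hi⟩ : (s.filter fun i => f i ∉ R).Nonempty := by
        rw [← card_pos]
        omega
      obtain ⟨his, hiR⟩ := mem_filter.1 hi
      have hi2 : f i + f i ∉ R := by
        intro h
        have h1 := (all_Ba1 (G ⧸ R) ι (fun i => QuotientAddGroup.mk' R (f i))).2.2.2.2.1
          (s.filter fun i => f i ∉ R) i hi d1 (hqn i hi)
        apply h1
        rw [eq_neg_iff_add_eq_zero, ← map_add]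
        exact (hk' _).2 h
      obtain ⟨n1, n2⟩ := hNf G ι s f R i x his hiR hi2 hx
      have hN' : (qs (FS s f) R).card = N := by
        rw [hN, ← (hRs G ι s f R).2.2.2]
      rw [hN'] at n1 n2
      obtain ⟨h5, h6, h7, h8, h9⟩ := hNII s.card (l0 G) (s.filter fun i => f i ∈ R).card
        (s.filter fun i => f i ∉ R).card N
        (FS (s.filter fun i => f i ∈ R) f).card (Nat.card R) (FS s f).card h3 huv d6 hu hSm hYR d7 hlR
        n1 n2 hX1 hX2 hl
      have h10 := hE5 G ι s f R x h0 hcap hA h5 h7 h9 hL hR d1' hx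
      rw [h5, h6] at hX2
      have h11 : cf 2 5 = 10 := by decide
      omega
    · push Not at hfull
      have h1 := hT1 G ι s f R j hPA h0 hcap hA hL hR d1' hu ?_ hlam (by omega)
      · omega
      · intro c hc
        obtain ⟨x, hx, rfl⟩ := mem_image.1 hc
        obtain ⟨g, hg1, hg2⟩ := hfull x
        refine ⟨x + g, ?_, hg2⟩
        rw [QuotientAddGroup.eq]
        have : -(x + g) + x = -g := by abel
        rw [this]
        exact R.neg_mem hg1
  · -- `L ≠ C`
    have hLR : gen (s.filter fun i => f i ∈ R) f < R := lt_of_le_of_ne (P1_gen_le s f R) hL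
    have h2L : 2 * Nat.card (gen (s.filter fun i => f i ∈ R) f) ≤ Nat.card R := by
      obtain ⟨d, hd⟩ := AddSubgroup.card_dvd_of_le hLR.le
      have hpos : 0 < Nat.card (gen (s.filter fun i => f i ∈ R) f) := Nat.card_pos
      have hlt : Nat.card (gen (s.filter fun i => f i ∈ R) f) < Nat.card R :=
        Set.ncard_lt_ncard hLR (Set.toFinite _)
      have hd2 : 2 ≤ d := by
        by_contra hcon
        have : d = 0 ∨ d = 1 := by omega
        rcases this with rfl | rfl
        · have : 0 < Nat.card R := Nat.card_pos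
          omega
        · omega
      rw [hd]
      calc 2 * Nat.card (gen (s.filter fun i => f i ∈ R) f)
          = Nat.card (gen (s.filter fun i => f i ∈ R) f) * 2 := by ring
        _ ≤ _ := Nat.mul_le_mul_left _ hd2
    have hfil : (s.filter fun i => f i ∈ gen (s.filter fun i => f i ∈ R) f) =
        s.filter fun i => f i ∈ R := P1_filter s f R
    have hLgen : gen (s.filter fun i => f i ∈ gen (s.filter fun i => f i ∈ R) f) f =
        gen (s.filter fun i => f i ∈ R) f := by rw [hfil]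
    obtain ⟨hP1, hP2⟩ := all_Pc G ι s f (gen (s.filter fun i => f i ∈ R) f) j h0 hA hLgen
      (fun i hi _ => hlam i hi)
    rw [hfil, ← Cd_st hC, ← hqc] at hP1 hP2
    have hLbot : gen (s.filter fun i => f i ∈ R) f ≠ ⊥ := by
      intro h
      obtain ⟨i, hi⟩ : (s.filter fun i => f i ∈ R).Nonempty := by
        rw [← card_pos]
        omega
      have h1 : f i ∈ gen (s.filter fun i => f i ∈ R) f := P1_mem_gen hi
      rw [h, AddSubgroup.mem_bot] at h1
      exact h0 i (hsubR hi) h1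
    have hYL : (FS (s.filter fun i => f i ∈ R) f).card + 1 ≤
        Nat.card (gen (s.filter fun i => f i ∈ R) f) :=
      (all_Kn G).2.2.2 _ _ ⟨0, zero_mem_FS _ _⟩ hLbot
        (fun x hx => FS_subset_of_mem (fun i hi => P1_mem_gen hi) hx) hAR
    obtain ⟨Lc, hLc⟩ : ∃ Lc, Lc = Nat.card (gen (s.filter fun i => f i ∈ R) f) := ⟨_, rfl⟩
    obtain ⟨Y, hY⟩ : ∃ Y, Y = (FS (s.filter fun i => f i ∈ R) f).card := ⟨_, rfl⟩
    obtain ⟨r, hr⟩ : ∃ r, r = Nat.card R := ⟨_, rfl⟩
    obtain ⟨X, hX⟩ : ∃ X, X = (FS s f).card := ⟨_, rfl⟩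
    rw [← hLc, ← hY] at hYL hP1
    rw [← hLc, ← hY] at hP2
    rw [← hLc, ← hr] at h2L
    rw [← hr, ← hX] at hP1 hP2
    rw [← hr] at hlR
    rw [← hY] at hYR
    rw [← hX] at hj hX1 hX2
    refine hNI s.card (l0 G) _ _ j N Y r Lc X h3 huv d6 hu hSm hYR hYL h2L hlR ?_ ?_ hj hX1 hX2 hl
    · have hLpos : 0 < Lc := by omega
      refine Nat.le_of_mul_le_mul_left ?_ hLpos
      refine le_trans ?_ hP2
      calc Lc * (2 * (N * Y)) = 2 * Lc * (N * Y) := by ring
        _ ≤ r * (N * Y) := Nat.mul_le_mul_right _ h2L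
        _ = r * N * Y := by ring
    · have h1 : j * (Lc - Y) + j * Y = j * Lc := by
        rw [← Nat.mul_add, Nat.sub_add_cancel (by omega)]
      omega

/-- `T + ⟨z⟩` is everything for every member `z` -/
theorem A1_bot (hNB : St_NB) (hPn : St_Pn) (hE6 : St_E6)
    {G ι : Type} [AddCommGroup G] [Finite G] {s : Finset ι} {f : ι → G} {j : ℕ} (hdvd : l0 G ∣ AddMonoid.exponent G)
    (hx : Cx s f j) (hR : ∀ i ∈ s, ∀ g : G, ∃ a ∈ FS s f, g - a ∈ AddSubgroup.zmultiples (f i)) : False := by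
  obtain ⟨h0, hcap, hA, hg, hge, hcyc, h3, hj, hlam, hX1, hX2, hl, hnf⟩ := hx
  -- the group generated by one member
  have key : ∀ i ∈ s, Nat.card G ≤ (FS s f).card +
      j * (addOrderOf (f i) - (FS (ins s f (AddSubgroup.zmultiples (f i))) f).card) := by
    intro i hi
    have hLg : gen (s.filter fun k => f k ∈ AddSubgroup.zmultiples (f i)) f =
        AddSubgroup.zmultiples (f i) := by
      refine le_antisymm (P1_gen_le _ _ _) ?_
      rw [AddSubgroup.zmultiples_le]
      exact P1_mem_gen (mem_filter.2 ⟨hi, AddSubgroup.mem_zmultiples _⟩)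
    obtain ⟨h1, -⟩ := all_Pc G ι s f (AddSubgroup.zmultiples (f i)) j h0 hA hLg
      (fun k hk _ => hlam k hk)
    have h4 : (st (FS s f) (AddSubgroup.zmultiples (f i))).card = Nat.card G := by
      have := Fintype.ofFinite G
      rw [Nat.card_eq_fintype_card, ← Finset.card_univ]
      congr 1
      rw [Finset.eq_univ_iff_forall]
      intro g
      exact P1_mem_st.2 (hR i hi g)
    rw [h4, Nat.card_zmultiples] at h1
    exact h1
  have hY : ∀ i ∈ s, (ins s f (AddSubgroup.zmultiples (f i))).card + 1 ≤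
      (FS (ins s f (AddSubgroup.zmultiples (f i))) f).card := by
    intro i hi
    exact (all_Sm G ι _ f (fun k hk => h0 k (filter_subset _ _ hk))
      ((all_Ba1 G ι f).2.1 s _ (filter_subset _ _) hA)).1
  have hins : ∀ i ∈ s, i ∈ ins s f (AddSubgroup.zmultiples (f i)) := fun i hi =>
    mem_filter.2 ⟨hi, AddSubgroup.mem_zmultiples _⟩
  obtain ⟨i, hi⟩ : s.Nonempty := by
    rw [← card_pos]
    omega
  have hexp : ∀ k : ι, addOrderOf (f k) ≤ AddMonoid.exponent G := fun k =>
    Nat.le_of_dvd (exp_pos G) (AddMonoid.addOrder_dvd_exponent _)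
  have hlm := l0_mul G
  have h1 : l0 G * AddMonoid.exponent G ≤ (FS s f).card + j * (AddMonoid.exponent G - 2) := by
    rw [hlm]
    refine (key i hi).trans (Nat.add_le_add_left (Nat.mul_le_mul_left _ ?_) _)
    have h2 := hY i hi
    have h4 : 1 ≤ (ins s f (AddSubgroup.zmultiples (f i))).card := card_pos.2 ⟨i, hins i hi⟩
    have h5 := hexp i
    omega
  rw [← hlm] at hnf
  obtain ⟨h5, h6, h7, h8, h9⟩ := hNB s.card (l0 G) (AddMonoid.exponent G) j (FS s f).card h3
    (A1_l0_two G hcyc) hdvd (exp_pos G) h1 hnf hj hX1 hX2 hl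
  rw [h6, h7] at hlm
  -- every member has order five, and is alone
  have hord : ∀ k ∈ s, addOrderOf (f k) = 5 := by
    intro k hk
    have h10 : addOrderOf (f k) ∣ 5 := by
      rw [← h7]
      exact AddMonoid.addOrder_dvd_exponent _
    rcases (Nat.dvd_prime Nat.prime_five).1 h10 with h11 | h11
    · rw [AddMonoid.addOrderOf_eq_one_iff] at h11
      exact absurd h11 (h0 k hk)
    · exact h11
  have halone : ∀ k ∈ s, (ins s f (AddSubgroup.zmultiples (f k))).card = 1 := by
    intro k hk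
    have h10 := key k hk
    have h11 := hY k hk
    have h12 : 1 ≤ (ins s f (AddSubgroup.zmultiples (f k))).card := card_pos.2 ⟨k, hins k hk⟩
    rw [hord k hk, h8, h9] at h10
    omega
  have h14 := hE6 G ι (FS s f) s f (by omega) hord ?_ ?_
  · omega
  · intro k hk m hm hkm hmem
    have h10 : ({k, m} : Finset ι) ⊆ ins s f (AddSubgroup.zmultiples (f k)) := by
      intro x hx
      rw [mem_insert, mem_singleton] at hx
      rcases hx with rfl | rfl
      · exact hins _ hk
      · exact mem_filter.2 ⟨hm, hmem⟩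
    have h11 := card_le_card h10
    rw [card_pair hkm, halone k hk] at h11
    omega
  · intro k hk
    by_contra hcon
    push Not at hcon
    obtain ⟨C, hC⟩ : ∃ C, C = AddSubgroup.zmultiples (f k) := ⟨_, rfl⟩
    have hLg : gen (ins s f C) f = C := by
      rw [hC]
      refine le_antisymm (P1_gen_le _ _ _) ?_
      rw [AddSubgroup.zmultiples_le]
      exact P1_mem_gen (hins k hk)
    have h10 := hPn G ι s f C j h0 hA hLg (fun m hm _ => hlam m hm)
    have h11 : (ins s f C).card = 1 := by rw [hC]; exact halone k hk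
    rw [h11, one_mul, one_mul, h9] at h10
    have h12 : ((qs (FS s f) C).filter fun c => Prt (FS s f) C c) = qs (FS s f) C := by
      rw [Finset.filter_eq_self]
      intro c hc
      obtain ⟨x, hx, rfl⟩ := mem_image.1 hc
      obtain ⟨g, hg1, hg2⟩ := hcon x
      rw [← hC] at hg1
      refine ⟨x + g, ?_, hg2⟩
      rw [QuotientAddGroup.eq]
      have : -(x + g) + x = -g := by abel
      rw [this]
      exact C.neg_mem hg1
    rw [h12] at h10
    have h13 : Nat.card (G ⧸ C) ≤ (qs (FS s f) C).card := by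
      have := Fintype.ofFinite (G ⧸ C)
      rw [Nat.card_eq_fintype_card, ← Finset.card_univ]
      apply card_le_card
      intro c _
      obtain ⟨g, rfl⟩ := QuotientAddGroup.mk_surjective c
      obtain ⟨a, ha, hga⟩ := hR k hk g
      rw [← hC] at hga
      refine mem_image.2 ⟨a, ha, ?_⟩
      rw [QuotientAddGroup.eq]
      have : -a + g = g - a := by abel
      rw [this]
      exact hga
    have h15 : Nat.card C = 5 := by
      rw [hC, Nat.card_zmultiples]
      exact hord k hk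
    have h16 := AddSubgroup.card_eq_card_quotient_mul_card_addSubgroup C
    rw [h15, ← hlm] at h16
    omega

/-- the noncyclic quotient of a maximal candidate -/
theorem A1_beta (hN4 : St_N4)
    {G ι : Type} [AddCommGroup G] [Finite G] {s : Finset ι} {f : ι → G} {j : ℕ} (hPA : PA G)
    (hx : Cx s f j) {R : AddSubgroup G} (hC : Cd s f R) (hbot : R ≠ ⊥)
    {H : Type} [AddCommGroup H] [Finite H] {π : G →+ H} (hπs : Function.Surjective π)
    (hπk : ∀ x, π x = 0 ↔ x ∈ R) (hπc : Nat.card G = Nat.card R * Nat.card H)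
    (hHc : ¬ IsAddCyclic H) (hdvd : l0 H ∣ AddMonoid.exponent H)
    (hR : ∀ i ∈ s, f i ∉ R → ∀ g : G,
      ∃ a ∈ FS s f, g - a ∈ gen (insert i (s.filter fun k => f k ∈ R)) f) : False := by
  obtain ⟨h0, hcap, hA, hg, hge, hcyc, h3, hj, hlam, hX1, hX2, hl, hnf⟩ := hx
  obtain ⟨d1, d2, d3, d4, d5⟩ := Cd_data hπs hπk hC h0 hA j hlam
  obtain ⟨d6, d7⟩ := d5 hbot
  have hu := two_le_card hC.1 hge hg
  obtain ⟨i, hi⟩ : (s.filter fun i => f i ∉ R).Nonempty := by
    rw [← card_pos]
    omega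
  obtain ⟨his, hiR⟩ := mem_filter.1 hi
  have hfull := hR i his hiR
  have huv : (s.filter fun i => f i ∈ R).card + (s.filter fun i => f i ∉ R).card = s.card :=
    Finset.card_filter_add_card_filter_not (s := s) (fun i => f i ∈ R)
  have hsubR : (s.filter fun i => f i ∈ R) ⊆ s := filter_subset _ _
  have hAR : Aper (FS (s.filter fun i => f i ∈ R) f) := (all_Ba1 G ι f).2.1 _ _ hsubR hA
  have hYR : cf 2 (s.filter fun i => f i ∈ R).card ≤ (FS (s.filter fun i => f i ∈ R) f).card :=
    hPA ι (s.filter fun i => f i ∈ R) f (fun k hk => h0 k (hsubR hk))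
      (fun x => (card_le_card (filter_subset_filter _ hsubR)).trans (hcap x)) hAR
  have hqg : gen (s.filter fun i => f i ∉ R) (fun i => π (f i)) = ⊤ := q_gen s f hπs hπk hg
  have hqn := q_ne s f hπk
  -- the names
  obtain ⟨u, hu'⟩ : ∃ u, u = (s.filter fun i => f i ∉ R).card := ⟨_, rfl⟩
  obtain ⟨v, hv'⟩ : ∃ v, v = (s.filter fun i => f i ∈ R).card := ⟨_, rfl⟩
  obtain ⟨Y, hY'⟩ : ∃ Y, Y = (FS (s.filter fun i => f i ∈ R) f).card := ⟨_, rfl⟩
  obtain ⟨Q, hQ'⟩ : ∃ Q, Q = (FS (s.filter fun i => f i ∉ R) (fun i => π (f i))).card :=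
    ⟨_, rfl⟩
  obtain ⟨r, hr'⟩ : ∃ r, r = Nat.card R := ⟨_, rfl⟩
  have hu3 : 3 ≤ u := by
    by_contra hcon
    apply hHc
    have h1 := q_gen (s.erase i) f hπs hπk (hge i his)
    refine one_member_cyc _ _ ?_ h1
    have h2 : ((s.erase i).filter fun k => f k ∉ R) = (s.filter fun k => f k ∉ R).erase i := by
      ext k
      simp only [mem_filter, mem_erase]
      tauto
    rw [h2, card_erase_of_mem hi]
    omega
  have hL2 := thm_Lin2 H ι (s.filter fun i => f i ∉ R) (fun i => π (f i)) hqn d1 hqg hHc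
  have hv1 : v = 1 → Y = 2 := by
    intro hv
    have h1 := card_FS_le (s.filter fun i => f i ∈ R) f
    rw [← hY', ← hv', hv] at h1
    rw [← hv', ← hY', hv] at d4
    omega
  rw [← hY', ← hQ', ← hr'] at d2
  rw [← hY', ← hQ'] at d3
  rw [← hv', ← hY'] at d4
  rw [← hv'] at d6
  rw [← hY', ← hr'] at d7
  rw [← hu'] at hu
  rw [← hu', ← hv'] at huv
  rw [← hv', ← hY'] at hYR
  rw [← hr'] at hπc
  rw [← hu', ← hQ'] at hL2
  -- the quotient
  have hYpos : 0 < Y := by omega
  have hlam' : ∀ k ∈ s.filter (fun i => f i ∉ R),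
      lam (FS (s.filter fun i => f i ∉ R) (fun i => π (f i))) (π (f k)) ≤ j / Y := by
    intro k hk
    rw [Nat.le_div_iff_mul_le hYpos, hY']
    exact (q_lam s f hπk (f k)).trans (hlam k (mem_filter.1 hk).1)
  have hL'g : gen ((s.filter fun i => f i ∉ R).filter fun k =>
      π (f k) ∈ AddSubgroup.zmultiples (π (f i))) (fun i => π (f i)) =
      AddSubgroup.zmultiples (π (f i)) := by
    refine le_antisymm (P1_gen_le _ _ _) ?_
    rw [AddSubgroup.zmultiples_le]
    exact P1_mem_gen (f := fun i => π (f i))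
      (mem_filter.2 ⟨hi, AddSubgroup.mem_zmultiples _⟩)
  obtain ⟨hp1, -⟩ := all_Pc H ι (s.filter fun i => f i ∉ R) (fun i => π (f i))
    (AddSubgroup.zmultiples (π (f i))) (j / Y) hqn d1 hL'g
    (fun k hk _ => hlam' k hk)
  have hst : (st (FS (s.filter fun i => f i ∉ R) (fun i => π (f i)))
      (AddSubgroup.zmultiples (π (f i)))).card = Nat.card H := by
    have := Fintype.ofFinite H
    rw [Nat.card_eq_fintype_card, ← Finset.card_univ]
    congr 1
    rw [Finset.eq_univ_iff_forall]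
    intro y
    obtain ⟨g, rfl⟩ := hπs y
    obtain ⟨b, hb, hgb⟩ := hfull g
    refine P1_mem_st.2 ⟨π b, ?_, ?_⟩
    · rw [q_image s f hπk]
      exact mem_image_of_mem π hb
    · rw [← map_sub]
      have h1 : gen (insert i (s.filter fun k => f k ∈ R)) f ≤
          (AddSubgroup.zmultiples (π (f i))).comap π := by
        unfold gen
        rw [AddSubgroup.closure_le]
        rintro _ ⟨k, hk, rfl⟩
        rw [mem_coe, mem_insert, mem_filter] at hk
        rw [SetLike.mem_coe, AddSubgroup.mem_comap]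
        rcases hk with rfl | ⟨-, hk⟩
        · exact AddSubgroup.mem_zmultiples _
        · rw [(hπk _).2 hk]
          exact AddSubgroup.zero_mem _
      exact h1 hgb
  rw [hst, ← hQ'] at hp1
  -- `lam ≥ 1`
  have hsub' : ((s.filter fun i => f i ∉ R).filter fun k =>
      π (f k) ∈ AddSubgroup.zmultiples (π (f i))) ⊆ s.filter fun i => f i ∉ R :=
    filter_subset _ _
  have hA' := (all_Ba1 H ι (fun i => π (f i))).2.1 _ _ hsub' d1
  obtain ⟨Y', hY''⟩ : ∃ Y', Y' = (FS ((s.filter fun i => f i ∉ R).filter fun k =>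
      π (f k) ∈ AddSubgroup.zmultiples (π (f i))) (fun i => π (f i))).card := ⟨_, rfl⟩
  have hY2 : 2 ≤ Y' := by
    have h7 := (all_Sm H ι _ (fun i => π (f i)) (fun k hk => hqn k (hsub' hk)) hA').1
    have h8 : 1 ≤ ((s.filter fun i => f i ∉ R).filter fun k =>
      π (f k) ∈ AddSubgroup.zmultiples (π (f i))).card :=
      card_pos.2 ⟨i, mem_filter.2 ⟨hi, AddSubgroup.mem_zmultiples _⟩⟩
    rw [hY'']
    omega
  rw [← hY''] at hp1
  have hYj : Y ≤ j := by
    by_contra hcon
    have h1 : j / Y = 0 := Nat.div_eq_of_lt (by omega)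
    have h2 := hlam' i hi
    rw [h1] at h2
    apply hqn i hi
    apply d1
    intro x hx
    by_contra hx2
    have h4 : 0 < lam (FS (s.filter fun i => f i ∉ R) (fun i => π (f i))) (π (f i)) := by
      unfold lam
      exact card_pos.2 ⟨x, mem_filter.2 ⟨hx, hx2⟩⟩
    omega
  have hμb : Nat.card (AddSubgroup.zmultiples (π (f i))) ≤ AddMonoid.exponent H := by
    rw [Nat.card_zmultiples]
    exact Nat.le_of_dvd (exp_pos H) (AddMonoid.addOrder_dvd_exponent _)
  have hHm := l0_mul H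
  have hlb : l0 H ≤ AddMonoid.exponent H := Nat.le_of_dvd (exp_pos H) hdvd
  have hf : j / Y < l0 H → l0 H * (l0 H - j / Y) + 2 * (j / Y) ≤ Q := by
    intro hlt
    obtain ⟨b, hb⟩ : ∃ b, b = AddMonoid.exponent H := ⟨_, rfl⟩
    obtain ⟨l, hl'⟩ : ∃ l, l = l0 H := ⟨_, rfl⟩
    obtain ⟨q, hq⟩ : ∃ q, q = j / Y := ⟨_, rfl⟩
    rw [← hb, ← hl'] at hHm hlb
    rw [← hb] at hμb
    rw [← hl', ← hq] at hlt ⊢
    rw [← hq, ← hHm] at hp1
    have h1 : l * b ≤ Q + q * (b - 2) :=
      hp1.trans (Nat.add_le_add_left (Nat.mul_le_mul_left _ (by omega)) _)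
    obtain ⟨w, rfl⟩ : ∃ w, l = q + w := ⟨l - q, by omega⟩
    obtain ⟨c, rfl⟩ : ∃ c, b = c + 2 := ⟨b - 2, by
      have := A1_l0_two H hHc
      omega⟩
    rw [Nat.add_sub_cancel_left]
    rw [Nat.add_sub_cancel] at h1
    have h2 : (q + w) * w ≤ (c + 2) * w := Nat.mul_le_mul_right _ hlb
    have h3 : (q + w) * (c + 2) = q * c + (2 * q + (c + 2) * w) := by ring
    rw [h3] at h1
    omega
  have hll : l0 G ≤ r * l0 H := by
    apply l0_le
    rw [hπc, ← hHm, ← mul_assoc]
    exact Nat.mul_le_mul_left _ (Nat.le_of_dvd (exp_pos G) (AddMonoidHom.exponent_dvd hπs))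
  refine hN4 s.card (l0 G) v u j Y (l0 H) Q r (FS s f).card h3 huv d6 hu3 hYj hYR hv1
    (A1_l0_two H hHc) hL2 hf d7 ?_ d3 hll hj hX1 hX2 hl
  have h1 : j * (r - Y) + j * Y = j * r := by
    rw [← Nat.mul_add, Nat.sub_add_cancel (by omega)]
  omega

/-- two generators of a quotient -/
theorem A1_quot {G H : Type} [AddCommGroup G] [AddCommGroup H] (π : G →+ H) (hs : Function.Surjective π)
    (a b : G) (h : AddSubgroup.closure {a, b} = ⊤) : AddSubgroup.closure {π a, π b} = ⊤ := by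
  have h1 : (AddSubgroup.closure {a, b}).map π = ⊤ := by
    rw [h, ← AddMonoidHom.range_eq_map, AddMonoidHom.range_eq_top]
    exact hs
  rw [AddMonoidHom.map_closure, Set.image_insert_eq, Set.image_singleton] at h1
  exact h1

/-- **A1P** for two generators, from the modules -/
theorem A1_main (hT1 : St_T1) (hRs : St_Rs) (hNf : St_Nf) (hNI : St_NI) (hNII : St_NII)
    (hE5 : St_E5) (hNB : St_NB) (hPn : St_Pn) (hE6 : St_E6) (hN4 : St_N4)
    (G : Type) [AddCommGroup G] [Finite G] (a b : G) (hab : AddSubgroup.closure {a, b} = ⊤)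
    (hPA : PAG G) (hcyc : ¬ IsAddCyclic G) (t : ℕ) : ∀ (ι : Type) (s : Finset ι) (f : ι → G),
    s.card = t → (∀ i ∈ s, f i ≠ 0) → Cap 2 s f → Aper (FS s f) →
    gen s f = ⊤ → pn (t - 1) + 2 ≤ cf 2 (t - 1) + l0 G →
      pn t ≤ (FS s f).card ∨ cf 2 t + l0 G ≤ (FS s f).card + 1 ∨
        Nat.card G ≤ (FS s f).card + jh 1 t * (jh 1 t - 1) := by
  induction t with
  | zero =>
    intro ι s f hs h0 hcap hA hg
    exact absurd (one_member_cyc s f (by omega) hg) hcyc
  | succ t ih =>
  intro ι s f hs h0 hcap hA hg hl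
  rw [Nat.add_sub_cancel] at hl
  by_contra hcon
  push Not at hcon
  obtain ⟨hc1, hc2, hc3⟩ := hcon
  have hbt : (⊥ : AddSubgroup G) ≠ ⊤ := by
    intro hbt
    apply hcyc
    apply cyc_of_le (0 : G)
    rw [← hbt]
    exact bot_le
  have hcard : ∀ i ∈ s, (s.erase i).card = t := by
    intro i hi
    rw [card_erase_of_mem hi, hs, Nat.add_sub_cancel]
  have hAe : ∀ i, Aper (FS (s.erase i) f) := fun i =>
    (all_Ba1 G ι f).2.1 s (s.erase i) (erase_subset _ _) hA
  have h0e : ∀ i, ∀ k ∈ s.erase i, f k ≠ 0 := fun i k hk => h0 k (erase_subset _ _ hk)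
  have hce : ∀ i, Cap 2 (s.erase i) f := fun i x =>
    (card_le_card (filter_subset_filter _ (erase_subset _ _))).trans (hcap x)
  have hge : ∀ i ∈ s, gen (s.erase i) f = ⊤ := by
    intro i hi
    rw [← hg]
    apply (all_Ba1 G ι f).2.2.2.2.2.1 s i hi
    by_contra hne
    have h3 := (all_Ba1 G ι f).2.2.2.1 s i hi hne
    have h4 := hPA ι (s.erase i) f (h0e i) (hce i) (hAe i)
    rw [hcard i hi] at h4
    have h5 := M1_pn (t + 1)
    rw [Nat.add_sub_cancel] at h5
    omega
  have h2 := two_le_card hbt hge hg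
  have h2' : 2 ≤ s.card := h2.trans (card_le_card (filter_subset _ _))
  have h3 : 3 ≤ s.card := by
    by_contra hcon
    obtain ⟨i, hi⟩ : s.Nonempty := by
      rw [← card_pos]
      omega
    exact hcyc (one_member_cyc (s.erase i) f (by rw [hcard i hi]; omega) (hge i hi))
  have hmono : ∀ i, (FS (s.erase i) f).card ≤ (FS s f).card := fun i =>
    card_le_card (FS_mono (erase_subset _ _) f)
  have hl' : pn (t - 1) + 2 ≤ cf 2 (t - 1) + l0 G := by
    have h4 := A1_mono (t + 1) (by omega)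
    rw [Nat.add_sub_cancel] at h4
    have e : t + 1 - 2 = t - 1 := by omega
    rw [e] at h4
    omega
  have hlow : ∀ i ∈ s, pn t ≤ (FS (s.erase i) f).card := by
    intro i hi
    rcases ih ι (s.erase i) f (hcard i hi) (h0e i) (hce i) (hAe i) (hge i hi) hl' with h5 | h5 | h5
    · exact h5
    · omega
    · exfalso
      have h6 := hmono i
      have h7 := A1_jmono t
      omega
  obtain ⟨j, hj⟩ : ∃ j, j + pn t = (FS s f).card := by
    obtain ⟨i, hi⟩ : s.Nonempty := by
      rw [← card_pos]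
      omega
    have h5 := hlow i hi
    have h6 := hmono i
    exact ⟨(FS s f).card - pn t, by omega⟩
  have hlam : ∀ i ∈ s, lam (FS s f) (f i) ≤ j := by
    intro i hi
    have h5 := (all_Ba1 G ι f).2.2.1 s i hi
    have h6 := hlow i hi
    omega
  have hx : Cx s f j := by
    refine ⟨h0, hcap, hA, hg, hge, hcyc, h3, ?_, hlam, ?_, ?_, ?_, ?_⟩
    · rw [hs, Nat.add_sub_cancel, A1_pq]
      exact hj
    · rw [hs, A1_pq]
      omega
    · rw [hs]
      omega
    · rw [hs, Nat.add_sub_cancel, A1_pq]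
      exact hl
    · rw [hs, ← A1_jh]
      omega
  obtain ⟨R, hC, hR⟩ := max_cand h0 hA hbt
  by_cases hRc : IsAddCyclic (G ⧸ R)
  · exact A1_I hT1 hRs hNf hNI hNII hE5 hPA hx hC hRc
  have hπs : Function.Surjective (QuotientAddGroup.mk' R) := QuotientAddGroup.mk'_surjective R
  by_cases hbot : R = ⊥
  · refine A1_bot hNB hPn hE6 (A1_l0_dvd G a b hab) hx ?_
    intro i hi g
    have hiR : f i ∉ R := by
      rw [hbot, AddSubgroup.mem_bot]
      exact h0 i hi
    obtain ⟨x, hx1, hx2⟩ := hR i hi hiR g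
    refine ⟨x, hx1, ?_⟩
    have h4 : (s.filter fun k => f k ∈ R) = ∅ := by
      rw [Finset.filter_eq_empty_iff]
      intro k hk h
      rw [hbot, AddSubgroup.mem_bot] at h
      exact h0 k hk h
    rw [h4] at hx2
    have h6 : gen (insert i ∅) f ≤ AddSubgroup.zmultiples (f i) := by
      unfold gen
      rw [AddSubgroup.closure_le]
      rintro _ ⟨k, hk, rfl⟩
      rw [mem_coe, mem_insert] at hk
      rcases hk with rfl | hk
      · exact AddSubgroup.mem_zmultiples _
      · exact absurd hk (notMem_empty _)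
    exact h6 hx2
  · refine A1_beta hN4 hPA hx hC hbot (H := G ⧸ R) (π := QuotientAddGroup.mk' R) hπs
      (fun x => QuotientAddGroup.eq_zero_iff x) ?_ hRc
      (A1_l0_dvd (G ⧸ R) _ _ (A1_quot (QuotientAddGroup.mk' R) hπs a b hab)) hR
    rw [AddSubgroup.card_eq_card_quotient_mul_card_addSubgroup R, mul_comm]

theorem thm_A1P (hT1 : St_T1) (hRs : St_Rs) (hNf : St_Nf) (hNI : St_NI) (hNII : St_NII)
    (hE5 : St_E5) (hNB : St_NB) (hPn : St_Pn) (hE6 : St_E6) (hN4 : St_N4)
    (G : Type) [AddCommGroup G] [Finite G] (a b : G) (hab : AddSubgroup.closure {a, b} = ⊤)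
    (hPA : PAG G) (hcyc : ¬ IsAddCyclic G) : A1P G := by
  intro ι s f h0 hcap hA hg hl
  exact A1_main hT1 hRs hNf hNI hNII hE5 hNB hPn hE6 hN4 G a b hab hPA hcyc s.card ι s f rfl
    h0 hcap hA hg hl

end Pool.Agent.SNT
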