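import Pool.Agent.SNT.St

/-!
# SNT, module E6: four lines in different directions
-/

set_option autoImplicit false

open Finset

namespace Pool.Agent.SNT

theorem E6_mem {G : Type} [AddCommGroup G] {a b w : G} (hb : addOrderOf b = 5) (hw : w ≠ 0)
    (h1 : w ∈ AddSubgroup.zmultiples a) (h2 : w ∈ AddSubgroup.zmultiples b) :
    b ∈ AddSubgroup.zmultiples a := by
  obtain ⟨n, hn⟩ := AddSubgroup.mem_zmultiples_iff.1 h2
  have h5 : (5 : ℤ) • b = 0 := by
    have := addOrderOf_nsmul_eq_zero b
    rw [hb] at this
    exact_mod_cast this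
  have hnd : ¬ (5 : ℤ) ∣ n := by
    rintro ⟨m, rfl⟩
    apply hw
    rw [← hn, mul_comm, mul_smul, h5, smul_zero]
  have hp : Prime (5 : ℤ) := Nat.prime_iff_prime_int.1 (by norm_num)
  obtain ⟨u, v, huv⟩ := (hp.coprime_iff_not_dvd.2 hnd)
  have e : b = v • w := by
    calc b = (1 : ℤ) • b := (one_smul ℤ b).symm
      _ = (u * 5 + v * n) • b := by rw [huv]
      _ = u • ((5 : ℤ) • b) + v • (n • b) := by rw [add_smul, mul_smul, mul_smul]
      _ = v • w := by rw [h5, hn, smul_zero, zero_add]
  rw [e]
  exact AddSubgroup.zsmul_mem _ h1 v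

theorem thm_E6 : St_E6 := by
  classical
  intro G ι _ T s f hs hord hne hT
  choose! x hx using hT
  obtain ⟨L, hL⟩ : ∃ L : ι → Finset G,
      L = fun i => (Finset.range 5).image fun n : ℕ => x i + n • f i := ⟨_, rfl⟩
  have hmem : ∀ i u, u ∈ L i → u - x i ∈ AddSubgroup.zmultiples (f i) := by
    intro i u hu
    rw [hL] at hu
    obtain ⟨n, _, rfl⟩ := Finset.mem_image.1 hu
    rw [add_sub_cancel_left]
    exact AddSubgroup.nsmul_mem _ (AddSubgroup.mem_zmultiples (f i)) n
  have hLc : ∀ i ∈ s, (L i).card = 5 := by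
    intro i hi
    rw [hL]
    show ((Finset.range 5).image fun n : ℕ => x i + n • f i).card = 5
    rw [Finset.card_image_of_injOn, Finset.card_range]
    intro a ha b hb hab
    have h1 : a • f i = b • f i := add_left_cancel hab
    have ha' : a < addOrderOf (f i) := by
      rw [hord i hi]
      exact Finset.mem_range.1 ha
    have hb' : b < addOrderOf (f i) := by
      rw [hord i hi]
      exact Finset.mem_range.1 hb
    exact nsmul_injOn_Iio_addOrderOf ha' hb' h1
  have hLT : ∀ i ∈ s, L i ⊆ T := by
    intro i hi u hu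
    have h1 := hx i hi (u - x i) (hmem i u hu)
    rwa [add_sub_cancel] at h1
  have hLL : ∀ i ∈ s, ∀ k ∈ s, i ≠ k → (L i ∩ L k).card ≤ 1 := by
    intro i hi k hk hik
    rw [Finset.card_le_one]
    intro u hu v hv
    by_contra huv
    rw [Finset.mem_inter] at hu hv
    have h1 : u - v ∈ AddSubgroup.zmultiples (f i) := by
      have := AddSubgroup.sub_mem _ (hmem i u hu.1) (hmem i v hv.1)
      rwa [sub_sub_sub_cancel_right] at this
    have h2 : u - v ∈ AddSubgroup.zmultiples (f k) := by
      have := AddSubgroup.sub_mem _ (hmem k u hu.2) (hmem k v hv.2)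
      rwa [sub_sub_sub_cancel_right] at this
    exact hne i hi k hk hik (E6_mem (hord k hk) (sub_ne_zero.2 huv) h1 h2)
  have key : ∀ O : Finset ι, O ⊆ s → 5 * O.card ≤ (O.biUnion L).card + O.card.choose 2 := by
    intro O
    induction O using Finset.induction_on with
    | empty =>
      intro _
      simp
    | insert i O hiO ih =>
      intro hO
      have hi : i ∈ s := hO (Finset.mem_insert_self _ _)
      have hO' : O ⊆ s := fun k hk => hO (Finset.mem_insert_of_mem hk)
      have h1 := ih hO'
      have h2 : (L i ∩ O.biUnion L).card ≤ O.card := by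
        rw [Finset.inter_biUnion]
        refine Finset.card_biUnion_le.trans ?_
        refine (Finset.sum_le_card_nsmul O _ 1 fun k hk => ?_).trans (by simp)
        refine hLL i hi k (hO' hk) ?_
        rintro rfl
        exact hiO hk
      have h3 := Finset.card_union_add_card_inter (L i) (O.biUnion L)
      rw [Finset.biUnion_insert, Finset.card_insert_of_notMem hiO]
      have h4 := hLc i hi
      have h5 : (O.card + 1).choose 2 = O.card + O.card.choose 2 := by
        rw [Nat.choose_succ_succ, Nat.choose_one_right]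
      omega
  obtain ⟨O, hO, hO4⟩ := Finset.exists_subset_card_eq hs
  have h1 := key O hO
  have h2 : (O.biUnion L).card ≤ T.card :=
    Finset.card_le_card (Finset.biUnion_subset.2 fun i hi => hLT i (hO hi))
  have h3 : Nat.choose 4 2 = 6 := rfl
  rw [hO4, h3] at h1
  omega

end Pool.Agent.SNT
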