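import Pool.Agent.SSF.St

/-!
# SNT, module R2 (helper64): a group with two generators has rank at most two
-/

set_option autoImplicit false

noncomputable section

open Finset
open scoped Classical

namespace Pool.Agent.SNT

theorem R2_of_two (G : Type) [AddCommGroup G] [Finite G] (a b : G)
    (hab : AddSubgroup.closure {a, b} = ⊤) : Pool.Agent.SSF.R2 G := by
  intro p hp
  have hpos : 0 < p := hp.pos
  let φ : G →+ G := nsmulAddMonoidHom p
  have hker : Nat.card {x : G // p • x = 0} = Nat.card φ.ker := by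
    apply Nat.card_congr
    exact Equiv.subtypeEquivRight fun x => by
      rw [AddMonoidHom.mem_ker]
      rfl
  have h1 : Nat.card G = Nat.card φ.range * Nat.card φ.ker := by
    rw [AddSubgroup.card_eq_card_quotient_mul_card_addSubgroup φ.ker]
    rw [Nat.card_congr (QuotientAddGroup.quotientKerEquivRange φ).toEquiv]
  have h2 : Nat.card G = Nat.card (G ⧸ φ.range) * Nat.card φ.range :=
    AddSubgroup.card_eq_card_quotient_mul_card_addSubgroup φ.range
  have hr : 0 < Nat.card φ.range := Nat.card_pos
  have h3 : Nat.card φ.ker = Nat.card (G ⧸ φ.range) := by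
    apply Nat.eq_of_mul_eq_mul_left hr
    rw [← h1, h2, mul_comm]
  rw [hker, h3]
  have hsurj : Function.Surjective (fun ij : Fin p × Fin p =>
      (QuotientAddGroup.mk (ij.1.1 • a + ij.2.1 • b) : G ⧸ φ.range)) := by
    intro c
    obtain ⟨x, rfl⟩ := QuotientAddGroup.mk_surjective c
    have hx : x ∈ AddSubgroup.closure {a, b} := by rw [hab]; exact AddSubgroup.mem_top x
    obtain ⟨m, n, rfl⟩ := AddSubgroup.mem_closure_pair.1 hx
    have hp0 : (p : ℤ) ≠ 0 := by exact_mod_cast hpos.ne'
    have hm1 := Int.emod_nonneg m hp0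
    have hm2 := Int.emod_lt_of_pos m (by exact_mod_cast hpos : (0 : ℤ) < p)
    have hn1 := Int.emod_nonneg n hp0
    have hn2 := Int.emod_lt_of_pos n (by exact_mod_cast hpos : (0 : ℤ) < p)
    refine ⟨(⟨(m % p).toNat, by omega⟩, ⟨(n % p).toNat, by omega⟩), ?_⟩
    simp only
    rw [QuotientAddGroup.eq, AddMonoidHom.mem_range]
    refine ⟨(m / p) • a + (n / p) • b, ?_⟩
    show p • ((m / p) • a + (n / p) • b) = _
    rw [← natCast_zsmul a, ← natCast_zsmul b, Int.toNat_of_nonneg hm1, Int.toNat_of_nonneg hn1,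
      ← natCast_zsmul, smul_add, smul_smul, smul_smul]
    have e1 : m = (p : ℤ) * (m / p) + m % p := (Int.mul_ediv_add_emod m p).symm
    have e2 : n = (p : ℤ) * (n / p) + n % p := (Int.mul_ediv_add_emod n p).symm
    have e3 : m • a = ((p : ℤ) * (m / p)) • a + (m % p) • a := by
      rw [← add_smul, ← e1]
    have e4 : n • b = ((p : ℤ) * (n / p)) • b + (n % p) • b := by
      rw [← add_smul, ← e2]
    rw [e3, e4]
    abel
  refine (Nat.card_le_card_of_surjective _ hsurj).trans ?_
  rw [Nat.card_prod, Nat.card_fin, sq]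

end Pool.Agent.SNT
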