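import Pool.Agent.SNT.All
import Pool.Agent.SNT.R2
import Pool.Agent.SSF.Fin
import Pool.Agent.SNG.All

/-!
# SNT, module M1 (helper64): the gain for cap 2 in all noncyclic groups with two generators
-/

set_option autoImplicit false

noncomputable section

open Finset Pool.Agent.Helper64.Rho Pool.Agent.SDG Pool.Agent.MDR
open scoped Classical Pointwise

namespace Pool.Agent.SNT

/-- the sharp lower bound for cap 2 in all groups with two generators -/
theorem all_PAG2 (G : Type) [AddCommGroup G] [Finite G] (a b : G)
    (hab : AddSubgroup.closure {a, b} = ⊤) : Pool.Agent.SNG.PAG G :=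
  Pool.Agent.SSF.PAG_R2 G (R2_of_two G a b hab)

/-- the gain for cap 2 in noncyclic groups with two generators -/
theorem all_M1P2 (G : Type) [AddCommGroup G] [Finite G] (a b : G)
    (hab : AddSubgroup.closure {a, b} = ⊤) (hcyc : ¬ IsAddCyclic G) :
    Pool.Agent.SNW.M1P G (Pool.Agent.SNW.l0 G - 1) :=
  Pool.Agent.SNG.all_M1P G (all_PAG2 G a b hab) (all_A1P G a b hab (all_PAG2 G a b hab) hcyc) hcyc

end Pool.Agent.SNT
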